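import Pool.Agent.H90.DA.Defs
import Pool.Agent.H90.DC.PPf

/-!
# Project DA (MP_64e98b_an): class (A), static side; definitions (notes 1995, 1996)

Base `c` at `0`; `P = (0, 2π-l)` (`f ≥ 0`), `N = (-l, 0)` (`f ≤ 0`), `e = -l`; `y = ct x`.
Parts of `f` on `(0,π)`:
* `bF f x = max (f x) 0` (P, right of `c`), `bR f x = max (-f x) 0` (N, right of `c`, only `l > π`);
* `aL f x = max (f (-x)) 0` (P, left of `c`, only `l < π`), `bC f x = max (-f (-x)) 0` (N, left of `c`);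
* `bE f l x = max (-f (x - l)) 0` (N, right of `e`).
-/

set_option autoImplicit false
open Real Set MeasureTheory Filter Topology

namespace Pool.Agent.H53.DA
open Pool.Agent.H45.FL Pool.Agent.H51.DG Pool.Agent.H45.DY Pool.Agent.H90.DC Pool.Agent.H90.DA

/-- kernel of degree 2 -/
noncomputable def k2 (Y Z : ℝ) : ℝ :=
  Y * Z + Y ^ 2 * Real.log (1 - Z / Y) + Z ^ 2 * Real.log (1 - Y / Z)

/-- own kernel of the weight `(y - q)₊²` in the variable `v = y - q` -/
noncomputable def kQ (q Y Z : ℝ) : ℝ := k3 Y Z + 2 * q * k2 Y Z + (1 + q ^ 2) * l1k Y Z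

/-- relative effect `g(z) - g(0)` of a charge at `z` on the target `y` (weight with parameter `q`) -/
noncomputable def gg (q y z : ℝ) : ℝ :=
  (1 + y ^ 2) * (-Real.log (1 - z / y) - (y - q) * z / (y * (y - z)))

/-- universal part -/
noncomputable def hh (q y : ℝ) : ℝ := -((y - q) / y) + (1 + y ^ 2) * Real.log (1 + 1 / y ^ 2) / 2

noncomputable def vq (q x : ℝ) : ℝ := max (ct x - q) 0

/-- surplus of the degree 3 form -/
noncomputable def Su (b : ℝ → ℝ) : ℝ := ∫ τ in (1:ℝ)..2, DD (Am (3 / 2) b) τ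

/-- surplus of the degree 1 form -/
noncomputable def Su1 (b : ℝ → ℝ) : ℝ := ∫ τ in (1:ℝ)..2, DD (Am (1 / 2) b) τ

/-- mass on `(0,π)` -/
noncomputable def ms (b : ℝ → ℝ) : ℝ := ∫ x in (0:ℝ)..π, b x

/-- first moment on `(0,π)` -/
noncomputable def vs (b : ℝ → ℝ) : ℝ := ∫ x in (0:ℝ)..π, b x * ct x

/-- the point with `cot(x/2) = cot(θ/2) + q` -/
noncomputable def xq (q θ : ℝ) : ℝ := π - 2 * Real.arctan (ct θ + q)

/-- density in the variable `v = y - q` -/
noncomputable def hat (q : ℝ) (b : ℝ → ℝ) (θ : ℝ) : ℝ :=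
  if θ ≤ 0 then 0
  else b (xq q (min θ π)) * ((1 + ct (min θ π) ^ 2) / (1 + (ct (min θ π) + q) ^ 2))

/-- class (A) data, Lipschitz, vanishing near both zeros -/
structure VanA (f : ℝ → ℝ) (l : ℝ) : Prop extends TwoA f l where
  lip : ∃ K, Lip K f
  van0 : ∃ δ : ℝ, 0 < δ ∧ ∀ x, |x| ≤ δ → f x = 0
  vanl : ∃ δ : ℝ, 0 < δ ∧ ∀ x, |x + l| ≤ δ → f x = 0

noncomputable def aL (f : ℝ → ℝ) (x : ℝ) : ℝ := max (f (-x)) 0
noncomputable def bC (f : ℝ → ℝ) (x : ℝ) : ℝ := max (-f (-x)) 0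
noncomputable def bE (f : ℝ → ℝ) (l x : ℝ) : ℝ := max (-f (x - l)) 0

/-- derivative of `∫_0^p |W| Pq` (invariant under `W ↦ -W`) -/
noncomputable def Gq (q : ℝ) (W : ℝ → ℝ) (p : ℝ) : ℝ :=
  ∫ x in (0:ℝ)..p, W x * (2 * HT W x * Pq q x + UU W x * dPq q x)

/-- sources of the effect on the target with coordinate `y`, at the points with parameter `x'` -/
noncomputable def src (q : ℝ) (W : ℝ → ℝ) (y x' : ℝ) : ℝ :=
  bR W x' * gg q y (min (ct x') q) - bF W x' * gg q y (ct x') - W (-x') * gg q y (-ct x')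

/-- kernel form of `EA` -/
noncomputable def EAk (f : ℝ → ℝ) (l : ℝ) : ℝ :=
  1 / π * ∫ z in Ioo (0:ℝ) (2 * π - l) ×ˢ Ioo (2 * π - l) (2 * π),
    |f z.1| * |f z.2| * ct (z.1 - z.2) ^ 3

/-- cotangent of the half distance across `c`, positive part -/
noncomputable def chp (y z : ℝ) : ℝ := max ((y * z - 1) / (y + z)) 0

/-- part of the interaction of P and N in the budget (`l < π`) -/
noncomputable def FPt (f : ℝ → ℝ) (l : ℝ) : ℝ :=
  ∫ z in Sq1, bF f z.1 * bC f z.2 *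
    (ct l * max ((ct z.1 * ct l - 1) / (ct z.1 + ct l)) 0 ^ 2)

/-- coefficient of the motion of the weight, `l < π` -/
noncomputable def kap (k l : ℝ) : ℝ := k * Real.cos (l / 2) / Real.sin (l / 2) ^ 2

/-- mass of the flat part of N, weighted (`l > π`) -/
noncomputable def Qf (f : ℝ → ℝ) : ℝ := ∫ x in (0:ℝ)..π, bR f x * ct x ^ 2

/-- static inequality for data vanishing near the zeros, with the kernel form of the energy -/
def StatV : Prop :=
  ∃ k K C : ℝ, 0 ≤ k ∧ 0 ≤ K ∧ 0 ≤ C ∧ ∀ (f : ℝ → ℝ) (l : ℝ), VanA f l →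
    17 / 16 * EAk f l ≤ TA (qk k l) (dqk k l) f l + K * BNA f l +
      C * (∫ x in (0:ℝ)..(2 * π), f x) * Ma f

end Pool.Agent.H53.DA
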