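import Pool.Agent.H53.DA.Defs
import Pool.Agent.H44.DA.SuB

/-!
# DA static job S7 (Quad): the quadrant lemma for two measures, with surplus (note 1995, 3(d))

`r3k (e^{-r}) (e^{-s}) = e^{-3(r+s)/2} q3 (r-s)` (`r3k_exp`), `KerR (3/2) q3 q3d m3` (`kerR_q3`), so
`form p q r3k = ∫∫ m3(r-s) A(r) B(s)`, `A = Am (3/2) p`, `B = Am (3/2) q` (cross version of `PP_form`, `KerR.formula`).
`m3 = 54/c^5 - 4/c^3 - 1/c`, `c = 2cosh(τ/2)`; put `f0 = m3 + (15/64)/c`; then `∫ f0 = 0`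
(`∫ dτ/c = π, ∫ dτ/c^3 = π/8, ∫ dτ/c^5 = 3π/128`: `54·3/128 - 4/8 - 1 + 15/64 = 0`), and pointwise
`|f0| ≤ 2 Lpp - (23/100)/c` (`2 Lpp = c/(c²-4)`: one variable `c ≥ 2`).
`-2 ∫∫ m3 A B = -2 ∫∫ f0 A B + (15/32) ∫∫ A B/c ≥ -2 ∫∫ f0 A B = ∫∫ f0(r-s) (A(r)-A(s)) (B(r)-B(s))
 ≥ -(1/2) ∫∫ |f0| ((A(r)-A(s))² + (B(r)-B(s))²)` (`∫ f0 = 0`; A, B ≥ 0), and `N3 p = ∫_0^∞ 2 Lpp DD A` (definition), hence
`N3 p + N3 q - 2 form p q r3k ≥ ∫_0^∞ (23/100)/c (DD A + DD B) dτ ≥ δ (Su p + Su q)`, e.g. `δ = 1/20`.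
Models: `key_lemma` (H51/DG/NE.lean), `line_form_nonpos` (NG.lean), `form_r3`, `PP_even` (H90/DC/PPf.lean), `integral_Ioi_ps`.
-/

set_option autoImplicit false
open Real Set MeasureTheory Filter Topology

namespace Pool.Agent.H53.DA
open Pool.Agent.H45.FL Pool.Agent.H51.DG Pool.Agent.H45.DY Pool.Agent.H90.DC Pool.Agent.H90.DA

theorem quad_form : ∃ δ : ℝ, 0 < δ ∧ ∀ p q : ℝ → ℝ, Bd p → Bd q →
    FInt p q r3k ∧ 2 * form p q r3k + δ * (Su p + Su q) ≤ N3 p + N3 q := by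
  refine ⟨1 / 20, by norm_num, fun p q hp hq => ?_⟩
  exact Pool.Agent.H44.DA.quad_su hp hq

end Pool.Agent.H53.DA
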