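import Pool.Agent.H53.DA.PtB

/-!
# DA static job S12a (RegP): parameters of the regime `1/sin(l/2) ≥ 2`

`ℓ = ct l ≥ √3`, `q = qk k l = k(√(1+ℓ²) - 1)`, so `k ℓ/2 ≤ q ≤ k ℓ` (`√(1+ℓ²) ≥ 2`), `kap = ℓ(q+k) ≤ 2qℓ` (`q ≥ k`).
(a) `gg q y q ≥ q²/2`; `log(1+y'/ℓ) ≤ log(1+q/ℓ) + (y'-q)/(q+ℓ)`; `kap log(1+q/ℓ) ≤ 2qℓ log(1+k) ≤ (4q²/k) log(1+k) ≤ q²/2` as
`log(1+k)/k ≤ 1/8` for `k ≥ 32`; `kap/(q+ℓ) ≤ 2ℓ ≤ 4q/k`.
(b) `gg q y y' ≥ q y' - y'²/2` (`gg_mid`).  `h := q y' - y'²/2 - qℓ log(1+y'/ℓ)`.  `y' ≤ ℓ`: `ℓ log(1+y'/ℓ) ≤ y' - y'²/(6ℓ)`, so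
`h ≥ (q/(6ℓ) - 1/2) y'² ≥ (q/ℓ)(1/6 - 1/32) y'² ≥ (k/16) y'²` and `kℓ log(1+y'/ℓ) ≤ k y'`: `h - k y' ≥ -4k`.  `ℓ ≤ y' ≤ q`:
`h/y' = q (1 - log(1+t)/t) - y'/2`, `t = y'/ℓ ≥ 1`, `log(1+t)/t ≤ 0.7`; if `y' ≤ q/2`: `≥ q(0.3 - 0.25)`; if `y' > q/2`: `t ≥ k/4 ≥ 8`,
`log(1+t)/t ≤ 0.3`: `≥ 0.2 q`.  So `h ≥ q y'/20`, `h - k y' ≥ (q/20 - k) y' ≥ -20 k²` (if `q < 20k` then `y' ≤ 20k`).
(c) `17/2 chp³`, `chp ≤ y`: if `y ≤ 2/ℓ`: `≤ 68/ℓ³ ≤ 68`; if `y > 2/ℓ`: `p = (yℓ-1)/(y+ℓ) ≥ (yℓ/2)/(60q+ℓ) ≥ y/(2(60k+1))` and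
`17/2 y³ ≤ 510 q y² ≤ 510 k ℓ y²`.
(d) `z/ℓ - 1 = (1+ℓ²)/(ℓ(Z-ℓ))` with `Z = (1+zℓ)/(z-ℓ) > ℓ`, `≥ ℓ/Z`, `log ≥ -log(Z/ℓ) ≥ -Z/ℓ`.
-/

set_option autoImplicit false
open Real Set MeasureTheory Filter Topology

namespace Pool.Agent.H53.DA
open Pool.Agent.H45.FL Pool.Agent.H51.DG Pool.Agent.H45.DY Pool.Agent.H90.DC Pool.Agent.H90.DA

theorem RegP_rel {k l : ℝ} (hk : 32 ≤ k) (hl0 : 0 < l) (hl : l < π)
    (hs : 2 ≤ 1 / Real.sin (l / 2)) :
    1 ≤ ct l ∧ k * ct l / 2 ≤ qk k l ∧ k ≤ qk k l ∧ qk k l ≤ k * ct l ∧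
    kap k l ≤ 2 * qk k l * ct l ∧ kap k l = ct l * (qk k l + k) := by
  obtain ⟨hc0, hq, hkap, -, hq0, hqk, -, hsin⟩ := par_rel (k := k) (l := l) (by linarith) hl0 hl
  rw [hsin] at hs
  set s := √(1 + ct l ^ 2) with hsdef
  have hs2 : s ^ 2 = 1 + ct l ^ 2 := Real.sq_sqrt (by positivity)
  have h1 : 1 ≤ ct l := by nlinarith
  have hls : ct l ≤ s := by
    apply Real.le_sqrt_of_sq_le
    linarith
  have hkq : k ≤ qk k l := by rw [hq]; nlinarith
  refine ⟨h1, ?_, hkq, hqk, ?_, hkap⟩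
  · rw [hq]; nlinarith
  · rw [hkap]; nlinarith

theorem regI_rel {k l : ℝ} (hk : 32 ≤ k) (hl0 : 0 < l) (hl : l < π)
    (hs : 2 ≤ 1 / Real.sin (l / 2)) :
    1 ≤ ct l ∧ k * ct l / 2 ≤ qk k l ∧ k ≤ qk k l ∧ qk k l ≤ k * ct l ∧
    kap k l ≤ 2 * qk k l * ct l := by
  obtain ⟨h1, h2, h3, h4, h5, -⟩ := RegP_rel hk hl0 hl hs
  exact ⟨h1, h2, h3, h4, h5⟩

/-- tangent line of the logarithm at `c` -/
theorem RegP_log {c x : ℝ} (hc : 0 < c) (hx : 0 < x) : Real.log x ≤ x / c - 1 + Real.log c := by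
  have h := Real.log_le_sub_one_of_pos (div_pos hx hc)
  rw [Real.log_div hx.ne' hc.ne'] at h
  linarith

theorem RegP_log8 {k : ℝ} (hk : 32 ≤ k) : Real.log (1 + k) ≤ k / 8 := by
  have h := RegP_log (c := 64) (x := 1 + k) (by norm_num) (by linarith)
  have h64 : Real.log 64 = 6 * Real.log 2 := by
    rw [show (64 : ℝ) = 2 ^ 6 by norm_num, Real.log_pow]; norm_num
  have h2 := Real.log_two_lt_d9
  rw [h64] at h
  linarith

theorem RegP_log7 {t : ℝ} (ht : 1 ≤ t) : Real.log (1 + t) ≤ 7 / 10 * t := by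
  have h := RegP_log (c := 2) (x := 1 + t) (by norm_num) (by linarith)
  have h2 := Real.log_two_lt_d9
  linarith

theorem RegP_log3 {t : ℝ} (ht : 8 ≤ t) : Real.log (1 + t) ≤ 3 / 10 * t := by
  have h := RegP_log (c := 8) (x := 1 + t) (by norm_num) (by linarith)
  have h8 : Real.log 8 = 3 * Real.log 2 := by
    rw [show (8 : ℝ) = 2 ^ 3 by norm_num, Real.log_pow]; norm_num
  have h2 := Real.log_two_lt_d9
  rw [h8] at h
  linarith

theorem RegP_log6 {t : ℝ} (ht0 : 0 ≤ t) (ht : t ≤ 1) : Real.log (1 + t) ≤ t - t ^ 2 / 6 := by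
  have hu : 0 ≤ t - t ^ 2 / 6 := by nlinarith
  have h := Real.quadratic_le_exp_of_nonneg hu
  rw [Real.log_le_iff_le_exp (by linarith)]
  refine le_trans ?_ h
  have e : t - t ^ 2 / 6 = t * (1 - t / 6) := by ring
  have e2 : 1 / 3 ≤ (1 - t / 6) ^ 2 := by nlinarith
  have e3 : t ^ 2 * (1 / 3) ≤ (t - t ^ 2 / 6) ^ 2 := by
    rw [e, mul_pow]
    exact mul_le_mul_of_nonneg_left e2 (sq_nonneg t)
  linarith

theorem regI_h1 {k l y y' : ℝ} (hk : 32 ≤ k) (hl0 : 0 < l) (hl : l < π)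
    (hs : 2 ≤ 1 / Real.sin (l / 2)) (hy : qk k l < y) (hy' : qk k l < y') :
    -(4 * qk k l / k * (y' - qk k l)) ≤
      gg (qk k l) y (qk k l) - kap k l * Real.log (1 + y' / ct l) := by
  obtain ⟨h1, h2, h3, h4, h5, h6⟩ := RegP_rel hk hl0 hl hs
  set q := qk k l with hqdef
  set L := ct l with hLdef
  set K := kap k l with hKdef
  have hk0 : 0 < k := by linarith
  have hq0 : 0 < q := by linarith
  have hL0 : 0 < L := by linarith
  have hg := gg_same hq0.le hy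
  have hlog1 : Real.log (1 + y' / L) ≤ Real.log (1 + q / L) + (y' - q) / (q + L) := by
    have h := RegP_log (c := 1 + q / L) (x := 1 + y' / L) (by positivity)
      (by have : 0 < y' := by linarith
          positivity)
    have he : (1 + y' / L) / (1 + q / L) - 1 = (y' - q) / (q + L) := by
      field_simp
      ring
    linarith
  have hlog2 : Real.log (1 + q / L) ≤ Real.log (1 + k) := by
    apply Real.log_le_log (by positivity)
    have : q / L ≤ k := by rw [div_le_iff₀ hL0]; exact h4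
    linarith
  have hlog3 : Real.log (1 + q / L) ≤ k / 8 := hlog2.trans (RegP_log8 hk)
  have hK0 : 0 ≤ K := by rw [h6]; positivity
  have hL2 : L ≤ 2 * q / k := by rw [le_div_iff₀ hk0]; linarith
  have hA : K * Real.log (1 + q / L) ≤ q ^ 2 / 2 := by
    have e1 : K * Real.log (1 + q / L) ≤ K * (k / 8) := mul_le_mul_of_nonneg_left hlog3 hK0
    have e2 : K * (k / 8) ≤ 2 * q * L * (k / 8) := mul_le_mul_of_nonneg_right h5 (by positivity)
    have e3 : 2 * q * L * (k / 8) = q * (k * L / 2) / 2 := by ring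
    nlinarith
  have hB : K * ((y' - q) / (q + L)) ≤ 4 * q / k * (y' - q) := by
    have e0 : K / (q + L) ≤ 4 * q / k := by
      rw [div_le_div_iff₀ (by positivity) hk0]
      have e1 : K * k ≤ 2 * q * L * k := mul_le_mul_of_nonneg_right h5 hk0.le
      nlinarith [mul_pos hq0 hL0, mul_le_mul_of_nonneg_left h2 hq0.le]
    have e1 : K * ((y' - q) / (q + L)) = K / (q + L) * (y' - q) := by ring
    rw [e1]
    exact mul_le_mul_of_nonneg_right e0 (by linarith)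
  have hC : K * Real.log (1 + y' / L) ≤ K * (Real.log (1 + q / L) + (y' - q) / (q + L)) :=
    mul_le_mul_of_nonneg_left hlog1 hK0
  rw [mul_add] at hC
  linarith

theorem RegP_h2 {k q L K G y' : ℝ} (hk : 32 ≤ k) (h1 : 1 ≤ L) (h2 : k * L / 2 ≤ q)
    (h3 : k ≤ q) (h6 : K = L * (q + k)) (hy0 : 0 < y') (hyq : y' ≤ q)
    (hG : q * y' - y' ^ 2 / 2 ≤ G) : -(20 * k ^ 2) ≤ G - K * Real.log (1 + y' / L) := by
  have hk0 : 0 < k := by linarith
  have hq0 : 0 < q := by linarith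
  have hL0 : 0 < L := by linarith
  set t := y' / L with ht
  have ht0 : 0 < t := div_pos hy0 hL0
  have hyt : y' = L * t := by rw [ht]; field_simp
  have hlog1 : Real.log (1 + t) ≤ t := by
    have := Real.log_le_sub_one_of_pos (show 0 < 1 + t by linarith)
    linarith
  have hkl : k * L * Real.log (1 + t) ≤ k * y' := by
    rw [hyt]
    have := mul_le_mul_of_nonneg_left hlog1 (show 0 ≤ k * L by positivity)
    linarith
  have hsplit : K * Real.log (1 + t) = q * L * Real.log (1 + t) + k * L * Real.log (1 + t) := by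
    rw [h6]; ring
  by_cases hc : t ≤ 1
  · have hl := RegP_log6 ht0.le hc
    have e1 : q * L * Real.log (1 + t) ≤ q * L * (t - t ^ 2 / 6) :=
      mul_le_mul_of_nonneg_left hl (by positivity)
    have e2 : q * L * (t - t ^ 2 / 6) = q * y' - q * L * t ^ 2 / 6 := by rw [hyt]; ring
    -- `q L t² / 6 ≥ k L² t² / 12 = k y'² / 12`
    have e3 : k * y' ^ 2 / 12 ≤ q * L * t ^ 2 / 6 := by
      rw [hyt]
      have := mul_le_mul_of_nonneg_right h2 (show 0 ≤ L * t ^ 2 / 6 by positivity)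
      nlinarith
    have e4 : G - K * Real.log (1 + t) ≥ k * y' ^ 2 / 12 - y' ^ 2 / 2 - k * y' := by
      rw [hsplit]; linarith
    have e5 : k * y' ^ 2 / 12 - y' ^ 2 / 2 ≥ k * y' ^ 2 / 16 := by nlinarith [sq_nonneg y']
    have e6 : k * y' ^ 2 / 16 - k * y' ≥ -(4 * k) := by
      have : 0 ≤ k * (y' - 8) ^ 2 := by positivity
      nlinarith
    nlinarith
  · push Not at hc
    have e0 : q * y' / 20 ≤ q * y' - y' ^ 2 / 2 - q * L * Real.log (1 + t) := by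
      by_cases hy2 : y' ≤ q / 2
      · have hl := RegP_log7 hc.le
        have e1 : q * L * Real.log (1 + t) ≤ q * L * (7 / 10 * t) :=
          mul_le_mul_of_nonneg_left hl (by positivity)
        have e2 : q * L * (7 / 10 * t) = 7 / 10 * (q * y') := by rw [hyt]; ring
        nlinarith
      · push Not at hy2
        have ht8 : 8 ≤ t := by
          rw [ht, le_div_iff₀ hL0]
          nlinarith
        have hl := RegP_log3 ht8
        have e1 : q * L * Real.log (1 + t) ≤ q * L * (3 / 10 * t) :=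
          mul_le_mul_of_nonneg_left hl (by positivity)
        have e2 : q * L * (3 / 10 * t) = 3 / 10 * (q * y') := by rw [hyt]; ring
        nlinarith
    have e4 : G - K * Real.log (1 + t) ≥ q * y' / 20 - k * y' := by
      rw [hsplit]; linarith
    by_cases hq20 : 20 * k ≤ q
    · nlinarith [sq_nonneg k]
    · push Not at hq20
      nlinarith

theorem regI_h2 {k : ℝ} (hk : 32 ≤ k) : ∃ C : ℝ, 0 ≤ C ∧ ∀ l y y' : ℝ, 0 < l → l < π →
    2 ≤ 1 / Real.sin (l / 2) → qk k l < y → 0 < y' → y' ≤ qk k l →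
    -C ≤ gg (qk k l) y y' - kap k l * Real.log (1 + y' / ct l) := by
  refine ⟨20 * k ^ 2, by positivity, ?_⟩
  intro l y y' hl0 hl hs hy hy0 hyq
  obtain ⟨h1, h2, h3, h4, h5, h6⟩ := RegP_rel hk hl0 hl hs
  exact RegP_h2 hk h1 h2 h3 h6 hy0 hyq (gg_mid hy0 hyq hy)

theorem regI_h5 {k l z : ℝ} (hk : 32 ≤ k) (hl0 : 0 < l) (hl : l < π)
    (hs : 2 ≤ 1 / Real.sin (l / 2)) (hz : ct l < z) :
    -(2 * qk k l * ((1 + z * ct l) / (z - ct l))) ≤ kap k l * Real.log (z / ct l - 1) := by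
  obtain ⟨h1, h2, h3, h4, h5, h6⟩ := RegP_rel hk hl0 hl hs
  set q := qk k l with hqdef
  set L := ct l with hLdef
  set K := kap k l with hKdef
  have hk0 : 0 < k := by linarith
  have hq0 : 0 < q := by linarith
  have hL0 : 0 < L := by linarith
  have hzL : 0 < z - L := by linarith
  have hK0 : 0 ≤ K := by rw [h6]; positivity
  have hlog : -(L / (z - L)) ≤ Real.log (z / L - 1) := by
    have hx : 0 < (z - L) / L := div_pos hzL hL0
    have h := Real.one_sub_inv_le_log_of_pos hx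
    have e1 : ((z - L) / L)⁻¹ = L / (z - L) := by rw [inv_div]
    have e2 : z / L - 1 = (z - L) / L := by field_simp
    rw [e1] at h
    rw [e2]
    linarith
  have e1 : K * -(L / (z - L)) ≤ K * Real.log (z / L - 1) := mul_le_mul_of_nonneg_left hlog hK0
  refine le_trans ?_ e1
  have e2 : K * (L / (z - L)) ≤ 2 * q * L * (L / (z - L)) :=
    mul_le_mul_of_nonneg_right h5 (by positivity)
  have e3 : 2 * q * L * (L / (z - L)) ≤ 2 * q * ((1 + z * L) / (z - L)) := by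
    rw [mul_assoc (2 * q)]
    apply mul_le_mul_of_nonneg_left _ (by positivity)
    rw [← mul_div_assoc]
    apply div_le_div_of_nonneg_right _ hzL.le
    nlinarith
  linarith

theorem regI_h6 {k : ℝ} (hk : 32 ≤ k) : ∃ C : ℝ, 0 ≤ C ∧ ∀ l y z : ℝ, 0 < l → l < π →
    2 ≤ 1 / Real.sin (l / 2) → 0 < y → y < 60 * qk k l → ct l < z →
    17 / 2 * chp y z ^ 3 ≤ 68 + C * (ct l * max ((y * ct l - 1) / (y + ct l)) 0 ^ 2) := by
  refine ⟨2040 * k * (60 * k + 1) ^ 2, by positivity, ?_⟩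
  intro l y z hl0 hl hs hy hyq hz
  obtain ⟨h1, h2, h3, h4, h5, h6⟩ := RegP_rel hk hl0 hl hs
  set q := qk k l with hqdef
  set L := ct l with hLdef
  have hk0 : 0 < k := by linarith
  have hq0 : 0 < q := by linarith
  have hL0 : 0 < L := by linarith
  have hz0 : 0 < z := by linarith
  have hch : chp y z ≤ y := by
    unfold chp
    refine max_le ?_ hy.le
    rw [div_le_iff₀ (by positivity)]
    nlinarith
  have hch0 : 0 ≤ chp y z := le_max_right _ _
  have hch3 : chp y z ^ 3 ≤ y ^ 3 := pow_le_pow_left₀ hch0 hch 3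
  by_cases hc : y * L ≤ 2
  · have hy2 : y ≤ 2 := by nlinarith
    have hy3 : y ^ 3 ≤ 2 ^ 3 := pow_le_pow_left₀ hy.le hy2 3
    have : 0 ≤ 2040 * k * (60 * k + 1) ^ 2 * (L * max ((y * L - 1) / (y + L)) 0 ^ 2) := by
      positivity
    linarith
  · push Not at hc
    have hp : y / (2 * (60 * k + 1)) ≤ max ((y * L - 1) / (y + L)) 0 := by
      refine le_trans ?_ (le_max_left _ _)
      rw [div_le_div_iff₀ (by positivity) (by positivity)]
      have e1 : y + L ≤ (60 * k + 1) * L := by nlinarith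
      have e2 : y * (y + L) ≤ y * ((60 * k + 1) * L) := mul_le_mul_of_nonneg_left e1 hy.le
      have e3 : y * L / 2 * (2 * (60 * k + 1)) ≤ (y * L - 1) * (2 * (60 * k + 1)) :=
        mul_le_mul_of_nonneg_right (by linarith) (by positivity)
      linarith
    have hp2 : (y / (2 * (60 * k + 1))) ^ 2 ≤ max ((y * L - 1) / (y + L)) 0 ^ 2 :=
      pow_le_pow_left₀ (by positivity) hp 2
    have e1 : 2040 * k * (60 * k + 1) ^ 2 * (L * (y / (2 * (60 * k + 1))) ^ 2) =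
        510 * (k * L) * y ^ 2 := by
      field_simp
      ring
    have e2 : 2040 * k * (60 * k + 1) ^ 2 * (L * (y / (2 * (60 * k + 1))) ^ 2) ≤
        2040 * k * (60 * k + 1) ^ 2 * (L * max ((y * L - 1) / (y + L)) 0 ^ 2) := by
      apply mul_le_mul_of_nonneg_left _ (by positivity)
      exact mul_le_mul_of_nonneg_left hp2 hL0.le
    have e3 : y ^ 3 ≤ 60 * (k * L) * y ^ 2 := by
      have : y ≤ 60 * (k * L) := by linarith
      have := mul_le_mul_of_nonneg_right this (sq_nonneg y)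
      nlinarith
    linarith

end Pool.Agent.H53.DA
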