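import Pool.Agent.H53.DA.ToolA

/-!
# DA static job S8b (ToolB): `q V² ≤ C (Su + q² Su1)` for every scale `q > 0`

`A3 = Am (3/2) b`, `A1 = Am (1/2) b = e^r A3 r`; `ρ = -log q`.  By the mean value theorem for the SUM there is one
`τ ∈ [1,2]` with `DD A3 τ + q² DD A1 τ ≤ D := Su b + q² Su1 b`.
(1) `q (A1(r+τ) - A1 r) = e^{r-ρ} (e^τ A3(r+τ) - A3 r)`; subtract `A3(r+τ) - A3 r`:
`(e^τ - 1) A3(r+τ) = e^{ρ-r} q (A1(r+τ) - A1 r) - (A3(r+τ) - A3 r)`, so for every bounded interval `I` around `ρ`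
(say `I = [ρ-4, ρ+4]`): `∫_I A3(r+τ)² dr ≤ C (q² DD A1 τ + DD A3 τ) ≤ C D`; hence `∫_{ρ-2}^{ρ+4} A3² ≤ C D`.
(2) `V = vs b = ∫ e^{r/2} A3 dr` (`vs_eq`).  `I_< = ∫_{r<ρ} e^{r/2} A3`: shift by `τ` as in (T2):
`(1 - e^{-1/2}) I_< ≤ ∫_ρ^{ρ+2} e^{r/2} A3 + e^{ρ/2} √(DD A3 τ) ≤ C q^{-1/2} √D`.
(3) `I_> = ∫_{r>ρ} e^{-r/2} A1 dr = ∫_{r>ρ} e^{r/2} A3`: `∫_{r>ρ} e^{-(r+τ)/2} A1(r+τ) dr = I_> - ∫_ρ^{ρ+τ} e^{-r/2} A1` and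
`≤ e^{-τ/2} (I_> + ∫_{r>ρ} e^{-r/2} |A1(r+τ) - A1 r|) ≤ e^{-1/2} I_> + e^{-ρ/2} √(DD A1 τ)`, so
`(1 - e^{-1/2}) I_> ≤ ∫_ρ^{ρ+2} e^{r/2} A3 + √q √(DD A1 τ) ≤ C q^{-1/2} √D`.
-/

set_option autoImplicit false
open Real Set MeasureTheory Filter Topology

namespace Pool.Agent.H53.DA
open Pool.Agent.H45.FL Pool.Agent.H51.DG Pool.Agent.H45.DY Pool.Agent.H90.DC Pool.Agent.H90.DA

theorem T4 : ∃ C : ℝ, 0 ≤ C ∧ ∀ b : ℝ → ℝ, Bd b → ∀ q : ℝ, 0 < q →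
    q * vs b ^ 2 ≤ C * (Su b + q ^ 2 * Su1 b) := by
  refine ⟨10 ^ 7 * 65536, by norm_num, ?_⟩
  intro b hb q hq
  have h1 : q * vs b ^ 2 ≤ 10 ^ 7 * (Pool.Agent.H44.DA.Sur (3 / 2) b +
      q ^ 2 * Pool.Agent.H44.DA.Sur (1 / 2) b) := Pool.Agent.H12.DA.tool4 hb hq
  have h2 : Pool.Agent.H44.DA.Sur (3 / 2) b ≤ 65536 * Su b :=
    Pool.Agent.H12.DA.Sur_le hb (m := 3 / 2) (by norm_num)
  have h3 : Pool.Agent.H44.DA.Sur (1 / 2) b ≤ 65536 * Su1 b :=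
    Pool.Agent.H12.DA.Sur_le hb (m := 1 / 2) (by norm_num)
  have h4 := mul_le_mul_of_nonneg_left h3 (sq_nonneg q)
  linarith

end Pool.Agent.H53.DA
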