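import Pool.Agent.H53.DA.Defs
import Pool.Agent.H51.DG.SA

/-!
# DA static job S0 (Tr): the functionals `TA`, `BNA` through `Gq`; mass identities

* `Gq_neg`: `HT (-W) = -HT W`, `UU (-W) = -UU W`.
* `TA_eq`: substitute `x ↦ -x` in the second integral; with `W2 x = f (-x)`: `HT W2 x = -HT f (-x)`
  (immediate from the definition of `HT`), `UU W2 x = UU f (-x)`; all signs: the integrand
  `-f(-x) (2 HT f(-x) Pq 0 x - UU f(-x) dPq 0 x) = W2 x (2 HT W2 x Pq 0 x + UU W2 x dPq 0 x)`.
* `BNA_eq`: substitute `x ↦ x - l`; `HT (f(· - l)) x = HT f (x - l)`, `UU (f(· - l)) x = UU f (x-l) - UU f (-l)`.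
  (translation and reflection of `HT`, `UU`: H45/DY (`rf`, `HT_rf`, `UU_rf`, file Shift), H90/DC/OddS.)
* masses: for `l < π`: P = right side of `c` and `aL`, N = `bC`; for `π ≤ l`: P = `bF`, N = `bC` and `bR`.
-/

set_option autoImplicit false
open Real Set MeasureTheory Filter Topology

namespace Pool.Agent.H53.DA
open Pool.Agent.H45.FL Pool.Agent.H51.DG Pool.Agent.H45.DY Pool.Agent.H90.DC Pool.Agent.H90.DA

theorem Tr_HT_neg (f : ℝ → ℝ) (x : ℝ) : HT (fun y => -f y) x = -HT f x := by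
  unfold HT
  rw [← mul_neg, ← intervalIntegral.integral_neg]
  congr 1
  refine intervalIntegral.integral_congr fun s _ => ?_
  show (-f (x - s) - -f (x + s)) * _ = -((f (x - s) - f (x + s)) * _)
  ring

theorem Tr_HT_refl (f : ℝ → ℝ) (x : ℝ) : HT (fun y => f (-y)) x = -HT f (-x) := by
  unfold HT
  rw [← mul_neg, ← intervalIntegral.integral_neg]
  congr 1
  refine intervalIntegral.integral_congr fun s _ => ?_
  show (f (-(x - s)) - f (-(x + s))) * _ = -((f (-x - s) - f (-x + s)) * _)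
  rw [show -(x - s) = -x + s by ring, show -(x + s) = -x - s by ring]
  ring

theorem Tr_HT_shift (f : ℝ → ℝ) (l x : ℝ) : HT (fun y => f (y - l)) x = HT f (x - l) := by
  unfold HT
  congr 1
  refine intervalIntegral.integral_congr fun s _ => ?_
  show (f (x - s - l) - f (x + s - l)) * _ = (f (x - l - s) - f (x - l + s)) * _
  rw [show x - s - l = x - l - s by ring, show x + s - l = x - l + s by ring]

theorem Tr_UU_neg (f : ℝ → ℝ) (x : ℝ) : UU (fun y => -f y) x = -UU f x := by
  unfold UU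
  rw [← intervalIntegral.integral_neg]
  exact intervalIntegral.integral_congr fun y _ => Tr_HT_neg f y

theorem Tr_UU_refl (f : ℝ → ℝ) (x : ℝ) : UU (fun y => f (-y)) x = UU f (-x) := by
  unfold UU
  have h1 : (∫ y in (0:ℝ)..x, HT (fun y => f (-y)) y) = ∫ y in (0:ℝ)..x, -HT f (-y) :=
    intervalIntegral.integral_congr fun y _ => Tr_HT_refl f y
  rw [h1, intervalIntegral.integral_neg, intervalIntegral.integral_comp_neg (fun y => HT f y),
    neg_zero, intervalIntegral.integral_symm, neg_neg]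

theorem Tr_UU_shift {f : ℝ → ℝ} {K : ℝ} (hL : Lip K f) (l x : ℝ) :
    UU (fun y => f (y - l)) x = UU f (x - l) - UU f (-l) := by
  unfold UU
  have hc := continuous_HT hL
  have h1 : (∫ y in (0:ℝ)..x, HT (fun y => f (y - l)) y) = ∫ y in (0:ℝ)..x, HT f (y - l) :=
    intervalIntegral.integral_congr fun y _ => Tr_HT_shift f l y
  rw [h1, intervalIntegral.integral_comp_sub_right (fun y => HT f y), zero_sub,
    intervalIntegral.integral_interval_sub_left (hc.intervalIntegrable _ _)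
      (hc.intervalIntegrable _ _)]

/-- splitting of the integral over a period -/
theorem Tr_split {f : ℝ → ℝ} (hp : Function.Periodic f (2 * π)) (hc : Continuous f) :
    ∫ x in (0:ℝ)..(2 * π), f x = (∫ x in (0:ℝ)..π, f x) + ∫ x in (0:ℝ)..π, f (-x) := by
  have h1 : (∫ x in (0:ℝ)..π, f (-x)) = ∫ x in π..(2 * π), f x := by
    have h2 : (∫ x in (0:ℝ)..π, f (-x)) = ∫ x in (0:ℝ)..π, f (2 * π - x) := by
      refine intervalIntegral.integral_congr fun x _ => ?_
      show f (-x) = f (2 * π - x)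
      rw [← hp (-x)]
      congr 1
      ring
    rw [h2, intervalIntegral.integral_comp_sub_left (fun x => f x)]
    congr 1 <;> ring
  rw [h1, intervalIntegral.integral_add_adjacent_intervals (hc.intervalIntegrable _ _)
    (hc.intervalIntegrable _ _)]

theorem Tr_abs (a : ℝ) : |a| = max a 0 + max (-a) 0 := by
  rcases le_total 0 a with h | h
  · rw [abs_of_nonneg h, max_eq_left h, max_eq_right (by linarith), add_zero]
  · rw [abs_of_nonpos h, max_eq_right h, max_eq_left (by linarith), zero_add]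

theorem Tr_self (a : ℝ) : a = max a 0 - max (-a) 0 := by
  rcases le_total 0 a with h | h
  · rw [max_eq_left h, max_eq_right (by linarith), sub_zero]
  · rw [max_eq_right h, max_eq_left (by linarith)]
    ring

theorem Tr_mass {f : ℝ → ℝ} (hp : Function.Periodic f (2 * π)) (hc : Continuous f) :
    Ma f = ms (bF f) + ms (bR f) + (ms (aL f) + ms (bC f)) ∧
    ∫ x in (0:ℝ)..(2 * π), f x = ms (bF f) - ms (bR f) + (ms (aL f) - ms (bC f)) := by
  have c1 : Continuous (bF f) := hc.max continuous_const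
  have c2 : Continuous (bR f) := hc.neg.max continuous_const
  have c3 : Continuous (aL f) := (hc.comp continuous_neg).max continuous_const
  have c4 : Continuous (bC f) := (hc.comp continuous_neg).neg.max continuous_const
  unfold ms
  constructor
  · rw [← intervalIntegral.integral_add (c1.intervalIntegrable _ _) (c2.intervalIntegrable _ _),
      ← intervalIntegral.integral_add (c3.intervalIntegrable _ _) (c4.intervalIntegrable _ _)]
    unfold Ma
    have hp' : Function.Periodic (fun x => |f x|) (2 * π) := fun x => by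
      show |f (x + 2 * π)| = |f x|
      rw [hp]
    rw [Tr_split hp' hc.abs]
    congr 1
    · exact intervalIntegral.integral_congr fun x _ => Tr_abs (f x)
    · exact intervalIntegral.integral_congr fun x _ => Tr_abs (f (-x))
  · rw [← intervalIntegral.integral_sub (c1.intervalIntegrable _ _) (c2.intervalIntegrable _ _),
      ← intervalIntegral.integral_sub (c3.intervalIntegrable _ _) (c4.intervalIntegrable _ _),
      Tr_split hp hc]
    congr 1
    · exact intervalIntegral.integral_congr fun x _ => Tr_self (f x)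
    · exact intervalIntegral.integral_congr fun x _ => Tr_self (f (-x))

theorem Tr_nn {b : ℝ → ℝ} (h : ∀ x, 0 ≤ b x) : 0 ≤ ms b :=
  intervalIntegral.integral_nonneg pi_pos.le fun x _ => h x

theorem Tr_zero {b : ℝ → ℝ} (h : ∀ x ∈ Icc (0:ℝ) π, b x = 0) : ms b = 0 := by
  unfold ms
  have h1 : (∫ x in (0:ℝ)..π, b x) = ∫ x in (0:ℝ)..π, (0:ℝ) := by
    refine intervalIntegral.integral_congr fun x hx => ?_
    rw [uIcc_of_le pi_pos.le] at hx
    exact h x hx
  rw [h1, intervalIntegral.integral_zero]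

theorem Gq_neg (q : ℝ) (W : ℝ → ℝ) (p : ℝ) : Gq q (fun x => -W x) p = Gq q W p := by
  unfold Gq
  refine intervalIntegral.integral_congr fun x _ => ?_
  show -W x * (2 * HT (fun x => -W x) x * Pq q x + UU (fun x => -W x) x * dPq q x) =
    W x * (2 * HT W x * Pq q x + UU W x * dPq q x)
  rw [Tr_HT_neg, Tr_UU_neg]
  ring

theorem TA_eq {f : ℝ → ℝ} (hp : Function.Periodic f (2 * π)) (hL : ∃ K, Lip K f) (q dq l : ℝ) :
    TA q dq f l = Gq q f (2 * π - l) + Gq 0 (fun x => f (-x)) l +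
      1 / 2 * dq * UU f (-l) * ∫ x in (0:ℝ)..(2 * π - l), f x * max (ct x - q) 0 := by
  unfold TA Gq
  have h1 : (∫ x in (-l)..0, -f x * (2 * HT f x * Pq 0 (-x) - UU f x * dPq 0 (-x))) =
      ∫ x in (0:ℝ)..l, f (-x) * (2 * HT (fun x => f (-x)) x * Pq 0 x +
        UU (fun x => f (-x)) x * dPq 0 x) := by
    have h2 := intervalIntegral.integral_comp_neg (a := 0) (b := l)
      (fun x => -f x * (2 * HT f x * Pq 0 (-x) - UU f x * dPq 0 (-x)))
    rw [neg_zero] at h2
    rw [← h2]
    refine intervalIntegral.integral_congr fun x _ => ?_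
    show -f (-x) * (2 * HT f (-x) * Pq 0 (- -x) - UU f (-x) * dPq 0 (- -x)) =
      f (-x) * (2 * HT (fun x => f (-x)) x * Pq 0 x + UU (fun x => f (-x)) x * dPq 0 x)
    rw [Tr_HT_refl, Tr_UU_refl, neg_neg]
    ring
  rw [h1]

theorem BNA_eq {f : ℝ → ℝ} (hp : Function.Periodic f (2 * π)) (hL : ∃ K, Lip K f) (l : ℝ) :
    BNA f l = Gq 0 (fun x => f (x - l)) l := by
  obtain ⟨K, hK⟩ := hL
  unfold BNA Gq
  have h2 := intervalIntegral.integral_comp_sub_right (a := 0) (b := l)
    (fun x => f x * (2 * HT f x * Pq 0 (x + l) + (UU f x - UU f (-l)) * dPq 0 (x + l))) l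
  rw [zero_sub, sub_self] at h2
  rw [← h2]
  refine intervalIntegral.integral_congr fun x _ => ?_
  show f (x - l) * (2 * HT f (x - l) * Pq 0 (x - l + l) +
      (UU f (x - l) - UU f (-l)) * dPq 0 (x - l + l)) =
    f (x - l) * (2 * HT (fun x => f (x - l)) x * Pq 0 x + UU (fun x => f (x - l)) x * dPq 0 x)
  rw [Tr_HT_shift, Tr_UU_shift hK, sub_add_cancel]

theorem mass_short {f : ℝ → ℝ} {l : ℝ} (h : TwoA f l) (hc : Continuous f) (hl : l < π) :
    Ma f = ms (bF f) + ms (aL f) + ms (bC f) ∧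
    ∫ x in (0:ℝ)..(2 * π), f x = ms (bF f) + ms (aL f) - ms (bC f) ∧
    0 ≤ ms (bF f) ∧ 0 ≤ ms (aL f) ∧ 0 ≤ ms (bC f) := by
  obtain ⟨h1, h2⟩ := Tr_mass h.per hc
  have h3 : ms (bR f) = 0 := Tr_zero fun x hx => by
    show max (-f x) 0 = 0
    have := h.pos x ⟨hx.1, by linarith [hx.2]⟩
    exact max_eq_right (by linarith)
  refine ⟨by rw [h1, h3]; ring, by rw [h2, h3]; ring, Tr_nn fun x => le_max_right _ _,
    Tr_nn fun x => le_max_right _ _, Tr_nn fun x => le_max_right _ _⟩

theorem mass_long {f : ℝ → ℝ} {l : ℝ} (h : TwoA f l) (hc : Continuous f) (hl : π ≤ l) :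
    Ma f = ms (bF f) + ms (bC f) + ms (bR f) ∧
    ∫ x in (0:ℝ)..(2 * π), f x = ms (bF f) - ms (bC f) - ms (bR f) ∧
    0 ≤ ms (bF f) ∧ 0 ≤ ms (bC f) ∧ 0 ≤ ms (bR f) := by
  obtain ⟨h1, h2⟩ := Tr_mass h.per hc
  have h3 : ms (aL f) = 0 := Tr_zero fun x hx => by
    show max (f (-x)) 0 = 0
    exact max_eq_right (h.neg (-x) ⟨by linarith [hx.2], by linarith [hx.1]⟩)
  refine ⟨by rw [h1, h3]; ring, by rw [h2, h3]; ring, Tr_nn fun x => le_max_right _ _,
    Tr_nn fun x => le_max_right _ _, Tr_nn fun x => le_max_right _ _⟩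

/-- `VanA` gives `Van` in the three frames -/
theorem van_frames {f : ℝ → ℝ} {l : ℝ} (h : VanA f l) :
    Van (fun x => -f x) (2 * π - l) ∧ Van (fun x => f (-x)) l ∧ Van (fun x => f (x - l)) l := by
  obtain ⟨K, hK⟩ := h.lip
  obtain ⟨δ, hδ, hv⟩ := h.van0
  obtain ⟨δ', hδ', hv'⟩ := h.vanl
  have l0 := h.l0
  have l1 := h.l1
  refine ⟨⟨⟨?_, by linarith, by linarith, ?_, ?_⟩, ⟨K, ?_⟩, ⟨δ, hδ, ?_⟩⟩,
    ⟨⟨?_, l0, l1, ?_, ?_⟩, ⟨K, ?_⟩, ⟨δ, hδ, ?_⟩⟩, ⟨⟨?_, l0, l1, ?_, ?_⟩, ⟨K, ?_⟩, ⟨δ', hδ', ?_⟩⟩⟩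
  · intro x
    show -f (x + 2 * π) = -f x
    rw [h.per]
  · intro x hx
    show -f x ≤ 0
    linarith [h.pos x hx]
  · intro x hx
    show 0 ≤ -f x
    have h1 := h.neg (x - 2 * π) ⟨by linarith [hx.1], by linarith [hx.2]⟩
    have h2 := h.per (x - 2 * π)
    rw [sub_add_cancel] at h2
    linarith
  · intro x y
    show |-f x - -f y| ≤ K * |x - y|
    rw [show -f x - -f y = -(f x - f y) by ring, abs_neg]
    exact hK x y
  · intro x hx
    show -f x = 0
    rw [hv x hx, neg_zero]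
  · intro x
    show f (-(x + 2 * π)) = f (-x)
    rw [← h.per (-(x + 2 * π))]
    congr 1
    ring
  · intro x hx
    exact h.neg (-x) ⟨by linarith [hx.2], by linarith [hx.1]⟩
  · intro x hx
    show 0 ≤ f (-x)
    have h1 := h.pos (-x + 2 * π) ⟨by linarith [hx.2], by linarith [hx.1]⟩
    rwa [h.per] at h1
  · intro x y
    show |f (-x) - f (-y)| ≤ K * |x - y|
    have h1 := hK (-x) (-y)
    rwa [show -x - -y = -(x - y) by ring, abs_neg] at h1
  · intro x hx
    exact hv (-x) (by rwa [abs_neg])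
  · intro x
    show f (x + 2 * π - l) = f (x - l)
    rw [← h.per (x - l)]
    congr 1
    ring
  · intro x hx
    exact h.neg (x - l) ⟨by linarith [hx.1], by linarith [hx.2]⟩
  · intro x hx
    exact h.pos (x - l) ⟨by linarith [hx.1], by linarith [hx.2]⟩
  · intro x y
    show |f (x - l) - f (y - l)| ≤ K * |x - y|
    have h1 := hK (x - l) (y - l)
    rwa [show x - l - (y - l) = x - y by ring] at h1
  · intro x hx
    exact hv' (x - l) (by rwa [sub_add_cancel])

theorem bd_parts {f : ℝ → ℝ} {l : ℝ} (h : VanA f l) :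
    Bd (bF f) ∧ Bd (aL f) ∧ Bd (bC f) ∧ Bd (bR f) ∧ Bd (bE f l) := by
  obtain ⟨K, hK⟩ := h.lip
  obtain ⟨δ, hδ, hv⟩ := h.van0
  obtain ⟨δ', hδ', hv'⟩ := h.vanl
  have hc : Continuous f := hK.continuous
  refine ⟨⟨hc.max continuous_const, fun x _ => le_max_right _ _, δ, hδ, fun x h0 h1 => ?_⟩,
    ⟨(hc.comp continuous_neg).max continuous_const, fun x _ => le_max_right _ _, δ, hδ,
      fun x h0 h1 => ?_⟩,
    ⟨(hc.comp continuous_neg).neg.max continuous_const, fun x _ => le_max_right _ _, δ, hδ,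
      fun x h0 h1 => ?_⟩,
    ⟨hc.neg.max continuous_const, fun x _ => le_max_right _ _, δ, hδ, fun x h0 h1 => ?_⟩,
    ⟨(hc.comp (continuous_id.sub continuous_const)).neg.max continuous_const,
      fun x _ => le_max_right _ _, δ', hδ', fun x h0 h1 => ?_⟩⟩
  · show max (f x) 0 = 0
    rw [hv x (by rwa [abs_of_nonneg h0]), max_self]
  · show max (f (-x)) 0 = 0
    rw [hv (-x) (by rwa [abs_neg, abs_of_nonneg h0]), max_self]
  · show max (-f (-x)) 0 = 0
    rw [hv (-x) (by rwa [abs_neg, abs_of_nonneg h0]), neg_zero, max_self]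
  · show max (-f x) 0 = 0
    rw [hv x (by rwa [abs_of_nonneg h0]), neg_zero, max_self]
  · show max (-f (x - l)) 0 = 0
    rw [hv' (x - l) (by rwa [sub_add_cancel, abs_of_nonneg h0]), neg_zero, max_self]

end Pool.Agent.H53.DA
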