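import Pool.Agent.H53.DA.ToolA
import Pool.Agent.H53.DA.Tr

/-!
# DA static job S8c (ToolC): the arc N seen from both ends

For `l < π`: `bC f x = -f(-x)`, `bE f l x = -f(x-l) = bC f (l-x)` on `(0,l)`, both vanish on `(l,π)`
(`bE`: `x - l ∈ (0,π) ⊂ P`).  So `ms (bE f l) = ms (bC f)`.  Lines 3, 4: (T3) for `b = bE f l`, `ℓ = ct l`.
Line 2: if `x ∈ (0,l)` then `x ≤ l/2 ≤ π/2` or `l - x ≤ l/2 ≤ π/2`, so `ms (bC f) ≤ MMb (bC f) 0 + MMb (bE f l) 0`
(`th 0 = π/2`), `MMb b 0 = Am (3/2) b 0`, and (T1) with `r = 0` and `r'` a large constant: `≤ (1/2) ms + C (√Su + √Su_e)`.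
`Qf_le` (`l > π`, `λ = 2π - l`, `ℓP = ct λ > 0`): `bR f x = 0` for `x ≤ λ`, so `ct x < ℓP` on its support;
`ct x ^2 ≤ (ε ℓP)²` or `ct x > ε ℓP`, `x < th r`, `r = -log(ε ℓP)`; in the second case
`∫_{λ < x < th r} (-f x) dx = ∫_{0 < x' < th r - λ} bE f l x' dx' ≤ MMb (bE f l) r` (`f x = f (x - 2π)`, `x - 2π = x' - l`).
For `l = π` `bR f = 0` on `(0,π)`, `Qf f = 0`.
-/

set_option autoImplicit false
open Real Set MeasureTheory Filter Topology

namespace Pool.Agent.H53.DA
open Pool.Agent.H45.FL Pool.Agent.H51.DG Pool.Agent.H45.DY Pool.Agent.H90.DC Pool.Agent.H90.DA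

theorem ToolC_cont {f : ℝ → ℝ} {l : ℝ} (h : VanA f l) : Continuous f := by
  obtain ⟨K, hK⟩ := h.lip
  exact (LipschitzWith.of_dist_le_mul (K := K.toNNReal) fun x y => by
    rw [Real.dist_eq, Real.dist_eq]
    refine (hK x y).trans ?_
    gcongr
    exact Real.le_coe_toNNReal K).continuous

theorem ToolC_bd1 {f : ℝ → ℝ} {l : ℝ} (h : VanA f l) : Bd (bC f) := by
  obtain ⟨δ, h0, h1⟩ := h.van0
  refine ⟨((ToolC_cont h).comp continuous_neg).neg.max continuous_const,
    fun x _ => le_max_right _ _, δ, h0, fun x hx hx' => ?_⟩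
  unfold bC
  rw [h1 (-x) (by rw [abs_neg, abs_of_nonneg hx]; exact hx')]
  simp

theorem ToolC_bd2 {f : ℝ → ℝ} {l : ℝ} (h : VanA f l) : Bd (bE f l) := by
  obtain ⟨δ, h0, h1⟩ := h.vanl
  refine ⟨((ToolC_cont h).comp (continuous_id.sub continuous_const)).neg.max continuous_const,
    fun x _ => le_max_right _ _, δ, h0, fun x hx hx' => ?_⟩
  unfold bE
  rw [h1 (x - l) (by rw [sub_add_cancel, abs_of_nonneg hx]; exact hx')]
  simp

theorem ToolC_ct_pos {x : ℝ} (h0 : 0 < x) (h1 : x < π) : 0 < ct x := by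
  unfold ct
  exact div_pos (Real.cos_pos_of_mem_Ioo ⟨by linarith, by linarith⟩)
    (Real.sin_pos_of_pos_of_lt_pi (by linarith) (by linarith))

theorem ToolC_ct_nn {x : ℝ} (h0 : 0 ≤ x) (h1 : x ≤ π) : 0 ≤ ct x := by
  unfold ct
  exact div_nonneg (Real.cos_nonneg_of_mem_Icc ⟨by linarith, by linarith⟩)
    (Real.sin_nonneg_of_nonneg_of_le_pi (by linarith) (by linarith [Real.pi_pos]))

theorem T5 : ∃ C : ℝ, 0 ≤ C ∧ ∀ (f : ℝ → ℝ) (l : ℝ), VanA f l → l < π →
    ms (bE f l) = ms (bC f) ∧ ms (bC f) ^ 2 ≤ C * (Su (bC f) + Su (bE f l)) ∧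
    (ms (bC f)) ^ 2 * ct l ^ 3 ≤ C * Su (bE f l) ∧ vs (bE f l) ^ 2 * ct l ≤ C * Su (bE f l) := by
  obtain ⟨C, hC, h3⟩ := T3
  refine ⟨2200 * 65536 + C, by positivity, ?_⟩
  intro f l h hl
  have hb1 := ToolC_bd1 h
  have hb2 := ToolC_bd2 h
  have hl0 := h.l0
  have z1 : ∀ x, l ≤ x → x ≤ π → bC f x = 0 := by
    intro x hx hx'
    unfold bC
    refine max_eq_right ?_
    have h1 := h.pos (-x + 2 * π) ⟨by linarith, by linarith⟩
    rw [h.per] at h1
    linarith
  have z2 : ∀ x, l ≤ x → x ≤ π → bE f l x = 0 := by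
    intro x hx hx'
    unfold bE
    refine max_eq_right ?_
    have h1 := h.pos (x - l) ⟨by linarith, by linarith⟩
    linarith
  have hr : ∀ x, 0 ≤ x → x ≤ l → bE f l x = bC f (l - x) := by
    intro x _ _
    unfold bE bC
    rw [show -(l - x) = x - l by ring]
  obtain ⟨e1, e2⟩ := Pool.Agent.H12.DA.tool5 hb1 hb2 hl0 hl z1 z2 hr
  have e1' : ms (bE f l) = ms (bC f) := e1
  have e2' : ms (bC f) ^ 2 ≤ 2200 * (Pool.Agent.H44.DA.Sur (3 / 2) (bC f) +
    Pool.Agent.H44.DA.Sur (3 / 2) (bE f l)) := e2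
  have s1 := Pool.Agent.H12.DA.Sur_le hb1 (m := 3 / 2) (by norm_num)
  have s2 := Pool.Agent.H12.DA.Sur_le hb2 (m := 3 / 2) (by norm_num)
  have s1' : Pool.Agent.H44.DA.Sur (3 / 2) (bC f) ≤ 65536 * Su (bC f) := s1
  have s2' : Pool.Agent.H44.DA.Sur (3 / 2) (bE f l) ≤ 65536 * Su (bE f l) := s2
  have n1 := (ToolA_Su hb1).1
  have n2 := (ToolA_Su hb2).1
  obtain ⟨a1, a2⟩ := h3 (bE f l) hb2 (ct l) (ToolC_ct_pos hl0 hl) (by
    intro x hx hx'
    refine z2 x ?_ hx.2.le
    by_contra hc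
    push Not at hc
    exact absurd (ct_lt hx.1 hc (by linarith [Real.pi_pos])) (not_lt.2 hx'.le))
  rw [e1'] at a1
  have m1 := mul_nonneg hC n1
  have m2 := mul_nonneg hC n2
  refine ⟨e1', ?_, ?_, ?_⟩
  · linarith
  · linarith
  · linarith

theorem Qf_zero {f : ℝ → ℝ} (h : VanA f π) : Qf f = 0 := by
  unfold Qf
  rw [intervalIntegral.integral_congr (g := fun _ => (0:ℝ))]
  · simp
  · intro x hx
    rw [uIcc_of_le Real.pi_pos.le] at hx
    have h1 := h.pos x ⟨hx.1, by linarith [hx.2]⟩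
    show max (-f x) 0 * ct x ^ 2 = 0
    rw [max_eq_right (by linarith), zero_mul]

theorem Qf_le {f : ℝ → ℝ} {l : ℝ} (h : VanA f l) (hl : π < l) {ε : ℝ} (he : 0 < ε) (he1 : ε ≤ 1) :
    Qf f ≤ (ε * ct (2 * π - l)) ^ 2 * Ma f +
      ct (2 * π - l) ^ 2 * MMb (bE f l) (-Real.log (ε * ct (2 * π - l))) := by
  obtain ⟨a, ha⟩ : ∃ a, a = 2 * π - l := ⟨_, rfl⟩
  rw [← ha]
  have hl1 := h.l1
  have ha0 : 0 < a := by linarith
  have ha1 : a < π := by linarith
  have hc := ToolC_ct_pos ha0 ha1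
  have hec : 0 < ε * ct a := mul_pos he hc
  obtain ⟨r, hr⟩ : ∃ r, r = -Real.log (ε * ct a) := ⟨_, rfl⟩
  rw [← hr]
  have hct : ct (th r) = ε * ct a := by
    rw [ct_th, hr, neg_neg, Real.exp_log hec]
  have hth := th_mem r
  have hcf := ToolC_cont h
  have hb2 := ToolC_bd2 h
  have cR : Continuous (bR f) := hcf.neg.max continuous_const
  have nR : ∀ x, 0 ≤ bR f x := fun x => le_max_right _ _
  have zR : ∀ x, 0 ≤ x → x ≤ a → bR f x = 0 := by
    intro x hx hx'
    have h1 := h.pos x ⟨hx, by rw [← ha]; exact hx'⟩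
    exact max_eq_right (by linarith)
  have hMa : ∫ x in (0:ℝ)..π, bR f x ≤ Ma f := by
    have e1 := (Tr_mass h.per hcf).1
    have e2 : 0 ≤ ms (bF f) := intervalIntegral.integral_nonneg Real.pi_pos.le fun x _ => le_max_right _ _
    have e3 : 0 ≤ ms (aL f) := intervalIntegral.integral_nonneg Real.pi_pos.le fun x _ => le_max_right _ _
    have e4 : 0 ≤ ms (bC f) := intervalIntegral.integral_nonneg Real.pi_pos.le fun x _ => le_max_right _ _
    have e5 : ms (bR f) = ∫ x in (0:ℝ)..π, bR f x := rfl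
    linarith
  have hMa0 : 0 ≤ Ma f := le_trans (intervalIntegral.integral_nonneg Real.pi_pos.le fun x _ => nR x) hMa
  have hMM0 := NF_MMb_nonneg hb2 r
  have hth2 : a ≤ th r := by
    by_contra hcon
    push Not at hcon
    have h2 := ct_lt hth.1 hcon (by linarith [Real.pi_pos])
    rw [hct] at h2
    have h3 : ε * ct a ≤ 1 * ct a := mul_le_mul_of_nonneg_right he1 hc.le
    linarith
  -- the part near e
  have hMM : ∫ x in (0:ℝ)..(th r), bR f x ≤ MMb (bE f l) r := by
    have e1 : ∫ x in (0:ℝ)..(th r), bR f x = (∫ x in (0:ℝ)..a, bR f x) + ∫ x in a..(th r), bR f x :=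
      (intervalIntegral.integral_add_adjacent_intervals (cR.intervalIntegrable _ _)
        (cR.intervalIntegrable _ _)).symm
    have e2 : ∫ x in (0:ℝ)..a, bR f x = 0 := by
      rw [intervalIntegral.integral_congr (g := fun _ => (0:ℝ))]
      · simp
      · intro x hx
        rw [uIcc_of_le ha0.le] at hx
        exact zR x hx.1 hx.2
    have e3 : ∫ x in a..(th r), bR f x = ∫ x in a..(th r), bE f l (x - a) := by
      refine intervalIntegral.integral_congr fun x _ => ?_
      show max (-f x) 0 = max (-f (x - a - l)) 0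
      rw [show x - a - l = x - 2 * π by rw [ha]; ring, h.per.sub_eq]
    have e4 : ∫ x in a..(th r), bE f l (x - a) = ∫ x in (0:ℝ)..(th r - a), bE f l x := by
      rw [intervalIntegral.integral_comp_sub_right (fun x => bE f l x) a, sub_self]
    rw [e1, e2, zero_add, e3, e4]
    unfold MMb
    refine intervalIntegral.integral_mono_interval le_rfl (by linarith) (by linarith) ?_
      (hb2.c.intervalIntegrable _ _)
    exact Eventually.of_forall fun x => le_max_right _ _
  by_cases hI : IntervalIntegrable (fun x => bR f x * ct x ^ 2) volume 0 π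
  · have i1 : IntervalIntegrable (fun x => bR f x * ct x ^ 2) volume 0 (th r) :=
      hI.mono_set (by
        rw [uIcc_of_le hth.1.le, uIcc_of_le Real.pi_pos.le]
        exact Icc_subset_Icc le_rfl hth.2.le)
    have i2 : IntervalIntegrable (fun x => bR f x * ct x ^ 2) volume (th r) π :=
      hI.mono_set (by
        rw [uIcc_of_le hth.2.le, uIcc_of_le Real.pi_pos.le]
        exact Icc_subset_Icc hth.1.le le_rfl)
    have e0 : Qf f = (∫ x in (0:ℝ)..(th r), bR f x * ct x ^ 2) +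
        ∫ x in (th r)..π, bR f x * ct x ^ 2 :=
      (intervalIntegral.integral_add_adjacent_intervals i1 i2).symm
    have b1 : ∫ x in (0:ℝ)..(th r), bR f x * ct x ^ 2 ≤ ∫ x in (0:ℝ)..(th r), ct a ^ 2 * bR f x := by
      refine intervalIntegral.integral_mono_on hth.1.le i1
        ((cR.const_mul _).intervalIntegrable _ _) fun x hx => ?_
      rcases le_total x a with h1 | h1
      · rw [zR x hx.1 h1]
        simp
      · have h2 : ct x ≤ ct a := by
          rcases h1.eq_or_lt with h3 | h3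
          · rw [h3]
          · exact (ct_lt ha0 h3 (by linarith [hx.2, hth.2, Real.pi_pos])).le
        have h3 := ToolC_ct_nn hx.1 (hx.2.trans hth.2.le)
        rw [mul_comm]
        exact mul_le_mul_of_nonneg_right (pow_le_pow_left₀ h3 h2 2) (nR x)
    have b2 : ∫ x in (th r)..π, bR f x * ct x ^ 2 ≤
        ∫ x in (th r)..π, (ε * ct a) ^ 2 * bR f x := by
      refine intervalIntegral.integral_mono_on hth.2.le i2
        ((cR.const_mul _).intervalIntegrable _ _) fun x hx => ?_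
      have h2 : ct x ≤ ct (th r) := by
        rcases hx.1.eq_or_lt with h3 | h3
        · rw [h3]
        · exact (ct_lt hth.1 h3 (by linarith [hx.2, Real.pi_pos])).le
      rw [hct] at h2
      have h3 := ToolC_ct_nn (hth.1.le.trans hx.1) hx.2
      rw [mul_comm]
      exact mul_le_mul_of_nonneg_right (pow_le_pow_left₀ h3 h2 2) (nR x)
    rw [intervalIntegral.integral_const_mul] at b1 b2
    have b3 : ∫ x in (th r)..π, bR f x ≤ ∫ x in (0:ℝ)..π, bR f x :=
      intervalIntegral.integral_mono_interval hth.1.le hth.2.le le_rfl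
        (Eventually.of_forall fun x => nR x) (cR.intervalIntegrable _ _)
    have b4 := mul_le_mul_of_nonneg_left (b3.trans hMa) (sq_nonneg (ε * ct a))
    have b5 := mul_le_mul_of_nonneg_left hMM (sq_nonneg (ct a))
    linarith
  · have e0 : Qf f = 0 := intervalIntegral.integral_undef hI
    rw [e0]
    have := mul_nonneg (sq_nonneg (ε * ct a)) hMa0
    have := mul_nonneg (sq_nonneg (ct a)) hMM0
    linarith

end Pool.Agent.H53.DA
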