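import Pool.Agent.H53.DA.Defs
import Pool.Agent.H51.DG.KD

/-!
# DA static job S9b (PtB): pointwise bounds of `gg`, `hh`

`hh_ge`: `log(1+t) ≥ t/(1+t)`, `t = 1/y²`: `hh ≥ -(y-q)/y + 1/2 ≥ -1/2`.  `hh_le`: `z hh 0 z = -z + psi z`, `psi_le` (KD.lean).
`gg_same`: `gg q y q = (1+y²)(-log(1-t) - t)`, `t = q/y`, `-log(1-t) ≥ t + t²/2`.
`gg_mid`: `d/dz gg q y z = (1+y²)(q-z)/(y-z)²` (`gg q y 0 = 0`) `≥ q - z` for `0 ≤ z ≤ q < y` (`(1+y²) ≥ (y-z)²`).
`gg_in`, `gg_F`: `gg 0 y z = (1+y²)(-log(1-t) - t/(1-t))`, `t = z/y`; `t/(1-t) + log(1-t) ≥ t²/2` (derivative `t/(1-t)² ≥ t`).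
`gg_neg0`: `gg 0 y (-t) ≤ 0` (= `-(1+y²) φ(t/y)`).
`gg_L` (`k ≥ 32`, `q = qk k l`, `ℓ = ct l`, `kap = ℓ (q+k)`, `q = k(√(1+ℓ²) - 1)`, `0 < t < ℓ`):
`-gg q y (-t) = ∫_0^t (1+y²)(q+s)/(y+s)² ds ≤ ∫_0^t [(q+s) + 1/(y+s)] ds` (`q < y`: `y²(q+s) ≤ (q+s)(y+s)²`,
`(q+s)/(y+s)² ≤ 1/(y+s)`), `-kap log(1 - t/ℓ) = ∫_0^t kap/(ℓ-s) ds`, and `(q+s)(ℓ-s) = qℓ + s(ℓ-q-s) ≤ qℓ + (ℓ-q)₊²/4 ≤ kap`
(if `q < ℓ` then `ℓ ≤ 1`, because `k ≥ 32`, so `(ℓ-q)²/4 ≤ ℓ ≤ kℓ`).  So `gg - kap log ≥ -log(1+t/y) ≥ -ℓ/y`, and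
`1/y ≤ 1/q`, `1/y ≤ 1/(y-q)`.
-/

set_option autoImplicit false
open Real Set MeasureTheory Filter Topology

namespace Pool.Agent.H53.DA
open Pool.Agent.H45.FL Pool.Agent.H51.DG Pool.Agent.H45.DY Pool.Agent.H90.DC Pool.Agent.H90.DA

/-- sign from the derivative -/
theorem PtB_nn {F F' : ℝ → ℝ} {z : ℝ} (hz : 0 ≤ z) (h0 : 0 ≤ F 0)
    (hd : ∀ t ∈ Icc 0 z, HasDerivAt F (F' t) t) (hp : ∀ t ∈ Icc 0 z, 0 ≤ F' t) : 0 ≤ F z := by
  have h : MonotoneOn F (Icc 0 z) := by
    refine monotoneOn_of_deriv_nonneg (convex_Icc 0 z)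
      (fun t ht => (hd t ht).continuousAt.continuousWithinAt) ?_ ?_
    · intro t ht
      rw [interior_Icc] at ht
      exact (hd t (Ioo_subset_Icc_self ht)).differentiableAt.differentiableWithinAt
    · intro t ht
      rw [interior_Icc] at ht
      rw [(hd t (Ioo_subset_Icc_self ht)).deriv]
      exact hp t (Ioo_subset_Icc_self ht)
  exact h0.trans (h (left_mem_Icc.2 hz) (right_mem_Icc.2 hz) hz)

/-- derivative in the position of the charge -/
theorem PtB_d {q y t : ℝ} (hy : 0 < y) (h : t < y) :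
    HasDerivAt (fun t => gg q y t) ((1 + y ^ 2) * (q - t) / (y - t) ^ 2) t := by
  have hyt : y - t ≠ 0 := by linarith [h]
  have hy' : y ≠ 0 := hy.ne'
  have h1 : HasDerivAt (fun t : ℝ => 1 - t / y) (-(1 / y)) t := by
    have := ((hasDerivAt_id t).div_const y).const_sub 1
    simpa using this
  have h1' : 1 - t / y ≠ 0 := by
    have e : 1 - t / y = (y - t) / y := by field_simp
    rw [e]
    exact div_ne_zero hyt hy'
  have h2 := h1.log h1'
  have h3 : HasDerivAt (fun t : ℝ => (y - q) * t) (y - q) t := by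
    have := (hasDerivAt_id t).const_mul (y - q)
    simpa using this
  have h4 : HasDerivAt (fun t : ℝ => y * (y - t)) (-y) t := by
    have := ((hasDerivAt_id t).const_sub y).const_mul y
    simpa using this
  have h5 := (h2.neg.sub (h3.div h4 (mul_ne_zero hy' hyt))).const_mul (1 + y ^ 2)
  unfold gg
  refine h5.congr_deriv ?_
  have e : 1 - t / y = (y - t) / y := by field_simp
  rw [e]
  field_simp
  ring

theorem PtB_log {t : ℝ} (h0 : 0 ≤ t) (h1 : t < 1) : t + t ^ 2 / 2 ≤ -Real.log (1 - t) := by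
  have h := Real.hasSum_pow_div_log_of_abs_lt_one (x := t) (by rw [abs_of_nonneg h0]; exact h1)
  have h2 := sum_le_hasSum (Finset.range 2) (fun n _ => by positivity) h
  simp only [Finset.sum_range_succ, Finset.sum_range_zero] at h2
  norm_num at h2
  linarith

theorem PtB_gg0 {y z : ℝ} (hy : 0 < y) (hz : z < y) :
    gg 0 y z = (1 + y ^ 2) * (-Real.log (1 - z / y) - z / (y - z)) := by
  have h1 : y - z ≠ 0 := by linarith
  unfold gg
  congr 2
  rw [sub_zero]
  field_simp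

theorem hh_ge {q y : ℝ} (hq : 0 ≤ q) (hy : q < y) : -(1 / 2) ≤ hh q y := by
  have hy0 : 0 < y := by linarith
  have h1 := Real.one_sub_inv_le_log_of_pos (show 0 < 1 + 1 / y ^ 2 by positivity)
  have h2 : 1 - (1 + 1 / y ^ 2)⁻¹ = 1 / (1 + y ^ 2) := by
    field_simp
    ring
  rw [h2] at h1
  have h3 := mul_le_mul_of_nonneg_left h1 (show 0 ≤ 1 + y ^ 2 by positivity)
  have h4 : (1 + y ^ 2) * (1 / (1 + y ^ 2)) = 1 := by field_simp
  have h5 : (y - q) / y ≤ 1 := by
    rw [div_le_one hy0]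
    linarith
  unfold hh
  linarith

theorem hh_le {z : ℝ} (hz : 0 < z) : z * hh 0 z ≤ 1 := by
  have h1 := psi_le hz.le
  have h2 : z * hh 0 z = psi z - z := by
    unfold hh psi
    rw [sub_zero, div_self hz.ne']
    ring
  rw [h2]
  linarith

theorem gg_zero {q y : ℝ} : gg q y 0 = 0 := by
  simp [gg]

theorem gg_same {q y : ℝ} (hq : 0 ≤ q) (hy : q < y) : q ^ 2 / 2 ≤ gg q y q := by
  have hy0 : 0 < y := by linarith
  have hv : y - q ≠ 0 := by linarith
  have h1 := PtB_log (t := q / y) (by positivity) ((div_lt_one hy0).2 hy)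
  have h2 : (1 + y ^ 2) * ((q / y) ^ 2 / 2) ≤ gg q y q := by
    unfold gg
    have e : (y - q) * q / (y * (y - q)) = q / y := by field_simp
    rw [e]
    exact mul_le_mul_of_nonneg_left (by linarith) (by positivity)
  refine le_trans ?_ h2
  have h3 : (1 + y ^ 2) * ((q / y) ^ 2 / 2) = q ^ 2 / 2 + (q / y) ^ 2 / 2 := by
    field_simp
    ring
  rw [h3]
  have : 0 ≤ (q / y) ^ 2 / 2 := by positivity
  linarith

theorem gg_mid {q y z : ℝ} (hz : 0 < z) (hzq : z ≤ q) (hy : q < y) :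
    q * z - z ^ 2 / 2 ≤ gg q y z := by
  have hy0 : 0 < y := by linarith
  have key := PtB_nn (F := fun t => gg q y t - (q * t - t ^ 2 / 2))
    (F' := fun t => (1 + y ^ 2) * (q - t) / (y - t) ^ 2 - (q - t)) hz.le (by simp [gg_zero]) ?_ ?_
  · linarith
  · intro s hs
    have h2 : HasDerivAt (fun t : ℝ => q * t - t ^ 2 / 2) (q - s) s := by
      have h3 := ((hasDerivAt_id s).const_mul q).sub (((hasDerivAt_id s).pow 2).div_const 2)
      refine h3.congr_deriv ?_
      simp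
    exact (PtB_d hy0 (by linarith [hs.2])).sub h2
  · intro s hs
    have h1 : 0 ≤ q - s := by linarith [hs.2]
    have h2 : 0 < y - s := by linarith [hs.2]
    rw [sub_nonneg, le_div_iff₀ (by positivity)]
    have h3 : (y - s) ^ 2 ≤ 1 + y ^ 2 := by nlinarith [hs.1]
    nlinarith

theorem gg_in {y z : ℝ} (hz : 0 < z) (hzy : z < y) : gg 0 y z ≤ 0 := by
  have hy0 : 0 < y := by linarith
  have hv : 0 < y - z := by linarith
  rw [PtB_gg0 hy0 hzy]
  have h1 := Real.one_sub_inv_le_log_of_pos (show 0 < 1 - z / y by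
    rw [sub_pos, div_lt_one hy0]
    exact hzy)
  have h2 : 1 - (1 - z / y)⁻¹ = -(z / (y - z)) := by
    have e : 1 - z / y = (y - z) / y := by field_simp
    rw [e]
    field_simp
    ring
  rw [h2] at h1
  exact mul_nonpos_of_nonneg_of_nonpos (by positivity) (by linarith)

theorem gg_F {y z : ℝ} (hz : 0 < z) (hzy : z < y) : y * z ^ 2 ≤ -(2 * y * gg 0 y z) := by
  have hy0 : 0 < y := by linarith
  have hv : 0 < y - z := by linarith
  have key := PtB_nn (F := fun t => -(gg 0 y t) - t ^ 2 / 2)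
    (F' := fun t => -((1 + y ^ 2) * (0 - t) / (y - t) ^ 2) - t) hz.le (by simp [gg_zero]) ?_ ?_
  · have h := mul_le_mul_of_nonneg_left (show z ^ 2 ≤ -(2 * gg 0 y z) by
      have : 0 ≤ -(gg 0 y z) - z ^ 2 / 2 := key
      linarith) hy0.le
    linarith
  · intro s hs
    have h2 : HasDerivAt (fun t : ℝ => t ^ 2 / 2) s s := by
      have h3 := ((hasDerivAt_id s).pow 2).div_const 2
      refine h3.congr_deriv ?_
      simp
    exact (PtB_d hy0 (by linarith [hs.2])).neg.sub h2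
  · intro s hs
    have h2 : 0 < y - s := by linarith [hs.2]
    have h3 : s ≤ (1 + y ^ 2) * s / (y - s) ^ 2 := by
      rw [le_div_iff₀ (by positivity)]
      have h3 : (y - s) ^ 2 ≤ 1 + y ^ 2 := by nlinarith [hs.1]
      nlinarith [hs.1]
    have h4 : -((1 + y ^ 2) * (0 - s) / (y - s) ^ 2) = (1 + y ^ 2) * s / (y - s) ^ 2 := by ring
    rw [h4]
    linarith

theorem gg_neg0 {y t : ℝ} (hy : 0 < y) (ht : 0 < t) : gg 0 y (-t) ≤ 0 := by
  have hyt : 0 < y + t := by linarith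
  rw [PtB_gg0 hy (by linarith)]
  have h1 := Real.one_sub_inv_le_log_of_pos (show 0 < 1 - -t / y by
    have : 0 < t / y := by positivity
    rw [neg_div]
    linarith)
  have h2 : 1 - (1 - -t / y)⁻¹ = t / (y - -t) := by
    have e : 1 - -t / y = (y + t) / y := by
      field_simp
      ring
    have e2 : y - -t = y + t := by ring
    rw [e, e2]
    field_simp
    ring
  rw [h2] at h1
  have h3 : -t / (y - -t) = -(t / (y - -t)) := by ring
  rw [h3]
  exact mul_nonpos_of_nonneg_of_nonpos (by positivity) (by linarith)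

/-- relations between the parameters for `l < π` -/
theorem par_rel {k l : ℝ} (hk : 0 ≤ k) (hl0 : 0 < l) (hl : l < π) :
    0 < ct l ∧ qk k l = k * (√(1 + ct l ^ 2) - 1) ∧ kap k l = ct l * (qk k l + k) ∧
    dqk k l = -(kap k l / 2) ∧ 0 ≤ qk k l ∧ qk k l ≤ k * ct l ∧ qk k l ≤ k * ct l ^ 2 / 2 ∧
    1 / Real.sin (l / 2) = √(1 + ct l ^ 2) := by
  have hs : 0 < Real.sin (l / 2) := Real.sin_pos_of_pos_of_lt_pi (by linarith) (by linarith)
  have hc : 0 < Real.cos (l / 2) := Real.cos_pos_of_mem_Ioo ⟨by linarith, by linarith⟩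
  have hct : 0 < ct l := div_pos hc hs
  have h1 : √(1 + ct l ^ 2) = 1 / Real.sin (l / 2) := by
    have e : 1 + ct l ^ 2 = (1 / Real.sin (l / 2)) ^ 2 := by
      unfold ct
      have := Real.sin_sq_add_cos_sq (l / 2)
      field_simp
      linarith
    rw [e]
    exact Real.sqrt_sq (by positivity)
  have hq : qk k l = k * (√(1 + ct l ^ 2) - 1) := by
    rw [h1, qk, if_pos hl]
  have hkap : kap k l = ct l * (qk k l + k) := by
    rw [hq, h1]
    unfold kap ct
    field_simp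
    ring
  have h2 : 1 ≤ √(1 + ct l ^ 2) := by
    rw [Real.one_le_sqrt]
    nlinarith [sq_nonneg (ct l)]
  have h3 : √(1 + ct l ^ 2) ≤ 1 + ct l := by
    rw [Real.sqrt_le_left (by linarith)]
    nlinarith
  have h4 : √(1 + ct l ^ 2) ≤ 1 + ct l ^ 2 / 2 := by
    rw [Real.sqrt_le_left (by positivity)]
    nlinarith [sq_nonneg (ct l ^ 2)]
  refine ⟨hct, hq, hkap, ?_, ?_, ?_, ?_, h1.symm⟩
  · rw [dqk, if_pos hl, kap]
    field_simp
  · rw [hq]
    exact mul_nonneg hk (by linarith)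
  · rw [hq]
    exact mul_le_mul_of_nonneg_left (by linarith) hk
  · rw [hq, mul_div_assoc]
    exact mul_le_mul_of_nonneg_left (by linarith) hk

theorem gg_L {k l y t : ℝ} (hk : 32 ≤ k) (hl0 : 0 < l) (hl : l < π) (hy : qk k l < y) (ht : 0 < t)
    (htl : t < ct l) : -(ct l / y) ≤ gg (qk k l) y (-t) - kap k l * Real.log (1 - t / ct l) := by
  obtain ⟨hct, hq, hkap, -, hq0, -, -, -⟩ := par_rel (by linarith : (0:ℝ) ≤ k) hl0 hl
  obtain ⟨ell, hell⟩ : ∃ ell, ell = ct l := ⟨_, rfl⟩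
  obtain ⟨q, hqq⟩ : ∃ q, q = qk k l := ⟨_, rfl⟩
  rw [← hell] at hct hq hkap htl ⊢
  rw [← hqq] at hq hkap hq0 hy ⊢
  have hy0 : 0 < y := by linarith
  have hk0 : 0 < k := by linarith
  have hbd : ∀ s, 0 ≤ s → s < ell → (q + s) * (ell - s) ≤ kap k l := by
    intro s hs0 hs1
    rw [hkap]
    have h1 : s * (ell - q - s) ≤ k * ell := by
      rcases le_total ell k with h | h
      · nlinarith [mul_nonneg hs0 hq0, mul_nonneg hs0 hs0, mul_nonneg hs0 (sub_nonneg.2 hs1.le)]
      · have h2 : ell ≤ √(1 + ell ^ 2) := by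
          apply Real.le_sqrt_of_sq_le
          linarith
        have h3 : ell ≤ q := by
          rw [hq]
          nlinarith
        have h4 : s * (ell - q - s) ≤ 0 :=
          mul_nonpos_of_nonneg_of_nonpos hs0 (by linarith)
        have h5 : 0 ≤ k * ell := by positivity
        linarith
    nlinarith
  have hsub : 0 ≤ kap k l / ell := by
    rw [hkap]
    positivity
  have key := PtB_nn (F := fun t => gg q y (-t) - kap k l * Real.log (1 - t / ell) + t / y)
    (F' := fun t => -((1 + y ^ 2) * (q + t) / (y + t) ^ 2) + kap k l / (ell - t) + 1 / y) ht.le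
    (by simp [gg_zero]) ?_ ?_
  · have h1 : 0 ≤ gg q y (-t) - kap k l * Real.log (1 - t / ell) + t / y := key
    have h2 : t / y ≤ ell / y := by gcongr
    linarith
  · intro s hs
    have hs1 : 0 < ell - s := by linarith [hs.2]
    have h1 := (PtB_d (q := q) (y := y) (t := -s) hy0 (by linarith [hs.1])).comp s
      ((hasDerivAt_id s).neg)
    have h2 : HasDerivAt (fun t : ℝ => Real.log (1 - t / ell)) (-(1 / ell) / (1 - s / ell)) s := by
      have h3 : HasDerivAt (fun t : ℝ => 1 - t / ell) (-(1 / ell)) s := by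
        have := ((hasDerivAt_id s).div_const ell).const_sub 1
        simpa using this
      refine h3.log ?_
      have e : 1 - s / ell = (ell - s) / ell := by field_simp
      rw [e]
      exact (div_pos hs1 hct).ne'
    have h4 := (h1.sub (h2.const_mul (kap k l))).add ((hasDerivAt_id s).div_const y)
    refine h4.congr_deriv ?_
    have e : y - -s = y + s := by ring
    have e2 : 1 - s / ell = (ell - s) / ell := by field_simp
    simp only [e, e2]
    have hs2 := hs1.ne'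
    have hc2 := hct.ne'
    field_simp
    ring
  · intro s hs
    have hs0 := hs.1
    have hs1 : 0 < ell - s := by linarith [hs.2]
    have h1 : q + s ≤ kap k l / (ell - s) := by
      rw [le_div_iff₀ hs1]
      exact hbd s hs0 (by linarith)
    have h2 : (1 + y ^ 2) * (q + s) / (y + s) ^ 2 ≤ (q + s) + 1 / y := by
      rw [div_le_iff₀ (by positivity)]
      have h3 : (q + s) * (1 + y ^ 2) ≤ (q + s) * (y + s) ^ 2 + (q + s) := by
        have : y ^ 2 ≤ (y + s) ^ 2 := by nlinarith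
        nlinarith
      have h4 : q + s ≤ 1 / y * (y + s) ^ 2 := by
        rw [one_div, inv_mul_eq_div, le_div_iff₀ hy0]
        nlinarith
      nlinarith
    linarith

end Pool.Agent.H53.DA
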