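import Pool.Agent.H53.DA.RK
import Pool.Agent.H53.DA.Tr
import Pool.Agent.H53.DA.PtB

/-!
# DA static job S10 (Bud): lower bound of the budget `BNA` (note 1995, 3(f))

`BNA f l = Gq 0 W l`, `W x = f (x - l)`, `Van W l` (`van_frames`), `bR W = bE f l`.  `G_kernel` with `q = 0`:
`8π BNA = -form (hat 0 bE) (hat 0 bE) (kQ 0) + ∫∫ bE(x) 2z src 0 W z x' - μ ∫ bE 2z hh 0 z`, `z = ct x`.
* `hat 0 b = b` on `(0,π)`; `kQ 0 = k3 + l1k`, `-form k3 = N3` (`form_k3`), `form l1k ≤ 0`.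
* last term: `≥ -2 μ Ma` (`hh_le`, `ms bE ≤ Ma`).
* `src 0 W z x' = bE x' gg 0 z 0 - bF W x' gg 0 z (ct x') - W(-x') gg 0 z (-ct x')`, first term `0`.
* second term (right side of `e`): `bF W x' ≠ 0` only for `x' > l` (P beyond `c`, `l < π`), where `ct x' < ct l < z` for
  `bE x ≠ 0` (`x < l`): `-2z bF gg 0 z p ≥ bF z p² ≥ bF (ct l) p²` (`gg_F`), `p = ct x'`.  With `x' = l + ξ`, `x = l - η`:
  `W x' = f ξ`, `bE f l x = bC f η`, `ct (l+ξ) = (ct l ct ξ - 1)/(ct l + ct ξ)` (`> 0` iff `l + ξ < π`): the integral is `≥ FPt f l`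
  (substitution by translations; outside of the region the integrand of `FPt` vanishes).  For `l ≥ π` it is zero.
* third term (left side of `e`), `W(-x') = f(-x'-l)`: P for `x' < 2π - l`, N for `x' > 2π - l`;
  `-2z gg 0 z (-y) = 2 gk y z` (`gg_gk`; `gk_mono`, `gk_nonneg` in H51/DG/KB.lean).  `l < π`: only P, `≥ 0`.
  `l ≥ π`: with `ℓP = ct(2π-l)`: P has `ct x' ≥ ℓP`, N has `ct x' ≤ ℓP`, so
  `∫ W(-x')₊ 2 gk (ct x') z - ∫ W(-x')₋ 2 gk (ct x') z ≥ 2 gk ℓP z (∫ W(-x')₊ - ∫ W(-x')₋) ≥ 0`, because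
  `∫_0^π W(-x')₊ = m_P ≥ m_N ≥ ∫_0^π W(-x')₋` (mean `≥ 0`).
-/

set_option autoImplicit false
open Real Set MeasureTheory Filter Topology

namespace Pool.Agent.H53.DA
open Pool.Agent.H45.FL Pool.Agent.H51.DG Pool.Agent.H45.DY Pool.Agent.H90.DC Pool.Agent.H90.DA

theorem Bud_gg_gk {y z : ℝ} (hy : 0 < y) (hz : 0 < z) : -(2 * z * gg 0 z (-y)) = 2 * gk y z := by
  unfold gg gk
  rw [neg_div, sub_neg_eq_add, sub_neg_eq_add, sub_zero]
  have e : z * -y / (z * (z + y)) = -(y / (y + z)) := by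
    field_simp
    ring
  rw [e]
  ring

theorem Bud_ct_pi : ct π = 0 := by
  unfold ct
  rw [Real.cos_pi_div_two, zero_div]

/-- the integral of a function on `(0,π)` as an integral over the line -/
theorem Bud_ind (g : ℝ → ℝ) : ∫ x in (0:ℝ)..π, g x = ∫ x, (Ioo (0:ℝ) π).indicator g x := by
  rw [integral_indicator measurableSet_Ioo, intervalIntegral.integral_of_le Real.pi_pos.le,
    integral_Ioc_eq_integral_Ioo]

theorem Bud_int1 {g : ℝ → ℝ} (hg : Measurable g) {C : ℝ} (hb : ∀ x ∈ Ioo (0:ℝ) π, |g x| ≤ C) :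
    IntegrableOn g (Ioo (0:ℝ) π) := by
  refine Measure.integrableOn_of_bounded (M := C) ?_ hg.aestronglyMeasurable ?_
  · rw [Real.volume_Ioo]; exact ENNReal.ofReal_ne_top
  · exact ae_restrict_of_forall_mem measurableSet_Ioo fun z hz => hb z hz

theorem Bud_intc {g : ℝ → ℝ} (hg : Continuous g) : IntegrableOn g (Ioo (0:ℝ) π) :=
  (hg.integrableOn_Icc (a := 0) (b := π)).mono_set Ioo_subset_Icc_self

theorem Bud_bR0 {W : ℝ → ℝ} {x : ℝ} (h : 0 ≤ W x) : bR W x = 0 := max_eq_right (by linarith)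

theorem Bud_bF0 {W : ℝ → ℝ} {x : ℝ} (h : W x ≤ 0) : bF W x = 0 := max_eq_right h

theorem Bud_refl {W : ℝ → ℝ} {l : ℝ} (h : Nrm W l) (x : ℝ) : W (-x) = W (2 * π - x) := by
  rw [← h.per (-x)]
  congr 1
  ring

/-- the integrand -/
theorem Bud_pt {W : ℝ → ℝ} {z : ℝ × ℝ} (hz : z ∈ Sq1) :
    bR W z.1 * (2 * vq 0 z.1) * src 0 W (ct z.1) z.2 =
      bR W z.1 * (-(2 * ct z.1 * gg 0 (ct z.1) (ct z.2)) * bF W z.2) +
      bR W z.1 * (2 * gk (ct z.2) (ct z.1) * W (-z.2)) := by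
  have h1 := ct_pos hz.1.1 hz.1.2
  have h2 := ct_pos hz.2.1 hz.2.2
  rw [← Bud_gg_gk h2 h1]
  have hv : vq 0 z.1 = ct z.1 := by
    unfold vq
    rw [sub_zero]
    exact max_eq_left h1.le
  unfold src
  rw [hv, min_eq_right h2.le, gg_zero]
  ring

/-- the kernel part -/
theorem Bud_form {b : ℝ → ℝ} (hb : Bd b) : N3 b ≤ -form (hat 0 b) (hat 0 b) (kQ 0) := by
  have h1 := (form_congr (a := hat 0 b) (a' := b) (b := hat 0 b) (b' := b) (kQ 0)
    (fun x hx => hat_zero ⟨hx.1, hx.2.le⟩) (fun x hx => hat_zero ⟨hx.1, hx.2.le⟩)).2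
  obtain ⟨i3, e3⟩ := form_k3 hb
  obtain ⟨i1, e1⟩ := form_l1k hb
  have h2 : form b b (kQ 0) = form b b k3 + form b b l1k := by
    unfold form
    rw [← integral_add i3 i1]
    refine integral_congr_ae (Eventually.of_forall fun z => ?_)
    show b z.1 * b z.2 * kQ 0 (ct z.1) (ct z.2) = b z.1 * b z.2 * k3 (ct z.1) (ct z.2) +
      b z.1 * b z.2 * l1k (ct z.1) (ct z.2)
    unfold kQ
    ring
  rw [h1, h2, e3]
  linarith

theorem Bud_per {f : ℝ → ℝ} (hp : Function.Periodic f (2 * π)) (l : ℝ) :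
    ∫ x in (0:ℝ)..(2 * π), f (x - l) = ∫ x in (0:ℝ)..(2 * π), f x := by
  rw [intervalIntegral.integral_comp_sub_right (fun x => f x) l, zero_sub]
  have h := hp.intervalIntegral_add_eq (-l) 0
  rw [zero_add] at h
  rw [← h]
  congr 1
  ring

theorem Bud_ms {W : ℝ → ℝ} (hp : Function.Periodic W (2 * π)) (hc : Continuous W) :
    ms (bR W) ≤ Ma W := by
  have h := (Tr_mass hp hc).1
  have h1 : 0 ≤ ms (bF W) := Tr_nn fun x => le_max_right _ _
  have h2 : 0 ≤ ms (aL W) := Tr_nn fun x => le_max_right _ _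
  have h3 : 0 ≤ ms (bC W) := Tr_nn fun x => le_max_right _ _
  linarith

/-- the mean term -/
theorem Bud_mean {W : ℝ → ℝ} (hp : Function.Periodic W (2 * π)) (hc : Continuous W) :
    ∫ x in (0:ℝ)..π, bR W x * (2 * vq 0 x) * hh 0 (ct x) ≤ 2 * Ma W := by
  have hM := Bud_ms hp hc
  have hM0 : 0 ≤ ms (bR W) := Tr_nn fun x => le_max_right _ _
  have cR : Continuous (bR W) := hc.neg.max continuous_const
  by_cases hi : IntervalIntegrable (fun x => bR W x * (2 * vq 0 x) * hh 0 (ct x)) volume 0 π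
  · have h1 : ∫ x in (0:ℝ)..π, bR W x * (2 * vq 0 x) * hh 0 (ct x) ≤
        ∫ x in (0:ℝ)..π, 2 * bR W x := by
      rw [intervalIntegral.integral_of_le Real.pi_pos.le,
        intervalIntegral.integral_of_le Real.pi_pos.le, integral_Ioc_eq_integral_Ioo,
        integral_Ioc_eq_integral_Ioo]
      rw [intervalIntegrable_iff_integrableOn_Ioo_of_le Real.pi_pos.le] at hi
      refine setIntegral_mono_on hi ((Bud_intc cR).const_mul 2) measurableSet_Ioo ?_
      intro x hx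
      have h1 := ct_pos hx.1 hx.2
      have hv : vq 0 x = ct x := by
        unfold vq
        rw [sub_zero]
        exact max_eq_left h1.le
      rw [hv]
      have h2 := hh_le h1
      have h3 : 0 ≤ bR W x := le_max_right _ _
      have h4 := mul_le_mul_of_nonneg_left h2 (mul_nonneg (zero_le_two (α := ℝ)) h3)
      linarith
    rw [intervalIntegral.integral_const_mul] at h1
    have h2 : ∫ x in (0:ℝ)..π, bR W x = ms (bR W) := rfl
    linarith
  · rw [intervalIntegral.integral_undef hi]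
    linarith

/-- the case of a long arc N -/
theorem Bud_long {W : ℝ → ℝ} {l : ℝ} (h : Van W l) (hl : π ≤ l)
    (hm : 0 ≤ ∫ x in (0:ℝ)..(2 * π), W x)
    (hi : IntegrableOn (fun z : ℝ × ℝ => bR W z.1 * (2 * vq 0 z.1) * src 0 W (ct z.1) z.2) Sq1) :
    0 ≤ ∫ z in Sq1, bR W z.1 * (2 * vq 0 z.1) * src 0 W (ct z.1) z.2 := by
  have hpi := Real.pi_pos
  have hc := h.continuous
  have l1 := h.l1
  have hn := h.toNrm
  obtain ⟨p, hpd⟩ : ∃ p, p = ct (2 * π - l) := ⟨_, rfl⟩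
  have hp0 : 0 ≤ p := by
    rcases eq_or_lt_of_le hl with h1 | h1
    · rw [hpd, ← h1, show 2 * π - π = π by ring, Bud_ct_pi]
    · rw [hpd]
      exact (ct_pos (by linarith) (by linarith)).le
  obtain ⟨δ0, hδ0, hv0⟩ := h.van
  obtain ⟨δ, hδd⟩ : ∃ δ, δ = min δ0 1 := ⟨_, rfl⟩
  have hδ : 0 < δ := by rw [hδd]; exact lt_min hδ0 one_pos
  have hδ1 : δ ≤ 1 := by rw [hδd]; exact min_le_right _ _
  have hv : ∀ x, 0 ≤ x → x ≤ δ → W x = 0 := fun x hx hx1 =>
    hv0 x (by rw [abs_of_nonneg hx]; exact hx1.trans (by rw [hδd]; exact min_le_left _ _))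
  have hpi3 := Real.pi_gt_three
  have hC : 0 < ct δ := ct_pos hδ (by linarith)
  obtain ⟨B, hB⟩ := (SD_BL_W h.per h.lip).bd
  have hB0 : 0 ≤ B := (abs_nonneg _).trans (hB 0)
  have bRb : ∀ x, |bR W x| ≤ B := by
    intro x
    refine le_trans ?_ (hB x)
    unfold bR
    rcases le_total (W x) 0 with h1 | h1
    · rw [max_eq_left (by linarith), abs_neg]
    · rw [max_eq_right (by linarith)]; simp
  obtain ⟨g, hgd⟩ : ∃ g : ℝ → ℝ, g = fun x => bR W x * (2 * gk p (ct x)) := ⟨_, rfl⟩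
  have mW := hc.measurable
  have mct := SC_ct_meas
  have mg : Measurable g := by
    rw [hgd]; unfold bR gk; fun_prop
  have hD : 0 ≤ 2 * (2 * p + 2 * ct δ * p ^ 2) := by positivity
  have ig : IntegrableOn g (Ioo (0:ℝ) π) := by
    refine Bud_int1 (C := B * (2 * (2 * p + 2 * ct δ * p ^ 2))) mg fun x hx => ?_
    rw [hgd]
    show |bR W x * (2 * gk p (ct x))| ≤ _
    rcases le_or_gt x δ with h1 | h1
    · rw [Bud_bR0 (hv x hx.1.le h1).ge, zero_mul, abs_zero]
      exact mul_nonneg hB0 hD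
    · rw [abs_mul]
      refine mul_le_mul (bRb x) ?_ (abs_nonneg _) hB0
      have hx0 := ct_pos hx.1 hx.2
      have hx1 : ct x < ct δ := ct_lt hδ h1 (by linarith [hx.2])
      have h2 := gk_nonneg hp0 hx0
      rw [abs_of_nonneg (by positivity)]
      rcases le_total (ct x) 1 with h3 | h3
      · have h4 := gk_le_small hp0 hx0 h3
        have : 0 ≤ 2 * ct δ * p ^ 2 := by positivity
        linarith
      · have h4 := gk_le_big hp0 h3
        have h5 : 2 * ct x * p ^ 2 ≤ 2 * ct δ * p ^ 2 := by gcongr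
        linarith
  have iW : IntegrableOn (fun x => W (-x)) (Ioo (0:ℝ) π) := Bud_intc (hc.comp continuous_neg)
  obtain ⟨j1, j2⟩ := prod_Sq1 ig iW
  have hW0 : 0 ≤ ∫ x in (0:ℝ)..π, W (-x) := by
    have h1 := Tr_split h.per hc
    have h2 : ∫ x in (0:ℝ)..π, W x ≤ 0 := by
      have h3 : 0 ≤ ∫ x in (0:ℝ)..π, -W x := by
        refine intervalIntegral.integral_nonneg hpi.le fun x hx => ?_
        have := h.neg x ⟨hx.1, hx.2.trans hl⟩
        linarith
      rw [intervalIntegral.integral_neg] at h3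
      linarith
    linarith
  have hg0 : 0 ≤ ∫ x in (0:ℝ)..π, g x := by
    rw [intervalIntegral.integral_of_le hpi.le, integral_Ioc_eq_integral_Ioo]
    refine setIntegral_nonneg measurableSet_Ioo fun x hx => ?_
    have h1 := gk_nonneg hp0 (ct_pos hx.1 hx.2)
    have h2 : 0 ≤ bR W x := le_max_right _ _
    rw [hgd]
    positivity
  have h1 : 0 ≤ ∫ z in Sq1, g z.1 * W (-z.2) := by
    rw [j2]
    exact mul_nonneg hg0 hW0
  refine h1.trans ?_
  refine setIntegral_mono_on j1 hi (measurableSet_Ioo.prod measurableSet_Ioo) fun z hz => ?_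
  have hz1 := ct_pos hz.1.1 hz.1.2
  have hz2 := ct_pos hz.2.1 hz.2.2
  rw [Bud_pt hz, hgd]
  have h2 : bF W z.2 = 0 := Bud_bF0 (h.neg z.2 ⟨hz.2.1.le, hz.2.2.le.trans hl⟩)
  rw [h2, mul_zero, mul_zero, zero_add]
  show bR W z.1 * (2 * gk p (ct z.1)) * W (-z.2) ≤ _
  have h3 : 0 ≤ bR W z.1 := le_max_right _ _
  have h4 : gk p (ct z.1) * W (-z.2) ≤ gk (ct z.2) (ct z.1) * W (-z.2) := by
    rw [Bud_refl hn]
    rcases le_or_gt z.2 (2 * π - l) with h5 | h5
    · have h6 : p ≤ ct z.2 := by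
        rcases eq_or_lt_of_le h5 with h7 | h7
        · rw [h7, hpd]
        · rw [hpd]
          exact (ct_lt hz.2.1 h7 (by linarith)).le
      exact mul_le_mul_of_nonneg_right (gk_mono hp0 h6 hz1)
        (h.pos _ ⟨by linarith, by linarith [hz.2.1]⟩)
    · have h6 : ct z.2 ≤ p := by
        rw [hpd]
        exact (ct_lt (by linarith) h5 (by linarith [hz.2.2])).le
      exact mul_le_mul_of_nonpos_right (gk_mono hz2.le h6 hz1)
        (h.neg _ ⟨by linarith [hz.2.2], by linarith⟩)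
  have h5 := mul_le_mul_of_nonneg_left h4 (mul_nonneg (zero_le_two (α := ℝ)) h3)
  linarith

/-- the function of `FPt` of the first variable -/
noncomputable def Bud_k (f : ℝ → ℝ) (l ξ : ℝ) : ℝ :=
  bF f ξ * (ct l * max ((ct ξ * ct l - 1) / (ct ξ + ct l)) 0 ^ 2)

theorem Bud_k_int {f : ℝ → ℝ} {l : ℝ} (h : VanA f l) (hl : l < π) :
    IntegrableOn (Bud_k f l) (Ioo (0:ℝ) π) := by
  obtain ⟨K, hK⟩ := h.lip
  have hc : Continuous f := hK.continuous
  obtain ⟨B, hB⟩ := (SD_BL_W h.per h.lip).bd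
  have hB0 : 0 ≤ B := (abs_nonneg _).trans (hB 0)
  have hcl := ct_pos h.l0 hl
  have mf := hc.measurable
  have mct := SC_ct_meas
  have mk : Measurable (Bud_k f l) := by
    unfold Bud_k bF; fun_prop
  refine Bud_int1 (C := B * (ct l * ct l ^ 2)) mk fun x hx => ?_
  have hx0 := ct_pos hx.1 hx.2
  unfold Bud_k
  rw [abs_mul]
  have h1 : |bF f x| ≤ B := by
    refine le_trans ?_ (hB x)
    unfold bF
    rcases le_total (f x) 0 with h1 | h1
    · rw [max_eq_right h1]; simp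
    · rw [max_eq_left h1]
  have h2 : max ((ct x * ct l - 1) / (ct x + ct l)) 0 ≤ ct l := by
    refine max_le ?_ hcl.le
    rw [div_le_iff₀ (by linarith)]
    nlinarith
  have h3 : 0 ≤ max ((ct x * ct l - 1) / (ct x + ct l)) 0 := le_max_right _ _
  refine mul_le_mul h1 ?_ (abs_nonneg _) hB0
  rw [abs_of_nonneg (by positivity)]
  gcongr

theorem Bud_F {f : ℝ → ℝ} {l : ℝ} (h : VanA f l) (hl : l < π) :
    IntegrableOn (fun z : ℝ × ℝ => bF f z.1 * bC f z.2 *
      (ct l * max ((ct z.1 * ct l - 1) / (ct z.1 + ct l)) 0 ^ 2)) Sq1 ∧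
    FPt f l = (∫ x in (0:ℝ)..π, Bud_k f l x) * ms (bC f) := by
  obtain ⟨K, hK⟩ := h.lip
  have hc : Continuous f := hK.continuous
  have cC : Continuous (bC f) := (hc.comp continuous_neg).neg.max continuous_const
  obtain ⟨h1, h2⟩ := prod_Sq1 (Bud_k_int h hl) (Bud_intc cC)
  have e : (fun z : ℝ × ℝ => bF f z.1 * bC f z.2 *
      (ct l * max ((ct z.1 * ct l - 1) / (ct z.1 + ct l)) 0 ^ 2)) =
      fun z : ℝ × ℝ => Bud_k f l z.1 * bC f z.2 := by
    funext z
    unfold Bud_k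
    ring
  refine ⟨by rw [e]; exact h1, ?_⟩
  unfold FPt
  rw [e, h2]
  rfl

/-- `FPt` is the integral of a nonnegative integrable function -/
theorem FPt_int {f : ℝ → ℝ} {l : ℝ} (h : VanA f l) (hl : l < π) :
    IntegrableOn (fun z : ℝ × ℝ => bF f z.1 * bC f z.2 *
      (ct l * max ((ct z.1 * ct l - 1) / (ct z.1 + ct l)) 0 ^ 2)) Sq1 ∧ 0 ≤ FPt f l := by
  refine ⟨(Bud_F h hl).1, ?_⟩
  have hcl := ct_pos h.l0 hl
  refine integral_nonneg fun z => ?_
  have h1 : 0 ≤ bF f z.1 := le_max_right _ _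
  have h2 : 0 ≤ bC f z.2 := le_max_right _ _
  show 0 ≤ bF f z.1 * bC f z.2 *
      (ct l * max ((ct z.1 * ct l - 1) / (ct z.1 + ct l)) 0 ^ 2)
  positivity

theorem Bud_sub1 {f : ℝ → ℝ} {l : ℝ} (h : VanA f l) (hl : l < π) :
    ∫ x in (0:ℝ)..π, Bud_k f l x =
      ∫ x in (0:ℝ)..π, bF (fun x => f (x - l)) x * (ct l * ct x ^ 2) := by
  have hn := (van_frames h).2.2.toNrm
  have l0 := h.l0
  rw [Bud_ind, Bud_ind, ← integral_add_right_eq_self ((Ioo (0:ℝ) π).indicator
    (fun x => bF (fun x => f (x - l)) x * (ct l * ct x ^ 2))) l]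
  refine integral_congr_ae (Eventually.of_forall fun ξ => ?_)
  show (Ioo (0:ℝ) π).indicator (Bud_k f l) ξ = (Ioo (0:ℝ) π).indicator
    (fun x => bF (fun x => f (x - l)) x * (ct l * ct x ^ 2)) (ξ + l)
  by_cases h1 : ξ ∈ Ioo (0:ℝ) π
  · have hs1 := SEv_sin h1.1 (by linarith [h1.2, Real.pi_pos])
    have hs2 := SEv_sin l0 (by linarith [Real.pi_pos])
    have e := SEv_ct_add hs1.ne' hs2.ne'
    have e2 : (ct ξ * ct l - 1) / (ct ξ + ct l) = ct (ξ + l) := by
      have h5 := JKer_ct_sub (ξ + l)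
      rw [show 2 * π - (ξ + l) = 2 * π - ξ - l by ring, e] at h5
      have h6 : (ct ξ * ct l - 1) / (ct ξ + ct l) =
          -((1 - ct ξ * ct l) / (ct ξ + ct l)) := by ring
      linarith
    rw [indicator_of_mem h1]
    unfold Bud_k
    by_cases h2 : ξ + l ∈ Ioo (0:ℝ) π
    · rw [indicator_of_mem h2]
      have hp := ct_pos h2.1 h2.2
      rw [e2, max_eq_left hp.le]
      show bF f ξ * (ct l * ct (ξ + l) ^ 2) = max (f (ξ + l - l)) 0 * (ct l * ct (ξ + l) ^ 2)
      rw [add_sub_cancel_right]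
      rfl
    · rw [indicator_of_notMem h2]
      have h3 : π ≤ ξ + l := by
        by_contra hh
        exact h2 ⟨by linarith [h1.1], by linarith⟩
      have hp : ct (ξ + l) ≤ 0 := by
        rcases eq_or_lt_of_le h3 with h4 | h4
        · rw [← h4, Bud_ct_pi]
        · have := ct_lt Real.pi_pos h4 (by linarith [h1.2])
          rw [Bud_ct_pi] at this
          exact this.le
      rw [e2, max_eq_right hp]
      ring
  · rw [indicator_of_notMem h1]
    by_cases h2 : ξ + l ∈ Ioo (0:ℝ) π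
    · rw [indicator_of_mem h2]
      have h3 : ξ ≤ 0 := by
        by_contra hh
        exact h1 ⟨by linarith, by linarith [h2.2]⟩
      have h4 : bF (fun x => f (x - l)) (ξ + l) = 0 :=
        Bud_bF0 (hn.neg (ξ + l) ⟨h2.1.le, by linarith⟩)
      rw [h4, zero_mul]
    · rw [indicator_of_notMem h2]

theorem Bud_sub2 {f : ℝ → ℝ} {l : ℝ} (h : VanA f l) (hl : l < π) :
    ms (bC f) = ms (bR (fun x => f (x - l))) := by
  have hn := (van_frames h).2.2.toNrm
  have l0 := h.l0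
  have hpi := Real.pi_pos
  unfold ms
  rw [Bud_ind, Bud_ind, ← integral_sub_left_eq_self ((Ioo (0:ℝ) π).indicator
    (bR (fun x => f (x - l)))) volume l]
  refine integral_congr_ae (Eventually.of_forall fun η => ?_)
  show (Ioo (0:ℝ) π).indicator (bC f) η = (Ioo (0:ℝ) π).indicator
    (bR (fun x => f (x - l))) (l - η)
  have e : bC f η = bR (fun x => f (x - l)) (l - η) := by
    show max (-f (-η)) 0 = max (-f (l - η - l)) 0
    congr 3
    ring
  by_cases h1 : η ∈ Ioo (0:ℝ) π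
  · rw [indicator_of_mem h1]
    by_cases h2 : l - η ∈ Ioo (0:ℝ) π
    · rw [indicator_of_mem h2, e]
    · rw [indicator_of_notMem h2, e]
      have h3 : l - η ≤ 0 := by
        by_contra hh
        exact h2 ⟨by linarith, by linarith [h1.1]⟩
      refine Bud_bR0 ?_
      have h4 := Bud_refl hn (η - l)
      rw [show -(η - l) = l - η by ring] at h4
      rw [h4]
      exact hn.pos _ ⟨by linarith [h1.2], by linarith⟩
  · rw [indicator_of_notMem h1]
    by_cases h2 : l - η ∈ Ioo (0:ℝ) π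
    · rw [indicator_of_mem h2]
      have h3 : η ≤ 0 := by
        by_contra hh
        exact h1 ⟨by linarith, by linarith [h2.1]⟩
      exact (Bud_bR0 (hn.pos _ ⟨by linarith, by linarith [h2.2]⟩)).symm
    · rw [indicator_of_notMem h2]

/-- the case of a short arc N -/
theorem Bud_short {f : ℝ → ℝ} {l : ℝ} (h : VanA f l) (hl : l < π)
    (hi : IntegrableOn (fun z : ℝ × ℝ => bR (fun x => f (x - l)) z.1 * (2 * vq 0 z.1) *
      src 0 (fun x => f (x - l)) (ct z.1) z.2) Sq1) :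
    FPt f l ≤ ∫ z in Sq1, bR (fun x => f (x - l)) z.1 * (2 * vq 0 z.1) *
      src 0 (fun x => f (x - l)) (ct z.1) z.2 := by
  obtain ⟨W, hWd⟩ : ∃ W : ℝ → ℝ, W = fun x => f (x - l) := ⟨_, rfl⟩
  have hW : Van W l := by rw [hWd]; exact (van_frames h).2.2
  have e1 := Bud_sub1 h hl
  have e2 := Bud_sub2 h hl
  rw [← hWd] at hi e1 e2 ⊢
  have hn := hW.toNrm
  have l0 := h.l0
  have hpi := Real.pi_pos
  have hc := hW.continuous
  have hcl := ct_pos l0 hl
  obtain ⟨B, hB⟩ := (SD_BL_W hW.per hW.lip).bd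
  have hB0 : 0 ≤ B := (abs_nonneg _).trans (hB 0)
  have mW := hc.measurable
  have mct := SC_ct_meas
  have mg : Measurable (fun x => bF W x * (ct l * ct x ^ 2)) := by
    unfold bF; fun_prop
  have ig : IntegrableOn (fun x => bF W x * (ct l * ct x ^ 2)) (Ioo (0:ℝ) π) := by
    refine Bud_int1 (C := B * (ct l * ct l ^ 2)) mg fun x hx => ?_
    show |bF W x * (ct l * ct x ^ 2)| ≤ _
    rcases le_or_gt x l with h1 | h1
    · rw [Bud_bF0 (hW.neg x ⟨hx.1.le, h1⟩), zero_mul, abs_zero]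
      positivity
    · have hx0 := ct_pos hx.1 hx.2
      have hx1 := ct_lt l0 h1 (by linarith [hx.2])
      rw [abs_mul]
      refine mul_le_mul ?_ ?_ (abs_nonneg _) hB0
      · refine le_trans ?_ (hB x)
        unfold bF
        rcases le_total (W x) 0 with h1 | h1
        · rw [max_eq_right h1]; simp
        · rw [max_eq_left h1]
      · rw [abs_of_nonneg (by positivity)]
        gcongr
  have iR : IntegrableOn (bR W) (Ioo (0:ℝ) π) := Bud_intc (hc.neg.max continuous_const)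
  obtain ⟨j1, j2⟩ := prod_Sq1 iR ig
  have e3 : FPt f l = ∫ z in Sq1, bR W z.1 * (bF W z.2 * (ct l * ct z.2 ^ 2)) := by
    rw [(Bud_F h hl).2, e1, e2, j2, mul_comm]
    rfl
  rw [e3]
  refine setIntegral_mono_on j1 hi (measurableSet_Ioo.prod measurableSet_Ioo) fun z hz => ?_
  have hz1 := ct_pos hz.1.1 hz.1.2
  have hz2 := ct_pos hz.2.1 hz.2.2
  rw [Bud_pt hz]
  have hR0 : 0 ≤ bR W z.1 := le_max_right _ _
  have hF0 : 0 ≤ bF W z.2 := le_max_right _ _
  have h1 : 0 ≤ bR W z.1 * (2 * gk (ct z.2) (ct z.1) * W (-z.2)) := by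
    have h2 := gk_nonneg hz2.le hz1
    have h3 : 0 ≤ W (-z.2) := by
      rw [Bud_refl hn]
      exact hW.pos _ ⟨by linarith [hz.2.2], by linarith [hz.2.1]⟩
    positivity
  refine le_trans ?_ (le_add_of_nonneg_right h1)
  rcases le_or_gt l z.1 with h2 | h2
  · have h3 : bR W z.1 = 0 := Bud_bR0 (hW.pos _ ⟨h2, by linarith [hz.1.2]⟩)
    rw [h3, zero_mul, zero_mul]
  rcases le_or_gt z.2 l with h4 | h4
  · have h5 : bF W z.2 = 0 := Bud_bF0 (hW.neg _ ⟨hz.2.1.le, h4⟩)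
    rw [h5]
    simp
  · have h5 : ct l < ct z.1 := ct_lt hz.1.1 h2 (by linarith)
    have h6 : ct z.2 < ct l := ct_lt l0 h4 (by linarith [hz.2.2])
    have h7 := gg_F hz2 (h6.trans h5)
    have h8 : ct l * ct z.2 ^ 2 ≤ -(2 * ct z.1 * gg 0 (ct z.1) (ct z.2)) := by
      refine le_trans ?_ h7
      gcongr
    have h9 := mul_le_mul_of_nonneg_left h8 (mul_nonneg hR0 hF0)
    linarith

theorem bud_ge {f : ℝ → ℝ} {l : ℝ} (h : VanA f l) :
    N3 (bE f l) + (if l < π then FPt f l else 0) - 2 * (∫ x in (0:ℝ)..(2 * π), f x) * Ma f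
      ≤ 8 * π * BNA f l := by
  have hpi := Real.pi_pos
  obtain ⟨K, hK⟩ := h.lip
  have hW := (van_frames h).2.2
  have hbE : bE f l = bR (fun x => f (x - l)) := rfl
  have hbd := (bd_parts h).2.2.2.2
  rw [hbE] at hbd ⊢
  obtain ⟨hi, e⟩ := G_kernel hW le_rfl
  rw [BNA_eq h.per h.lip, e]
  have h1 := Bud_form hbd
  have h2 : ∫ x in (0:ℝ)..(2 * π), f (x - l) = ∫ x in (0:ℝ)..(2 * π), f x := Bud_per h.per l
  have hMa : Ma (fun x => f (x - l)) = Ma f := by
    unfold Ma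
    exact Bud_per (f := fun x => |f x|) (fun x => by
      show |f (x + 2 * π)| = |f x|
      rw [h.per]) l
  have h3 := Bud_mean hW.per hW.continuous
  rw [hMa] at h3
  have hm := h.mean
  have h4 := mul_le_mul_of_nonneg_left h3 hm
  have h5 : (if l < π then FPt f l else 0) ≤
      ∫ z in Sq1, bR (fun x => f (x - l)) z.1 * (2 * vq 0 z.1) *
      src 0 (fun x => f (x - l)) (ct z.1) z.2 := by
    split_ifs with hl
    · exact Bud_short h hl hi
    · exact Bud_long hW (not_lt.1 hl) (by rw [h2]; exact hm) hi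
  rw [h2]
  linarith

end Pool.Agent.H53.DA
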