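import Pool.Agent.H53.DA.Defs
import Pool.Agent.H51.DG.SB

/-!
# DA static job S3 (UUe): the velocity at the other zero, `l < π`

`log_kernel` (H51/DG/SB.lean): `UU f x = 1/π ∫_0^{2π} f y (log sin((x-y)/2) - log sin(y/2)) dy`.  For `x = -l`:
`sin((-l-y)/2)/sin(y/2) = -(sin(l/2) ct y + cos(l/2)) = -sin(l/2) (ct y + ct l)` (`Real.log` is `log |.|`).
Fold `(0,2π)` to `(0,π)` by `y ↦ 2π - y` (`ct (2π - y) = -ct y`, `f (2π - y) = f (-y)`); for `l < π` the parts are:
right of `c`: `f = bF f` on `(0,π)` (as `2π - l > π`), left: `f (-x) = aL f x - bC f x`, `bC f x = 0` for `x ≥ l`,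
`aL f x = 0` for `x ≤ l`.  `log |sin(l/2)(y' + ct l)| = log (cos(l/2)) + log |1 + y'/ct l|`.
Integrability: `f` bounded, the logarithms are integrable singularities (`ct x = ct l` at `x = l`; near `x = 0`
`ct x → ∞`, `f = 0`); see `SB_prod_int`, `log_sin_integrable`.
-/

set_option autoImplicit false
open Real Set MeasureTheory Filter Topology

namespace Pool.Agent.H53.DA
open Pool.Agent.H45.FL Pool.Agent.H51.DG Pool.Agent.H45.DY Pool.Agent.H90.DC Pool.Agent.H90.DA

theorem UUe_ct_sub (s : ℝ) : ct (2 * π - s) = -ct s := by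
  unfold ct
  rw [show (2 * π - s) / 2 = π - s / 2 by ring, Real.cos_pi_sub, Real.sin_pi_sub, neg_div]

theorem UUe_log {l y : ℝ} (hl0 : 0 < l) (hl : l < π) (hy : Real.sin (y / 2) ≠ 0)
    (hs : Real.sin ((-l - y) / 2) ≠ 0) :
    Real.log (Real.sin ((-l - y) / 2)) - Real.log (Real.sin (y / 2)) =
      Real.log (Real.cos (l / 2)) + Real.log (1 + ct y / ct l) := by
  have hsl : 0 < Real.sin (l / 2) := Real.sin_pos_of_pos_of_lt_pi (by linarith) (by linarith)
  have hcl : 0 < Real.cos (l / 2) := Real.cos_pos_of_mem_Ioo ⟨by linarith, by linarith⟩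
  have e1 : Real.sin ((-l - y) / 2) / Real.sin (y / 2) =
      -(Real.cos (l / 2) * (1 + ct y / ct l)) := by
    rw [show (-l - y) / 2 = -(l / 2) - y / 2 by ring, Real.sin_sub, Real.sin_neg, Real.cos_neg]
    unfold ct
    field_simp
    ring
  have h1 : 1 + ct y / ct l ≠ 0 := by
    intro h0
    rw [h0, mul_zero, neg_zero] at e1
    exact (div_ne_zero hs hy) e1
  rw [← Real.log_div hs hy, e1, Real.log_neg_eq_log, Real.log_mul hcl.ne' h1]

theorem UUe_zero {f : ℝ → ℝ} {l y : ℝ} (h : VanA f l) (h0 : 0 < y) (h1 : y ≤ 2 * π)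
    (hy : Real.sin (y / 2) = 0 ∨ Real.sin ((-l - y) / 2) = 0) : f y = 0 := by
  have hpi := Real.pi_pos
  have hl0 := h.l0
  have hl1 := h.l1
  rcases hy with hy | hy
  · have h2 : y = 2 * π := by
      by_contra h3
      have h4 : y < 2 * π := lt_of_le_of_ne h1 h3
      exact (Real.sin_pos_of_pos_of_lt_pi (by linarith) (by linarith)).ne' hy
    obtain ⟨δ, hδ, h3⟩ := h.van0
    have h4 := h.per 0
    rw [zero_add] at h4
    rw [h2, h4]
    exact h3 0 (by rw [abs_zero]; exact hδ.le)
  · obtain ⟨k, hk⟩ := Real.sin_eq_zero_iff.1 hy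
    have h2 : (k : ℝ) = -1 := by
      have h3 : (-2 : ℝ) < k := by
        by_contra h5
        push Not at h5
        nlinarith
      have h4 : (k : ℝ) < 0 := by
        by_contra h5
        push Not at h5
        nlinarith
      have h5 : (-2 : ℤ) < k := by exact_mod_cast h3
      have h6 : k < (0 : ℤ) := by exact_mod_cast h4
      have h7 : k = -1 := by omega
      rw [h7]
      norm_num
    obtain ⟨δ, hδ, h3⟩ := h.vanl
    have h4 := h.per (-l)
    have h5 : y = -l + 2 * π := by
      rw [h2] at hk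
      linarith
    rw [h5, h4]
    exact h3 (-l) (by rw [neg_add_cancel, abs_zero]; exact hδ.le)

theorem UUe_int {f g : ℝ → ℝ} {l : ℝ} (h : VanA f l) (hl : l < π) (hg : Continuous g)
    (hgf : ∀ y, f y = 0 → g y = 0) :
    IntervalIntegrable (fun y => g y * Real.log (1 + ct y / ct l)) volume 0 (2 * π) ∧
    ∫ y in (0:ℝ)..(2 * π), g y * (Real.log (Real.sin ((-l - y) / 2)) -
      Real.log (Real.sin (y / 2))) =
      (∫ y in (0:ℝ)..(2 * π), g y * Real.log (1 + ct y / ct l)) +
        Real.log (Real.cos (l / 2)) * ∫ y in (0:ℝ)..(2 * π), g y := by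
  have hpi := Real.pi_pos
  have hi0 : IntervalIntegrable (fun y => Real.log (Real.sin (y / 2))) volume 0 (2 * π) := by
    refine (log_sin_integrable 0 0 (2 * π)).congr ?_
    intro y _
    show Real.log (Real.sin ((0 - y) / 2)) = Real.log (Real.sin (y / 2))
    rw [show (0 - y) / 2 = -(y / 2) by ring, Real.sin_neg, Real.log_neg_eq_log]
  have hi1 : IntervalIntegrable (fun y => g y * (Real.log (Real.sin ((-l - y) / 2)) -
      Real.log (Real.sin (y / 2)))) volume 0 (2 * π) :=
    ((log_sin_integrable (-l) 0 (2 * π)).sub hi0).continuousOn_mul hg.continuousOn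
  have hi2 : IntervalIntegrable (fun y => Real.log (Real.cos (l / 2)) * g y) volume 0 (2 * π) :=
    (hg.intervalIntegrable _ _).const_mul _
  have he : ∀ y ∈ Set.uIoc 0 (2 * π), g y * (Real.log (Real.sin ((-l - y) / 2)) -
      Real.log (Real.sin (y / 2))) - Real.log (Real.cos (l / 2)) * g y =
      g y * Real.log (1 + ct y / ct l) := by
    intro y hy
    rw [Set.uIoc_of_le (by linarith)] at hy
    by_cases h1 : Real.sin (y / 2) = 0 ∨ Real.sin ((-l - y) / 2) = 0
    · rw [hgf y (UUe_zero h hy.1 hy.2 h1)]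
      ring
    · push Not at h1
      rw [UUe_log h.l0 hl h1.1 h1.2]
      ring
  constructor
  · exact (hi1.sub hi2).congr he
  · have h3 := intervalIntegral.integral_congr_ae (μ := volume) (a := 0) (b := 2 * π)
      (Filter.Eventually.of_forall he)
    rw [intervalIntegral.integral_sub hi1 hi2, intervalIntegral.integral_const_mul] at h3
    linarith

theorem UUe_flip {f g : ℝ → ℝ} {l : ℝ} (h : VanA f l) (hl : l < π) (hg : Continuous g)
    (hgp : Function.Periodic g (2 * π)) (hgf : ∀ y, f y = 0 → g y = 0) :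
    IntervalIntegrable (fun x => g (-x) * Real.log (1 - ct x / ct l)) volume 0 π ∧
    ∫ x in (0:ℝ)..π, g (-x) * Real.log (1 - ct x / ct l) =
      ∫ y in π..(2 * π), g y * Real.log (1 + ct y / ct l) := by
  have hpi := Real.pi_pos
  have hi := (UUe_int h hl hg hgf).1
  have hi2 : IntervalIntegrable (fun y => g y * Real.log (1 + ct y / ct l)) volume (2 * π) π := by
    refine (hi.mono_set ?_).symm
    rw [Set.uIcc_of_le (by linarith), Set.uIcc_of_le (by linarith)]
    exact Set.Icc_subset_Icc hpi.le le_rfl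
  have he : ∀ x : ℝ, g (2 * π - x) * Real.log (1 + ct (2 * π - x) / ct l) =
      g (-x) * Real.log (1 - ct x / ct l) := by
    intro x
    rw [UUe_ct_sub, show 2 * π - x = -x + 2 * π by ring, hgp (-x), neg_div, ← sub_eq_add_neg]
  constructor
  · have h1 := hi2.comp_sub_left (2 * π)
    rw [sub_self, show 2 * π - π = π by ring] at h1
    exact h1.congr fun x _ => he x
  · have h2 := intervalIntegral.integral_comp_sub_left (a := 0) (b := π)
      (fun y => g y * Real.log (1 + ct y / ct l)) (2 * π)
    rw [sub_zero, show 2 * π - π = π by ring] at h2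
    rw [← h2]
    exact intervalIntegral.integral_congr fun x _ => (he x).symm

theorem UU_el {f : ℝ → ℝ} {l : ℝ} (h : VanA f l) (hl : l < π) :
    IntervalIntegrable (fun x => bF f x * Real.log (1 + ct x / ct l)) volume 0 π ∧
    IntervalIntegrable (fun x => aL f x * Real.log (1 - ct x / ct l)) volume 0 π ∧
    IntervalIntegrable (fun x => bC f x * Real.log (ct x / ct l - 1)) volume 0 π ∧
    π * UU f (-l) = (∫ x in (0:ℝ)..π, bF f x * Real.log (1 + ct x / ct l))
      + (∫ x in (0:ℝ)..π, aL f x * Real.log (1 - ct x / ct l))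
      - (∫ x in (0:ℝ)..π, bC f x * Real.log (ct x / ct l - 1))
      + Real.log (Real.cos (l / 2)) * ∫ x in (0:ℝ)..(2 * π), f x := by
  obtain ⟨K, hK⟩ := h.lip
  have hpi := Real.pi_pos
  have hf : Continuous f := Lip.continuous hK
  have hp := h.per
  have h1 := UUe_int h hl hf (fun y hy => hy)
  have hF := UUe_int (g := fun y => max (f y) 0) h hl (hf.max continuous_const)
    (fun y hy => by show max (f y) 0 = 0; rw [hy, max_self])
  have hpF : Function.Periodic (fun y => max (f y) 0) (2 * π) := fun x => by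
    show max (f (x + 2 * π)) 0 = max (f x) 0
    rw [hp x]
  have hpN : Function.Periodic (fun y => max (-f y) 0) (2 * π) := fun x => by
    show max (-f (x + 2 * π)) 0 = max (-f x) 0
    rw [hp x]
  have hA := UUe_flip (g := fun y => max (f y) 0) h hl (hf.max continuous_const) hpF
    (fun y hy => by show max (f y) 0 = 0; rw [hy, max_self])
  have hN := UUe_flip (g := fun y => max (-f y) 0) h hl (hf.neg.max continuous_const) hpN
    (fun y hy => by show max (-f y) 0 = 0; rw [hy, neg_zero, max_self])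
  have hU := UUe_flip h hl hf hp (fun y hy => hy)
  have i1 : IntervalIntegrable (fun x => bF f x * Real.log (1 + ct x / ct l)) volume 0 π := by
    refine hF.1.mono_set ?_
    rw [Set.uIcc_of_le hpi.le, Set.uIcc_of_le (by linarith)]
    exact Set.Icc_subset_Icc le_rfl (by linarith)
  have hlog : ∀ x : ℝ, Real.log (ct x / ct l - 1) = Real.log (1 - ct x / ct l) := fun x => by
    rw [← Real.log_neg_eq_log, neg_sub]
  have i3 : IntervalIntegrable (fun x => bC f x * Real.log (ct x / ct l - 1)) volume 0 π := by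
    refine hN.1.congr fun x _ => ?_
    show max (-f (-x)) 0 * Real.log (1 - ct x / ct l) = bC f x * Real.log (ct x / ct l - 1)
    rw [hlog x]
    rfl
  refine ⟨i1, hA.1, i3, ?_⟩
  have e0 : π * UU f (-l) = ∫ y in (0:ℝ)..(2 * π), f y * (Real.log (Real.sin ((-l - y) / 2)) -
      Real.log (Real.sin (y / 2))) := by
    rw [log_kernel hp hK (-l)]
    field_simp
  have j1 : IntervalIntegrable (fun y => f y * Real.log (1 + ct y / ct l)) volume 0 π := by
    refine h1.1.mono_set ?_
    rw [Set.uIcc_of_le hpi.le, Set.uIcc_of_le (by linarith)]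
    exact Set.Icc_subset_Icc le_rfl (by linarith)
  have j2 : IntervalIntegrable (fun y => f y * Real.log (1 + ct y / ct l)) volume π (2 * π) := by
    refine h1.1.mono_set ?_
    rw [Set.uIcc_of_le (by linarith), Set.uIcc_of_le (by linarith)]
    exact Set.Icc_subset_Icc hpi.le le_rfl
  have e1 := intervalIntegral.integral_add_adjacent_intervals j1 j2
  have e2 : ∫ x in (0:ℝ)..π, bF f x * Real.log (1 + ct x / ct l) =
      ∫ x in (0:ℝ)..π, f x * Real.log (1 + ct x / ct l) := by
    refine intervalIntegral.integral_congr fun x hx => ?_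
    rw [Set.uIcc_of_le hpi.le] at hx
    show max (f x) 0 * _ = f x * _
    rw [max_eq_left (h.pos x ⟨hx.1, by linarith [hx.2]⟩)]
  have e3 : ∫ x in (0:ℝ)..π, f (-x) * Real.log (1 - ct x / ct l) =
      (∫ x in (0:ℝ)..π, aL f x * Real.log (1 - ct x / ct l)) -
        ∫ x in (0:ℝ)..π, bC f x * Real.log (ct x / ct l - 1) := by
    have i2 : IntervalIntegrable (fun x => aL f x * Real.log (1 - ct x / ct l)) volume 0 π := hA.1
    rw [← intervalIntegral.integral_sub i2 i3]
    refine intervalIntegral.integral_congr fun x _ => ?_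
    show f (-x) * Real.log (1 - ct x / ct l) = aL f x * Real.log (1 - ct x / ct l) -
      bC f x * Real.log (ct x / ct l - 1)
    rw [hlog x, ← sub_mul]
    congr 1
    show f (-x) = max (f (-x)) 0 - max (-f (-x)) 0
    rcases le_total 0 (f (-x)) with h2 | h2
    · rw [max_eq_left h2, max_eq_right (by linarith), sub_zero]
    · rw [max_eq_right h2, max_eq_left (by linarith)]
      ring
  rw [e0, h1.2, ← e1, ← hU.2, e3, e2]
  ring

end Pool.Agent.H53.DA
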