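import Pool.Agent.H53.DA.Defs
import Pool.Agent.H51.DG.SEv
import Pool.Agent.H51.DG.NF
import Pool.Agent.H90.DC.HInt

/-!
# DA static job S2 (Hat): the change of variables `v = y - q`

`xq q θ = π - 2 arctan (ct θ + q)` maps `(0,π)` onto `{x ∈ (0,π) : q < ct x}` (increasing), with
`ct (xq q θ) = ct θ + q` and derivative `(1 + ct θ ^2)/(1 + (ct θ + q)^2)` (for `θ ∈ (0,π)`).
Model: `H51/DG/NF.lean` (`NF_hfd`, `NF_det`, `integrableOn_th_iff`, `integral_th`: 2D change of variables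
with a product map, `integrableOn_image_iff_integrableOn_abs_det_fderiv_smul`, ...).  For `int_hat2` use the product
map `(xq q, xq r)` on `Sq1`; its image is `{z ∈ Sq1 : q < ct z.1 ∧ r < ct z.2}`.
`bd_hat`: near `0`: `xq q θ ≤ θ` for `θ ∈ (0,π]` (`ct` is decreasing), so `hat q b θ = 0` for small `θ`; the factor
is in `[0,1]`; continuity: on `θ > 0` composition, near `θ ≤ 0` locally zero.
`su_congr`: `MMb`, `Am`, `DD (Am ..)` see `b` on `(0,π)` only (`th_mem`).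
-/

set_option autoImplicit false
open Real Set MeasureTheory Filter Topology

namespace Pool.Agent.H53.DA
open Pool.Agent.H45.FL Pool.Agent.H51.DG Pool.Agent.H45.DY Pool.Agent.H90.DC Pool.Agent.H90.DA

theorem Hat_ct (v : ℝ) : ct (π - 2 * Real.arctan v) = v := by
  unfold ct
  have e : (π - 2 * Real.arctan v) / 2 = π / 2 - Real.arctan v := by ring
  rw [e, Real.cos_pi_div_two_sub, Real.sin_pi_div_two_sub, ← Real.tan_eq_sin_div_cos,
    Real.tan_arctan]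

theorem Hat_arctan {θ : ℝ} (h0 : 0 < θ) (h1 : θ ≤ π) : Real.arctan (ct θ) = π / 2 - θ / 2 := by
  have hpi := Real.pi_pos
  have e : ct θ = Real.tan (π / 2 - θ / 2) := by
    rw [Real.tan_eq_sin_div_cos, Real.sin_pi_div_two_sub, Real.cos_pi_div_two_sub]
    rfl
  rw [e, Real.arctan_tan (by linarith) (by linarith)]

theorem Hat_ct_nn {θ : ℝ} (h0 : 0 < θ) (h1 : θ ≤ π) : 0 ≤ ct θ := by
  have hpi := Real.pi_pos
  exact div_nonneg (Real.cos_nonneg_of_mem_Icc ⟨by linarith, by linarith⟩)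
    (SEv_sin h0 (by linarith)).le

theorem ct_xq {q θ : ℝ} (hq : 0 ≤ q) (h : θ ∈ Ioc (0:ℝ) π) : ct (xq q θ) = ct θ + q ∧
    xq q θ ∈ Ioc (0:ℝ) π ∧ xq q θ ≤ θ := by
  have h1 := Hat_ct_nn h.1 h.2
  have h2 := Hat_arctan h.1 h.2
  have h3 : Real.arctan (ct θ) ≤ Real.arctan (ct θ + q) :=
    Real.arctan_strictMono.monotone (by linarith)
  have h4 := Real.arctan_lt_pi_div_two (ct θ + q)
  have h5 : 0 ≤ Real.arctan (ct θ + q) := Real.arctan_nonneg.2 (by linarith)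
  refine ⟨Hat_ct _, ⟨?_, ?_⟩, ?_⟩
  · show 0 < π - 2 * Real.arctan (ct θ + q)
    linarith
  · show π - 2 * Real.arctan (ct θ + q) ≤ π
    linarith
  · show π - 2 * Real.arctan (ct θ + q) ≤ θ
    linarith

theorem Hat_xq_lt {q θ : ℝ} (hq : 0 ≤ q) (h : θ ∈ Ioo (0:ℝ) π) : xq q θ ∈ Ioo (0:ℝ) π :=
  ⟨(ct_xq hq ⟨h.1, h.2.le⟩).2.1.1, (ct_xq hq ⟨h.1, h.2.le⟩).2.2.trans_lt h.2⟩

theorem Hat_hd {q θ : ℝ} (h : θ ∈ Ioo (0:ℝ) π) :
    HasDerivAt (xq q) ((1 + ct θ ^ 2) / (1 + (ct θ + q) ^ 2)) θ := by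
  have h1 := HInt_ct_hd h.1 (by linarith [h.2, Real.pi_pos] : θ < 2 * π)
  have h2 := ((h1.add_const q).arctan.const_mul 2).const_sub π
  refine h2.congr_deriv ?_
  have h3 : (1 + (ct θ + q) ^ 2) ≠ 0 := by positivity
  field_simp

theorem Hat_fac_pos (q y : ℝ) : 0 < (1 + y ^ 2) / (1 + (y + q) ^ 2) := by positivity

theorem Hat_inj {q : ℝ} (hq : 0 ≤ q) : InjOn (xq q) (Ioo (0:ℝ) π) := by
  intro x hx y hy h
  have h1 := (ct_xq hq ⟨hx.1, hx.2.le⟩).1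
  have h2 := (ct_xq hq ⟨hy.1, hy.2.le⟩).1
  have h3 : ct x = ct y := by
    rw [h] at h1
    linarith
  have h4 := Hat_arctan hx.1 hx.2.le
  have h5 := Hat_arctan hy.1 hy.2.le
  rw [h3] at h4
  linarith

theorem Hat_image {q : ℝ} (hq : 0 ≤ q) : xq q '' Ioo (0:ℝ) π = {x ∈ Ioo (0:ℝ) π | q < ct x} := by
  ext x
  constructor
  · rintro ⟨θ, hθ, rfl⟩
    refine ⟨Hat_xq_lt hq hθ, ?_⟩
    rw [(ct_xq hq ⟨hθ.1, hθ.2.le⟩).1]
    linarith [ct_pos hθ.1 hθ.2]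
  · rintro ⟨hx, hqx⟩
    have h1 : 0 < Real.arctan (ct x - q) := Real.arctan_pos.2 (by linarith)
    have h2 := Real.arctan_lt_pi_div_two (ct x - q)
    refine ⟨π - 2 * Real.arctan (ct x - q), ⟨by linarith, by linarith⟩, ?_⟩
    unfold xq
    rw [Hat_ct, sub_add_cancel, Hat_arctan hx.1 hx.2.le]
    ring

theorem Hat_hat {q : ℝ} {b : ℝ → ℝ} {θ : ℝ} (h : θ ∈ Ioc (0:ℝ) π) :
    hat q b θ = b (xq q θ) * ((1 + ct θ ^ 2) / (1 + (ct θ + q) ^ 2)) := by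
  unfold hat
  rw [if_neg (not_le.2 h.1), min_eq_left h.2]

theorem Hat_ct_cont {x : ℝ} (h0 : 0 < x) (h1 : x ≤ π) : ContinuousAt ct x :=
  (HInt_ct_hd h0 (by linarith [Real.pi_pos])).continuousAt

theorem Hat_zero {q : ℝ} (hq : 0 ≤ q) {b : ℝ → ℝ} {δ : ℝ} (hδ : ∀ x, 0 ≤ x → x ≤ δ → b x = 0)
    {x : ℝ} (hx : x ≤ δ) : hat q b x = 0 := by
  unfold hat
  split_ifs with h
  · rfl
  · push Not at h
    have h1 : min x π ∈ Ioc (0:ℝ) π := ⟨lt_min h Real.pi_pos, min_le_right _ _⟩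
    have h2 := ct_xq hq h1
    rw [hδ _ h2.2.1.1.le (h2.2.2.trans ((min_le_left _ _).trans hx)), zero_mul]

theorem bd_hat {q : ℝ} (hq : 0 ≤ q) {b : ℝ → ℝ} (hb : Bd b) : Bd (hat q b) := by
  obtain ⟨δ, hδ0, hδ⟩ := hb.z
  refine ⟨?_, ?_, ⟨δ, hδ0, fun x _ hx => Hat_zero hq hδ hx⟩⟩
  · rw [continuous_iff_continuousAt]
    intro θ
    rcases lt_or_ge θ δ with h | h
    · have h1 : (fun _ : ℝ => (0:ℝ)) =ᶠ[𝓝 θ] hat q b := by
        filter_upwards [Iio_mem_nhds h] with x hx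
        exact (Hat_zero hq hδ (le_of_lt hx)).symm
      exact continuousAt_const.congr h1
    · have hθ : 0 < θ := hδ0.trans_le h
      have h1 : (fun x : ℝ => b (xq q (min x π)) *
          ((1 + ct (min x π) ^ 2) / (1 + (ct (min x π) + q) ^ 2))) =ᶠ[𝓝 θ] hat q b := by
        filter_upwards [Ioi_mem_nhds hθ] with x hx
        unfold hat
        rw [if_neg (not_le.2 hx)]
      have h2 : ContinuousAt (fun x : ℝ => min x π) θ := by fun_prop
      have h3 : ContinuousAt (fun x : ℝ => ct (min x π)) θ :=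
        ContinuousAt.comp (g := ct) (f := fun x : ℝ => min x π)
          (Hat_ct_cont (lt_min hθ Real.pi_pos) (min_le_right _ _)) h2
      have h4 : ContinuousAt (fun x : ℝ => xq q (min x π)) θ := by
        unfold xq
        exact continuousAt_const.sub (continuousAt_const.mul
          (Real.continuous_arctan.continuousAt.comp (h3.add continuousAt_const)))
      have h5 : ContinuousAt (fun x : ℝ => b (xq q (min x π))) θ :=
        hb.c.continuousAt.comp h4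
      refine ContinuousAt.congr (h5.mul ?_) h1
      refine ContinuousAt.div (continuousAt_const.add (h3.pow 2))
        (continuousAt_const.add ((h3.add continuousAt_const).pow 2)) ?_
      positivity
  · intro x hx
    unfold hat
    split_ifs with h
    · exact le_rfl
    · push Not at h
      have h1 : min x π ∈ Ioc (0:ℝ) π := ⟨lt_min h Real.pi_pos, min_le_right _ _⟩
      have h2 := ct_xq hq h1
      exact mul_nonneg (hb.nn _ ⟨h2.2.1.1.le, h2.2.1.2⟩) (Hat_fac_pos _ _).le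

theorem hat_zero {b : ℝ → ℝ} {x : ℝ} (hx : x ∈ Ioc (0:ℝ) π) : hat 0 b x = b x := by
  rw [Hat_hat hx]
  have h1 : xq 0 x = x := by
    unfold xq
    rw [add_zero, Hat_arctan hx.1 hx.2]
    ring
  rw [h1, add_zero, div_self (by positivity), mul_one]

theorem Hat_ind (q : ℝ) (G : ℝ → ℝ) : (fun x => if q < ct x then G x else 0) =
    Set.indicator {x | q < ct x} G := by
  funext x
  simp only [Set.indicator_apply, Set.mem_ofPred_eq]

theorem Hat_meas (q : ℝ) : MeasurableSet {x : ℝ | q < ct x} := by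
  have h : Measurable ct := by
    unfold ct
    fun_prop
  exact measurableSet_lt measurable_const h

theorem Hat_pt {q : ℝ} (hq : 0 ≤ q) {b : ℝ → ℝ} (F : ℝ → ℝ) {θ : ℝ} (h : θ ∈ Ioo (0:ℝ) π) :
    |(1 + ct θ ^ 2) / (1 + (ct θ + q) ^ 2)| • (b (xq q θ) * F (ct (xq q θ) - q)) =
      hat q b θ * F (ct θ) := by
  have h1 : θ ∈ Ioc (0:ℝ) π := ⟨h.1, h.2.le⟩
  rw [Hat_hat h1, abs_of_pos (Hat_fac_pos _ _), (ct_xq hq h1).1, add_sub_cancel_right, smul_eq_mul]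
  ring

theorem int_hat {q : ℝ} (hq : 0 ≤ q) {b : ℝ → ℝ} (hb : Bd b) (F : ℝ → ℝ) :
    (IntegrableOn (fun x => if q < ct x then b x * F (ct x - q) else 0) (Ioo (0:ℝ) π) ↔
      IntegrableOn (fun x => hat q b x * F (ct x)) (Ioo (0:ℝ) π)) ∧
    ∫ x in Ioo (0:ℝ) π, (if q < ct x then b x * F (ct x - q) else 0) =
      ∫ x in Ioo (0:ℝ) π, hat q b x * F (ct x) := by
  have hS : {x | q < ct x} ∩ Ioo (0:ℝ) π = xq q '' Ioo (0:ℝ) π := by
    rw [Hat_image hq]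
    ext x
    simp only [mem_inter_iff, mem_ofPred_eq, and_comm]
  constructor
  · rw [Hat_ind q (fun x => b x * F (ct x - q)), IntegrableOn, IntegrableOn,
      integrable_indicator_iff (Hat_meas q), IntegrableOn, Measure.restrict_restrict (Hat_meas q),
      hS]
    have h1 := integrableOn_image_iff_integrableOn_abs_deriv_smul (s := Ioo (0:ℝ) π)
      measurableSet_Ioo (fun x hx => (Hat_hd (q := q) hx).hasDerivWithinAt) (Hat_inj hq)
      (fun x => b x * F (ct x - q))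
    refine (Iff.trans h1 ?_)
    exact integrableOn_congr_fun (fun x hx => Hat_pt hq F hx) measurableSet_Ioo
  · rw [Hat_ind q (fun x => b x * F (ct x - q)), integral_indicator (Hat_meas q),
      Measure.restrict_restrict (Hat_meas q), hS,
      integral_image_eq_integral_abs_deriv_smul (s := Ioo (0:ℝ) π)
      measurableSet_Ioo (fun x hx => (Hat_hd (q := q) hx).hasDerivWithinAt) (Hat_inj hq)]
    exact setIntegral_congr_fun measurableSet_Ioo (fun x hx => Hat_pt hq F hx)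

noncomputable def Hat_fd (q r : ℝ) (z : ℝ × ℝ) : ℝ × ℝ →L[ℝ] ℝ × ℝ :=
  (ContinuousLinearMap.toSpanSingleton ℝ ((1 + ct z.1 ^ 2) / (1 + (ct z.1 + q) ^ 2))).prodMap
    (ContinuousLinearMap.toSpanSingleton ℝ ((1 + ct z.2 ^ 2) / (1 + (ct z.2 + r) ^ 2)))

theorem Hat_hfd {q r : ℝ} {z : ℝ × ℝ} (hz : z ∈ Ioo (0:ℝ) π ×ˢ Ioo (0:ℝ) π) :
    HasFDerivAt (Prod.map (xq q) (xq r)) (Hat_fd q r z) z :=
  HasFDerivAt.prodMap z (Hat_hd hz.1).hasFDerivAt (Hat_hd hz.2).hasFDerivAt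

theorem Hat_det (q r : ℝ) (z : ℝ × ℝ) : |(Hat_fd q r z).det| =
    ((1 + ct z.1 ^ 2) / (1 + (ct z.1 + q) ^ 2)) * ((1 + ct z.2 ^ 2) / (1 + (ct z.2 + r) ^ 2)) := by
  have h : (Hat_fd q r z).det = ((1 + ct z.1 ^ 2) / (1 + (ct z.1 + q) ^ 2)) *
      ((1 + ct z.2 ^ 2) / (1 + (ct z.2 + r) ^ 2)) := by
    have e : ((Hat_fd q r z : ℝ × ℝ →L[ℝ] ℝ × ℝ) : ℝ × ℝ →ₗ[ℝ] ℝ × ℝ)
        = LinearMap.prodMap
          ((ContinuousLinearMap.toSpanSingleton ℝ ((1 + ct z.1 ^ 2) / (1 + (ct z.1 + q) ^ 2)) :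
            ℝ →L[ℝ] ℝ) : ℝ →ₗ[ℝ] ℝ)
          ((ContinuousLinearMap.toSpanSingleton ℝ ((1 + ct z.2 ^ 2) / (1 + (ct z.2 + r) ^ 2)) :
            ℝ →L[ℝ] ℝ) : ℝ →ₗ[ℝ] ℝ) := rfl
    rw [ContinuousLinearMap.det, e, LinearMap.det_prodMap, LinearMap.det_ring, LinearMap.det_ring]
    simp
  rw [h, abs_of_pos (mul_pos (Hat_fac_pos _ _) (Hat_fac_pos _ _))]

theorem Hat_inj2 {q r : ℝ} (hq : 0 ≤ q) (hr : 0 ≤ r) :
    InjOn (Prod.map (xq q) (xq r)) (Ioo (0:ℝ) π ×ˢ Ioo (0:ℝ) π) := by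
  intro z hz w hw h
  have h1 : xq q z.1 = xq q w.1 := congrArg Prod.fst h
  have h2 : xq r z.2 = xq r w.2 := congrArg Prod.snd h
  exact Prod.ext (Hat_inj hq hz.1 hw.1 h1) (Hat_inj hr hz.2 hw.2 h2)

theorem Hat_image2 {q r : ℝ} (hq : 0 ≤ q) (hr : 0 ≤ r) :
    Prod.map (xq q) (xq r) '' (Ioo (0:ℝ) π ×ˢ Ioo (0:ℝ) π) =
      {z : ℝ × ℝ | q < ct z.1 ∧ r < ct z.2} ∩ (Ioo (0:ℝ) π ×ˢ Ioo (0:ℝ) π) := by
  rw [Set.prodMap_image_prod, Hat_image hq, Hat_image hr]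
  ext z
  simp only [mem_prod, mem_inter_iff, mem_ofPred_eq]
  tauto

theorem Hat_meas2 (q r : ℝ) : MeasurableSet {z : ℝ × ℝ | q < ct z.1 ∧ r < ct z.2} := by
  have h : Measurable ct := by
    unfold ct
    fun_prop
  exact (measurableSet_lt measurable_const (h.comp measurable_fst)).inter
    (measurableSet_lt measurable_const (h.comp measurable_snd))

theorem Hat_pt2 {q r : ℝ} (hq : 0 ≤ q) (hr : 0 ≤ r) {a b : ℝ → ℝ} (F : ℝ → ℝ → ℝ) {z : ℝ × ℝ}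
    (hz : z ∈ Ioo (0:ℝ) π ×ˢ Ioo (0:ℝ) π) :
    |(Hat_fd q r z).det| • (a (xq q z.1) * b (xq r z.2) *
      F (ct (xq q z.1) - q) (ct (xq r z.2) - r)) =
      hat q a z.1 * hat r b z.2 * F (ct z.1) (ct z.2) := by
  have h1 : z.1 ∈ Ioc (0:ℝ) π := ⟨hz.1.1, hz.1.2.le⟩
  have h2 : z.2 ∈ Ioc (0:ℝ) π := ⟨hz.2.1, hz.2.2.le⟩
  rw [Hat_hat h1, Hat_hat h2, Hat_det, (ct_xq hq h1).1, (ct_xq hr h2).1, add_sub_cancel_right,
    add_sub_cancel_right, smul_eq_mul]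
  ring

theorem int_hat2 {q r : ℝ} (hq : 0 ≤ q) (hr : 0 ≤ r) {a b : ℝ → ℝ} (ha : Bd a) (hb : Bd b)
    (F : ℝ → ℝ → ℝ) :
    (IntegrableOn (fun z : ℝ × ℝ => if q < ct z.1 ∧ r < ct z.2 then
      a z.1 * b z.2 * F (ct z.1 - q) (ct z.2 - r) else 0) Sq1 ↔ FInt (hat q a) (hat r b) F) ∧
    ∫ z in Sq1, (if q < ct z.1 ∧ r < ct z.2 then
      a z.1 * b z.2 * F (ct z.1 - q) (ct z.2 - r) else 0) = form (hat q a) (hat r b) F := by
  have hm : MeasurableSet (Ioo (0:ℝ) π ×ˢ Ioo (0:ℝ) π) := measurableSet_Ioo.prod measurableSet_Ioo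
  have hind : (fun z : ℝ × ℝ => if q < ct z.1 ∧ r < ct z.2 then
      a z.1 * b z.2 * F (ct z.1 - q) (ct z.2 - r) else 0) =
      Set.indicator {z : ℝ × ℝ | q < ct z.1 ∧ r < ct z.2}
        (fun z => a z.1 * b z.2 * F (ct z.1 - q) (ct z.2 - r)) := by
    funext z
    simp only [Set.indicator_apply, Set.mem_ofPred_eq]
  constructor
  · rw [hind, IntegrableOn, integrable_indicator_iff (Hat_meas2 q r), IntegrableOn, Sq1,
      Measure.restrict_restrict (Hat_meas2 q r), ← Hat_image2 hq hr]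
    have h1 := integrableOn_image_iff_integrableOn_abs_det_fderiv_smul volume hm
      (fun z hz => (Hat_hfd (q := q) (r := r) hz).hasFDerivWithinAt) (Hat_inj2 hq hr)
      (fun z : ℝ × ℝ => a z.1 * b z.2 * F (ct z.1 - q) (ct z.2 - r))
    refine (Iff.trans h1 ?_)
    exact integrableOn_congr_fun (fun z hz => Hat_pt2 hq hr F hz) hm
  · rw [hind, integral_indicator (Hat_meas2 q r), Sq1,
      Measure.restrict_restrict (Hat_meas2 q r), ← Hat_image2 hq hr,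
      integral_image_eq_integral_abs_det_fderiv_smul volume hm
      (fun z hz => (Hat_hfd (q := q) (r := r) hz).hasFDerivWithinAt) (Hat_inj2 hq hr)]
    exact setIntegral_congr_fun hm (fun z hz => Hat_pt2 hq hr F hz)

theorem form_congr {a a' b b' : ℝ → ℝ} (F : ℝ → ℝ → ℝ) (ha : ∀ x ∈ Ioo (0:ℝ) π, a x = a' x)
    (hb : ∀ x ∈ Ioo (0:ℝ) π, b x = b' x) :
    (FInt a b F ↔ FInt a' b' F) ∧ form a b F = form a' b' F := by
  have hm : MeasurableSet (Ioo (0:ℝ) π ×ˢ Ioo (0:ℝ) π) := measurableSet_Ioo.prod measurableSet_Ioo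
  have h : EqOn (fun z : ℝ × ℝ => a z.1 * b z.2 * F (ct z.1) (ct z.2))
      (fun z : ℝ × ℝ => a' z.1 * b' z.2 * F (ct z.1) (ct z.2))
      (Ioo (0:ℝ) π ×ˢ Ioo (0:ℝ) π) := by
    intro z hz
    show a z.1 * b z.2 * F (ct z.1) (ct z.2) = a' z.1 * b' z.2 * F (ct z.1) (ct z.2)
    rw [ha _ hz.1, hb _ hz.2]
  exact ⟨integrableOn_congr_fun h hm, setIntegral_congr_fun hm h⟩

theorem su_congr {a a' : ℝ → ℝ} (ha : ∀ x ∈ Ioo (0:ℝ) π, a x = a' x) :
    Su a = Su a' ∧ Su1 a = Su1 a' ∧ N3 a = N3 a' := by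
  have h1 : ∀ m : ℝ, Am m a = Am m a' := by
    intro m
    funext r
    unfold Am MMb
    have h2 : ∫ x in (0:ℝ)..(th r), a x = ∫ x in (0:ℝ)..(th r), a' x := by
      refine intervalIntegral.integral_congr_ae (Eventually.of_forall fun x hx => ?_)
      rw [uIoc_of_le (th_mem r).1.le] at hx
      exact ha x ⟨hx.1, hx.2.trans_lt (th_mem r).2⟩
    rw [h2]
  unfold Su Su1 N3
  rw [h1 (3 / 2), h1 (1 / 2)]
  exact ⟨rfl, rfl, rfl⟩

theorem ms_hat {q : ℝ} (hq : 0 ≤ q) {b : ℝ → ℝ} (hb : Bd b) :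
    0 ≤ ms (hat q b) ∧ ms (hat q b) ≤ ms b ∧ 0 ≤ vs (hat q b) ∧
    vs (hat q b) = ∫ x in (0:ℝ)..π, b x * vq q x := by
  have hB := bd_hat hq hb
  have hpi := Real.pi_pos
  have hi : ∀ g : ℝ → ℝ, ∫ x in (0:ℝ)..π, g x = ∫ x in Ioo (0:ℝ) π, g x := fun g => by
    rw [intervalIntegral.integral_of_le hpi.le, integral_Ioc_eq_integral_Ioo]
  have hc : ∀ g : ℝ → ℝ, Continuous g → IntegrableOn g (Ioo (0:ℝ) π) := fun g hg =>
    (hg.integrableOn_Icc (μ := volume) (a := 0) (b := π)).mono_set Ioo_subset_Icc_self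
  have h1 := int_hat hq hb (fun _ => 1)
  have h2 := int_hat hq hb (fun v => v)
  simp only [mul_one] at h1
  refine ⟨?_, ?_, ?_, ?_⟩
  · unfold ms
    rw [hi]
    exact setIntegral_nonneg measurableSet_Ioo fun x hx => hB.nn x ⟨hx.1.le, hx.2.le⟩
  · unfold ms
    rw [hi, hi, ← h1.2]
    refine setIntegral_mono_on (h1.1.2 (hc _ hB.c)) (hc _ hb.c) measurableSet_Ioo fun x hx => ?_
    split_ifs
    · exact le_rfl
    · exact hb.nn x ⟨hx.1.le, hx.2.le⟩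
  · unfold vs
    rw [hi]
    exact setIntegral_nonneg measurableSet_Ioo fun x hx =>
      mul_nonneg (hB.nn x ⟨hx.1.le, hx.2.le⟩) (ct_pos hx.1 hx.2).le
  · unfold vs
    rw [hi, hi, ← h2.2]
    refine setIntegral_congr_fun measurableSet_Ioo fun x hx => ?_
    show (if q < ct x then b x * (ct x - q) else 0) = b x * vq q x
    unfold vq
    split_ifs with h
    · rw [max_eq_left (by linarith)]
    · rw [max_eq_right (by linarith), mul_zero]

end Pool.Agent.H53.DA
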