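import Pool.Agent.H53.DA.Defs
import Pool.Agent.H44.DA.SuB

/-!
# DA static job S6 (K2): the form of the kernel `k2`; surplus of the degree one and three forms

`k2 (e^{-r}) (e^{-s}) = e^{-(r+s)} n2 |r-s|`, `n2 τ = 1 + e^τ log(1 - e^{-τ}) + e^{-τ} log(e^τ - 1)`, `τ > 0`;
`n2' = e^τ log(1 - e^{-τ}) - e^{-τ} log(e^τ - 1) + coth(τ/2)`, `n2'' = n2 - 1/(2 sinh²(τ/2))`; `n2, n2' → 0` at `∞`,
`n2' - 2/τ → 0` at `0`.  With `A = Am 1 b`, `C = corr A A`, `g = A' + A`: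
`form b b k2 = ∫ n2(|τ|) corr g g = 2 ∫_0^∞ n2 (C - C'') = 2 [∫_0^∞ (1/(2 sinh²(τ/2))) (C(τ) - C(0)) dτ - C(0)]
 = - ∫_0^∞ DD A τ /(2 sinh²(τ/2)) dτ - 2 ∫ A² ≤ 0`.  Same proof as `KerN.by_parts`, `KerN.diff_formula` (H51/DG/NB, NC)
with `2 Lpp` replaced by `1/(2 sinh²(τ/2))` and `1/sinh(τ/2)` replaced by `coth(τ/2) - 1`.
ALTERNATIVE (uses the existing theorem only): `n2 = n* + n**`, where `n*` satisfies `KerN 1` and `n**` is regular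
(`KerR`-like); or: for `0 < τ`, `1/(2 sinh²) = 2 Lpp - 1/(2(cosh(τ/2)+1))`.
`form_l1k_su`: as `form_l1k` (NG.lean): `-form b b l1k = 2 ∫_0^∞ Lpp DD(Am (1/2) b)` and `Lpp_ge`: `Lpp ≥ 1/8` on `(0,2]`.
`N3_su`: the same with `N3`.
-/

set_option autoImplicit false
open Real Set MeasureTheory Filter Topology

namespace Pool.Agent.H53.DA
open Pool.Agent.H45.FL Pool.Agent.H51.DG Pool.Agent.H45.DY Pool.Agent.H90.DC Pool.Agent.H90.DA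

theorem form_k2 {b : ℝ → ℝ} (hb : Bd b) : FInt b b k2 ∧ form b b k2 ≤ 0 :=
  Pool.Agent.H44.DA.k2_su hb

theorem form_l1k_su {b : ℝ → ℝ} (hb : Bd b) : FInt b b l1k ∧ Su1 b / 4 ≤ -form b b l1k :=
  Pool.Agent.H44.DA.l1k_su hb

theorem N3_su {b : ℝ → ℝ} (hb : Bd b) : 0 ≤ Su b ∧ 0 ≤ Su1 b ∧ Su b / 4 ≤ N3 b :=
  Pool.Agent.H44.DA.n3_su hb

end Pool.Agent.H53.DA
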