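import Pool.Agent.H53.DA.Defs
import Pool.Agent.H51.DG.SG
import Pool.Agent.H51.DG.SQ
import Pool.Agent.H51.DG.RF

/-!
# DA static job S4a (EAker): the energy in kernel form, `EA f l = EAk f l`

`EAk f l = 1/π ∫∫_{P×N} |f(x)||f(y)| ct(x-y)^3`, `P = (0,2π-l)`, `N = (2π-l,2π)`.
First line of `EA`: with `W = -f`, `Nrm W (2π-l)`: `2 ∫_P f' HT f' - 2 ∫_N f' HT f' = E2 W (2π-l)`
(shift the integral over `(-l,0)` by `2π`; `sg = -1` on P, `+1` on N), and `E2_kernel` (H51/DG/SG.lean) with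
`SE`: `E2 = 1/π ∫∫_{P×N} |f||f| cos/sin³((x-y)/2)` (the kernel `SE l x y` vanishes for `x,y` on the same arc and is
symmetric, `SE_symm`, `SE_same` in SEw.lean; see how `SG_f_split`, `SG_f_sym` split `Sq2`).
Second line: `∫_P f HT f - ∫_N f HT f = ∫_0^{2π} |f| HT f = 1/(4π) ∫∫_{Sq2} (|f(x)| f(y) - |f(y)| f(x)) ct(x-y)`
(`HT_fubini`, `HT_fubini_lip` in SC.lean with `F = |f|`, Lipschitz) `= -1/π ∫∫_{P×N} |f||f| ct(x-y)`.
Sum: `cos/sin³ - cos/sin = (cos/sin)³ = ct³`.  (For `f` of class `C²` and periodic: `Lip` by `SQ_lip`, SQ.lean.)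
Integrability of the kernel: as `SE_integrable`.
-/

set_option autoImplicit false
open Real Set MeasureTheory Filter Topology

namespace Pool.Agent.H53.DA
open Pool.Agent.H45.FL Pool.Agent.H51.DG Pool.Agent.H45.DY Pool.Agent.H90.DC Pool.Agent.H90.DA

theorem EAker_nrm {f : ℝ → ℝ} {l : ℝ} (h : TwoA f l) : Nrm (fun x => -f x) (2 * π - l) := by
  refine ⟨?_, ?_, ?_, ?_, ?_⟩
  · intro x
    show -f (x + 2 * π) = -f x
    rw [h.per x]
  · linarith [h.l1]
  · linarith [h.l0]
  · intro x hx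
    have h1 := h.pos x hx
    show -f x ≤ 0
    linarith
  · intro x hx
    have e : f (x - 2 * π) = f x := h.per.sub_eq x
    have h1 := h.neg (x - 2 * π) ⟨by linarith [hx.1], by linarith [hx.2]⟩
    show 0 ≤ -f x
    linarith

theorem EAker_lip {f : ℝ → ℝ} {K : ℝ} (h : Lip K f) : Lip K (fun x => -f x) := by
  intro x y
  have h1 := h x y
  show |-f x - -f y| ≤ K * |x - y|
  have e : -f x - -f y = -(f x - f y) := by ring
  rw [e, abs_neg]
  exact h1

theorem EAker_gen {f : ℝ → ℝ} {l K : ℝ} (h : TwoA f l) (hK : Lip K f) {k : ℝ → ℝ}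
    (mk : Measurable k) (hk : ∀ u, |k u| ≤ (|Real.sin (u / 2)|⁻¹) ^ 3) :
    Integrable (fun z : ℝ × ℝ => |f z.1| * |f z.2| * k (z.1 - z.2))
      ((SG_mu (2 * π - l)).prod (SG_nu (2 * π - l))) := by
  have hp := Real.pi_pos
  have hN := EAker_nrm h
  have hK' := EAker_lip hK
  have hK0 := hK.nonneg
  have hc := hK.continuous
  have m1 : Measurable (fun z : ℝ × ℝ => |f z.1| * |f z.2|) := by
    have c : Continuous (fun z : ℝ × ℝ => |f z.1| * |f z.2|) := by fun_prop
    exact c.measurable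
  have m2 : Measurable (fun z : ℝ × ℝ => k (z.1 - z.2)) :=
    mk.comp (measurable_fst.sub measurable_snd)
  refine SG_key hN.l0 hN.l1 (m1.mul m2) (C := K ^ 2 * π ^ 3) (by positivity) ?_
  intro x hx y hy
  obtain ⟨hm, hs, hne⟩ := SG_sin_xy hx hy
  obtain ⟨bx, by'⟩ := SG_bnd hN hK' hx hy
  have bx : |f x| ≤ K * min (y - x) (2 * π - (y - x)) := by
    have e : |(-f x)| = |f x| := abs_neg _
    rw [← e]
    exact bx
  have by' : |f y| ≤ K * min (y - x) (2 * π - (y - x)) := by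
    have e : |(-f y)| = |f y| := abs_neg _
    rw [← e]
    exact by'
  have hinv := SG_inv_le hm hs
  have h3 := hk (x - y)
  show |(|f x| * |f y| * k (x - y))| ≤ K ^ 2 * π ^ 3 *
    (1 / min (y - x) (2 * π - (y - x)))
  generalize min (y - x) (2 * π - (y - x)) = m at hm hs bx by' hinv ⊢
  have ha0 : 0 ≤ |Real.sin ((x - y) / 2)|⁻¹ := by positivity
  rw [abs_mul, abs_mul, abs_abs, abs_abs]
  calc |f x| * |f y| * |k (x - y)|
      ≤ ((K * m) * (K * m)) * (π * (1 / m)) ^ 3 := by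
        refine mul_le_mul (mul_le_mul bx by' (abs_nonneg _) (by positivity))
          (h3.trans (pow_le_pow_left₀ ha0 hinv 3)) (abs_nonneg _) (by positivity)
    _ = K ^ 2 * π ^ 3 * (1 / m) := by field_simp

theorem EAker_ct_le (u : ℝ) : |ct u| ≤ |Real.sin (u / 2)|⁻¹ := by
  unfold ct
  rw [abs_div, ← one_div]
  exact div_le_div_of_nonneg_right (Real.abs_cos_le_one _) (abs_nonneg _)

theorem EAker_k1 (u : ℝ) : |ct u| ≤ (|Real.sin (u / 2)|⁻¹) ^ 3 := by
  refine (EAker_ct_le u).trans ?_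
  by_cases hs : Real.sin (u / 2) = 0
  · rw [hs]
    norm_num
  · have h0 : 0 < |Real.sin (u / 2)| := abs_pos.2 hs
    have h1 : 1 ≤ |Real.sin (u / 2)|⁻¹ := (one_le_inv₀ h0).2 (Real.abs_sin_le_one _)
    exact le_self_pow₀ h1 (by norm_num)

theorem EAker_k3 (u : ℝ) : |ct u ^ 3| ≤ (|Real.sin (u / 2)|⁻¹) ^ 3 := by
  rw [abs_pow]
  exact pow_le_pow_left₀ (abs_nonneg _) (EAker_ct_le u) 3

theorem EAker_kE (u : ℝ) :
    |Real.cos (u / 2) / Real.sin (u / 2) ^ 3| ≤ (|Real.sin (u / 2)|⁻¹) ^ 3 := by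
  rw [abs_div, abs_pow, inv_pow, ← one_div]
  exact div_le_div_of_nonneg_right (Real.abs_cos_le_one _) (by positivity)

theorem EAk_int {f : ℝ → ℝ} {l : ℝ} (h : TwoA f l) (hL : ∃ K, Lip K f) :
    IntegrableOn (fun z : ℝ × ℝ => |f z.1| * |f z.2| * ct (z.1 - z.2) ^ 3)
      (Ioo (0:ℝ) (2 * π - l) ×ˢ Ioo (2 * π - l) (2 * π)) := by
  obtain ⟨K, hK⟩ := hL
  have h1 := EAker_gen h hK (k := fun u => ct u ^ 3) (SC_ct_meas.pow_const 3) EAker_k3
  unfold IntegrableOn
  rw [← SG_prod_eq]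
  exact h1

theorem EAker_HTneg (V : ℝ → ℝ) (x : ℝ) : HT (fun y => -V y) x = -HT V x := by
  unfold HT
  have e : (fun s : ℝ => (-V (x - s) - -V (x + s)) * (Real.cos (s / 2) / Real.sin (s / 2))) =
      fun s => -((V (x - s) - V (x + s)) * (Real.cos (s / 2) / Real.sin (s / 2))) := by
    funext s
    ring
  have e2 : ∫ s in (0:ℝ)..π, (-V (x - s) - -V (x + s)) * (Real.cos (s / 2) / Real.sin (s / 2)) =
      -∫ s in (0:ℝ)..π, (V (x - s) - V (x + s)) * (Real.cos (s / 2) / Real.sin (s / 2)) := by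
    rw [← intervalIntegral.integral_neg]
    exact congrArg (fun g : ℝ → ℝ => ∫ s in (0:ℝ)..π, g s) e
  rw [e2]
  ring

theorem EAker_sgint {g : ℝ → ℝ} (hg : Continuous g) {L : ℝ} (h0 : 0 < L) (h1 : L < 2 * π) :
    ∫ x in (0:ℝ)..(2 * π), sg L x * g x =
      (∫ x in L..(2 * π), g x) - ∫ x in (0:ℝ)..L, g x := by
  have i1 : IntervalIntegrable (fun x => sg L x * g x) volume 0 L := by
    have h2 : IntervalIntegrable (fun x => -g x) volume 0 L := (hg.neg).intervalIntegrable _ _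
    rw [intervalIntegrable_iff_integrableOn_Ioo_of_le h0.le] at h2 ⊢
    refine h2.congr_fun (fun x hx => ?_) measurableSet_Ioo
    show -g x = sg L x * g x
    rw [SG_sgx hx]
    ring
  have i2 : IntervalIntegrable (fun x => sg L x * g x) volume L (2 * π) := by
    have h2 : IntervalIntegrable g volume L (2 * π) := hg.intervalIntegrable _ _
    rw [intervalIntegrable_iff_integrableOn_Ioo_of_le h1.le] at h2 ⊢
    refine h2.congr_fun (fun x hx => ?_) measurableSet_Ioo
    show g x = sg L x * g x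
    rw [SG_sgy hx]
    ring
  rw [← intervalIntegral.integral_add_adjacent_intervals i1 i2]
  have e1 : ∫ x in (0:ℝ)..L, sg L x * g x = -∫ x in (0:ℝ)..L, g x := by
    rw [← intervalIntegral.integral_neg]
    rw [intervalIntegral.integral_of_le h0.le, intervalIntegral.integral_of_le h0.le,
      integral_Ioc_eq_integral_Ioo, integral_Ioc_eq_integral_Ioo]
    refine setIntegral_congr_fun measurableSet_Ioo (fun x hx => ?_)
    show sg L x * g x = -g x
    rw [SG_sgx hx]
    ring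
  have e2 : ∫ x in L..(2 * π), sg L x * g x = ∫ x in L..(2 * π), g x := by
    rw [intervalIntegral.integral_of_le h1.le, intervalIntegral.integral_of_le h1.le,
      integral_Ioc_eq_integral_Ioo, integral_Ioc_eq_integral_Ioo]
    refine setIntegral_congr_fun measurableSet_Ioo (fun x hx => ?_)
    show sg L x * g x = g x
    rw [SG_sgy hx]
    ring
  rw [e1, e2]
  ring

theorem EAker_shift {g : ℝ → ℝ} (hg : Function.Periodic g (2 * π)) (l : ℝ) :
    ∫ x in (-l)..0, g x = ∫ x in (2 * π - l)..(2 * π), g x := by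
  have e : (fun x => g (x + 2 * π)) = g := by
    funext x
    exact hg x
  have h1 : ∫ x in (-l)..0, g (x + 2 * π) = ∫ x in (-l + 2 * π)..(0 + 2 * π), g x :=
    intervalIntegral.integral_comp_add_right g (2 * π)
  rw [e] at h1
  rw [h1, zero_add]
  have e2 : -l + 2 * π = 2 * π - l := by ring
  rw [e2]

theorem EAker_dper {f : ℝ → ℝ} (h : Function.Periodic f (2 * π)) :
    Function.Periodic (deriv f) (2 * π) := by
  intro x
  have e : (fun y => f (y + 2 * π)) = f := by
    funext y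
    exact h y
  have h1 := deriv_comp_add_const f (2 * π) x
  rw [e] at h1
  exact h1.symm

theorem EAker_dlip {f : ℝ → ℝ} (h : Function.Periodic f (2 * π)) (hs : ContDiff ℝ 2 f) :
    Continuous (deriv f) ∧ ∃ K, Lip K (deriv f) := by
  have hV1 : ContDiff ℝ 1 (deriv f) := by
    have e12 : ((1 : WithTop ℕ∞) + 1) = 2 := one_add_one_eq_two
    have h2 : ContDiff ℝ ((1 : WithTop ℕ∞) + 1) f := by
      rw [e12]
      exact hs
    exact ((contDiff_succ_iff_deriv (n := 1) (f := f)).1 h2).2.2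
  have hVd : Differentiable ℝ (deriv f) := hV1.differentiable (by norm_num)
  have hVc : Continuous (deriv (deriv f)) := hV1.continuous_deriv (le_refl _)
  obtain ⟨B2, hB2⟩ := SC_bdd (EAker_dper (EAker_dper h)) hVc
  refine ⟨hV1.continuous, B2, ?_⟩
  intro x y
  have h1 := Convex.norm_image_sub_le_of_norm_deriv_le (f := deriv f) (C := B2) (s := univ)
    (x := y) (y := x) (fun z _ => hVd z)
    (fun z _ => by rw [Real.norm_eq_abs]; exact hB2 z) convex_univ (mem_univ _) (mem_univ _)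
  rw [Real.norm_eq_abs, Real.norm_eq_abs] at h1
  exact h1

theorem EAker_E2 {f : ℝ → ℝ} {l : ℝ} (h : TwoA f l) (hs : ContDiff ℝ 2 f) :
    (2 * ∫ x in (0:ℝ)..(2 * π - l), deriv f x * HT (deriv f) x) -
      2 * ∫ x in (-l)..0, deriv f x * HT (deriv f) x = E2 (fun x => -f x) (2 * π - l) := by
  obtain ⟨cd, K, hK⟩ := EAker_dlip h.per hs
  have pd := EAker_dper h.per
  have cH : Continuous (HT (deriv f)) := continuous_HT hK
  have pH : Function.Periodic (HT (deriv f)) (2 * π) := HT_per pd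
  have cg : Continuous (fun x => deriv f x * HT (deriv f) x) := cd.mul cH
  have pg : Function.Periodic (fun x => deriv f x * HT (deriv f) x) (2 * π) := by
    intro x
    show deriv f (x + 2 * π) * HT (deriv f) (x + 2 * π) = deriv f x * HT (deriv f) x
    rw [pd x, pH x]
  have hN := EAker_nrm h
  have e := EAker_sgint cg hN.l0 hN.l1
  have ed : deriv (fun x => -f x) = fun x => -deriv f x := by
    funext x
    exact deriv.fun_neg
  unfold E2
  have e3 : (fun x => sg (2 * π - l) x * deriv (fun x => -f x) x * HT (deriv (fun x => -f x)) x) =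
      fun x => sg (2 * π - l) x * (deriv f x * HT (deriv f) x) := by
    funext x
    rw [ed, EAker_HTneg]
    ring
  have e4 : ∫ x in (0:ℝ)..(2 * π),
      sg (2 * π - l) x * deriv (fun x => -f x) x * HT (deriv (fun x => -f x)) x =
      ∫ x in (0:ℝ)..(2 * π), sg (2 * π - l) x * (deriv f x * HT (deriv f) x) :=
    congrArg (fun g : ℝ → ℝ => ∫ x in (0:ℝ)..(2 * π), g x) e3
  rw [e4, e, EAker_shift pg l]
  ring

theorem EAker_mass {f : ℝ → ℝ} {l : ℝ} (h : TwoA f l) (hs : ContDiff ℝ 2 f) :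
    (∫ x in (0:ℝ)..(2 * π - l), f x * HT f x) - ∫ x in (-l)..0, f x * HT f x =
      -(1 / π * ∫ z, |f z.1| * |f z.2| * ct (z.1 - z.2)
        ∂((SG_mu (2 * π - l)).prod (SG_nu (2 * π - l)))) := by
  have hp := Real.pi_pos
  obtain ⟨K, hK⟩ := SQ_lip h.per hs
  have cf := hK.continuous
  have cH : Continuous (HT f) := continuous_HT hK
  have pH : Function.Periodic (HT f) (2 * π) := HT_per h.per
  have cg : Continuous (fun x => f x * HT f x) := cf.mul cH
  have pg : Function.Periodic (fun x => f x * HT f x) (2 * π) := by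
    intro x
    show f (x + 2 * π) * HT f (x + 2 * π) = f x * HT f x
    rw [h.per x, pH x]
  have hN := EAker_nrm h
  have e := EAker_sgint cg hN.l0 hN.l1
  have hP : ∀ x ∈ Ioo (0:ℝ) (2 * π - l), |f x| = f x := by
    intro x hx
    exact abs_of_nonneg (h.pos x ⟨hx.1.le, hx.2.le⟩)
  have hNe : ∀ x ∈ Ioo (2 * π - l) (2 * π), |f x| = -f x := by
    intro x hx
    have h1 := hN.pos x ⟨hx.1.le, hx.2.le⟩
    have h2 : 0 ≤ -f x := h1
    exact abs_of_nonpos (by linarith)
  have pF : Function.Periodic (fun x => |f x|) (2 * π) := by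
    intro x
    show |f (x + 2 * π)| = |f x|
    rw [h.per x]
  obtain ⟨B, hB⟩ := SC_bdd h.per cf
  have mF : Measurable (fun x => |f x|) := cf.abs.measurable
  have bF' : ∀ x, |(|f x|)| ≤ B := by
    intro x
    rw [abs_abs]
    exact hB x
  have I1 := EAker_gen h hK (k := ct) SC_ct_meas EAker_k1
  set g : ℝ × ℝ → ℝ := fun z => (|f z.1| * f z.2 - |f z.2| * f z.1) * ct (z.1 - z.2) with hg
  have gmn : g =ᵐ[(SG_mu (2 * π - l)).prod (SG_nu (2 * π - l))]
      fun z => -2 * (|f z.1| * |f z.2| * ct (z.1 - z.2)) := by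
    rw [SG_prod_eq]
    refine (ae_restrict_iff' (measurableSet_Ioo.prod measurableSet_Ioo)).2
      (Filter.Eventually.of_forall ?_)
    rintro ⟨x, y⟩ ⟨hx, hy⟩
    show (|f x| * f y - |f y| * f x) * ct (x - y) = -2 * (|f x| * |f y| * ct (x - y))
    rw [hP x hx, hNe y hy]
    ring
  have hgi : Integrable g ((SG_mu (2 * π - l)).prod (SG_nu (2 * π - l))) :=
    (integrable_congr gmn).2 (I1.const_mul (-2))
  have hsplit := SG_split hN.l0 hN.l1 (g := g) (by
      intro x y
      show (|f x| * f y - |f y| * f x) * ct (x - y) =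
        (|f y| * f x - |f x| * f y) * ct (y - x)
      rw [← neg_sub x y, SC_ct_neg]
      ring) (by
      intro x hx y hy
      show (|f x| * f y - |f y| * f x) * ct (x - y) = 0
      rw [hP x hx, hP y hy]
      ring) (by
      intro x hx y hy
      show (|f x| * f y - |f y| * f x) * ct (x - y) = 0
      rw [hNe x hx, hNe y hy]
      ring) hgi
  have hfub := HT_fubini mF bF' pF h.per hK hsplit.1
  have hgint : ∫ z, g z ∂((SG_mu (2 * π - l)).prod (SG_nu (2 * π - l))) =
      -2 * ∫ z, |f z.1| * |f z.2| * ct (z.1 - z.2)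
        ∂((SG_mu (2 * π - l)).prod (SG_nu (2 * π - l))) := by
    rw [integral_congr_ae gmn, integral_const_mul]
  have hgsq : ∫ z in Sq2, (|f z.1| * f z.2 - |f z.2| * f z.1) * ct (z.1 - z.2) =
      2 * ∫ z, g z ∂((SG_mu (2 * π - l)).prod (SG_nu (2 * π - l))) := hsplit.2
  have hE : ∫ x in (0:ℝ)..(2 * π), sg (2 * π - l) x * (f x * HT f x) =
      -∫ x in (0:ℝ)..(2 * π), |f x| * HT f x := by
    rw [← intervalIntegral.integral_neg]
    have h2p := SC_two_pi_pos
    have hae : ∀ᵐ x : ℝ, x ≠ 2 * π - l := by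
      have h3 : (volume : Measure ℝ) {2 * π - l} = 0 := Real.volume_singleton
      rw [ae_iff]
      have e5 : {a : ℝ | ¬a ≠ 2 * π - l} = {2 * π - l} := by
        ext a
        simp
      rw [e5]
      exact h3
    have hae2 : ∀ᵐ x : ℝ, x ≠ 2 * π := by
      have h3 : (volume : Measure ℝ) {2 * π} = 0 := Real.volume_singleton
      rw [ae_iff]
      have e5 : {a : ℝ | ¬a ≠ 2 * π} = {2 * π} := by
        ext a
        simp
      rw [e5]
      exact h3
    refine intervalIntegral.integral_congr_ae ?_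
    filter_upwards [hae, hae2] with x h1 h2 hx
    rw [uIoc_of_le h2p.le] at hx
    rcases lt_or_gt_of_ne h1 with h4 | h4
    · have h5 : x ∈ Ioo (0:ℝ) (2 * π - l) := ⟨hx.1, h4⟩
      rw [SG_sgx h5, hP x h5]
      ring
    · have h5 : x ∈ Ioo (2 * π - l) (2 * π) := ⟨h4, lt_of_le_of_ne hx.2 h2⟩
      rw [SG_sgy h5, hNe x h5]
      ring
  rw [EAker_shift pg l]
  have e6 : (∫ x in (0:ℝ)..(2 * π - l), f x * HT f x) -
      ∫ x in (2 * π - l)..(2 * π), f x * HT f x =
      ∫ x in (0:ℝ)..(2 * π), |f x| * HT f x := by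
    linarith
  rw [e6, hfub, hgsq, hgint]
  field_simp
  ring

theorem EA_kernel {f : ℝ → ℝ} {l : ℝ} (h : TwoA f l) (hs : ContDiff ℝ 2 f) : EA f l = EAk f l := by
  have hp := Real.pi_pos
  obtain ⟨K, hK⟩ := SQ_lip h.per hs
  have hN := EAker_nrm h
  have hK' := EAker_lip hK
  have hs' : ContDiff ℝ 2 (fun x => -f x) := hs.neg
  have I1 := EAker_gen h hK (k := ct) SC_ct_meas EAker_k1
  have mE : Measurable (fun u : ℝ => Real.cos (u / 2) / Real.sin (u / 2) ^ 3) := by fun_prop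
  have I2 := EAker_gen h hK (k := fun u => Real.cos (u / 2) / Real.sin (u / 2) ^ 3) mE EAker_kE
  have hE2 : E2 (fun x => -f x) (2 * π - l) = 1 / π *
      ∫ z, |f z.1| * |f z.2| * (Real.cos ((z.1 - z.2) / 2) / Real.sin ((z.1 - z.2) / 2) ^ 3)
        ∂((SG_mu (2 * π - l)).prod (SG_nu (2 * π - l))) := by
    rw [E2_kernel hN hs', (SG_f_split hN hK').2, ← integral_const_mul, ← integral_const_mul,
      SG_prod_eq]
    refine setIntegral_congr_fun (measurableSet_Ioo.prod measurableSet_Ioo) ?_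
    rintro ⟨x, y⟩ ⟨hx, hy⟩
    show 2 * (|(-f x)| * |(-f y)| * SE (2 * π - l) x y) = 1 / π * (|f x| * |f y| *
      (Real.cos ((x - y) / 2) / Real.sin ((x - y) / 2) ^ 3))
    have hx' : x ∈ Ioo (0:ℝ) (2 * π - l) := hx
    have hy' : y ∈ Ioo (2 * π - l) (2 * π) := hy
    unfold SE
    rw [abs_neg, abs_neg, SG_sgx hx', SG_sgy hy']
    have e3 : 1 / (4 * π) * ((1:ℝ) - -1) = 1 / π / 2 := by
      field_simp
      norm_num
    rw [e3]
    ring
  unfold EA
  rw [EAker_E2 h hs, hE2, EAker_mass h hs]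
  unfold EAk
  rw [← sub_eq_add_neg, ← mul_sub, ← integral_sub I2 I1, SG_prod_eq]
  congr 1
  refine setIntegral_congr_fun (measurableSet_Ioo.prod measurableSet_Ioo) ?_
  rintro ⟨x, y⟩ ⟨hx, hy⟩
  have hx' : x ∈ Ioo (0:ℝ) (2 * π - l) := hx
  have hy' : y ∈ Ioo (2 * π - l) (2 * π) := hy
  obtain ⟨hm, hsn, hne⟩ := SG_sin_xy hx' hy'
  show |f x| * |f y| * (Real.cos ((x - y) / 2) / Real.sin ((x - y) / 2) ^ 3) -
    |f x| * |f y| * ct (x - y) = |f x| * |f y| * ct (x - y) ^ 3
  unfold ct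
  have h1 := Real.sin_sq_add_cos_sq ((x - y) / 2)
  generalize Real.sin ((x - y) / 2) = s at hne h1 ⊢
  generalize Real.cos ((x - y) / 2) = c at h1 ⊢
  have e : c / s ^ 3 - c / s = (c / s) ^ 3 := by
    have h2 : 1 - s ^ 2 = c ^ 2 := by linarith
    field_simp
    rw [h2]
    ring
  rw [← mul_sub, e]

end Pool.Agent.H53.DA
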