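import Pool.Agent.H53.DA.EAker
import Pool.Agent.H51.DG.SC
import Pool.Agent.H51.DG.SEv

/-!
# DA static job S4b (EAle): upper bound of `EAk` by the folded form

Fold: P = right side of `c` (`x ∈ (0,π)`, `bF f x`) and, for `l < π`, left side; N = left side of `c` (at `-η`,
`bC f η`) and, for `l > π`, right side.  `ct(x-y)^3` for `x` right, `y = 2π - η`: `ct(x+η)` and
`ct (x+η) = (ct x ct η - 1)/(ct x + ct η) ≤ chp (ct x) (ct η)` (`SEv_ct_add`).  The other pairs (`x, y` on the same side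
of `c`, i.e. P further from `c` than N for `l < π`, N further than P for `l > π`; `x - y ∈ (-π,0)`), have `ct(x-y) ≤ 0`.
Every pair `(x,y) ∈ P×N` with `x - y + 2π ≥ π`, i.e. `x - y ≥ -π`, has `ct (x-y) ≤ 0`, so only pairs with
`x + η < π` (`y = 2π - η`) contribute positively: those have `x, η ∈ (0,π)`.
-/

set_option autoImplicit false
open Real Set MeasureTheory Filter Topology

namespace Pool.Agent.H53.DA
open Pool.Agent.H45.FL Pool.Agent.H51.DG Pool.Agent.H45.DY Pool.Agent.H90.DC Pool.Agent.H90.DA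

/-- reflection of the second variable -/
noncomputable def EAle_R (z : ℝ × ℝ) : ℝ × ℝ :=
  Prod.map (fun x : ℝ => x) (fun x : ℝ => 2 * π - x) z

theorem EAle_mp : MeasurePreserving EAle_R (volume : Measure (ℝ × ℝ)) volume :=
  (MeasurePreserving.id (volume : Measure ℝ)).prod (Measure.measurePreserving_sub_left volume (2 * π))

theorem EAle_me : MeasurableEmbedding EAle_R :=
  MeasurableEmbedding.id.prodMap (MeasurableEquiv.subLeft (2 * π)).measurableEmbedding

theorem EAle_pre : EAle_R ⁻¹' (Ioo (0:ℝ) π ×ˢ Ioo π (2 * π)) = Sq1 := by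
  ext z
  simp only [EAle_R, Sq1, mem_preimage, mem_prod, mem_Ioo, Prod.map]
  constructor
  · rintro ⟨h1, h2, h3⟩
    exact ⟨h1, by linarith, by linarith⟩
  · rintro ⟨h1, h2, h3⟩
    exact ⟨h1, by linarith, by linarith⟩

theorem EAle_ct_nonpos {t : ℝ} (h1 : -π ≤ t) (h2 : t < 0) : ct t ≤ 0 := by
  have hs : Real.sin (t / 2) < 0 := Real.sin_neg_of_neg_of_neg_pi_lt (by linarith)
    (by linarith [Real.pi_pos])
  have hc : 0 ≤ Real.cos (t / 2) := Real.cos_nonneg_of_mem_Icc ⟨by linarith, by linarith⟩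
  exact div_nonpos_of_nonneg_of_nonpos hc hs.le

theorem EAk_le {f : ℝ → ℝ} {l : ℝ} (h : TwoA f l) (hL : ∃ K, Lip K f) :
    IntegrableOn (fun z : ℝ × ℝ => bF f z.1 * bC f z.2 * chp (ct z.1) (ct z.2) ^ 3) Sq1 ∧
    8 * π * EAk f l ≤ 8 * ∫ z in Sq1, bF f z.1 * bC f z.2 * chp (ct z.1) (ct z.2) ^ 3 := by
  have hπ := Real.pi_pos
  have hI := EAk_int h hL
  obtain ⟨K, hK⟩ := hL
  have hfc : Continuous f := Lip.continuous hK
  have hfm : Measurable f := hfc.measurable
  have hl0 := h.l0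
  have hl1 := h.l1
  -- values of `f` on `(2π-l,2π)`
  have hfN : ∀ y ∈ Ioo (2 * π - l) (2 * π), f y ≤ 0 := by
    intro y hy
    have := h.per (y - 2 * π)
    rw [sub_add_cancel] at this
    rw [this]
    exact h.neg _ ⟨by linarith [hy.1], by linarith [hy.2]⟩
  -- values on `[2π-l, 2π]`
  have hfN' : ∀ y ∈ Icc (2 * π - l) (2 * π), f y ≤ 0 := by
    intro y hy
    have := h.per (y - 2 * π)
    rw [sub_add_cancel] at this
    rw [this]
    exact h.neg _ ⟨by linarith [hy.1], by linarith [hy.2]⟩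
  obtain ⟨S, hS⟩ : ∃ S : Set (ℝ × ℝ), S = Ioo (0:ℝ) π ×ˢ Ioo π (2 * π) := ⟨_, rfl⟩
  obtain ⟨D, hD⟩ : ∃ D : Set (ℝ × ℝ), D = Ioo (0:ℝ) (2 * π - l) ×ˢ Ioo (2 * π - l) (2 * π) :=
    ⟨_, rfl⟩
  have hSm : MeasurableSet S := by rw [hS]; exact measurableSet_Ioo.prod measurableSet_Ioo
  have hDm : MeasurableSet D := by rw [hD]; exact measurableSet_Ioo.prod measurableSet_Ioo
  obtain ⟨G, hG⟩ : ∃ G : ℝ × ℝ → ℝ, G = fun z => bF f z.1 * bR f z.2 *
    max (ct (z.1 - z.2)) 0 ^ 3 := ⟨_, rfl⟩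
  have hG0 : ∀ z, 0 ≤ G z := by
    intro z
    rw [hG]
    unfold bF bR
    positivity
  have hGm : Measurable G := by
    have hc : Measurable (fun z : ℝ × ℝ => ct (z.1 - z.2)) :=
      SC_ct_meas.comp (measurable_fst.sub measurable_snd)
    rw [hG]
    unfold bF bR
    exact (((hfm.comp measurable_fst).max measurable_const).mul
      (((hfm.comp measurable_snd).neg).max measurable_const)).mul
      ((hc.max measurable_const).pow_const 3)
  have hbF : ∀ z ∈ D, |f z.1| = bF f z.1 := by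
    intro z hz
    rw [hD] at hz
    have := h.pos z.1 ⟨hz.1.1.le, hz.1.2.le⟩
    unfold bF
    rw [abs_of_nonneg this, max_eq_left this]
  have hbR : ∀ z ∈ D, |f z.2| = bR f z.2 := by
    intro z hz
    rw [hD] at hz
    have := hfN z.2 hz.2
    unfold bR
    rw [abs_of_nonpos this, max_eq_left (by linarith)]
  -- integrability of `G`
  have hGD : IntegrableOn G D := by
    rw [hD]
    rw [hD] at hbF hbR
    refine Integrable.mono hI hGm.aestronglyMeasurable ?_
    refine ae_restrict_of_forall_mem (measurableSet_Ioo.prod measurableSet_Ioo) fun z hz => ?_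
    rw [Real.norm_eq_abs, Real.norm_eq_abs, hbF z hz, hbR z hz, hG, abs_mul, abs_mul (_ * _)]
    refine mul_le_mul_of_nonneg_left ?_ (abs_nonneg _)
    rw [abs_pow, abs_pow]
    refine pow_le_pow_left₀ (abs_nonneg _) ?_ 3
    rcases le_total (ct (z.1 - z.2)) 0 with h1 | h1
    · rw [max_eq_right h1, abs_zero]
      exact abs_nonneg _
    · rw [max_eq_left h1]
  have hzero : ∀ z ∈ S, z ∉ D → G z = 0 := by
    intro z hz hzD
    rw [hS] at hz
    rw [hD] at hzD
    rw [hG]
    obtain ⟨h1, h2⟩ := hz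
    show max (f z.1) 0 * max (-f z.2) 0 * _ = 0
    by_cases hx : z.1 < 2 * π - l
    · have hy : z.2 ≤ 2 * π - l := by
        by_contra hc
        exact hzD ⟨⟨h1.1, hx⟩, ⟨lt_of_not_ge hc, h2.2⟩⟩
      have : 0 ≤ f z.2 := h.pos z.2 ⟨by linarith [h2.1], hy⟩
      rw [max_eq_right (by linarith : -f z.2 ≤ 0)]
      ring
    · have : f z.1 ≤ 0 := hfN' z.1 ⟨by linarith, by linarith [h1.2]⟩
      rw [max_eq_right this]
      ring
  have hGSD : IntegrableOn G (S ∩ D) := hGD.mono_set inter_subset_right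
  have hind : S.indicator G = (S ∩ D).indicator G := by
    funext z
    by_cases hz : z ∈ S
    · by_cases hz' : z ∈ D
      · rw [indicator_of_mem hz, indicator_of_mem (show z ∈ S ∩ D from ⟨hz, hz'⟩)]
      · rw [indicator_of_mem hz, indicator_of_notMem (fun hh => hz' hh.2), hzero z hz hz']
    · rw [indicator_of_notMem hz, indicator_of_notMem (fun hh => hz hh.1)]
  have hGS : IntegrableOn G S := by
    rw [← integrable_indicator_iff hSm, hind, integrable_indicator_iff (hSm.inter hDm)]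
    exact hGSD
  have hGSe : ∫ z in S, G z = ∫ z in S ∩ D, G z := by
    rw [← integral_indicator hSm, hind, integral_indicator (hSm.inter hDm)]
  -- the pullback
  have hper : ∀ x, f (2 * π - x) = f (-x) := by
    intro x
    have := h.per (-x)
    rw [← this]
    congr 1
    ring
  have hpull : ∀ z ∈ Sq1, G (EAle_R z) = bF f z.1 * bC f z.2 * chp (ct z.1) (ct z.2) ^ 3 := by
    intro z hz
    have hz1 : z.1 ∈ Ioo (0:ℝ) π := hz.1
    have hz2 : z.2 ∈ Ioo (0:ℝ) π := hz.2
    have s1 : 0 < Real.sin (z.1 / 2) := Real.sin_pos_of_pos_of_lt_pi (by linarith [hz1.1])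
      (by linarith [hz1.2])
    have s2 : 0 < Real.sin (z.2 / 2) := Real.sin_pos_of_pos_of_lt_pi (by linarith [hz2.1])
      (by linarith [hz2.2])
    rw [hG]
    show bF f z.1 * max (-f (2 * π - z.2)) 0 * max (ct (z.1 - (2 * π - z.2))) 0 ^ 3 = _
    rw [hper]
    unfold bC chp
    congr 3
    have e1 : ct (z.1 - (2 * π - z.2)) = -ct (2 * π - z.1 - z.2) := by
      rw [← SC_ct_neg, ← SC_ct_per (z.1 - (2 * π - z.2))]
      have : z.1 - (2 * π - z.2) + 2 * π = -(2 * π - z.1 - z.2) + 2 * π := by ring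
      rw [this, SC_ct_per]
    rw [e1, SEv_ct_add s1.ne' s2.ne']
    rw [neg_div', neg_sub]
  have hpi : IntegrableOn (fun z => G (EAle_R z)) Sq1 := by
    have := (EAle_mp.integrableOn_comp_preimage EAle_me (f := G) (s := S))
    rw [hS, EAle_pre] at this
    rw [hS] at hGS
    exact this.2 hGS
  have hpe : ∫ z in Sq1, G (EAle_R z) = ∫ z in S, G z := by
    have := EAle_mp.setIntegral_preimage_emb EAle_me G S
    rw [hS, EAle_pre] at this
    rw [hS]
    exact this
  have hms1 : MeasurableSet Sq1 := measurableSet_Ioo.prod measurableSet_Ioo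
  refine ⟨hpi.congr_fun hpull hms1, ?_⟩
  rw [← setIntegral_congr_fun hms1 hpull, hpe, hGSe]
  unfold EAk
  rw [← hD]
  have h8 : 8 * π * (1 / π * ∫ z in D, |f z.1| * |f z.2| * ct (z.1 - z.2) ^ 3) =
      8 * ∫ z in D, |f z.1| * |f z.2| * ct (z.1 - z.2) ^ 3 := by
    field_simp
  rw [h8]
  refine mul_le_mul_of_nonneg_left ?_ (by norm_num)
  have hind2 : ∫ z in S ∩ D, G z = ∫ z in D, S.indicator G z := by
    rw [setIntegral_indicator hSm, inter_comm]
  rw [hind2]
  rw [← hD] at hI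
  refine setIntegral_mono_on hI (hGD.indicator hSm) hDm fun z hz => ?_
  have hzD := hz
  rw [hD] at hzD
  by_cases hzS : z ∈ S
  · rw [indicator_of_mem hzS, hbF z hz, hbR z hz, hG]
    refine mul_le_mul_of_nonneg_left ?_ (mul_nonneg (le_max_right _ _) (le_max_right _ _))
    rcases le_total (ct (z.1 - z.2)) 0 with h1 | h1
    · rw [max_eq_right h1]
      have : ct (z.1 - z.2) ^ 3 ≤ 0 := by
        have := pow_nonneg (neg_nonneg.2 h1) 3
        nlinarith
      simpa using this
    · rw [max_eq_left h1]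
  · rw [indicator_of_notMem hzS]
    have h1 : z.1 < z.2 := by linarith [hzD.1.2, hzD.2.1]
    have h2 : -π ≤ z.1 - z.2 := by
      rw [hS] at hzS
      by_contra hc
      push Not at hc
      apply hzS
      exact ⟨⟨hzD.1.1, by linarith [hzD.2.2]⟩, ⟨by linarith [hzD.1.1], hzD.2.2⟩⟩
    have h3 := EAle_ct_nonpos h2 (by linarith)
    have h4 : ct (z.1 - z.2) ^ 3 ≤ 0 := by
      have := pow_nonneg (neg_nonneg.2 h3) 3
      nlinarith
    exact mul_nonpos_of_nonneg_of_nonpos (mul_nonneg (abs_nonneg _) (abs_nonneg _)) h4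

end Pool.Agent.H53.DA
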