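import Pool.Agent.H53.DA.ShortA
import Pool.Agent.H53.DA.RegP
import Pool.Agent.H53.DA.ToolB
import Pool.Agent.H53.DA.ToolC
import Pool.Agent.H12.DA.RegIb

/-!
# DA static job S12 (RegI): the regime `1/sin(l/2) ≥ 2` (N short), note 1995, sec. 5

`short_asm` with `α1 = 4q/k` (`regI_h1`, and `α2 ≥ 0`), `α2 = C` of `regI_h2`, `α3 = 1`, `α4 = 0` (`gg_L`: `v ℓ/y ≤ v`, `ℓ ≤ 2q/k ≤ q < y`),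
`α5 = 2q` (`regI_h5`), `α6 = 68`, `α7 = C'` of `regI_h6`; `δ` of `quad_form`.  Put `V = vs â`, `Sa = Su â`, `S1 = Su1 â`, `Sb = Su bC`,
`Se = Su bE`, `m = ms bC`, `μ = ∫ f`, `Ma = μ + 2m` (`mass_short`), `q ≥ k ≥ 32`, `ℓ ≥ 1`, `q ≤ kℓ`:
`8π(TA - 17/16 EAk) ≥ δ(Sa+Sb) + q² S1/4 - (8/k) q V² - (2α2+2) V Ma - 4 q V V_e - 68 Ma m - α7 FPt - μ (V + 2Ma)`,
`8π K BNA ≥ K (Se/4 + FPt - 2 μ Ma)` (`bud_ge`, `N3_su`).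
`T4`: `q V² ≤ C_V (Sa + q² S1)`; `T5`: `m² ≤ m² ℓ³ ≤ C Se`, `V_e² ℓ ≤ C Se`;
`q V V_e ≤ η q V² + (kℓ/(4η)) V_e²`, `V Ma ≤ η q V² + Ma²/(4 η q)`, `Ma² ≤ 2 μ Ma + 8 m²` (`μ ≤ Ma`), `Ma m ≤ μ Ma + 2 m²`,
`μ V ≤ V Ma`.  Choose `k0` with `(8/k0) C_V ≤ min δ (1/4) / 4`, then `η`, then `K`, then `C`.
-/

set_option autoImplicit false
open Real Set MeasureTheory Filter Topology

namespace Pool.Agent.H53.DA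
open Pool.Agent.H45.FL Pool.Agent.H51.DG Pool.Agent.H45.DY Pool.Agent.H90.DC Pool.Agent.H90.DA

theorem reg_i : ∃ k0 : ℝ, ∀ k : ℝ, k0 ≤ k → ∃ K : ℝ, 0 ≤ K ∧ ∀ K' : ℝ, K ≤ K' →
    ∃ C : ℝ, 0 ≤ C ∧ ∀ (f : ℝ → ℝ) (l : ℝ), VanA f l → l < π → 2 ≤ 1 / Real.sin (l / 2) →
    17 / 16 * EAk f l ≤ TA (qk k l) (dqk k l) f l + K' * BNA f l +
      C * (∫ x in (0:ℝ)..(2 * π), f x) * Ma f :=
  Pool.Agent.H12.DA.RegIb.reg_i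

end Pool.Agent.H53.DA
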