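import Pool.Agent.H53.DA.ShortA
import Pool.Agent.H53.DA.ToolC
import Pool.Agent.H53.DA.Quad

/-!
# DA static job S13 (RegII): the regime `l < π`, `1/sin(l/2) ≤ 2`, note 1995, sec. 6

`ℓ = ct l ∈ (0, 2]` (`√(1+ℓ²) ≤ 2`), `q ≤ kℓ²/2` (`par_rel`), `kap = ℓ(q+k)`.  `short_asm` with `α1 = kap`,
`α2 = kap (log(1+1/ℓ) + q)`, `α3 = 0`, `α4 = ℓ`, `α5 = kap ℓ`, `α6 = 17/2 (60 q)³`, `α7 = 0`:
(h1) `gg q y q ≥ 0`, `1 + y'/ℓ ≤ (1+1/ℓ)(1+y')`, `log(1+y') ≤ y' = q + (y'-q)`.  (h2) `gg ≥ q y' - y'²/2 ≥ 0` (`gg_mid`).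
(h3) `gg_L`: `(y-q) ℓ/y ≤ ℓ`.  (h5) `z/ℓ - 1 = (1+ℓ²)/(ℓ(Z-ℓ)) ≥ 1/(ℓ Z)`, `Z = (1+zℓ)/(z-ℓ) > ℓ`, `log ≥ -log(ℓZ) ≥ -ℓZ`.
(h6) `chp ≤ y < 60 q`.  All `αi ≤ E := C_k √ℓ` (`log(1+1/ℓ) ≤ 1/√ℓ`, i.e. `log(1+x) ≤ √x`).
With `V = vs â`, `V_e = vs bE`, `m = ms bC`, `Ma = μ + 2m`, `Sa, Sb, Se` as in RegI:
`8π(TA - 17/16 EAk) ≥ δ(Sa+Sb) - 2E (V² + V Ma + Ma² + V V_e + Ma²) - μ(V + 2Ma)`,
`T2` (with `R` large for the small constant): `V² ≤ ε Sa + C_ε Ma²`, `V_e² ≤ C(Ma² + Se)` (`ms â ≤ ms a ≤ Ma`, `ms_hat`),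
`Ma² ≤ 2μ Ma + 8m²`, `T5`: `m² ≤ C(Sb + Se)` and `m² ℓ³ ≤ C Se`.  `E ≤ C_k'` always: choose `ε`; then `ℓ0` such that for `ℓ ≤ ℓ0` the
term `E C_ε C Sb ≤ δ Sb/4`; for `ℓ ≥ ℓ0` use `m² ≤ C Se/ℓ0³`; `K` large; `μ V ≤ ε Sa + C_ε' μ Ma`.
-/

set_option autoImplicit false
open Real Set MeasureTheory Filter Topology

namespace Pool.Agent.H53.DA
open Pool.Agent.H45.FL Pool.Agent.H51.DG Pool.Agent.H45.DY Pool.Agent.H90.DC Pool.Agent.H90.DA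

/-- abstract closing of the regime -/
theorem RegII_close {δ C2 C5 Em : ℝ} (hδ : 0 < δ) (hC2 : 0 ≤ C2) (hC5 : 0 ≤ C5) (hEm : 0 ≤ Em) :
    ∃ K : ℝ, 0 ≤ K ∧ ∀ K' : ℝ, K ≤ K' → ∃ C : ℝ, 0 ≤ C ∧
      ∀ Sa Sb Se V Ve M m μ ℓ e : ℝ, 0 ≤ Sa → 0 ≤ Sb → 0 ≤ Se → 0 ≤ V → 0 ≤ Ve → 0 ≤ m → 0 ≤ μ →
      M = μ + 2 * m → 0 < e → e ≤ 2 → e ^ 2 = ℓ →
      (∀ R : ℝ, 0 < R → V ≤ C2 * (M * R + √Sa / √R)) →
      Ve ≤ C2 * (m + √Se) → m ^ 2 ≤ C5 * (Sb + Se) → m ^ 2 * ℓ ^ 3 ≤ C5 * Se →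
      Em * e * (4 * V ^ 2 + 4 * M ^ 2 + Ve ^ 2) + μ * (V + 2 * M) + 2 * K' * (μ * M) ≤
        δ * (Sa + Sb) + K' / 4 * Se + C * (μ * M) := by
  -- constants
  obtain ⟨R, hR⟩ : ∃ R : ℝ, R = 64 * C2 ^ 2 * Em / δ + 1 := ⟨_, rfl⟩
  have hR0 : 0 < R := by
    rw [hR]
    positivity
  obtain ⟨G, hG⟩ : ∃ G : ℝ, G = 8 * C2 ^ 2 * R ^ 2 + 4 := ⟨_, rfl⟩
  have hG0 : 0 ≤ G := by rw [hG]; positivity
  obtain ⟨H, hH⟩ : ∃ H : ℝ, H = 4 * G + 2 * C2 ^ 2 := ⟨_, rfl⟩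
  have hH0 : 0 ≤ H := by rw [hH]; positivity
  -- e0 with H Em e0 C5 ≤ δ/2
  obtain ⟨e0, he0⟩ : ∃ e0 : ℝ, e0 = δ / 2 / (H * Em * C5 + 1) := ⟨_, rfl⟩
  have he0p : 0 < e0 := by rw [he0]; positivity
  have he0b : H * Em * C5 * e0 ≤ δ / 2 := by
    have h1 : 0 ≤ H * Em * C5 := by positivity
    rw [he0, ← mul_div_assoc, div_le_iff₀ (by positivity)]
    have e1 : δ / 2 * (H * Em * C5 + 1) = H * Em * C5 * (δ / 2) + δ / 2 := by ring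
    rw [e1]
    linarith
  obtain ⟨K, hK⟩ : ∃ K : ℝ, K = 4 * (4 * C2 ^ 2 * Em + δ / 2 + 2 * Em * H * C5 / e0 ^ 6) := ⟨_, rfl⟩
  have hK0 : 0 ≤ K := by rw [hK]; positivity
  refine ⟨K, hK0, fun K' hK' => ⟨C2 + C2 ^ 2 / δ + 4 * G * Em + 2 + 2 * K', ?_, ?_⟩⟩
  · have : 0 ≤ K' := hK0.trans hK'
    positivity
  intro Sa Sb Se V Ve M m μ ℓ e hSa hSb hSe hV hVe hm hμ hM he he2 hel hT2 hT2e hT5 hT5e
  have hMn : 0 ≤ M := by rw [hM]; positivity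
  have hK'0 : 0 ≤ K' := hK0.trans hK'
  -- V²
  have hVsq : V ^ 2 ≤ 2 * C2 ^ 2 * (M ^ 2 * R ^ 2 + Sa / R) := by
    have h1 := hT2 R hR0
    have h2 : V ^ 2 ≤ (C2 * (M * R + √Sa / √R)) ^ 2 := pow_le_pow_left₀ hV h1 2
    have h3 : (√Sa / √R) ^ 2 = Sa / R := by
      rw [div_pow, Real.sq_sqrt hSa, Real.sq_sqrt hR0.le]
    have h4 : (M * R + √Sa / √R) ^ 2 ≤ 2 * (M ^ 2 * R ^ 2 + Sa / R) := by
      have k1 := sq_nonneg (M * R - √Sa / √R)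
      have k2 : (M * R + √Sa / √R) ^ 2 + (M * R - √Sa / √R) ^ 2 =
          2 * (M ^ 2 * R ^ 2 + (√Sa / √R) ^ 2) := by ring
      rw [h3] at k2
      linarith
    have h5 : C2 ^ 2 * (M * R + √Sa / √R) ^ 2 ≤ C2 ^ 2 * (2 * (M ^ 2 * R ^ 2 + Sa / R)) :=
      mul_le_mul_of_nonneg_left h4 (sq_nonneg _)
    calc V ^ 2 ≤ _ := h2
      _ = C2 ^ 2 * (M * R + √Sa / √R) ^ 2 := by ring
      _ ≤ _ := h5
      _ = _ := by ring
  have hVesq : Ve ^ 2 ≤ 2 * C2 ^ 2 * (m ^ 2 + Se) := by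
    have h2 : Ve ^ 2 ≤ (C2 * (m + √Se)) ^ 2 := pow_le_pow_left₀ hVe hT2e 2
    have h3 : √Se ^ 2 = Se := Real.sq_sqrt hSe
    have h4 : (m + √Se) ^ 2 ≤ 2 * (m ^ 2 + Se) := by
      have k1 := sq_nonneg (m - √Se)
      have k2 : (m + √Se) ^ 2 + (m - √Se) ^ 2 = 2 * (m ^ 2 + √Se ^ 2) := by ring
      rw [h3] at k2
      linarith
    have h5 : C2 ^ 2 * (m + √Se) ^ 2 ≤ C2 ^ 2 * (2 * (m ^ 2 + Se)) :=
      mul_le_mul_of_nonneg_left h4 (sq_nonneg _)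
    calc Ve ^ 2 ≤ _ := h2
      _ = C2 ^ 2 * (m + √Se) ^ 2 := by ring
      _ ≤ _ := h5
      _ = _ := by ring
  have hμM : 0 ≤ μ * M := mul_nonneg hμ hMn
  have hmμ : 0 ≤ μ * m := mul_nonneg hμ hm
  have eμM : μ * M = μ ^ 2 + 2 * (μ * m) := by rw [hM]; ring
  have hMsq : M ^ 2 ≤ 2 * (μ * M) + 4 * m ^ 2 := by
    have e3 : M ^ 2 = μ ^ 2 + 4 * (μ * m) + 4 * m ^ 2 := by rw [hM]; ring
    rw [e3, eμM]
    have := sq_nonneg μ
    linarith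
  -- μ V
  have hμV : μ * V ≤ (C2 + C2 ^ 2 / δ) * (μ * M) + δ / 4 * Sa := by
    have h1 := hT2 1 one_pos
    rw [Real.sqrt_one, div_one, mul_one] at h1
    have h2 : μ * V ≤ μ * (C2 * (M + √Sa)) := mul_le_mul_of_nonneg_left h1 hμ
    have h3 : √Sa ^ 2 = Sa := Real.sq_sqrt hSa
    have h4 : μ ^ 2 ≤ μ * M := by linarith
    have h5 : C2 * μ * √Sa ≤ C2 ^ 2 / δ * μ ^ 2 + δ / 4 * √Sa ^ 2 := by
      have e1 : C2 ^ 2 / δ * μ ^ 2 + δ / 4 * √Sa ^ 2 - C2 * μ * √Sa =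
          (C2 * μ - δ / 2 * √Sa) ^ 2 / δ := by
        field_simp
        ring
      have e2 : 0 ≤ (C2 * μ - δ / 2 * √Sa) ^ 2 / δ := by positivity
      linarith
    have h6 : C2 ^ 2 / δ * μ ^ 2 ≤ C2 ^ 2 / δ * (μ * M) :=
      mul_le_mul_of_nonneg_left h4 (by positivity)
    rw [h3] at h5
    have e3 : μ * (C2 * (M + √Sa)) = C2 * (μ * M) + C2 * μ * √Sa := by ring
    rw [e3] at h2
    have e4 : (C2 + C2 ^ 2 / δ) * (μ * M) = C2 * (μ * M) + C2 ^ 2 / δ * (μ * M) := by ring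
    rw [e4]
    linarith
  -- the error with coefficient
  have hE : 0 ≤ Em * e := mul_nonneg hEm he.le
  have hE2 : Em * e ≤ 2 * Em := by
    have := mul_le_mul_of_nonneg_left he2 hEm
    linarith
  have hRS : Em * e * (4 * (2 * C2 ^ 2 * (Sa / R))) ≤ δ / 4 * Sa := by
    have h1 : Em * e * (4 * (2 * C2 ^ 2 * (Sa / R))) ≤ 2 * Em * (4 * (2 * C2 ^ 2 * (Sa / R))) :=
      mul_le_mul_of_nonneg_right hE2 (by positivity)
    have h2 : 2 * Em * (4 * (2 * C2 ^ 2 * (Sa / R))) = (16 * C2 ^ 2 * Em / R) * Sa := by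
      field_simp
      ring
    have h3 : 16 * C2 ^ 2 * Em / R ≤ δ / 4 := by
      rw [div_le_iff₀ hR0, hR]
      have : δ / 4 * (64 * C2 ^ 2 * Em / δ + 1) = 16 * C2 ^ 2 * Em + δ / 4 := by
        field_simp
        ring
      rw [this]
      linarith
    have h4 := mul_le_mul_of_nonneg_right h3 hSa
    linarith
  -- assembling
  have hmain : Em * e * (4 * V ^ 2 + 4 * M ^ 2 + Ve ^ 2) ≤
      δ / 4 * Sa + 4 * G * Em * (μ * M) + H * (Em * e * m ^ 2) + 4 * C2 ^ 2 * Em * Se := by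
    have h1 : 4 * V ^ 2 + 4 * M ^ 2 + Ve ^ 2 ≤ 4 * (2 * C2 ^ 2 * (Sa / R)) + 2 * G * (μ * M) +
        H * m ^ 2 + 2 * C2 ^ 2 * Se := by
      have h2 : 8 * C2 ^ 2 * (M ^ 2 * R ^ 2) + 4 * M ^ 2 = G * M ^ 2 := by rw [hG]; ring
      have h3 : G * M ^ 2 ≤ G * (2 * (μ * M) + 4 * m ^ 2) := mul_le_mul_of_nonneg_left hMsq hG0
      have h4 : H * m ^ 2 = 4 * G * m ^ 2 + 2 * C2 ^ 2 * m ^ 2 := by rw [hH]; ring
      linarith
    have h5 := mul_le_mul_of_nonneg_left h1 hE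
    have h6 : Em * e * (2 * G * (μ * M)) ≤ 2 * Em * (2 * G * (μ * M)) :=
      mul_le_mul_of_nonneg_right hE2 (by positivity)
    have h7 : Em * e * (2 * C2 ^ 2 * Se) ≤ 2 * Em * (2 * C2 ^ 2 * Se) :=
      mul_le_mul_of_nonneg_right hE2 (by positivity)
    linarith
  have hm2 : H * (Em * e * m ^ 2) ≤ δ / 2 * Sb + (δ / 2 + 2 * Em * H * C5 / e0 ^ 6) * Se := by
    rcases le_total e e0 with h | h
    · have h1 : Em * e * m ^ 2 ≤ Em * e0 * (C5 * (Sb + Se)) := by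
        have k1 : Em * e ≤ Em * e0 := mul_le_mul_of_nonneg_left h hEm
        exact mul_le_mul k1 hT5 (sq_nonneg _) (by positivity)
      have h2 : H * (Em * e * m ^ 2) ≤ H * (Em * e0 * (C5 * (Sb + Se))) :=
        mul_le_mul_of_nonneg_left h1 hH0
      have h3 : H * (Em * e0 * (C5 * (Sb + Se))) = H * Em * C5 * e0 * (Sb + Se) := by ring
      have h4 : H * Em * C5 * e0 * (Sb + Se) ≤ δ / 2 * (Sb + Se) :=
        mul_le_mul_of_nonneg_right he0b (by positivity)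
      have h5 : 0 ≤ 2 * Em * H * C5 / e0 ^ 6 * Se := by positivity
      linarith
    · have h0 : ℓ ^ 3 = e ^ 6 := by rw [← hel]; ring
      rw [h0] at hT5e
      have h1 : m ^ 2 * e0 ^ 6 ≤ m ^ 2 * e ^ 6 :=
        mul_le_mul_of_nonneg_left (pow_le_pow_left₀ he0p.le h 6) (sq_nonneg _)
      have h2 : m ^ 2 ≤ C5 * Se / e0 ^ 6 := by
        rw [le_div_iff₀ (by positivity)]
        linarith
      have h3 : Em * e * m ^ 2 ≤ 2 * Em * (C5 * Se / e0 ^ 6) :=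
        mul_le_mul hE2 h2 (sq_nonneg _) (by positivity)
      have h4 := mul_le_mul_of_nonneg_left h3 hH0
      have h5 : H * (2 * Em * (C5 * Se / e0 ^ 6)) = 2 * Em * H * C5 / e0 ^ 6 * Se := by ring
      have h6 : 0 ≤ δ / 2 * Sb := by positivity
      have h7 : 0 ≤ δ / 2 * Se := by positivity
      linarith
  have hKS : (4 * C2 ^ 2 * Em + δ / 2 + 2 * Em * H * C5 / e0 ^ 6) * Se ≤ K' / 4 * Se := by
    refine mul_le_mul_of_nonneg_right ?_ hSe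
    rw [hK] at hK'
    linarith
  have hSa' : 0 ≤ δ / 2 * Sa := by positivity
  have hSb' : 0 ≤ δ / 2 * Sb := by positivity
  have e1 : (C2 + C2 ^ 2 / δ + 4 * G * Em + 2 + 2 * K') * (μ * M) =
      (C2 + C2 ^ 2 / δ) * (μ * M) + 4 * G * Em * (μ * M) + 2 * (μ * M) + 2 * K' * (μ * M) := by ring
  rw [e1]
  have e2 : μ * (V + 2 * M) = μ * V + 2 * (μ * M) := by ring
  rw [e2]
  linarith

/-- `log (1 + x) ≤ √x` -/
theorem RegII_log {x : ℝ} (hx : 0 < x) : Real.log (1 + x) ≤ √x := by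
  have hs : 0 < √x := Real.sqrt_pos.2 hx
  have h1 : 1 + x ≤ Real.exp (√x) := by
    have h2 := Real.quadratic_le_exp_of_nonneg (by positivity : 0 ≤ √x / 2)
    have h3 : (1 + √x / 2 + (√x / 2) ^ 2 / 2) ^ 2 ≤ Real.exp (√x / 2) ^ 2 :=
      pow_le_pow_left₀ (by positivity) h2 2
    have h4 : Real.exp (√x / 2) ^ 2 = Real.exp (√x) := by
      rw [← Real.exp_nat_mul]
      congr 1
      push_cast
      ring
    have h5 : x = √x ^ 2 := (Real.sq_sqrt hx.le).symm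
    have h6 : (1 + √x / 2 + (√x / 2) ^ 2 / 2) ^ 2 = 1 + √x ^ 2 +
        (√x * ((√x - 2) ^ 2 / 8 + 1 / 2) + √x ^ 4 / 64) := by ring
    have h7 : 0 ≤ √x * ((√x - 2) ^ 2 / 8 + 1 / 2) + √x ^ 4 / 64 := by positivity
    rw [h4, h6] at h3
    linarith
  have h8 := Real.log_le_log (by linarith) h1
  rwa [Real.log_exp] at h8

/-- splitting of the logarithm -/
theorem RegII_split {ℓ y : ℝ} (hℓ : 0 < ℓ) (hy : 0 ≤ y) :
    Real.log (1 + y / ℓ) ≤ Real.log (1 + 1 / ℓ) + y := by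
  have h1 : 1 + y / ℓ ≤ (1 + 1 / ℓ) * (1 + y) := by
    have h2 : (1 + 1 / ℓ) * (1 + y) = 1 + y / ℓ + (1 / ℓ + y) := by
      field_simp
      ring
    have h3 : 0 < 1 / ℓ := by positivity
    linarith
  have h4 : 0 < 1 + y / ℓ := by positivity
  have h5 := Real.log_le_log h4 h1
  rw [Real.log_mul (by positivity) (by positivity)] at h5
  have h6 := Real.log_le_sub_one_of_pos (by linarith : 0 < 1 + y)
  linarith

/-- the bound at the other zero -/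
theorem RegII_far {ℓ z : ℝ} (hℓ : 0 < ℓ) (hz : ℓ < z) :
    -(ℓ * ((1 + z * ℓ) / (z - ℓ))) ≤ Real.log (z / ℓ - 1) := by
  have hzl : 0 < z - ℓ := by linarith
  have hz0 : 0 < z := by linarith
  have h1 : 0 < ℓ * ((1 + z * ℓ) / (z - ℓ)) := by positivity
  have h2 : (ℓ * ((1 + z * ℓ) / (z - ℓ)))⁻¹ ≤ z / ℓ - 1 := by
    have e1 : z / ℓ - 1 = (z - ℓ) / ℓ := by
      field_simp
    rw [e1, mul_div_assoc', inv_div, div_le_div_iff₀ (by positivity) hℓ]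
    have h7 : 0 ≤ ℓ * ℓ * ℓ := by positivity
    have h8 : (z - ℓ) * (ℓ * (1 + z * ℓ)) - (z - ℓ) * ℓ = (z - ℓ) * (z * ℓ * ℓ) := by ring
    have h9 : 0 ≤ (z - ℓ) * (z * ℓ * ℓ) := by positivity
    linarith
  have h3 := Real.log_le_log (inv_pos.2 h1) h2
  rw [Real.log_inv] at h3
  have h4 := Real.log_le_sub_one_of_pos h1
  linarith

theorem reg_ii {k : ℝ} (hk : 32 ≤ k) : ∃ K : ℝ, 0 ≤ K ∧ ∀ K' : ℝ, K ≤ K' →
    ∃ C : ℝ, 0 ≤ C ∧ ∀ (f : ℝ → ℝ) (l : ℝ), VanA f l → l < π → 1 / Real.sin (l / 2) ≤ 2 →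
    17 / 16 * EAk f l ≤ TA (qk k l) (dqk k l) f l + K' * BNA f l +
      C * (∫ x in (0:ℝ)..(2 * π), f x) * Ma f := by
  have hk0 : (0:ℝ) ≤ k := by linarith
  obtain ⟨δ, hδ, hquad⟩ := quad_form
  obtain ⟨C2, hC2, hT2⟩ := T2
  obtain ⟨C5, hC5, hT5⟩ := T5
  obtain ⟨K, hK, hmain⟩ := RegII_close (Em := 10 ^ 7 * k ^ 3) hδ hC2 hC5 (by positivity)
  refine ⟨K, hK, fun K' hK' => ?_⟩
  obtain ⟨C, hC, hcl⟩ := hmain K' hK'
  refine ⟨C, hC, fun f l h hl hs => ?_⟩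
  have hπ := Real.pi_pos
  obtain ⟨hℓ, hq, hkap, hdq, hq0, hqk1, hqk2, hsin⟩ := par_rel (k := k) hk0 h.l0 hl
  obtain ⟨hBa, hBL, hBb, hBR, hBe⟩ := bd_parts h
  have hfc : Continuous f := by
    obtain ⟨L, hL⟩ := h.lip
    exact Lip.continuous hL
  obtain ⟨hM1, hM2, hA0, hL0, hb0⟩ := mass_short h.toTwoA hfc hl
  rw [hsin] at hs
  obtain ⟨ℓ, eℓ⟩ : ∃ ℓ : ℝ, ℓ = ct l := ⟨_, rfl⟩
  obtain ⟨q, eq⟩ : ∃ q : ℝ, q = qk k l := ⟨_, rfl⟩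
  obtain ⟨κ, eκ⟩ : ∃ κ : ℝ, κ = kap k l := ⟨_, rfl⟩
  rw [← eℓ] at hℓ hq hkap hqk1 hqk2 hs
  rw [← eq] at hq hkap hq0 hqk1 hqk2
  rw [← eκ] at hkap
  -- sizes
  have hqk : q ≤ k := by
    have : k * (√(1 + ℓ ^ 2) - 1) ≤ k * 1 := mul_le_mul_of_nonneg_left (by linarith) hk0
    linarith
  have hℓ2 : ℓ ≤ 2 := by
    have h1 : √(1 + ℓ ^ 2) ^ 2 ≤ 2 ^ 2 := pow_le_pow_left₀ (Real.sqrt_nonneg _) hs 2
    rw [Real.sq_sqrt (by positivity)] at h1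
    by_contra hc
    push Not at hc
    have h2 : 2 * 2 < ℓ * ℓ := mul_lt_mul'' hc hc (by norm_num) (by norm_num)
    have h3 : ℓ * ℓ = ℓ ^ 2 := by ring
    linarith
  obtain ⟨e, he⟩ : ∃ e : ℝ, e = √ℓ := ⟨_, rfl⟩
  have he0 : 0 < e := by rw [he]; exact Real.sqrt_pos.2 hℓ
  have hee : e ^ 2 = ℓ := by rw [he]; exact Real.sq_sqrt hℓ.le
  have he2 : e ≤ 2 := by
    by_contra hc
    push Not at hc
    have h2 : 2 * 2 < e * e := mul_lt_mul'' hc hc (by norm_num) (by norm_num)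
    have h3 : e * e = e ^ 2 := by ring
    linarith
  have hlog : Real.log (1 + 1 / ℓ) * e ≤ 1 := by
    have h1 := RegII_log (x := 1 / ℓ) (by positivity)
    rw [Real.sqrt_div zero_le_one, Real.sqrt_one, ← he] at h1
    rwa [le_div_iff₀ he0] at h1
  have hlog0 : 0 ≤ Real.log (1 + 1 / ℓ) := Real.log_nonneg (by
    have : 0 < 1 / ℓ := by positivity
    linarith)
  have hκ0 : 0 ≤ κ := by rw [hkap]; positivity
  have hκ : κ ≤ 2 * k * ℓ := by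
    rw [hkap]
    have := mul_le_mul_of_nonneg_left (by linarith : q + k ≤ 2 * k) hℓ.le
    linarith
  -- hypotheses of the assembly
  have H1 : ∀ y y' : ℝ, qk k l < y → qk k l < y' →
      -(κ * (y' - qk k l)) - κ * (Real.log (1 + 1 / ℓ) + q) ≤
        gg (qk k l) y (qk k l) - kap k l * Real.log (1 + y' / ct l) := by
    intro y y' hy hy'
    have g1 := gg_same (q := qk k l) (by rw [← eq]; exact hq0) hy
    rw [← eq] at hy hy' g1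
    rw [← eq, ← eκ, ← eℓ]
    have s1 := RegII_split hℓ (by linarith : 0 ≤ y')
    have s2 := mul_le_mul_of_nonneg_left s1 hκ0
    have s3 : 0 ≤ q ^ 2 / 2 := by positivity
    have e1 : κ * (Real.log (1 + 1 / ℓ) + y') =
        κ * (y' - q) + κ * (Real.log (1 + 1 / ℓ) + q) := by ring
    linarith
  have H2 : ∀ y y' : ℝ, qk k l < y → 0 < y' → y' ≤ qk k l →
      -(κ * (Real.log (1 + 1 / ℓ) + q)) ≤
        gg (qk k l) y y' - kap k l * Real.log (1 + y' / ct l) := by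
    intro y y' hy hy0 hy'
    have g1 := gg_mid hy0 hy' hy
    rw [← eq] at hy hy' g1
    rw [← eq, ← eκ, ← eℓ]
    have s1 := RegII_split hℓ hy0.le
    have s2 := mul_le_mul_of_nonneg_left s1 hκ0
    have s3 : 0 ≤ q * y' - y' ^ 2 / 2 := by
      have k1 : y' * y' ≤ q * y' := mul_le_mul_of_nonneg_right hy' hy0.le
      have k2 : 0 ≤ y' ^ 2 := sq_nonneg _
      have k3 : y' * y' = y' ^ 2 := by ring
      linarith
    have s4 : κ * (Real.log (1 + 1 / ℓ) + y') ≤ κ * (Real.log (1 + 1 / ℓ) + q) :=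
      mul_le_mul_of_nonneg_left (by linarith) hκ0
    linarith
  have H3 : ∀ y t : ℝ, qk k l < y → 0 < t → t < ct l →
      -(0 * (y - qk k l)) - ℓ ≤
        (y - qk k l) * (gg (qk k l) y (-t) - kap k l * Real.log (1 - t / ct l)) := by
    intro y t hy ht htl
    have g1 := gg_L hk h.l0 hl hy ht htl
    have hq0' : 0 ≤ qk k l := by rw [← eq]; exact hq0
    have hy0 : 0 < y := by linarith
    have g2 := mul_le_mul_of_nonneg_left g1 (by linarith : 0 ≤ y - qk k l)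
    have hc : 0 < ct l := by rw [← eℓ]; exact hℓ
    have g3 : (y - qk k l) * (ct l / y) ≤ ct l := by
      rw [mul_div_assoc', div_le_iff₀ hy0]
      have := mul_nonneg hc.le hq0'
      linarith
    have g4 : (y - qk k l) * -(ct l / y) = -((y - qk k l) * (ct l / y)) := by ring
    rw [g4] at g2
    rw [eℓ]
    linarith
  have H5 : ∀ z : ℝ, ct l < z →
      -(κ * ℓ * ((1 + z * ct l) / (z - ct l))) ≤ kap k l * Real.log (z / ct l - 1) := by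
    intro z hz
    rw [← eκ, ← eℓ]
    rw [← eℓ] at hz
    have g1 := mul_le_mul_of_nonneg_left (RegII_far hℓ hz) hκ0
    have e1 : κ * -(ℓ * ((1 + z * ℓ) / (z - ℓ))) = -(κ * ℓ * ((1 + z * ℓ) / (z - ℓ))) := by ring
    linarith
  have H6 : ∀ y z : ℝ, 0 < y → y < 60 * qk k l → ct l < z → 17 / 2 * chp y z ^ 3 ≤
      17 / 2 * (60 * q) ^ 3 + 0 * (ct l * max ((y * ct l - 1) / (y + ct l)) 0 ^ 2) := by
    intro y z hy hyq hz
    rw [← eℓ] at hz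
    rw [← eq] at hyq
    have hz0 : 0 < z := by linarith
    have g1 := PtA_chp hy hz0
    have g2 : y * z / (y + z) ≤ y := by
      rw [div_le_iff₀ (by positivity)]
      have : 0 ≤ y * y := by positivity
      linarith
    have g3 : chp y z ^ 3 ≤ (60 * q) ^ 3 := pow_le_pow_left₀ (PtA_chp0 y z) (by linarith) 3
    rw [zero_mul, add_zero]
    linarith
  have hα2n : 0 ≤ κ * (Real.log (1 + 1 / ℓ) + q) := mul_nonneg hκ0 (by linarith)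
  have hasm := short_asm hk h.l0 hl
    ⟨hκ0, hα2n, le_rfl, hℓ.le, mul_nonneg hκ0 hℓ.le, by positivity, le_rfl⟩
    H1 H2 H3 H5 H6 hquad h
  have hbud := bud_ge h
  rw [if_pos hl] at hbud
  have hF0 := (FPt_int h hl).2
  obtain ⟨hSe0, -, hN3e⟩ := N3_su hBe
  have hq0' : 0 ≤ qk k l := by rw [← eq]; exact hq0
  have hBh := bd_hat hq0' hBa
  obtain ⟨hSa0, hSa10, -⟩ := N3_su hBh
  obtain ⟨hSb0, -, -⟩ := N3_su hBb
  obtain ⟨hh0, hh1, hV0, -⟩ := ms_hat hq0' hBa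
  obtain ⟨hme, hm5, hm5e, -⟩ := hT5 f l h hl
  have hVe0 : 0 ≤ vs (bE f l) := Pool.Agent.H12.DA.Vb_nn hBe
  have hμ0 := h.mean
  have hT2a : ∀ R : ℝ, 0 < R → vs (hat (qk k l) (bF f)) ≤
      C2 * (Ma f * R + √(Su (hat (qk k l) (bF f))) / √R) := by
    intro R hR
    have g1 := hT2 _ hBh R hR
    have g2 : ms (hat (qk k l) (bF f)) ≤ Ma f := by linarith
    have g3 := mul_le_mul_of_nonneg_right g2 hR.le
    have g4 : C2 * (ms (hat (qk k l) (bF f)) * R + √(Su (hat (qk k l) (bF f))) / √R) ≤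
        C2 * (Ma f * R + √(Su (hat (qk k l) (bF f))) / √R) :=
      mul_le_mul_of_nonneg_left (by linarith) hC2
    exact g1.trans g4
  have hT2e : vs (bE f l) ≤ C2 * (ms (bC f) + √(Su (bE f l))) := by
    have g1 := hT2 _ hBe 1 one_pos
    rwa [Real.sqrt_one, div_one, mul_one, hme] at g1
  have hMμ : Ma f = (∫ x in (0:ℝ)..(2 * π), f x) + 2 * ms (bC f) := by
    rw [hM1, hM2]
    ring
  rw [← eℓ] at hm5e
  have hfin := hcl (Su (hat (qk k l) (bF f))) (Su (bC f)) (Su (bE f l))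
    (vs (hat (qk k l) (bF f))) (vs (bE f l)) (Ma f) (ms (bC f)) (∫ x in (0:ℝ)..(2 * π), f x) ℓ e
    hSa0 hSb0 hSe0 hV0 hVe0 hb0 hμ0 hMμ he0 he2 hee hT2a hT2e hm5 hm5e
  rw [← eq] at hasm hfin
  rw [← eq] at hV0 hSa0 hSa10
  obtain ⟨V, eV⟩ : ∃ V : ℝ, V = vs (hat q (bF f)) := ⟨_, rfl⟩
  obtain ⟨Ve, eVe⟩ : ∃ V : ℝ, V = vs (bE f l) := ⟨_, rfl⟩
  obtain ⟨M, eM⟩ : ∃ V : ℝ, V = Ma f := ⟨_, rfl⟩
  obtain ⟨m, em⟩ : ∃ V : ℝ, V = ms (bC f) := ⟨_, rfl⟩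
  obtain ⟨μ, eμ⟩ : ∃ V : ℝ, V = ∫ x in (0:ℝ)..(2 * π), f x := ⟨_, rfl⟩
  obtain ⟨Sa, eSa⟩ : ∃ V : ℝ, V = Su (hat q (bF f)) := ⟨_, rfl⟩
  obtain ⟨Sa1, eSa1⟩ : ∃ V : ℝ, V = Su1 (hat q (bF f)) := ⟨_, rfl⟩
  obtain ⟨Sb, eSb⟩ : ∃ V : ℝ, V = Su (bC f) := ⟨_, rfl⟩
  obtain ⟨Se, eSe⟩ : ∃ V : ℝ, V = Su (bE f l) := ⟨_, rfl⟩
  obtain ⟨F, eF⟩ : ∃ V : ℝ, V = FPt f l := ⟨_, rfl⟩
  obtain ⟨Lg, eLg⟩ : ∃ V : ℝ, V = Real.log (1 + 1 / ℓ) := ⟨_, rfl⟩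
  rw [← eV, ← eVe, ← eM, ← em, ← eμ, ← eSa, ← eSb, ← eSa1, ← eF, ← eLg] at hasm
  rw [← eV, ← eVe, ← eM, ← eμ, ← eSa, ← eSb, ← eSe] at hfin
  rw [← eμ, ← eM, ← eF] at hbud
  rw [← eSe] at hN3e
  rw [← eF] at hF0
  rw [← eV] at hV0
  rw [← eVe] at hVe0
  rw [← em] at hb0
  rw [← eLg] at hlog hlog0 hα2n
  rw [← eSa1] at hSa10
  rw [← eμ] at hμ0
  rw [← eμ, ← eM, ← em] at hMμ
  rw [← eμ, ← eM]
  obtain ⟨Q, eQ⟩ : ∃ Q : ℝ, Q = 10 ^ 7 * k ^ 3 := ⟨_, rfl⟩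
  rw [← eQ] at hfin
  have hMn : 0 ≤ M := by linarith
  -- sizes of the coefficients
  have hk1 : 1 ≤ k := by linarith
  have hkk2 : k ≤ k ^ 2 := by
    have := mul_le_mul_of_nonneg_left hk1 hk0
    calc k = k * 1 := by ring
      _ ≤ _ := this
      _ = k ^ 2 := by ring
  have hkk3 : k ^ 2 ≤ k ^ 3 := by
    have := mul_le_mul_of_nonneg_left hk1 (sq_nonneg k)
    calc k ^ 2 = k ^ 2 * 1 := by ring
      _ ≤ _ := this
      _ = k ^ 3 := by ring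
  have hee2 : e ^ 2 ≤ 2 * e := by
    have := mul_le_mul_of_nonneg_right he2 he0.le
    calc e ^ 2 = e * e := by ring
      _ ≤ _ := this
  have hee4 : e ^ 4 ≤ 8 * e := by
    have k1 : e ^ 2 * e ^ 2 ≤ (2 * e) * 4 :=
      mul_le_mul hee2 (by rw [hee]; linarith) (sq_nonneg _) (by positivity)
    calc e ^ 4 = e ^ 2 * e ^ 2 := by ring
      _ ≤ _ := k1
      _ = 8 * e := by ring
  have hke : 0 ≤ k ^ 3 * e := by positivity
  have hke1 : k * e ≤ k ^ 3 * e := mul_le_mul_of_nonneg_right (by linarith) he0.le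
  have hke2 : k ^ 2 * e ≤ k ^ 3 * e := mul_le_mul_of_nonneg_right hkk3 he0.le
  have hke0 : e ≤ k ^ 3 * e := by
    have : 1 * e ≤ k ^ 3 * e := mul_le_mul_of_nonneg_right (by linarith) he0.le
    linarith
  have hQe : Q * e = 10 ^ 7 * (k ^ 3 * e) := by rw [eQ]; ring
  have A1 : κ ≤ Q * e := by
    rw [hQe]
    have k1 : 2 * k * ℓ ≤ 4 * (k * e) := by
      rw [← hee]
      have := mul_le_mul_of_nonneg_left hee2 hk0
      linarith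
    linarith
  have A2 : κ * (Lg + q) ≤ Q * e := by
    rw [hQe]
    have k1 : κ * (Lg + q) ≤ 2 * k * ℓ * (Lg + k) :=
      mul_le_mul hκ (by linarith) (by linarith) (by positivity)
    have k2 : 2 * k * ℓ * (Lg + k) = 2 * (k * e) * (Lg * e) + 2 * k ^ 2 * e ^ 2 := by
      rw [← hee]
      ring
    have k3 : 2 * (k * e) * (Lg * e) ≤ 2 * (k * e) * 1 :=
      mul_le_mul_of_nonneg_left hlog (by positivity)
    have k4 : 2 * k ^ 2 * e ^ 2 ≤ 2 * k ^ 2 * (2 * e) :=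
      mul_le_mul_of_nonneg_left hee2 (by positivity)
    linarith
  have A4 : ℓ ≤ Q * e := by
    rw [hQe, ← hee]
    linarith
  have A5 : κ * ℓ ≤ Q * e := by
    rw [hQe]
    have k1 : κ * ℓ ≤ 2 * k * ℓ * ℓ := mul_le_mul_of_nonneg_right hκ hℓ.le
    have k2 : 2 * k * ℓ * ℓ = 2 * k * e ^ 4 := by rw [← hee]; ring
    have k3 : 2 * k * e ^ 4 ≤ 2 * k * (8 * e) := mul_le_mul_of_nonneg_left hee4 (by positivity)
    linarith
  have A6 : 17 / 2 * (60 * q) ^ 3 ≤ Q * e := by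
    rw [hQe]
    have k1 : q ≤ 4 * (k * e) := by
      have j1 : k * ℓ ^ 2 / 2 = k / 2 * e ^ 4 := by rw [← hee]; ring
      have j2 : k / 2 * e ^ 4 ≤ k / 2 * (8 * e) := mul_le_mul_of_nonneg_left hee4 (by positivity)
      linarith
    have k2 : q ^ 2 ≤ k ^ 2 := pow_le_pow_left₀ hq0 hqk 2
    have k3 : q ^ 2 * q ≤ k ^ 2 * (4 * (k * e)) := mul_le_mul k2 k1 hq0 (by positivity)
    have k4 : 17 / 2 * (60 * q) ^ 3 = 1836000 * (q ^ 2 * q) := by ring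
    rw [k4]
    linarith
  have hE0 : 0 ≤ Q * e := hκ0.trans A1
  have B1 : 2 * κ * V ^ 2 ≤ 2 * (Q * e) * V ^ 2 :=
    mul_le_mul_of_nonneg_right (by linarith) (sq_nonneg _)
  have hVM : 2 * (V * M) ≤ V ^ 2 + M ^ 2 := by
    have := sq_nonneg (V - M)
    have e3 : (V - M) ^ 2 = V ^ 2 + M ^ 2 - 2 * (V * M) := by ring
    linarith
  have hVV : 2 * (V * Ve) ≤ V ^ 2 + Ve ^ 2 := by
    have := sq_nonneg (V - Ve)
    have e3 : (V - Ve) ^ 2 = V ^ 2 + Ve ^ 2 - 2 * (V * Ve) := by ring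
    linarith
  have B2 : 2 * (κ * (Lg + q)) * V * M ≤ Q * e * (V ^ 2 + M ^ 2) := by
    have j1 : κ * (Lg + q) * (2 * (V * M)) ≤ Q * e * (V ^ 2 + M ^ 2) :=
      mul_le_mul A2 hVM (by positivity) hE0
    linarith
  have B4 : 2 * ℓ * M ^ 2 ≤ 2 * (Q * e) * M ^ 2 :=
    mul_le_mul_of_nonneg_right (by linarith) (sq_nonneg _)
  have B5 : 2 * (κ * ℓ) * V * Ve ≤ Q * e * (V ^ 2 + Ve ^ 2) := by
    have j1 : κ * ℓ * (2 * (V * Ve)) ≤ Q * e * (V ^ 2 + Ve ^ 2) :=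
      mul_le_mul A5 hVV (by positivity) hE0
    linarith
  have B6 : 17 / 2 * (60 * q) ^ 3 * M * m ≤ Q * e * M ^ 2 := by
    have j0 : M * m ≤ M ^ 2 := by
      have := mul_le_mul_of_nonneg_left (by linarith : m ≤ M) hMn
      calc M * m ≤ M * M := this
        _ = M ^ 2 := by ring
    have j1 : 17 / 2 * (60 * q) ^ 3 * (M * m) ≤ Q * e * M ^ 2 :=
      mul_le_mul A6 j0 (by positivity) hE0
    linarith
  have B7 : 0 ≤ q ^ 2 * Sa1 / 4 := by positivity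
  have hK'0 : 0 ≤ K' := hK.trans hK'
  have B8 : K' * (Se / 4 - 2 * (μ * M)) ≤ K' * (8 * π * BNA f l) := by
    refine mul_le_mul_of_nonneg_left ?_ hK'0
    linarith
  have hμM : 0 ≤ C * (μ * M) := by positivity
  have e5 : Q * e * (4 * V ^ 2 + 4 * M ^ 2 + Ve ^ 2) = 2 * (Q * e) * V ^ 2 +
      Q * e * (V ^ 2 + M ^ 2) + 2 * (Q * e) * M ^ 2 + Q * e * (V ^ 2 + Ve ^ 2) +
      Q * e * M ^ 2 := by ring
  have htot : -(C * (μ * M)) ≤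
      8 * π * (TA q (dqk k l) f l - 17 / 16 * EAk f l + K' * BNA f l) := by
    have e6 : 8 * π * (TA q (dqk k l) f l - 17 / 16 * EAk f l + K' * BNA f l) =
        8 * π * (TA q (dqk k l) f l - 17 / 16 * EAk f l) + K' * (8 * π * BNA f l) := by ring
    rw [e6]
    have e7 : K' * (Se / 4 - 2 * (μ * M)) = K' / 4 * Se - 2 * K' * (μ * M) := by ring
    rw [e7] at B8
    rw [e5] at hfin
    linarith
  have h8 : 1 ≤ 8 * π := by linarith [Real.pi_gt_three]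
  rw [← eq]
  by_contra hcon
  push Not at hcon
  have h9 : TA q (dqk k l) f l - 17 / 16 * EAk f l + K' * BNA f l < -(C * (μ * M)) := by
    linarith
  have h10 : 8 * π * (TA q (dqk k l) f l - 17 / 16 * EAk f l + K' * BNA f l) <
      8 * π * (-(C * (μ * M))) := mul_lt_mul_of_pos_left h9 (by linarith)
  have h11 : C * (μ * M) ≤ 8 * π * (C * (μ * M)) := by
    have := mul_le_mul_of_nonneg_right h8 hμM
    linarith
  linarith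

end Pool.Agent.H53.DA
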