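import Pool.Agent.H53.DA.LongA
import Pool.Agent.H53.DA.Bud
import Pool.Agent.H53.DA.Quad
import Pool.Agent.H53.DA.ToolC

/-!
# DA static job S14 (RegIII): the regime `l ≥ π`, note 1995, sec. 7

`long_asm`, `bud_ge` (`if` is `0`), `N3_su`, `quad_form`.  `a = bF f`, `b = bC f`, `Sa, Sb, Se = Su bE`, `M = Ma f`.
`l = π`: `Qf = 0` (`Qf_zero`).  `l > π`: `λ = 2π - l`, `L = ct λ > 0`; `a = 0` for `ct x < L` (`x > λ`), so `T3`: `(ms a)² L³ ≤ C Sa`;
`M ≤ 2 ms a` (`mass_long`, mean `≥ 0`).  `T2` for `b` with `R = L`: `vs b ≤ C (M L + √Sb/√L)`.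
`Qf_le`: `Qf ≤ ε²L² M + L² MMb bE r`, `e^{-r} = εL`, `MMb bE r = e^{3r/2} Am (3/2) bE r`, `T1` with `e^{-r'} = ε²L`:
`MMb bE r ≤ C (ε^{3/2} M + (1 + log(1/ε)) (εL)^{-3/2} √Se)` (`ms bE ≤ M`).  So
`vs b · Qf ≤ C (M L^{3/2} + √Sb) (ε^{3/2} M L^{3/2} + C_ε √Se) ≤ C' (√Sa + √Sb)(ε^{3/2} √Sa + C_ε √Se) ≤ (δ/4)(Sa+Sb) + C'' Se`
for `ε` small.  `μ vs a ≤ C μ (M + √Sa)` (`T2`, `R = 1`) `≤ (δ/4) Sa + C μ M` (`μ ≤ M`).
(`qk k l = 0`, `dqk k l = 0` for `l ≥ π`.)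
-/

set_option autoImplicit false
open Real Set MeasureTheory Filter Topology

namespace Pool.Agent.H53.DA
open Pool.Agent.H45.FL Pool.Agent.H51.DG Pool.Agent.H45.DY Pool.Agent.H90.DC Pool.Agent.H90.DA

theorem RegIII_cont {f : ℝ → ℝ} (hL : ∃ K, Lip K f) : Continuous f := by
  obtain ⟨K, hK⟩ := hL
  have h1 : LipschitzWith (Real.toNNReal |K|) f := by
    refine LipschitzWith.of_dist_le_mul fun x y => ?_
    rw [Real.dist_eq, Real.dist_eq, Real.coe_toNNReal _ (abs_nonneg K)]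
    exact (hK x y).trans (mul_le_mul_of_nonneg_right (le_abs_self K) (abs_nonneg _))
  exact h1.continuous

theorem RegIII_ms_bE {f : ℝ → ℝ} {l : ℝ} (hp : Function.Periodic f (2 * π)) (hc : Continuous f) :
    ms (bE f l) ≤ Ma f := by
  have hpi := Real.pi_pos
  have hc1 : Continuous fun x => |f (x - l)| := (hc.comp (continuous_id.sub continuous_const)).abs
  have hc2 : Continuous (bE f l) := by
    unfold bE
    exact (hc.comp (continuous_id.sub continuous_const)).neg.max continuous_const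
  have h1 : ms (bE f l) ≤ ∫ x in (0:ℝ)..π, |f (x - l)| := by
    unfold ms
    refine intervalIntegral.integral_mono_on hpi.le (hc2.intervalIntegrable _ _)
      (hc1.intervalIntegrable _ _) fun x _ => ?_
    unfold bE
    exact max_le (neg_le_abs _) (abs_nonneg _)
  have h2 : ∫ x in (0:ℝ)..π, |f (x - l)| ≤ ∫ x in (0:ℝ)..(2 * π), |f (x - l)| := by
    rw [← intervalIntegral.integral_add_adjacent_intervals (hc1.intervalIntegrable 0 π)
      (hc1.intervalIntegrable π (2 * π))]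
    have h3 : 0 ≤ ∫ x in (π:ℝ)..(2 * π), |f (x - l)| :=
      intervalIntegral.integral_nonneg (by linarith) fun x _ => abs_nonneg _
    linarith
  have h4 : ∫ x in (0:ℝ)..(2 * π), |f (x - l)| = Ma f := by
    have h5 : ∫ x in (0:ℝ)..(2 * π), |f (x - l)| = ∫ x in (0 - l)..(2 * π - l), |f x| :=
      intervalIntegral.integral_comp_sub_right (fun x => |f x|) l
    have hp' : Function.Periodic (fun x => |f x|) (2 * π) := fun x => by
      show |f (x + 2 * π)| = |f x|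
      rw [hp x]
    have h6 := hp'.intervalIntegral_add_eq (0 - l) 0
    rw [h5]
    unfold Ma
    rw [show (2 * π - l : ℝ) = 0 - l + 2 * π by ring, h6, zero_add]
  linarith

theorem RegIII_P0 {f : ℝ → ℝ} {l : ℝ} (h : VanA f l) (hl : π < l) :
    ∀ x ∈ Ioo (0:ℝ) π, ct x < ct (2 * π - l) → bF f x = 0 := by
  intro x hx hct
  have hpi := Real.pi_pos
  have hl1 := h.l1
  have h1 : 2 * π - l < x := by
    by_contra hcon
    push Not at hcon
    rcases hcon.lt_or_eq with h2 | h2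
    · have h3 : ct (2 * π - l) < ct x := ct_lt hx.1 h2 (by linarith)
      linarith
    · rw [h2] at hct
      exact lt_irrefl _ hct
  have h2 : f x ≤ 0 := by
    have h3 : f (x - 2 * π) = f x := by
      have := h.per (x - 2 * π)
      rw [← this]
      congr 1
      ring
    rw [← h3]
    exact h.neg _ ⟨by linarith, by linarith [hx.2]⟩
  unfold bF
  exact max_eq_right h2

/-- the final real number inequality -/
theorem RegIII_alg {C1 C2 C3 δ : ℝ} (h1 : 0 ≤ C1) (h2 : 0 ≤ C2) (h3 : 0 ≤ C3) (hδ : 0 < δ) :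
    ∃ v Λ C'' : ℝ, 0 < v ∧ v ≤ 1 ∧ Λ = C1 * (1 + -Real.log (v ^ 2)) / v ^ 3 ∧ 0 ≤ C'' ∧
      ∀ X sa sb se : ℝ, 0 ≤ X → 0 ≤ sa → 0 ≤ sb → 0 ≤ se → X ^ 2 ≤ 4 * C3 * sa ^ 2 →
      C2 * (X + sb) * ((v ^ 4 + C1 * v ^ 3) * X + Λ * se) ≤
        δ / 2 * (sa ^ 2 + sb ^ 2) + C'' * se ^ 2 := by
  obtain ⟨D, hD⟩ : ∃ D, D = 8 * C3 + 2 := ⟨_, rfl⟩
  have hD2 : 2 ≤ D := by linarith
  obtain ⟨v, hv⟩ : ∃ v, v = min 1 (δ / (4 * (C2 + 1) * (1 + C1) * D)) := ⟨_, rfl⟩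
  have hden : 0 < 4 * (C2 + 1) * (1 + C1) * D := by positivity
  have hv0 : 0 < v := by
    rw [hv]
    exact lt_min one_pos (div_pos hδ hden)
  have hv1 : v ≤ 1 := by
    rw [hv]
    exact min_le_left _ _
  have hv2 : v * (4 * (C2 + 1) * (1 + C1) * D) ≤ δ := by
    have : v ≤ δ / (4 * (C2 + 1) * (1 + C1) * D) := by
      rw [hv]
      exact min_le_right _ _
    rwa [le_div_iff₀ hden] at this
  obtain ⟨Λ, hΛ⟩ : ∃ Λ, Λ = C1 * (1 + -Real.log (v ^ 2)) / v ^ 3 := ⟨_, rfl⟩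
  obtain ⟨η, hη⟩ : ∃ η, η = δ / (4 * D) := ⟨_, rfl⟩
  have hη0 : 0 < η := by
    rw [hη]
    positivity
  refine ⟨v, Λ, (C2 * Λ) ^ 2 / (4 * η), hv0, hv1, hΛ, by positivity, ?_⟩
  intro X sa sb se hX hsa hsb hse hXs
  have hv4 : v ^ 4 + C1 * v ^ 3 ≤ (1 + C1) * v := by
    have e1 : v ^ 3 ≤ v := by
      have : v ^ 3 ≤ v ^ 1 := pow_le_pow_of_le_one hv0.le hv1 (by norm_num)
      simpa using this
    have e2 : v ^ 4 ≤ v := by
      have : v ^ 4 ≤ v ^ 1 := pow_le_pow_of_le_one hv0.le hv1 (by norm_num)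
      simpa using this
    have e3 := mul_le_mul_of_nonneg_left e1 h1
    linarith
  have hsum : (X + sb) ^ 2 ≤ D * (sa ^ 2 + sb ^ 2) := by
    have e1 : (X + sb) ^ 2 ≤ 2 * X ^ 2 + 2 * sb ^ 2 := by nlinarith [sq_nonneg (X - sb)]
    have e2 : 0 ≤ C3 * sb ^ 2 := by positivity
    rw [hD]
    nlinarith [sq_nonneg sa]
  have hXX : (X + sb) * X ≤ (X + sb) ^ 2 := by
    have : 0 ≤ (X + sb) * sb := by positivity
    nlinarith
  -- first part
  have hA : C2 * (X + sb) * ((v ^ 4 + C1 * v ^ 3) * X) ≤ δ / 4 * (sa ^ 2 + sb ^ 2) := by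
    have e1 : C2 * (X + sb) * ((v ^ 4 + C1 * v ^ 3) * X) ≤
        C2 * ((1 + C1) * v) * ((X + sb) * X) := by
      have : (v ^ 4 + C1 * v ^ 3) * (C2 * ((X + sb) * X)) ≤
          (1 + C1) * v * (C2 * ((X + sb) * X)) :=
        mul_le_mul_of_nonneg_right hv4 (by positivity)
      linarith
    have e2 : C2 * ((1 + C1) * v) * ((X + sb) * X) ≤
        C2 * ((1 + C1) * v) * (D * (sa ^ 2 + sb ^ 2)) :=
      mul_le_mul_of_nonneg_left (hXX.trans hsum) (by positivity)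
    have e3 : C2 * ((1 + C1) * v) * (D * (sa ^ 2 + sb ^ 2)) ≤ δ / 4 * (sa ^ 2 + sb ^ 2) := by
      have e4 : C2 * ((1 + C1) * v) * D ≤ δ / 4 := by
        have e5 : 0 ≤ (1 + C1) * v * D := by positivity
        nlinarith
      have := mul_le_mul_of_nonneg_right e4 (by positivity : 0 ≤ sa ^ 2 + sb ^ 2)
      linarith
    linarith
  -- second part
  have hB : C2 * (X + sb) * (Λ * se) ≤ δ / 4 * (sa ^ 2 + sb ^ 2) +
      (C2 * Λ) ^ 2 / (4 * η) * se ^ 2 := by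
    have e1 : C2 * (X + sb) * (Λ * se) ≤ η * (X + sb) ^ 2 + (C2 * Λ) ^ 2 / (4 * η) * se ^ 2 := by
      have e2 : 0 ≤ (2 * η * (X + sb) - C2 * Λ * se) ^ 2 / (4 * η) := by positivity
      have e3 : (2 * η * (X + sb) - C2 * Λ * se) ^ 2 / (4 * η) =
          η * (X + sb) ^ 2 + (C2 * Λ) ^ 2 / (4 * η) * se ^ 2 - C2 * (X + sb) * (Λ * se) := by
        field_simp
        ring
      linarith
    have e4 : η * (X + sb) ^ 2 ≤ δ / 4 * (sa ^ 2 + sb ^ 2) := by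
      have e5 := mul_le_mul_of_nonneg_left hsum hη0.le
      have e6 : η * (D * (sa ^ 2 + sb ^ 2)) = δ / 4 * (sa ^ 2 + sb ^ 2) := by
        rw [hη]
        have : D ≠ 0 := by positivity
        field_simp
      linarith
    linarith
  have hfin : C2 * (X + sb) * ((v ^ 4 + C1 * v ^ 3) * X + Λ * se) =
      C2 * (X + sb) * ((v ^ 4 + C1 * v ^ 3) * X) + C2 * (X + sb) * (Λ * se) := by ring
  rw [hfin]
  linarith

/-- the flat part of N against `vs b` -/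
theorem RegIII_flat {δ : ℝ} (hδ : 0 < δ) : ∃ C'' : ℝ, 0 ≤ C'' ∧ ∀ (f : ℝ → ℝ) (l : ℝ), VanA f l →
    π ≤ l → vs (bC f) * Qf f ≤ δ / 2 * (Su (bF f) + Su (bC f)) + C'' * Su (bE f l) := by
  obtain ⟨C1, hC1, hT1⟩ := T1
  obtain ⟨C2, hC2, hT2⟩ := T2
  obtain ⟨C3, hC3, hT3⟩ := T3
  obtain ⟨v, Λ, C'', hv0, hv1, hΛ, hC'', halg⟩ := RegIII_alg hC1 hC2 hC3 hδ
  refine ⟨C'', hC'', ?_⟩
  intro f l h hl
  obtain ⟨hba, -, hbb, hbg, hbe⟩ := bd_parts h
  have hsa := (N3_su hba).1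
  have hsb := (N3_su hbb).1
  have hse := (N3_su hbe).1
  have hpi := Real.pi_pos
  rcases hl.lt_or_eq with hl' | hl'
  swap
  · subst hl'
    rw [Qf_zero h, mul_zero]
    positivity
  have hc : Continuous f := RegIII_cont h.lip
  have hlam0 : 0 < 2 * π - l := by linarith [h.l1]
  have hlam1 : 2 * π - l < π := by linarith
  obtain ⟨L, hLdef⟩ : ∃ L, L = ct (2 * π - l) := ⟨_, rfl⟩
  have hL0 : 0 < L := by
    rw [hLdef]
    unfold ct
    apply div_pos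
    · exact Real.cos_pos_of_mem_Ioo ⟨by linarith, by linarith⟩
    · exact Real.sin_pos_of_pos_of_lt_pi (by linarith) (by linarith)
  obtain ⟨u, hu⟩ : ∃ u, u = √L := ⟨_, rfl⟩
  have hu0 : 0 < u := by
    rw [hu]
    exact Real.sqrt_pos.2 hL0
  have huL : u ^ 2 = L := by
    rw [hu]
    exact Real.sq_sqrt hL0.le
  obtain ⟨M, hM⟩ : ∃ M, M = Ma f := ⟨_, rfl⟩
  obtain ⟨hml1, hml2, hma, hmb, hmg⟩ := mass_long h.toTwoA hc hl
  have hmean := h.mean
  have hM2 : M ≤ 2 * ms (bF f) := by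
    rw [hM]
    linarith
  have hM0 : 0 ≤ M := by
    rw [hM]
    linarith
  have hmbM : ms (bC f) ≤ M := by
    rw [hM]
    linarith
  have hmeM : ms (bE f l) ≤ M := by
    rw [hM]
    exact RegIII_ms_bE h.per hc
  -- T3
  have h3 := (hT3 (bF f) hba L hL0 (by
    rw [hLdef]
    exact RegIII_P0 h hl')).1
  -- T2 for `b`
  have h2 := hT2 (bC f) hbb L hL0
  rw [← hu] at h2
  -- T1 for `e`
  obtain ⟨r, hr⟩ : ∃ r, r = -Real.log (v ^ 2 * L) := ⟨_, rfl⟩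
  obtain ⟨r', hr'⟩ : ∃ r', r' = -Real.log ((v ^ 2) ^ 2 * L) := ⟨_, rfl⟩
  have hv2 : 0 < v ^ 2 := by positivity
  have hlog : Real.log (v ^ 2) ≤ 0 := Real.log_nonpos hv2.le (pow_le_one₀ hv0.le hv1)
  have hrr : r' - r = -Real.log (v ^ 2) := by
    rw [hr, hr', Real.log_mul (by positivity) hL0.ne', Real.log_mul (by positivity) hL0.ne',
      Real.log_pow (v ^ 2) 2]
    push_cast
    ring
  have h1 := hT1 (bE f l) hbe r r' (by linarith)
  rw [hrr] at h1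
  have hexp1 : Real.exp (-(3 / 2 * r')) = (v ^ 2 * u) ^ 3 := by
    have e1 : (v ^ 2) ^ 2 * L = (v ^ 2 * u) ^ 2 := by
      rw [← huL]
      ring
    rw [hr', e1, Real.log_pow]
    push_cast
    rw [show -(3 / 2 * -(2 * Real.log (v ^ 2 * u))) = (3:ℕ) * Real.log (v ^ 2 * u) by
      push_cast
      ring, Real.exp_nat_mul, Real.exp_log (by positivity)]
  have hexp2 : MMb (bE f l) r * (v * u) ^ 3 = Am (3 / 2) (bE f l) r := by
    unfold Am
    have e1 : v ^ 2 * L = (v * u) ^ 2 := by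
      rw [← huL]
      ring
    have e2 : Real.exp (-(3 / 2 * r)) = (v * u) ^ 3 := by
      rw [hr, e1, Real.log_pow]
      push_cast
      rw [show -(3 / 2 * -(2 * Real.log (v * u))) = (3:ℕ) * Real.log (v * u) by
        push_cast
        ring, Real.exp_nat_mul, Real.exp_log (by positivity)]
    rw [e2]
    ring
  rw [hexp1] at h1
  have hQ := Qf_le h hl' hv2 (pow_le_one₀ hv0.le hv1)
  rw [← hLdef, ← hr, ← hM] at hQ
  have hvb : 0 ≤ vs (bC f) := Pool.Agent.H12.DA.Vb_nn hbb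
  -- bound of MMb
  obtain ⟨se, hse'⟩ : ∃ se, se = √(Su (bE f l)) := ⟨_, rfl⟩
  obtain ⟨sb, hsb'⟩ : ∃ sb, sb = √(Su (bC f)) := ⟨_, rfl⟩
  obtain ⟨sa, hsa'⟩ : ∃ sa, sa = √(Su (bF f)) := ⟨_, rfl⟩
  have hse0 : 0 ≤ se := by
    rw [hse']
    exact Real.sqrt_nonneg _
  have hsb0 : 0 ≤ sb := by
    rw [hsb']
    exact Real.sqrt_nonneg _
  have hsa0 : 0 ≤ sa := by
    rw [hsa']
    exact Real.sqrt_nonneg _
  have hse2 : se ^ 2 = Su (bE f l) := by
    rw [hse']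
    exact Real.sq_sqrt hse
  have hsb2 : sb ^ 2 = Su (bC f) := by
    rw [hsb']
    exact Real.sq_sqrt hsb
  have hsa2 : sa ^ 2 = Su (bF f) := by
    rw [hsa']
    exact Real.sq_sqrt hsa
  rw [← hse'] at h1
  rw [← hsb'] at h2
  have hΛ' : Λ * v ^ 3 = C1 * (1 + -Real.log (v ^ 2)) := by
    rw [hΛ]
    field_simp
  have hMM : u ^ 3 * MMb (bE f l) r ≤ C1 * v ^ 3 * (u ^ 3 * M) + Λ * se := by
    have e1 : (u ^ 3 * MMb (bE f l) r) * v ^ 3 ≤
        (C1 * v ^ 3 * (u ^ 3 * M) + Λ * se) * v ^ 3 := by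
      have e2 : (u ^ 3 * MMb (bE f l) r) * v ^ 3 = Am (3 / 2) (bE f l) r := by
        rw [← hexp2]
        ring
      rw [e2]
      have e3 : ms (bE f l) * (v ^ 2 * u) ^ 3 ≤ M * (v ^ 2 * u) ^ 3 :=
        mul_le_mul_of_nonneg_right hmeM (by positivity)
      have e4 := mul_le_mul_of_nonneg_left e3 hC1
      have e5 : (C1 * v ^ 3 * (u ^ 3 * M) + Λ * se) * v ^ 3 =
          C1 * (M * (v ^ 2 * u) ^ 3) + (Λ * v ^ 3) * se := by ring
      have e6 : C1 * (ms (bE f l) * (v ^ 2 * u) ^ 3 + (1 + -Real.log (v ^ 2)) * se) =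
          C1 * (ms (bE f l) * (v ^ 2 * u) ^ 3) + C1 * (1 + -Real.log (v ^ 2)) * se := by ring
      rw [e6] at h1
      rw [e5, hΛ']
      linarith only [h1, e4]
    exact le_of_mul_le_mul_right e1 (by positivity)
  obtain ⟨X, hX⟩ : ∃ X, X = u ^ 3 * M := ⟨_, rfl⟩
  have hX0 : 0 ≤ X := by
    rw [hX]
    positivity
  have hXs : X ^ 2 ≤ 4 * C3 * sa ^ 2 := by
    have e1 : X ^ 2 = M ^ 2 * L ^ 3 := by
      rw [hX, ← huL]
      ring
    have e2 : M ^ 2 ≤ 4 * ms (bF f) ^ 2 := by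
      have e4 := pow_le_pow_left₀ hM0 hM2 2
      rw [mul_pow] at e4
      norm_num at e4
      exact e4
    have e3 := mul_le_mul_of_nonneg_right e2 (by positivity : 0 ≤ L ^ 3)
    rw [e1, hsa2]
    linarith
  have key := halg X sa sb se hX0 hsa0 hsb0 hse0 hXs
  rw [hsa2, hsb2, hse2] at key
  refine le_trans ?_ key
  -- `vs b * Qf ≤ C2 (X + sb) (...)`
  have hU1 : vs (bC f) * u ≤ C2 * (X + sb) := by
    have e1 := mul_le_mul_of_nonneg_right h2 hu0.le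
    have e2 : C2 * (ms (bC f) * L + sb / u) * u = C2 * (ms (bC f) * (L * u) + sb) := by
      field_simp
    have e3 : ms (bC f) * (L * u) ≤ M * (L * u) :=
      mul_le_mul_of_nonneg_right hmbM (by positivity)
    have e4 : M * (L * u) = X := by
      rw [hX, ← huL]
      ring
    rw [e2] at e1
    rw [e4] at e3
    have e5 : C2 * (ms (bC f) * (L * u) + sb) ≤ C2 * (X + sb) :=
      mul_le_mul_of_nonneg_left (by linarith) hC2
    exact e1.trans e5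
  have hU2 : Qf f ≤ u * ((v ^ 4 + C1 * v ^ 3) * X + Λ * se) := by
    have e1 : (v ^ 2 * L) ^ 2 * M = u * (v ^ 4 * X) := by
      rw [hX, ← huL]
      ring
    have e2 : L ^ 2 * MMb (bE f l) r = u * (u ^ 3 * MMb (bE f l) r) := by
      rw [← huL]
      ring
    rw [e1, e2] at hQ
    have e3 := mul_le_mul_of_nonneg_left hMM hu0.le
    rw [← hX] at e3
    have e4 : u * ((v ^ 4 + C1 * v ^ 3) * X + Λ * se) =
        u * (v ^ 4 * X) + u * (C1 * v ^ 3 * X + Λ * se) := by ring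
    rw [e4]
    linarith only [hQ, e3]
  have hnn : 0 ≤ (v ^ 4 + C1 * v ^ 3) * X + Λ * se := by
    have : 0 ≤ Λ := by
      rw [hΛ]
      have : 0 ≤ 1 + -Real.log (v ^ 2) := by linarith
      positivity
    positivity
  calc vs (bC f) * Qf f ≤ vs (bC f) * (u * ((v ^ 4 + C1 * v ^ 3) * X + Λ * se)) :=
        mul_le_mul_of_nonneg_left hU2 hvb
    _ = (vs (bC f) * u) * ((v ^ 4 + C1 * v ^ 3) * X + Λ * se) := by ring
    _ ≤ C2 * (X + sb) * ((v ^ 4 + C1 * v ^ 3) * X + Λ * se) :=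
        mul_le_mul_of_nonneg_right hU1 hnn

theorem reg_iii : ∃ K : ℝ, 0 ≤ K ∧ ∀ K' : ℝ, K ≤ K' →
    ∃ C : ℝ, 0 ≤ C ∧ ∀ (f : ℝ → ℝ) (l : ℝ), VanA f l → π ≤ l →
    17 / 16 * EAk f l ≤ TA 0 0 f l + K' * BNA f l +
      C * (∫ x in (0:ℝ)..(2 * π), f x) * Ma f := by
  obtain ⟨δ, hδ, hq⟩ := quad_form
  obtain ⟨C'', hC'', hflat⟩ := RegIII_flat hδ
  obtain ⟨C2, hC2, hT2⟩ := T2
  refine ⟨4 * C'', by positivity, fun K' hK' => ?_⟩
  have hK0 : 0 ≤ K' := le_trans (by positivity) hK'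
  have hpi := Real.pi_pos
  obtain ⟨D2, hD2⟩ : ∃ D2, D2 = C2 ^ 2 / (2 * δ) := ⟨_, rfl⟩
  obtain ⟨c, hcd⟩ : ∃ c, c = (C2 + D2 + 2 + 2 * K') / (8 * π) := ⟨_, rfl⟩
  have hc8 : 8 * π * c = C2 + D2 + 2 + 2 * K' := by
    rw [hcd]
    field_simp
  have hD20 : 0 ≤ D2 := by
    rw [hD2]
    positivity
  refine ⟨c, by rw [hcd]; positivity, ?_⟩
  intro f l h hl
  obtain ⟨hba, -, hbb, hbg, hbe⟩ := bd_parts h
  have hsa := (N3_su hba).1
  have hsb := (N3_su hbb).1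
  obtain ⟨hse, -, hN3⟩ := N3_su hbe
  have hc : Continuous f := RegIII_cont h.lip
  obtain ⟨hml1, hml2, hma, hmb, hmg⟩ := mass_long h.toTwoA hc hl
  have hmean := h.mean
  obtain ⟨μ, hμ⟩ : ∃ μ, μ = ∫ x in (0:ℝ)..(2 * π), f x := ⟨_, rfl⟩
  obtain ⟨M, hM⟩ : ∃ M, M = Ma f := ⟨_, rfl⟩
  have h1 := long_asm hl hq h
  have h2 := bud_ge h
  rw [if_neg (not_lt.2 hl)] at h2
  have h3 := hflat f l h hl
  have h4 := hT2 (bF f) hba 1 one_pos
  rw [Real.sqrt_one, div_one, mul_one] at h4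
  rw [← hμ, ← hM] at h1 h2
  rw [← hμ] at hml2 hmean
  rw [← hM] at hml1
  rw [← hμ, ← hM]
  have hM0 : 0 ≤ M := by linarith
  have hμM : μ ≤ M := by linarith
  have hmaM : ms (bF f) ≤ M := by linarith
  obtain ⟨sa, hsa'⟩ : ∃ sa, sa = √(Su (bF f)) := ⟨_, rfl⟩
  have hsa0 : 0 ≤ sa := by
    rw [hsa']
    exact Real.sqrt_nonneg _
  have hsa2 : sa ^ 2 = Su (bF f) := by
    rw [hsa']
    exact Real.sq_sqrt hsa
  rw [← hsa'] at h4
  -- `μ vs a`
  have h5 : μ * vs (bF f) ≤ (C2 + D2) * (μ * M) + δ / 2 * Su (bF f) := by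
    have e1 : μ * vs (bF f) ≤ μ * (C2 * (M + sa)) := by
      refine mul_le_mul_of_nonneg_left (h4.trans ?_) hmean
      exact mul_le_mul_of_nonneg_left (by linarith) hC2
    have e2 : μ * (C2 * sa) ≤ δ / 2 * sa ^ 2 + C2 ^ 2 / (2 * δ) * μ ^ 2 := by
      have e3 : 0 ≤ (δ * sa - C2 * μ) ^ 2 / (2 * δ) := by positivity
      have e4 : (δ * sa - C2 * μ) ^ 2 / (2 * δ) =
          δ / 2 * sa ^ 2 + C2 ^ 2 / (2 * δ) * μ ^ 2 - μ * (C2 * sa) := by
        field_simp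
        ring
      linarith
    have e5 : C2 ^ 2 / (2 * δ) * μ ^ 2 ≤ C2 ^ 2 / (2 * δ) * (μ * M) := by
      refine mul_le_mul_of_nonneg_left ?_ (by positivity)
      rw [sq]
      exact mul_le_mul_of_nonneg_left hμM hmean
    rw [hsa2] at e2
    rw [← hD2] at e2 e5
    linarith only [e1, e2, e5]
  have h6 : C'' * Su (bE f l) ≤ K' * N3 (bE f l) := by
    have e1 : K' * (Su (bE f l) / 4) ≤ K' * N3 (bE f l) := mul_le_mul_of_nonneg_left hN3 hK0
    have e2 : 4 * C'' * (Su (bE f l) / 4) ≤ K' * (Su (bE f l) / 4) :=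
      mul_le_mul_of_nonneg_right hK' (by positivity)
    linarith
  have h7 : K' * (N3 (bE f l) + 0 - 2 * μ * M) ≤ K' * (8 * π * BNA f l) :=
    mul_le_mul_of_nonneg_left h2 hK0
  have h8 : 8 * π * (c * μ * M) = (C2 + D2 + 2 + 2 * K') * (μ * M) := by
    rw [← hc8]
    ring
  have h10 : 0 ≤ δ * Su (bC f) := mul_nonneg hδ.le hsb
  have h9 : 8 * π * (17 / 16 * EAk f l) ≤ 8 * π * (TA 0 0 f l + K' * BNA f l + c * μ * M) := by
    linarith only [h1, h3, h5, h6, h7, h8, h10]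
  exact le_of_mul_le_mul_left h9 (by positivity)

end Pool.Agent.H53.DA
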