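import Pool.Agent.H90.DA.LimA
import Pool.Agent.H53.DA.RegI
import Pool.Agent.H53.DA.RegII
import Pool.Agent.H53.DA.RegIII

/-!
# DA: the static inequality `StatA` (helper53)

`k = max k0 32`, `K` the maximum of the three constants, `C` the maximum of the three; then the limit `statA_of_statV`.
-/

set_option autoImplicit false
open Real Set MeasureTheory Filter Topology

namespace Pool.Agent.H53.DA
open Pool.Agent.H45.FL Pool.Agent.H51.DG Pool.Agent.H45.DY Pool.Agent.H90.DC Pool.Agent.H90.DA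

theorem statV : StatV := by
  obtain ⟨k0, hI⟩ := reg_i
  obtain ⟨k, hkd⟩ : ∃ k, k = max k0 32 := ⟨_, rfl⟩
  have hk0 : k0 ≤ k := hkd ▸ le_max_left _ _
  have hk32 : 32 ≤ k := hkd ▸ le_max_right _ _
  obtain ⟨K1, hK1, hI⟩ := hI k hk0
  obtain ⟨K2, hK2, hII⟩ := reg_ii hk32
  obtain ⟨K3, hK3, hIII⟩ := reg_iii
  obtain ⟨K, hKd⟩ : ∃ K, K = max K1 (max K2 K3) := ⟨_, rfl⟩
  have h1 : K1 ≤ K := hKd ▸ le_max_left _ _
  have h2 : K2 ≤ K := hKd ▸ (le_max_left _ _).trans (le_max_right _ _)
  have h3 : K3 ≤ K := hKd ▸ (le_max_right _ _).trans (le_max_right _ _)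
  obtain ⟨C1, hC1, hI⟩ := hI K h1
  obtain ⟨C2, hC2, hII⟩ := hII K h2
  obtain ⟨C3, hC3, hIII⟩ := hIII K h3
  refine ⟨k, K, max C1 (max C2 C3), by linarith, hK1.trans h1, hC1.trans (le_max_left _ _), ?_⟩
  intro f l h
  have hM : 0 ≤ (∫ x in (0:ℝ)..(2 * π), f x) * Ma f := by
    refine mul_nonneg h.mean ?_
    unfold Ma
    exact intervalIntegral.integral_nonneg Real.two_pi_pos.le fun x _ => abs_nonneg _
  have key : ∀ c : ℝ, c ≤ max C1 (max C2 C3) → c * (∫ x in (0:ℝ)..(2 * π), f x) * Ma f ≤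
      max C1 (max C2 C3) * (∫ x in (0:ℝ)..(2 * π), f x) * Ma f := by
    intro c hc
    rw [mul_assoc, mul_assoc]
    exact mul_le_mul_of_nonneg_right hc hM
  rcases lt_or_ge l π with hl | hl
  · rcases le_total 2 (1 / Real.sin (l / 2)) with hs | hs
    · have := hI f l h hl hs
      have := key C1 (le_max_left _ _)
      linarith
    · have := hII f l h hl hs
      have := key C2 ((le_max_left _ _).trans (le_max_right _ _))
      linarith
  · have e1 : qk k l = 0 := by unfold qk; rw [if_neg (not_lt.2 hl)]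
    have e2 : dqk k l = 0 := by unfold dqk; rw [if_neg (not_lt.2 hl)]
    rw [e1, e2]
    have := hIII f l h hl
    have := key C3 ((le_max_right _ _).trans (le_max_right _ _))
    linarith

/-- the static inequality of class (A) -/
theorem statA : StatA := statA_of_statV statV

end Pool.Agent.H53.DA
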