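import Pool.Agent.H53.DA.Defs
import Pool.Agent.H51.DG.SD
import Pool.Agent.H45.DA.KGen

/-!
# DA static job S1 (GK): the general kernel identity for `∫ (2 F HT V + P UU V)`

Same proof as the second half of `FF_kernel` (H51/DG/SD.lean): `HT_fubini_lip` and `HT_fubini` (SC.lean) for `F` (bounded
since Lipschitz and periodic), `log_kernel` (SB.lean) and Fubini for `P` (bounded measurable; only the values on
`(0,2π)` matter), integrability of the logarithmic kernels: `SD_log_sq`, `SD_log_snd`.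
-/

set_option autoImplicit false
open Real Set MeasureTheory Filter Topology

namespace Pool.Agent.H53.DA
open Pool.Agent.H45.FL Pool.Agent.H51.DG Pool.Agent.H45.DY Pool.Agent.H90.DC Pool.Agent.H90.DA

theorem GK {F P V : ℝ → ℝ} {K K' B : ℝ} (hF : Lip K' F) (pF : Function.Periodic F (2 * π))
    (hV : Lip K V) (pV : Function.Periodic V (2 * π)) (mP : Measurable P) (bP : ∀ x, |P x| ≤ B) :
    IntegrableOn (fun z : ℝ × ℝ => (F z.1 * V z.2 - F z.2 * V z.1) * ct (z.1 - z.2)) Sq2 ∧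
    IntegrableOn (fun z : ℝ × ℝ => P z.1 * V z.2 *
      (Real.log (Real.sin ((z.1 - z.2) / 2)) - Real.log (Real.sin (z.2 / 2)))) Sq2 ∧
    ∫ x in (0:ℝ)..(2 * π), (2 * F x * HT V x + P x * UU V x) =
      1 / (2 * π) * (∫ z in Sq2, (F z.1 * V z.2 - F z.2 * V z.1) * ct (z.1 - z.2)) +
      1 / π * ∫ z in Sq2, P z.1 * V z.2 *
        (Real.log (Real.sin ((z.1 - z.2) / 2)) - Real.log (Real.sin (z.2 / 2))) := by
  have hFB : SD_BL F := SD_BL_W pF ⟨K', hF⟩
  obtain ⟨k1, k2, k3⟩ := Pool.Agent.H45.DA.GL_int pV hV mP (fun x _ => bP x)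
  have hT : IntegrableOn (fun z : ℝ × ℝ => (F z.1 * V z.2 - F z.2 * V z.1) * ct (z.1 - z.2)) Sq2 :=
    HT_fubini_lip hF pF pV hV
  refine ⟨hT, k1, ?_⟩
  obtain ⟨-, k4⟩ := Pool.Agent.H45.DA.kernel_gen pV hV hFB mP (fun x _ => bP x)
  have e1 : ∫ x in (0:ℝ)..(2 * π), (2 * F x * HT V x + P x * UU V x) =
      ∫ x in (0:ℝ)..(2 * π), (2 * (F x * HT V x) + P x * UU V x) := by
    refine intervalIntegral.integral_congr fun x _ => ?_
    ring
  have hadd : IntegrableOn (fun z : ℝ × ℝ => Pool.Agent.H45.DA.GLk V P z +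
      Pool.Agent.H45.DA.GLk V P z.swap) Sq2 := k1.add k2
  rw [e1, k4, integral_add hT hadd, integral_add k1 k2, k3]
  have e2 : ∫ z in Sq2, P z.1 * V z.2 *
      (Real.log (Real.sin ((z.1 - z.2) / 2)) - Real.log (Real.sin (z.2 / 2))) =
      ∫ z in Sq2, Pool.Agent.H45.DA.GLk V P z := rfl
  rw [e2]
  field_simp
  ring

end Pool.Agent.H53.DA
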