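import Pool.Agent.H53.DA.EAker
import Pool.Agent.H90.DC.Lim

/-!
# DA static job S15b (LimF): the approximations

`cut n x` (H51/DG/St2.lean, SN.lean, H90/DC/Lim.lean) vanishes near `0` mod `2π` (for `n ≥ 1`), `0 ≤ cut ≤ 1`, `→ 1` off `2πℤ`.
`χ n x = cut n x * cut n (x + l)`, `sn = (∫ χ f₊)/(∫ f₊)` (`= 0` if `∫ f₊ = 0`, then `f = 0` because the mean is `≥ 0`),
`FnA f l n x = χ n x (max (f x) 0 - sn max (-f x) 0)`.  Mean: `∫ FnA = ∫ χ f₊ - sn ∫ χ f₋ ≥ ∫ χ f₊ - sn ∫ f₊ = 0`.  `sn → 1` (if `f ≠ 0`).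
Uniform Lipschitz constant: `f` vanishes at `0` and `-l`, as `Wn_lip`, `WnC_lip`: `|f x| ≤ K |2 sin(x/2)| π/2` etc.; `cut` is
`n`-Lipschitz and not constant only where `|2 sin(x/2)| ≤ 2/n`.
`EAk_tendsto`: `|FnA x| ≤ |f x|`, pointwise convergence, dominated by `EAk_int`.
-/

set_option autoImplicit false
open Real Set MeasureTheory Filter Topology

namespace Pool.Agent.H53.DA
open Pool.Agent.H45.FL Pool.Agent.H51.DG Pool.Agent.H45.DY Pool.Agent.H90.DC Pool.Agent.H90.DA

noncomputable def FnA (f : ℝ → ℝ) (l : ℝ) (n : ℕ) (x : ℝ) : ℝ :=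
  cut n x * cut n (x + l) * (max (f x) 0 -
    (∫ y in (0:ℝ)..(2 * π), cut n y * cut n (y + l) * max (f y) 0) /
      (∫ y in (0:ℝ)..(2 * π), max (f y) 0) * max (-f x) 0)

theorem LimF_shift {W : ℝ → ℝ} (h : Function.Periodic W (2 * π)) (k : ℤ) (x : ℝ) :
    W (x - k * (2 * π)) = W x :=
  (h.int_mul k).sub_eq x

theorem LimF_bound {W : ℝ → ℝ} {K : ℝ} (h : Function.Periodic W (2 * π)) (h0 : W 0 = 0)
    (hK : Lip K W) (x : ℝ) : |W x| ≤ K * (π / 2) * |2 * Real.sin (x / 2)| := by
  have hK0 := hK.nonneg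
  have hpi := Real.pi_pos
  set k : ℤ := round (x / (2 * π)) with hk
  have h1 : |x - k * (2 * π)| ≤ π := by
    have h2 := abs_sub_round (x / (2 * π))
    have h3 : x - k * (2 * π) = (x / (2 * π) - k) * (2 * π) := by
      field_simp
    rw [h3, abs_mul, abs_of_pos (by positivity : (0:ℝ) < 2 * π)]
    calc |x / (2 * π) - k| * (2 * π) ≤ 1 / 2 * (2 * π) :=
          mul_le_mul_of_nonneg_right h2 (by positivity)
      _ = π := by ring
  set y := x - k * (2 * π) with hy
  have h2 : |W x| ≤ K * |y| := by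
    have h3 := hK y 0
    rw [h0, sub_zero, sub_zero, LimF_shift h] at h3
    exact h3
  have h3 : |2 * Real.sin (x / 2)| = 2 * Real.sin (|y| / 2) := by
    have h4 : Real.sin (y / 2) = (-1) ^ k * Real.sin (x / 2) := by
      rw [hy, show (x - k * (2 * π)) / 2 = x / 2 - k * π by ring, Real.sin_sub_int_mul_pi]
    have h5 : |Real.sin (y / 2)| = |Real.sin (x / 2)| := by
      rw [h4, abs_mul, abs_zpow, abs_neg, abs_one, one_zpow, one_mul]
    have h6 : Real.sin (|y| / 2) = |Real.sin (y / 2)| := by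
      rcases le_total 0 y with hy0 | hy0
      · rw [abs_of_nonneg hy0, abs_of_nonneg]
        apply Real.sin_nonneg_of_nonneg_of_le_pi (by linarith)
        rw [abs_of_nonneg hy0] at h1
        linarith
      · rw [abs_of_nonpos hy0, neg_div, Real.sin_neg, abs_of_nonpos]
        apply Real.sin_nonpos_of_nonpos_of_neg_pi_le (by linarith)
        rw [abs_of_nonpos hy0] at h1
        linarith
    rw [h6, h5, abs_mul, abs_of_pos (by norm_num : (0:ℝ) < 2)]
  have h4 := Real.mul_le_sin (x := |y| / 2) (by positivity) (by linarith)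
  have h5 : |y| ≤ π / 2 * (2 * Real.sin (|y| / 2)) := by
    have h6 : π * (2 / π * (|y| / 2)) ≤ π * Real.sin (|y| / 2) :=
      mul_le_mul_of_nonneg_left h4 hpi.le
    have h7 : π * (2 / π * (|y| / 2)) = |y| := by field_simp
    linarith
  rw [h3]
  calc |W x| ≤ K * |y| := h2
    _ ≤ K * (π / 2 * (2 * Real.sin (|y| / 2))) := mul_le_mul_of_nonneg_left h5 hK0
    _ = K * (π / 2) * (2 * Real.sin (|y| / 2)) := by ring

theorem LimF_main {W : ℝ → ℝ} {K : ℝ} (h : Function.Periodic W (2 * π)) (h0 : W 0 = 0)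
    (hK : Lip K W) (n : ℕ) {x y : ℝ} (hxy : |2 * Real.sin (x / 2)| ≤ |2 * Real.sin (y / 2)|) :
    |cut n x * W x - cut n y * W y| ≤ (1 + π) * K * |x - y| := by
  have hpi := Real.pi_pos
  have hK0 := hK.nonneg
  have h1 : cut n x * W x - cut n y * W y = (cut n x - cut n y) * W x + cut n y * (W x - W y) := by
    ring
  have h2 : |cut n y * (W x - W y)| ≤ K * |x - y| := by
    rw [abs_mul, abs_of_nonneg (cut_mem n y).1]
    calc cut n y * |W x - W y| ≤ 1 * |W x - W y| :=
          mul_le_mul_of_nonneg_right (cut_mem n y).2 (abs_nonneg _)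
      _ ≤ K * |x - y| := by rw [one_mul]; exact hK x y
  have h3 : |(cut n x - cut n y) * W x| ≤ π * K * |x - y| := by
    by_cases hc : 2 ≤ n * |2 * Real.sin (x / 2)|
    · have hc' : 2 ≤ n * |2 * Real.sin (y / 2)| :=
        hc.trans (mul_le_mul_of_nonneg_left hxy (Nat.cast_nonneg n))
      rw [Lim_cut_one hc, Lim_cut_one hc', sub_self, zero_mul, abs_zero]
      positivity
    · push Not at hc
      rw [abs_mul]
      have h4 := LimF_bound h h0 hK x
      calc |cut n x - cut n y| * |W x| ≤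
            (n * |x - y|) * (K * (π / 2) * |2 * Real.sin (x / 2)|) :=
            mul_le_mul (Lim_cut_lip n x y) h4 (abs_nonneg _) (by positivity)
        _ = (K * (π / 2) * |x - y|) * (n * |2 * Real.sin (x / 2)|) := by ring
        _ ≤ (K * (π / 2) * |x - y|) * 2 := mul_le_mul_of_nonneg_left hc.le (by positivity)
        _ = π * K * |x - y| := by ring
  rw [h1]
  calc |(cut n x - cut n y) * W x + cut n y * (W x - W y)| ≤ π * K * |x - y| + K * |x - y| :=
        (abs_add_le _ _).trans (add_le_add h3 h2)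
    _ = (1 + π) * K * |x - y| := by ring

theorem LimF_lip0 {W : ℝ → ℝ} {K : ℝ} (h : Function.Periodic W (2 * π)) (h0 : W 0 = 0)
    (hK : Lip K W) (n : ℕ) : Lip ((1 + π) * K) (fun x => cut n x * W x) := by
  intro x y
  rcases le_total |2 * Real.sin (x / 2)| |2 * Real.sin (y / 2)| with hxy | hxy
  · exact LimF_main h h0 hK n hxy
  · simp only
    rw [abs_sub_comm, abs_sub_comm x y]
    exact LimF_main h h0 hK n hxy

theorem LimF_lip1 {W : ℝ → ℝ} {K l : ℝ} (h : Function.Periodic W (2 * π)) (h0 : W 0 = 0)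
    (h1 : W (-l) = 0) (hK : Lip K W) (n : ℕ) :
    Lip ((1 + π) * ((1 + π) * K)) (fun x => cut n x * cut n (x + l) * W x) := by
  have hA := LimF_lip0 h h0 hK n
  have hB : Lip ((1 + π) * K) (fun x => cut n (x - l) * W (x - l)) := by
    intro x y
    have := hA (x - l) (y - l)
    simpa using this
  have hP : Function.Periodic (fun x => cut n (x - l) * W (x - l)) (2 * π) := by
    intro x
    simp only
    rw [show x + 2 * π - l = (x - l) + 2 * π by ring, Lim_cut_per, h]
  have hC := LimF_lip0 hP (by simp [h1]) hB n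
  intro x y
  have := hC (x + l) (y + l)
  simp only [add_sub_cancel_right, add_sub_add_right_eq_sub] at this
  simp only
  rw [show cut n x * cut n (x + l) * W x = cut n (x + l) * (cut n x * W x) by ring,
    show cut n y * cut n (y + l) * W y = cut n (y + l) * (cut n y * W y) by ring]
  exact this

theorem LimF_van0 {n : ℕ} (hn : 1 ≤ n) {x : ℝ} (hx : |x| ≤ 1 / n) : cut n x = 0 := by
  have hn' : (0:ℝ) < n := by exact_mod_cast hn
  have h1 := Lim_sin_lip x 0
  rw [zero_div, Real.sin_zero, mul_zero, abs_zero, sub_zero, sub_zero, abs_abs] at h1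
  have h2 : (n:ℝ) * |2 * Real.sin (x / 2)| ≤ 1 := by
    calc (n:ℝ) * |2 * Real.sin (x / 2)| ≤ n * (1 / n) :=
          mul_le_mul_of_nonneg_left (h1.trans hx) hn'.le
      _ = 1 := by field_simp
  unfold cut
  rw [max_eq_left]
  exact (min_le_right _ _).trans (by linarith)

theorem LimF_cut0 (n : ℕ) : cut n 0 = 0 := by
  unfold cut
  simp

theorem LimF_cut_tendsto {x : ℝ} (hs : Real.sin (x / 2) ≠ 0) :
    Tendsto (fun n : ℕ => cut n x) atTop (𝓝 1) := by
  have hp : 0 < |2 * Real.sin (x / 2)| := abs_pos.2 (mul_ne_zero two_ne_zero hs)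
  refine tendsto_const_nhds.congr' ?_
  filter_upwards [eventually_ge_atTop ⌈2 / |2 * Real.sin (x / 2)|⌉₊] with n hn
  have h1 : 2 / |2 * Real.sin (x / 2)| ≤ n := (Nat.le_ceil _).trans (by exact_mod_cast hn)
  rw [Lim_cut_one ((div_le_iff₀ hp).1 h1)]

theorem LimF_cont (n : ℕ) : Continuous (fun x => cut n x) := by
  unfold cut
  fun_prop

theorem LimF_zero {W : ℝ → ℝ} (h : Function.Periodic W (2 * π)) (h0 : W 0 = 0) {x : ℝ}
    (hs : Real.sin (x / 2) = 0) : W x = 0 := by
  obtain ⟨k, hk⟩ := Real.sin_eq_zero_iff.1 hs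
  rw [← LimF_shift h k x, show x - k * (2 * π) = 0 by linarith, h0]

/-- the product cut-off -/
noncomputable def LimF_chi (l : ℝ) (n : ℕ) (x : ℝ) : ℝ := cut n x * cut n (x + l)

theorem LimF_chi_mem (l : ℝ) (n : ℕ) (x : ℝ) : 0 ≤ LimF_chi l n x ∧ LimF_chi l n x ≤ 1 := by
  unfold LimF_chi
  obtain ⟨h0, h1⟩ := cut_mem n x
  obtain ⟨h2, h3⟩ := cut_mem n (x + l)
  exact ⟨mul_nonneg h0 h2, mul_le_one₀ h1 h2 h3⟩

theorem LimF_chi_cont (l : ℝ) (n : ℕ) : Continuous (fun x => LimF_chi l n x) := by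
  unfold LimF_chi
  exact (LimF_cont n).mul ((LimF_cont n).comp (continuous_id.add continuous_const))

theorem LimF_f0 {f : ℝ → ℝ} {l : ℝ} (h : TwoA f l) : f 0 = 0 := by
  have hpi := Real.pi_pos
  have h1 := h.neg 0 ⟨by linarith [h.l0], le_rfl⟩
  have h2 := h.pos 0 ⟨le_rfl, by linarith [h.l1]⟩
  linarith

theorem LimF_fl {f : ℝ → ℝ} {l : ℝ} (h : TwoA f l) : f (-l) = 0 := by
  have hpi := Real.pi_pos
  have h1 := h.neg (-l) ⟨le_rfl, by linarith [h.l0]⟩
  have h2 := h.pos (2 * π - l) ⟨by linarith [h.l1], le_rfl⟩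
  have h3 := h.per (-l)
  rw [show -l + 2 * π = 2 * π - l by ring] at h3
  linarith

/-- pointwise convergence -/
theorem LimF_chi_tendsto {W : ℝ → ℝ} {l : ℝ} (h : Function.Periodic W (2 * π)) (h0 : W 0 = 0)
    (h1 : W (-l) = 0) (x : ℝ) :
    Tendsto (fun n : ℕ => LimF_chi l n x * W x) atTop (𝓝 (W x)) := by
  by_cases hs : Real.sin (x / 2) = 0
  · rw [LimF_zero h h0 hs]
    simp
  · by_cases ht : Real.sin ((x + l) / 2) = 0
    · have hP : Function.Periodic (fun x => W (x - l)) (2 * π) := by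
        intro x
        simp only
        rw [show x + 2 * π - l = (x - l) + 2 * π by ring, h]
      have := LimF_zero hP (by simp [h1]) ht
      simp only [add_sub_cancel_right] at this
      rw [this]
      simp
    · have := ((LimF_cut_tendsto hs).mul (LimF_cut_tendsto ht)).mul_const (W x)
      simpa [LimF_chi] using this

/-- the normalising factor -/
noncomputable def LimF_s (f : ℝ → ℝ) (l : ℝ) (n : ℕ) : ℝ :=
  (∫ y in (0:ℝ)..(2 * π), LimF_chi l n y * max (f y) 0) / (∫ y in (0:ℝ)..(2 * π), max (f y) 0)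

theorem LimF_eq (f : ℝ → ℝ) (l : ℝ) (n : ℕ) (x : ℝ) :
    FnA f l n x = LimF_chi l n x * (max (f x) 0 - LimF_s f l n * max (-f x) 0) := rfl

theorem LimF_fun (f : ℝ → ℝ) (l : ℝ) (n : ℕ) :
    FnA f l n = fun x => LimF_chi l n x * (max (f x) 0 - LimF_s f l n * max (-f x) 0) := rfl

theorem LimF_s_nonneg (f : ℝ → ℝ) (l : ℝ) (n : ℕ) : 0 ≤ LimF_s f l n := by
  have hpi := Real.pi_pos
  unfold LimF_s
  refine div_nonneg ?_ ?_
  · apply intervalIntegral.integral_nonneg (by positivity)
    intro x _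
    exact mul_nonneg (LimF_chi_mem l n x).1 (le_max_right _ _)
  · apply intervalIntegral.integral_nonneg (by positivity)
    intro x _
    exact le_max_right _ _

theorem LimF_chi_le {g : ℝ → ℝ} (hg : Continuous g) (hg0 : ∀ x, 0 ≤ g x) (l : ℝ) (n : ℕ) :
    ∫ y in (0:ℝ)..(2 * π), LimF_chi l n y * g y ≤ ∫ y in (0:ℝ)..(2 * π), g y := by
  have hpi := Real.pi_pos
  apply intervalIntegral.integral_mono_on (by positivity)
  · exact ((LimF_chi_cont l n).mul hg).intervalIntegrable _ _
  · exact hg.intervalIntegrable _ _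
  · intro x _
    exact mul_le_of_le_one_left (hg0 x) (LimF_chi_mem l n x).2

theorem LimF_s_le {f : ℝ → ℝ} (hf : Continuous f) (l : ℝ) (n : ℕ) : LimF_s f l n ≤ 1 := by
  have hpi := Real.pi_pos
  unfold LimF_s
  apply div_le_one_of_le₀
  · exact LimF_chi_le (hf.max continuous_const) (fun x => le_max_right _ _) l n
  · apply intervalIntegral.integral_nonneg (by positivity)
    intro x _
    exact le_max_right _ _

theorem FnA_zero {f : ℝ → ℝ} {l : ℝ} (h : TwoA f l) (n : ℕ) :
    FnA f l n 0 = 0 ∧ FnA f l n (-l) = 0 ∧ Function.Periodic (FnA f l n) (2 * π) := by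
  refine ⟨?_, ?_, ?_⟩
  · unfold FnA
    rw [LimF_cut0]
    ring
  · unfold FnA
    rw [neg_add_cancel, LimF_cut0]
    ring
  · intro x
    unfold FnA
    rw [Lim_cut_per, show x + 2 * π + l = (x + l) + 2 * π by ring, Lim_cut_per, h.per]

theorem FnA_lip {f : ℝ → ℝ} {l : ℝ} (h : TwoA f l) (hL : ∃ K, Lip K f) :
    ∃ K, ∀ n : ℕ, Lip K (FnA f l n) := by
  obtain ⟨K, hK⟩ := hL
  refine ⟨(1 + π) * ((1 + π) * (2 * K)), fun n => ?_⟩
  have hf := Lip.continuous hK
  have hs0 := LimF_s_nonneg f l n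
  have hs1 := LimF_s_le hf l n
  have hg : Lip (2 * K) (fun x => max (f x) 0 - LimF_s f l n * max (-f x) 0) := by
    intro x y
    have h1 : |max (f x) 0 - max (f y) 0| ≤ K * |x - y| :=
      (abs_max_sub_max_le_abs _ _ _).trans (hK x y)
    have h2 : |max (-f x) 0 - max (-f y) 0| ≤ K * |x - y| := by
      refine (abs_max_sub_max_le_abs _ _ _).trans ?_
      rw [show -f x - -f y = -(f x - f y) by ring, abs_neg]
      exact hK x y
    have h3 : |LimF_s f l n * (max (-f x) 0 - max (-f y) 0)| ≤ K * |x - y| := by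
      rw [abs_mul, abs_of_nonneg hs0]
      exact (mul_le_of_le_one_left (abs_nonneg _) hs1).trans h2
    simp only
    rw [show max (f x) 0 - LimF_s f l n * max (-f x) 0 -
      (max (f y) 0 - LimF_s f l n * max (-f y) 0) = (max (f x) 0 - max (f y) 0) -
        LimF_s f l n * (max (-f x) 0 - max (-f y) 0) by ring]
    refine (abs_sub _ _).trans ?_
    linarith
  have hp : Function.Periodic (fun x => max (f x) 0 - LimF_s f l n * max (-f x) 0) (2 * π) := by
    intro x
    simp only
    rw [h.per]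
  exact LimF_lip1 hp (by simp [LimF_f0 h]) (by simp [LimF_fl h]) hg n

theorem LimF_FnA_cont {f : ℝ → ℝ} (hf : Continuous f) (l : ℝ) (n : ℕ) :
    Continuous (FnA f l n) := by
  rw [LimF_fun]
  exact (LimF_chi_cont l n).mul ((hf.max continuous_const).sub
    (continuous_const.mul (hf.neg.max continuous_const)))

theorem LimF_abs_le {f : ℝ → ℝ} (hf : Continuous f) (l : ℝ) (n : ℕ) (x : ℝ) :
    |FnA f l n x| ≤ |f x| := by
  rw [LimF_eq]
  have hs0 := LimF_s_nonneg f l n
  have hs1 := LimF_s_le hf l n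
  obtain ⟨h0, h1⟩ := LimF_chi_mem l n x
  rw [abs_mul, abs_of_nonneg h0]
  refine (mul_le_of_le_one_left (abs_nonneg _) h1).trans ?_
  rcases le_total 0 (f x) with hx | hx
  · rw [max_eq_left hx, max_eq_right (by linarith), mul_zero, sub_zero]
  · rw [max_eq_right hx, max_eq_left (by linarith), zero_sub, abs_neg, abs_mul, abs_of_nonneg hs0,
      abs_neg]
    exact mul_le_of_le_one_left (abs_nonneg _) hs1

theorem FnA_van {f : ℝ → ℝ} {l : ℝ} (h : TwoA f l) (hL : ∃ K, Lip K f) {n : ℕ} (hn : 1 ≤ n) :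
    VanA (FnA f l n) l := by
  have hpi := Real.pi_pos
  have hn' : (0:ℝ) < n := by exact_mod_cast hn
  obtain ⟨K', hK'⟩ := FnA_lip h hL
  obtain ⟨K, hK⟩ := hL
  have hf := Lip.continuous hK
  have hs0 := LimF_s_nonneg f l n
  refine ⟨⟨(FnA_zero h n).2.2, h.l0, h.l1, ?_, ?_, ?_⟩, ⟨K', hK' n⟩, ⟨1 / n, by positivity, ?_⟩,
    ⟨1 / n, by positivity, ?_⟩⟩
  · intro x hx
    have h1 := h.neg x hx
    rw [LimF_eq, max_eq_right h1, zero_sub]
    have h2 := mul_nonneg hs0 (le_max_right (-f x) 0)
    exact mul_nonpos_of_nonneg_of_nonpos (LimF_chi_mem l n x).1 (by linarith)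
  · intro x hx
    have h1 := h.pos x hx
    rw [LimF_eq, max_eq_right (by linarith : -f x ≤ 0), mul_zero, sub_zero]
    exact mul_nonneg (LimF_chi_mem l n x).1 (le_max_right _ _)
  · have hP : Continuous (fun x => max (f x) 0) := hf.max continuous_const
    have hM : Continuous (fun x => max (-f x) 0) := hf.neg.max continuous_const
    have hcP : Continuous (fun x => LimF_chi l n x * max (f x) 0) := (LimF_chi_cont l n).mul hP
    have hcM : Continuous (fun x => LimF_s f l n * (LimF_chi l n x * max (-f x) 0)) :=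
      continuous_const.mul ((LimF_chi_cont l n).mul hM)
    have h1 : (∫ x in (0:ℝ)..(2 * π), FnA f l n x) =
        (∫ x in (0:ℝ)..(2 * π), LimF_chi l n x * max (f x) 0) -
          LimF_s f l n * ∫ x in (0:ℝ)..(2 * π), LimF_chi l n x * max (-f x) 0 := by
      rw [← intervalIntegral.integral_const_mul, ← intervalIntegral.integral_sub
        (hcP.intervalIntegrable _ _) (hcM.intervalIntegrable _ _)]
      apply intervalIntegral.integral_congr
      intro x _
      simp only [LimF_eq]
      ring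
    have h2 := LimF_chi_le hM (fun x => le_max_right _ _) l n
    have h3 : (∫ x in (0:ℝ)..(2 * π), f x) = (∫ x in (0:ℝ)..(2 * π), max (f x) 0) -
        ∫ x in (0:ℝ)..(2 * π), max (-f x) 0 := by
      rw [← intervalIntegral.integral_sub (hP.intervalIntegrable _ _) (hM.intervalIntegrable _ _)]
      apply intervalIntegral.integral_congr
      intro x _
      simp only
      rcases le_total 0 (f x) with hx | hx
      · rw [max_eq_left hx, max_eq_right (by linarith), sub_zero]
      · rw [max_eq_right hx, max_eq_left (by linarith)]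
        ring
    have h4 := h.mean
    have h5 : LimF_s f l n * (∫ x in (0:ℝ)..(2 * π), max (f x) 0) ≤
        ∫ x in (0:ℝ)..(2 * π), LimF_chi l n x * max (f x) 0 := by
      have h6 : 0 ≤ ∫ x in (0:ℝ)..(2 * π), LimF_chi l n x * max (f x) 0 := by
        apply intervalIntegral.integral_nonneg (by positivity)
        intro x _
        exact mul_nonneg (LimF_chi_mem l n x).1 (le_max_right _ _)
      by_cases h7 : (∫ x in (0:ℝ)..(2 * π), max (f x) 0) = 0
      · rw [h7, mul_zero]
        exact h6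
      · unfold LimF_s
        rw [div_mul_cancel₀ _ h7]
    have h8 : LimF_s f l n * (∫ x in (0:ℝ)..(2 * π), LimF_chi l n x * max (-f x) 0) ≤
        LimF_s f l n * ∫ x in (0:ℝ)..(2 * π), max (f x) 0 :=
      mul_le_mul_of_nonneg_left (by linarith) hs0
    rw [h1]
    linarith
  · intro x hx
    unfold FnA
    rw [LimF_van0 hn hx]
    ring
  · intro x hx
    unfold FnA
    rw [LimF_van0 hn hx]
    ring

theorem LimF_int_tendsto {g : ℝ → ℝ} {G : ℕ → ℝ → ℝ} (hG : ∀ n, Continuous (G n))
    {b : ℝ → ℝ} (hb : Continuous b) (hle : ∀ n x, |G n x| ≤ b x)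
    (hlim : ∀ x, Tendsto (fun n => G n x) atTop (𝓝 (g x))) :
    Tendsto (fun n => ∫ x in (0:ℝ)..(2 * π), G n x) atTop (𝓝 (∫ x in (0:ℝ)..(2 * π), g x)) := by
  apply intervalIntegral.tendsto_integral_filter_of_dominated_convergence b
  · exact Eventually.of_forall fun n => (hG n).aestronglyMeasurable
  · exact Eventually.of_forall fun n => ae_of_all _ fun x _ => by
      rw [Real.norm_eq_abs]; exact hle n x
  · exact hb.intervalIntegrable _ _
  · exact ae_of_all _ fun x _ => hlim x

theorem LimF_s_mul {f : ℝ → ℝ} {l : ℝ} (h : TwoA f l) (hf : Continuous f) (x : ℝ) :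
    Tendsto (fun n => LimF_s f l n * (LimF_chi l n x * max (-f x) 0)) atTop
      (𝓝 (max (-f x) 0)) := by
  have hpi := Real.pi_pos
  have hP : Continuous (fun x => max (f x) 0) := hf.max continuous_const
  have hM : Continuous (fun x => max (-f x) 0) := hf.neg.max continuous_const
  have hper : Function.Periodic (fun x => max (f x) 0) (2 * π) := by
    intro x; simp only; rw [h.per]
  have hperM : Function.Periodic (fun x => max (-f x) 0) (2 * π) := by
    intro x; simp only; rw [h.per]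
  by_cases h7 : (∫ x in (0:ℝ)..(2 * π), max (f x) 0) = 0
  · have h3 : (∫ x in (0:ℝ)..(2 * π), f x) = (∫ x in (0:ℝ)..(2 * π), max (f x) 0) -
        ∫ x in (0:ℝ)..(2 * π), max (-f x) 0 := by
      rw [← intervalIntegral.integral_sub (hP.intervalIntegrable _ _) (hM.intervalIntegrable _ _)]
      apply intervalIntegral.integral_congr
      intro x _
      simp only
      rcases le_total 0 (f x) with hx | hx
      · rw [max_eq_left hx, max_eq_right (by linarith), sub_zero]
      · rw [max_eq_right hx, max_eq_left (by linarith)]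
        ring
    have h4 := h.mean
    have h5 : (∫ x in (0:ℝ)..(2 * π), max (-f x) 0) = 0 := by
      apply le_antisymm (by linarith)
      apply intervalIntegral.integral_nonneg (by positivity)
      intro x _
      exact le_max_right _ _
    have h6 : ∀ y ∈ Icc (0:ℝ) (2 * π), max (-f y) 0 = 0 := by
      by_contra hne
      push Not at hne
      obtain ⟨y, hy, hy'⟩ := hne
      have h8 : 0 < ∫ x in (0:ℝ)..(2 * π), max (-f x) 0 := by
        apply intervalIntegral.integral_pos (by positivity) hM.continuousOn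
        · intro x _
          exact le_max_right _ _
        · exact ⟨y, hy, lt_of_le_of_ne (le_max_right _ _) (Ne.symm hy')⟩
      linarith
    have h9 : max (-f x) 0 = 0 := by
      obtain ⟨y, hy, hy'⟩ := hperM.exists_mem_Ico₀ (by positivity) x
      have h10 := h6 y ⟨hy.1, hy.2.le⟩
      exact hy'.trans h10
    rw [h9]
    simp
  · have h1 : Tendsto (fun n => ∫ x in (0:ℝ)..(2 * π), LimF_chi l n x * max (f x) 0) atTop
        (𝓝 (∫ x in (0:ℝ)..(2 * π), max (f x) 0)) := by
      apply LimF_int_tendsto (fun n => (LimF_chi_cont l n).mul hP) hP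
      · intro n x
        show |LimF_chi l n x * max (f x) 0| ≤ max (f x) 0
        rw [abs_mul, abs_of_nonneg (LimF_chi_mem l n x).1, abs_of_nonneg (le_max_right _ _)]
        exact mul_le_of_le_one_left (le_max_right _ _) (LimF_chi_mem l n x).2
      · intro x
        exact LimF_chi_tendsto hper (by simp [LimF_f0 h]) (by simp [LimF_fl h]) x
    have h2 : Tendsto (fun n => LimF_s f l n) atTop (𝓝 1) := by
      have := h1.div_const (∫ x in (0:ℝ)..(2 * π), max (f x) 0)
      rw [div_self h7] at this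
      exact this
    have h3 := LimF_chi_tendsto (l := l) hperM (by simp [LimF_f0 h]) (by simp [LimF_fl h]) x
    have := h2.mul h3
    rw [one_mul] at this
    exact this

theorem LimF_tends {f : ℝ → ℝ} {l : ℝ} (h : TwoA f l) (hf : Continuous f) (x : ℝ) :
    Tendsto (fun n => FnA f l n x) atTop (𝓝 (f x)) := by
  have hper : Function.Periodic (fun x => max (f x) 0) (2 * π) := by
    intro x; simp only; rw [h.per]
  have h1 := LimF_chi_tendsto (l := l) hper (by simp [LimF_f0 h]) (by simp [LimF_fl h]) x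
  have h2 := h1.sub (LimF_s_mul h hf x)
  have h3 : max (f x) 0 - max (-f x) 0 = f x := by
    rcases le_total 0 (f x) with hx | hx
    · rw [max_eq_left hx, max_eq_right (by linarith), sub_zero]
    · rw [max_eq_right hx, max_eq_left (by linarith)]
      ring
  rw [h3] at h2
  refine h2.congr fun n => ?_
  rw [LimF_eq]
  ring

theorem FnA_tendsto {f : ℝ → ℝ} {l : ℝ} (h : TwoA f l) (hL : ∃ K, Lip K f) (x : ℝ) :
    Tendsto (fun n => FnA f l n x) atTop (𝓝 (f x)) := by
  obtain ⟨K, hK⟩ := hL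
  exact LimF_tends h (Lip.continuous hK) x

theorem FnA_ints {f : ℝ → ℝ} {l : ℝ} (h : TwoA f l) (hL : ∃ K, Lip K f) :
    Tendsto (fun n => ∫ x in (0:ℝ)..(2 * π), FnA f l n x) atTop (𝓝 (∫ x in (0:ℝ)..(2 * π), f x)) ∧
    Tendsto (fun n => Ma (FnA f l n)) atTop (𝓝 (Ma f)) ∧
    Tendsto (fun n => EAk (FnA f l n) l) atTop (𝓝 (EAk f l)) := by
  have hI := EAk_int h hL
  obtain ⟨K, hK⟩ := hL
  have hf := Lip.continuous hK
  refine ⟨?_, ?_, ?_⟩
  · exact LimF_int_tendsto (fun n => LimF_FnA_cont hf l n) hf.abs (fun n x => LimF_abs_le hf l n x)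
      (fun x => LimF_tends h hf x)
  · unfold Ma
    exact LimF_int_tendsto (fun n => (LimF_FnA_cont hf l n).abs) hf.abs
      (fun n x => by rw [abs_abs]; exact LimF_abs_le hf l n x) (fun x => (LimF_tends h hf x).abs)
  · unfold EAk
    refine Tendsto.const_mul _ ?_
    have hct : Measurable (fun z : ℝ × ℝ => ct (z.1 - z.2) ^ 3) := by
      unfold ct
      fun_prop
    apply tendsto_integral_of_dominated_convergence
      (fun z : ℝ × ℝ => ‖|f z.1| * |f z.2| * ct (z.1 - z.2) ^ 3‖)
    · intro n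
      have hc := LimF_FnA_cont hf l n
      exact (((hc.comp continuous_fst).abs.measurable.mul
        (hc.comp continuous_snd).abs.measurable).mul hct).aestronglyMeasurable
    · exact hI.norm
    · intro n
      refine ae_of_all _ fun z => ?_
      rw [norm_mul, norm_mul, norm_mul, norm_mul]
      refine mul_le_mul_of_nonneg_right ?_ (norm_nonneg _)
      simp only [Real.norm_eq_abs, abs_abs]
      exact mul_le_mul (LimF_abs_le hf l n _) (LimF_abs_le hf l n _) (abs_nonneg _) (abs_nonneg _)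
    · refine ae_of_all _ fun z => ?_
      exact (((LimF_tends h hf z.1).abs).mul ((LimF_tends h hf z.2).abs)).mul_const _

end Pool.Agent.H53.DA
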