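import Pool.Agent.H53.DA.Tr
import Pool.Agent.H53.DE.Lim

/-!
# DA static job S15a (LimG): limits of `Gq`, `TA`, `BNA`

`Gq_tendsto`: dominated convergence with the bound of `H90/DC/Lim.lean` (`Lim_JF_bound`, `Lim_core`; `V n 0 = 0`, uniform
Lipschitz constant; `Pq q x ≤ ct₊²/4`, `|dPq q x| ≤ ct₊(1+ct²)/4`), pointwise convergence `HT_tendsto`, `UU_tendsto` (H51/DG/SP.lean).
`TA_tendsto`, `BNA_tendsto`: from `TA_eq`, `BNA_eq` (for BNA the base is `-l`, `V n (-l) = 0`), dominated convergence for the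
simple integral (`|f x| (ct x - q)₊ ≤ K |x| ct x` bounded).
-/

set_option autoImplicit false
open Real Set MeasureTheory Filter Topology

namespace Pool.Agent.H53.DA
open Pool.Agent.H45.FL Pool.Agent.H51.DG Pool.Agent.H45.DY Pool.Agent.H90.DC Pool.Agent.H90.DA

theorem LimG_ct_nonpos {x : ℝ} (h0 : π ≤ x) (h1 : x < 2 * π) : ct x ≤ 0 := by
  have hs : 0 < Real.sin (x / 2) :=
    Real.sin_pos_of_pos_of_lt_pi (by linarith [Real.pi_pos]) (by linarith)
  have hc : Real.cos (x / 2) ≤ 0 :=
    Real.cos_nonpos_of_pi_div_two_le_of_le (by linarith) (by linarith [Real.pi_pos])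
  exact div_nonpos_of_nonpos_of_nonneg hc hs.le

/-- the integrand -/
noncomputable def LimG_f (q : ℝ) (V : ℝ → ℝ) (x : ℝ) : ℝ :=
  V x * (2 * HT V x * Pq q x + UU V x * dPq q x)

theorem LimG_bound {K q : ℝ} (hq : 0 ≤ q) {V : ℝ → ℝ} (h : Lip K V) (hV : V 0 = 0) {x : ℝ}
    (h0 : 0 < x) (h1 : x < 2 * π) :
    |LimG_f q V x| ≤ (204 + 2 * q) * K ^ 2 * (1 + |Real.log x|) := by
  have hlog : 0 ≤ |Real.log x| := abs_nonneg _
  have hr : 0 ≤ (204 + 2 * q) * K ^ 2 * (1 + |Real.log x|) := by positivity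
  rcases le_or_gt π x with hx | hx
  · have hc := LimG_ct_nonpos hx h1
    have : LimG_f q V x = 0 := by
      unfold LimG_f Pq dPq
      rw [max_eq_right (by linarith : ct x - q ≤ 0)]
      ring
    rw [this, abs_zero]
    exact hr
  · have hY : 0 < ct x := ct_pos h0 hx
    rcases le_or_gt (ct x) q with hYq | hYq
    · have : LimG_f q V x = 0 := by
        unfold LimG_f Pq dPq
        rw [max_eq_right (by linarith : ct x - q ≤ 0)]
        ring
      rw [this, abs_zero]
      exact hr
    · have hG := Pool.Agent.H53.DE.GI_bound h hV 0 h0 hx.le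
      have hK := h.nonneg
      have hWx : |V x| ≤ K * x := by
        have := h x 0
        rwa [hV, sub_zero, sub_zero, abs_of_pos h0] at this
      have hHT := abs_HT_le h x
      have hct : ct x * x ≤ 2 := by
        have := (cot_le h0 hx.le).2
        have h3 : ct x ≤ 2 / x := this
        rwa [le_div_iff₀ h0] at h3
      have e : LimG_f q V x = (ct x - q) / ct x * Pool.Agent.H53.DE.GI 0 V x -
          (ct x - q) * q / 2 * (V x * HT V x) := by
        unfold LimG_f Pq dPq Pool.Agent.H53.DE.GI dPh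
        rw [max_eq_left (by linarith : 0 ≤ ct x - q)]
        field_simp
        ring
      rw [e]
      refine (abs_sub _ _).trans ?_
      rw [abs_mul, abs_mul ((ct x - q) * q / 2), abs_mul (V x)]
      have b1 : |(ct x - q) / ct x| ≤ 1 := by
        rw [abs_of_nonneg (div_nonneg (by linarith) hY.le), div_le_one hY]
        linarith
      have b2 : |(ct x - q) * q / 2| ≤ ct x * q / 2 := by
        rw [abs_of_nonneg (by nlinarith [mul_nonneg (sub_nonneg.2 hYq.le) hq])]
        nlinarith
      have b3 : |(ct x - q) / ct x| * |Pool.Agent.H53.DE.GI 0 V x| ≤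
          (200 + 13 * |(0:ℝ) - 1 / 4|) * K ^ 2 * (1 + |Real.log x|) := by
        calc |(ct x - q) / ct x| * |Pool.Agent.H53.DE.GI 0 V x| ≤ 1 * |Pool.Agent.H53.DE.GI 0 V x| :=
              mul_le_mul_of_nonneg_right b1 (abs_nonneg _)
          _ ≤ _ := by rw [one_mul]; exact hG
      have b4 : |(ct x - q) * q / 2| * (|V x| * |HT V x|) ≤ 2 * q * K ^ 2 := by
        calc |(ct x - q) * q / 2| * (|V x| * |HT V x|) ≤ (ct x * q / 2) * ((K * x) * (2 * K)) := by
              refine mul_le_mul b2 (mul_le_mul hWx hHT (abs_nonneg _) (by positivity))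
                (by positivity) (by positivity)
          _ = (ct x * x) * (q * K ^ 2) := by ring
          _ ≤ 2 * (q * K ^ 2) := mul_le_mul_of_nonneg_right hct (by positivity)
          _ = _ := by ring
      have b5 : 13 * |(0:ℝ) - 1 / 4| ≤ 4 := by
        rw [zero_sub, abs_neg, abs_of_pos (by norm_num)]
        norm_num
      have hK2 : 0 ≤ K ^ 2 * (1 + |Real.log x|) := by positivity
      have hK3 : K ^ 2 ≤ K ^ 2 * (1 + |Real.log x|) := by nlinarith [sq_nonneg K]
      calc |(ct x - q) / ct x| * |Pool.Agent.H53.DE.GI 0 V x| + |(ct x - q) * q / 2| * (|V x| * |HT V x|)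
          ≤ (200 + 13 * |(0:ℝ) - 1 / 4|) * K ^ 2 * (1 + |Real.log x|) + 2 * q * K ^ 2 :=
            add_le_add b3 b4
        _ ≤ (200 + 4) * (K ^ 2 * (1 + |Real.log x|)) + 2 * q * (K ^ 2 * (1 + |Real.log x|)) := by
            rw [mul_assoc (200 + 13 * |(0:ℝ) - 1 / 4|)]
            refine add_le_add (mul_le_mul_of_nonneg_right (by linarith) hK2)
              (mul_le_mul_of_nonneg_left hK3 (by positivity))
        _ = _ := by ring

theorem LimG_meas {K : ℝ} {V : ℝ → ℝ} (h : Lip K V) (q : ℝ) : Measurable (LimG_f q V) := by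
  have hWm : Measurable V := h.continuous.measurable
  have hHm : Measurable (HT V) := (continuous_HT h).measurable
  have hUm : Measurable (UU V) :=
    (continuous_iff_continuousAt.2 fun x => (hasDerivAt_UU h x).continuousAt).measurable
  have hct : Measurable ct := SC_ct_meas
  have hm : Measurable fun x => max (ct x - q) 0 := (hct.sub_const q).max measurable_const
  have hP : Measurable (Pq q) := (hm.pow_const 2).div_const 4
  have hdP : Measurable (dPq q) :=
    ((hm.mul (measurable_const.add (hct.pow_const 2))).div_const 4).neg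
  exact hWm.mul (((measurable_const.mul hHm).mul hP).add (hUm.mul hdP))

theorem Gq_tendsto {V : ℕ → ℝ → ℝ} {W : ℝ → ℝ} {K q p : ℝ} (hq : 0 ≤ q) (hp0 : 0 < p)
    (hp1 : p < 2 * π) (hn : ∀ n, Lip K (V n)) (pn : ∀ n, Function.Periodic (V n) (2 * π))
    (h0 : ∀ n, V n 0 = 0) (hV : ∀ x, Tendsto (fun n => V n x) atTop (𝓝 (W x))) :
    Tendsto (fun n => Gq q (V n) p) atTop (𝓝 (Gq q W p)) := by
  unfold Gq
  refine intervalIntegral.tendsto_integral_filter_of_dominated_convergence
    (fun x : ℝ => (204 + 2 * q) * K ^ 2 * (1 + |Real.log x|)) ?_ ?_ ?_ ?_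
  · exact Filter.Eventually.of_forall fun n => (LimG_meas (hn n) q).aestronglyMeasurable
  · refine Filter.Eventually.of_forall fun n => Filter.Eventually.of_forall fun x hx => ?_
    rw [Set.uIoc_of_le hp0.le] at hx
    rw [Real.norm_eq_abs]
    exact LimG_bound hq (hn n) (h0 n) hx.1 (lt_of_le_of_lt hx.2 hp1)
  · apply IntervalIntegrable.const_mul
    have h1 : IntervalIntegrable (fun x : ℝ => Real.log x) volume 0 p :=
      intervalIntegral.intervalIntegrable_log'
    exact intervalIntegrable_const.add h1.abs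
  · refine Filter.Eventually.of_forall fun x _ => ?_
    exact (hV x).mul ((((HT_tendsto hn hV x).const_mul 2).mul_const _).add
      ((UU_tendsto hn hV x).mul_const _))

theorem LimG_lim {V : ℕ → ℝ → ℝ} {W : ℝ → ℝ} {K : ℝ} (hn : ∀ n, Lip K (V n))
    (pn : ∀ n, Function.Periodic (V n) (2 * π))
    (hV : ∀ x, Tendsto (fun n => V n x) atTop (𝓝 (W x))) :
    Lip K W ∧ Function.Periodic W (2 * π) := by
  constructor
  · intro x y
    refine le_of_tendsto ((hV x).sub (hV y)).abs (Filter.Eventually.of_forall fun n => hn n x y)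
  · intro x
    refine tendsto_nhds_unique (hV (x + 2 * π)) ?_
    refine (hV x).congr fun n => ?_
    exact (pn n x).symm

theorem LimG_one {V : ℕ → ℝ → ℝ} {W : ℝ → ℝ} {K q p : ℝ} (hq : 0 ≤ q) (hp0 : 0 < p)
    (hp1 : p < 2 * π) (hn : ∀ n, Lip K (V n)) (h0 : ∀ n, V n 0 = 0)
    (hV : ∀ x, Tendsto (fun n => V n x) atTop (𝓝 (W x))) :
    Tendsto (fun n => ∫ x in (0:ℝ)..p, V n x * max (ct x - q) 0) atTop
      (𝓝 (∫ x in (0:ℝ)..p, W x * max (ct x - q) 0)) := by
  have hm : Measurable fun x => max (ct x - q) 0 := (SC_ct_meas.sub_const q).max measurable_const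
  refine intervalIntegral.tendsto_integral_filter_of_dominated_convergence
    (fun _ : ℝ => 2 * K) ?_ ?_ intervalIntegrable_const ?_
  · exact Filter.Eventually.of_forall fun n =>
      ((hn n).continuous.measurable.mul hm).aestronglyMeasurable
  · refine Filter.Eventually.of_forall fun n => Filter.Eventually.of_forall fun x hx => ?_
    rw [Set.uIoc_of_le hp0.le] at hx
    have hK := (hn n).nonneg
    have hx1 : x < 2 * π := lt_of_le_of_lt hx.2 hp1
    rw [Real.norm_eq_abs, abs_mul]
    rcases le_or_gt π x with hxp | hxp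
    · have hc := LimG_ct_nonpos hxp hx1
      rw [max_eq_right (by linarith : ct x - q ≤ 0), abs_zero, mul_zero]
      positivity
    · have hY : 0 < ct x := ct_pos hx.1 hxp
      have hWx : |V n x| ≤ K * x := by
        have := hn n x 0
        rwa [h0 n, sub_zero, sub_zero, abs_of_pos hx.1] at this
      have hct : ct x * x ≤ 2 := by
        have := (cot_le hx.1 hxp.le).2
        have h3 : ct x ≤ 2 / x := this
        rwa [le_div_iff₀ hx.1] at h3
      have hmx : |max (ct x - q) 0| ≤ ct x := by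
        rw [abs_of_nonneg (le_max_right _ _)]
        exact max_le (by linarith) hY.le
      calc |V n x| * |max (ct x - q) 0| ≤ (K * x) * ct x :=
            mul_le_mul hWx hmx (abs_nonneg _) (mul_nonneg hK hx.1.le)
        _ = K * (ct x * x) := by ring
        _ ≤ K * 2 := mul_le_mul_of_nonneg_left hct hK
        _ = _ := by ring
  · exact Filter.Eventually.of_forall fun x _ => (hV x).mul_const _

theorem TA_tendsto {V : ℕ → ℝ → ℝ} {W : ℝ → ℝ} {K q dq l : ℝ} (hq : 0 ≤ q) (hl0 : 0 < l)
    (hl1 : l < 2 * π) (hn : ∀ n, Lip K (V n)) (pn : ∀ n, Function.Periodic (V n) (2 * π))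
    (h0 : ∀ n, V n 0 = 0) (hV : ∀ x, Tendsto (fun n => V n x) atTop (𝓝 (W x))) :
    Tendsto (fun n => TA q dq (V n) l) atTop (𝓝 (TA q dq W l)) := by
  obtain ⟨hLW, hPW⟩ := LimG_lim hn pn hV
  rw [TA_eq hPW ⟨K, hLW⟩]
  have e : (fun n => TA q dq (V n) l) = fun n => Gq q (V n) (2 * π - l) +
      Gq 0 (fun x => V n (-x)) l +
      1 / 2 * dq * UU (V n) (-l) * ∫ x in (0:ℝ)..(2 * π - l), V n x * max (ct x - q) 0 := by
    funext n
    exact TA_eq (pn n) ⟨K, hn n⟩ q dq l
  rw [e]
  refine ((Gq_tendsto hq (by linarith) (by linarith) hn pn h0 hV).add ?_).add ?_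
  · refine Gq_tendsto le_rfl hl0 hl1 (K := K) (V := fun n x => V n (-x)) ?_ ?_ ?_ ?_
    · intro n x y
      have := hn n (-x) (-y)
      rwa [neg_sub_neg, abs_sub_comm y x] at this
    · intro n x
      show V n (-(x + 2 * π)) = V n (-x)
      rw [← pn n (-(x + 2 * π))]
      congr 1
      ring
    · intro n
      show V n (-0) = 0
      rw [neg_zero]
      exact h0 n
    · intro x
      exact hV (-x)
  · exact ((UU_tendsto hn hV (-l)).const_mul _).mul
      (LimG_one hq (by linarith) (by linarith) hn h0 hV)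

theorem BNA_tendsto {V : ℕ → ℝ → ℝ} {W : ℝ → ℝ} {K l : ℝ} (hl0 : 0 < l)
    (hl1 : l < 2 * π) (hn : ∀ n, Lip K (V n)) (pn : ∀ n, Function.Periodic (V n) (2 * π))
    (h0 : ∀ n, V n (-l) = 0) (hV : ∀ x, Tendsto (fun n => V n x) atTop (𝓝 (W x))) :
    Tendsto (fun n => BNA (V n) l) atTop (𝓝 (BNA W l)) := by
  obtain ⟨hLW, hPW⟩ := LimG_lim hn pn hV
  rw [BNA_eq hPW ⟨K, hLW⟩]
  have e : (fun n => BNA (V n) l) = fun n => Gq 0 (fun x => V n (x - l)) l := by
    funext n
    exact BNA_eq (pn n) ⟨K, hn n⟩ l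
  rw [e]
  refine Gq_tendsto le_rfl hl0 hl1 (K := K) (V := fun n x => V n (x - l)) ?_ ?_ ?_ ?_
  · intro n x y
    have := hn n (x - l) (y - l)
    rwa [sub_sub_sub_cancel_right] at this
  · intro n x
    show V n (x + 2 * π - l) = V n (x - l)
    rw [← pn n (x - l)]
    congr 1
    ring
  · intro n
    show V n (0 - l) = 0
    rw [zero_sub]
    exact h0 n
  · intro x
    exact hV (x - l)

end Pool.Agent.H53.DA
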