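import Pool.Agent.H53.DA.Defs
import Pool.Agent.H51.DG.KB

/-!
# DA static job S9a (PtA): pointwise bounds of the cross terms P - N

`φ t = log(1+t) - t/(1+t)`, `φ' = t/(1+t)²`, `0 ≤ φ`, increasing.
`gg_gk`: `-2z gg 0 z (-y) = 2z(1+z²)(log(1+y/z) - y/(z+y)) = 2 gk y z`: algebra.
`gg_N`: with `y = v + q`: `-gg q y (-z) = (1+y²) (log(1+z/y) - v z/(y(y+z)))`; as a function of `z` its derivative is
`(1+y²)(q+z)/(y+z)²` and `(1+y²)(q+z)/(y+z)² ≥ (y/(y+z))² z ≥ (v/(v+z))² z` = derivative of `v² (log(1+z/v) - z/(v+z))`.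
`cross_ge`: `-2 r3k v z = 2v³φ(z/v) + 2z³φ(v/z) - 9 v³z³/(v+z)³` (unfold `r3k`, `rl0`; algebra), `2 gk y z ≥ 2z³φ(y/z) ≥ 2z³φ(v/z)`,
`chp y z ≤ yz/(y+z)`; for `y ≥ 60 q`: `y ≤ (60/59) v`, `yz/(y+z) ≤ (60/59) vz/(v+z)`, `17/2 (60/59)³ ≤ 9`.
-/

set_option autoImplicit false
open Real Set MeasureTheory Filter Topology

namespace Pool.Agent.H53.DA
open Pool.Agent.H45.FL Pool.Agent.H51.DG Pool.Agent.H45.DY Pool.Agent.H90.DC Pool.Agent.H90.DA

/-- `v ↦ v² φ(z/v)` against the weighted one: derivative comparison in `z` -/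
theorem PtA_calc {q v z : ℝ} (hq : 0 ≤ q) (hv : 0 < v) (hz : 0 < z) :
    v ^ 2 * (Real.log (1 + z / v) - z / (v + z)) ≤
      (1 + (v + q) ^ 2) * (Real.log (1 + z / (v + q)) - v * z / ((v + q) * (v + q + z))) := by
  have hy : 0 < v + q := by linarith
  have hmono : MonotoneOn (fun t : ℝ =>
      (1 + (v + q) ^ 2) * (Real.log (1 + t / (v + q)) - v * t / ((v + q) * (v + q + t)))
        - v ^ 2 * (Real.log (1 + t / v) - t / (v + t))) (Ici (0:ℝ)) := by
    have hd : ∀ t : ℝ, 0 ≤ t → HasDerivAt (fun t : ℝ =>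
        (1 + (v + q) ^ 2) * (Real.log (1 + t / (v + q)) - v * t / ((v + q) * (v + q + t)))
          - v ^ 2 * (Real.log (1 + t / v) - t / (v + t)))
        ((1 + (v + q) ^ 2) * ((1 / (v + q)) / (1 + t / (v + q)) -
            ((v * 1) * ((v + q) * (v + q + t)) - v * t * ((v + q) * 1)) /
              ((v + q) * (v + q + t)) ^ 2)
          - v ^ 2 * ((1 / v) / (1 + t / v) - (1 * (v + t) - t * 1) / (v + t) ^ 2)) t := by
      intro t ht
      have h1 : HasDerivAt (fun t : ℝ => 1 + t / (v + q)) (1 / (v + q)) t := by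
        simpa using ((hasDerivAt_id t).div_const (v + q)).const_add 1
      have h2 : HasDerivAt (fun t : ℝ => 1 + t / v) (1 / v) t := by
        simpa using ((hasDerivAt_id t).div_const v).const_add 1
      have h3 : HasDerivAt (fun t : ℝ => v * t) (v * 1) t := (hasDerivAt_id t).const_mul v
      have h4 : HasDerivAt (fun t : ℝ => (v + q) * (v + q + t)) ((v + q) * 1) t := by
        have := (hasDerivAt_id t).const_add (v + q)
        exact this.const_mul (v + q)
      have h5 : HasDerivAt (fun t : ℝ => v + t) 1 t := (hasDerivAt_id t).const_add v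
      have n1 : (1 + t / (v + q)) ≠ 0 := by positivity
      have n2 : (1 + t / v) ≠ 0 := by positivity
      have n3 : (v + q) * (v + q + t) ≠ 0 := by positivity
      have n4 : v + t ≠ 0 := by positivity
      exact (((h1.log n1).sub (h3.div h4 n3)).const_mul _).sub
        (((h2.log n2).sub ((hasDerivAt_id t).div h5 n4)).const_mul _)
    refine monotoneOn_of_deriv_nonneg (convex_Ici 0) ?_ ?_ ?_
    · intro t ht
      exact (hd t ht).continuousAt.continuousWithinAt
    · intro t ht
      rw [interior_Ici] at ht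
      exact (hd t (le_of_lt ht)).differentiableAt.differentiableWithinAt
    · intro t ht
      rw [interior_Ici] at ht
      have ht0 : 0 < t := ht
      rw [(hd t ht0.le).deriv]
      have e1 : (1 + (v + q) ^ 2) * ((1 / (v + q)) / (1 + t / (v + q)) -
            ((v * 1) * ((v + q) * (v + q + t)) - v * t * ((v + q) * 1)) /
              ((v + q) * (v + q + t)) ^ 2)
          = (1 + (v + q) ^ 2) * (q + t) / (v + q + t) ^ 2 := by
        field_simp
        ring
      have e2 : v ^ 2 * ((1 / v) / (1 + t / v) - (1 * (v + t) - t * 1) / (v + t) ^ 2)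
          = v ^ 2 * t / (v + t) ^ 2 := by
        field_simp
        ring
      rw [e1, e2]
      rw [sub_nonneg, div_le_div_iff₀ (by positivity) (by positivity)]
      have k1 : v * (v + q + t) ≤ (v + q) * (v + t) := by nlinarith
      have k2 : (v * (v + q + t)) ^ 2 ≤ ((v + q) * (v + t)) ^ 2 :=
        pow_le_pow_left₀ (by positivity) k1 2
      have k3 : (v * (v + q + t)) ^ 2 * t ≤ ((v + q) * (v + t)) ^ 2 * t :=
        mul_le_mul_of_nonneg_right k2 ht0.le
      have k4 : 0 ≤ (v + t) ^ 2 * (q + t) := by positivity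
      have k5 : 0 ≤ ((v + q) * (v + t)) ^ 2 * q := by positivity
      nlinarith
  have h := hmono (mem_Ici.2 (le_refl (0:ℝ))) (mem_Ici.2 hz.le) hz.le
  simp only [zero_div, add_zero, Real.log_one, mul_zero, sub_zero] at h
  linarith

theorem PtA_phi {y z : ℝ} (hy : 0 < y) (hz : 0 < z) :
    Real.log (1 + y / z) - y / (y + z) = Real.log (1 + y / z) - (y / z) / (1 + y / z) := by
  have h1 : y / (y + z) = (y / z) / (1 + y / z) := by
    field_simp
    ring
  rw [h1]

theorem PtA_r3k {v z : ℝ} (hv : 0 < v) (hz : 0 < z) :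
    -(2 * r3k v z) = 2 * v ^ 3 * (Real.log (1 + z / v) - z / (v + z)) +
      2 * z ^ 3 * (Real.log (1 + v / z) - v / (v + z)) - 9 * (v * z / (v + z)) ^ 3 := by
  unfold r3k rl0
  field_simp
  ring

theorem PtA_chp {y z : ℝ} (hy : 0 < y) (hz : 0 < z) : chp y z ≤ y * z / (y + z) := by
  unfold chp
  refine max_le ?_ (by positivity)
  gcongr
  linarith

theorem PtA_chp0 (y z : ℝ) : 0 ≤ chp y z := le_max_right _ _

theorem gg_N {q v z : ℝ} (hq : 0 ≤ q) (hv : 0 < v) (hz : 0 < z) :
    2 * v ^ 3 * (Real.log (1 + z / v) - z / (v + z)) ≤ -(2 * v * gg q (v + q) (-z)) := by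
  have h := PtA_calc hq hv hz
  have hy : 0 < v + q := by linarith
  have e : -(2 * v * gg q (v + q) (-z)) = 2 * v * ((1 + (v + q) ^ 2) *
      (Real.log (1 + z / (v + q)) - v * z / ((v + q) * (v + q + z)))) := by
    unfold gg
    rw [neg_div, sub_neg_eq_add, sub_neg_eq_add, add_sub_cancel_right]
    ring
  rw [e]
  have h2 : 2 * v * (v ^ 2 * (Real.log (1 + z / v) - z / (v + z))) ≤ 2 * v * ((1 + (v + q) ^ 2) *
      (Real.log (1 + z / (v + q)) - v * z / ((v + q) * (v + q + z)))) :=
    mul_le_mul_of_nonneg_left h (by positivity)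
  calc 2 * v ^ 3 * (Real.log (1 + z / v) - z / (v + z))
      = 2 * v * (v ^ 2 * (Real.log (1 + z / v) - z / (v + z))) := by ring
    _ ≤ _ := h2

theorem gg_gk {y z : ℝ} (hy : 0 < y) (hz : 0 < z) : -(2 * z * gg 0 z (-y)) = 2 * gk y z := by
  unfold gg gk
  rw [neg_div, sub_neg_eq_add, sub_neg_eq_add, sub_zero]
  have e : z * -y / (z * (z + y)) = -(y / (y + z)) := by
    field_simp
    ring
  rw [e]
  ring

/-- cross terms, right part of P and N, with the energy -/
theorem cross_ge {q y z : ℝ} (hq : 0 ≤ q) (hy : 0 < y) (hz : 0 < z) :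
    (if q < y then -(2 * r3k (y - q) z) else 0) - (if y < 60 * q then 17 / 2 * chp y z ^ 3 else 0)
      ≤ -(2 * max (y - q) 0 * gg q y (-z)) + 2 * gk y z - 17 / 2 * chp y z ^ 3 := by
  have hgk := gk_nonneg hy.le hz
  by_cases hqy : q < y
  · rw [if_pos hqy]
    have hv : 0 < y - q := by linarith
    rw [max_eq_left hv.le]
    have h1 := gg_N hq hv hz
    rw [sub_add_cancel] at h1
    have h2 := PtA_r3k hv hz
    have h3 : 2 * z ^ 3 * (Real.log (1 + (y - q) / z) - (y - q) / (y - q + z)) ≤ 2 * gk y z := by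
      rw [KB_gk hz hy.le, PtA_phi hv hz]
      have k1 : Real.log (1 + (y - q) / z) - ((y - q) / z) / (1 + (y - q) / z) ≤
          Real.log (1 + y / z) - (y / z) / (1 + y / z) :=
        KB_mono (by positivity) (by gcongr; linarith)
      have k2 := (KB_bounds (r := y / z) (by positivity)).1
      have k3 : z ^ 3 * (Real.log (1 + (y - q) / z) - ((y - q) / z) / (1 + (y - q) / z)) ≤
          z ^ 3 * (Real.log (1 + y / z) - (y / z) / (1 + y / z)) :=
        mul_le_mul_of_nonneg_left k1 (by positivity)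
      have k4 : 0 ≤ z * (Real.log (1 + y / z) - (y / z) / (1 + y / z)) := mul_nonneg hz.le k2
      linarith
    by_cases h60 : y < 60 * q
    · rw [if_pos h60]
      have h4 : 0 ≤ 9 * ((y - q) * z / (y - q + z)) ^ 3 := by positivity
      linarith
    · rw [if_neg h60]
      push Not at h60
      have h4 := PtA_chp hy hz
      have h5 : y * z / (y + z) ≤ 60 / 59 * ((y - q) * z / (y - q + z)) := by
        rw [← mul_div_assoc, div_le_div_iff₀ (by positivity) (by positivity)]
        have k1 : y ≤ 60 / 59 * (y - q) := by linarith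
        have k2 : y * z * z ≤ 60 / 59 * (y - q) * z * z := by
          have := mul_le_mul_of_nonneg_right k1 (by positivity : (0:ℝ) ≤ z * z)
          linarith
        have k3 : 0 ≤ y * z * (y - q) := by positivity
        nlinarith
      have h6 : chp y z ^ 3 ≤ (60 / 59 * ((y - q) * z / (y - q + z))) ^ 3 :=
        pow_le_pow_left₀ (PtA_chp0 y z) (h4.trans h5) 3
      have h7 : 0 ≤ ((y - q) * z / (y - q + z)) ^ 3 := by positivity
      rw [mul_pow] at h6
      nlinarith
  · rw [if_neg hqy]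
    push Not at hqy
    rw [if_pos (by linarith), max_eq_right (by linarith)]
    linarith

/-- the same for `q = 0` with the degree 3 part of `2 gk` only -/
theorem cross_ge0 {y z : ℝ} (hy : 0 < y) (hz : 0 < z) :
    -(2 * r3k y z) ≤ -(2 * y * gg 0 y (-z)) +
      2 * z ^ 3 * (Real.log (1 + y / z) - y / (y + z)) - 17 / 2 * chp y z ^ 3 := by
  have h1 := gg_N le_rfl hy hz
  rw [add_zero] at h1
  have h2 := PtA_r3k hy hz
  have h3 : chp y z ^ 3 ≤ (y * z / (y + z)) ^ 3 :=
    pow_le_pow_left₀ (PtA_chp0 y z) (PtA_chp hy hz) 3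
  have h4 : 0 ≤ (y * z / (y + z)) ^ 3 := by positivity
  linarith

end Pool.Agent.H53.DA
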