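import Pool.Agent.H53.DA.RK
import Pool.Agent.H53.DA.Tr
import Pool.Agent.H53.DA.EAle
import Pool.Agent.H53.DA.PtA
import Pool.Agent.H53.DA.PtB

/-!
# DA static job S14a (LongA): assembly for `l ≥ π` (note 1995, sec. 7), `q = 0`, no motion

`a = bF f` (all of P, `a x = 0` for `x ≥ λ := 2π - l`), `b = bC f`, `g = bR f` (flat part of N, on `(λ,π)`), `ℓP = ct λ ≥ 0`:
`y > ℓP` on the support of `a`, `s = ct x' < ℓP` on the support of `g`; `f (-x') = -b x'` on `(0,π)`.
`TA_eq` and `G_kernel` with `q = 0` for `W = -f`, `p = 2π - l` and for `W = f(-·)`, `p = l`: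
(1) `-form a a (kQ 0) ≥ N3 a`, `-form b b (kQ 0) ≥ N3 b` (`hat_zero`, `form_congr`, `form_k3`, `form_l1k`).
(2) N flat on P: `∫∫ a 2y g (-gg 0 y s) ≥ 0` (`gg_in`).
(3) N on P, P on N, energy (`EAk_le`): `-2y gg 0 y (-z) + 2z³ φ(y/z) - 17/2 chp³ ≥ -2 r3k y z` (`cross_ge0`), `φ t = log(1+t) - t/(1+t)`,
then `hδ`.
(4) the rest of P and N flat on N: `∫∫ b(η) [a(x') 2z φ(y'/z) - g(x') 2 gk s z]`, `2 gk s z = 2z³ φ(s/z) + 2z φ(s/z)`;
`z³ φ(s/z) ≤ z s²/2` gives `-vs b Qf f`; and `∫∫ b [a 2z φ(y'/z) - g 2z φ(s/z)] ≥ ∫ b 2z φ(ℓP/z) (ms a - ms g) ≥ 0` (`φ` increasing;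
`ms a = m_P ≥ m_N ≥ ms g`, `mass_long`).
(5) `μ ∫ a 2y hh 0 y ≥ -μ vs a` (`hh_ge`); `-μ ∫ b 2z hh 0 z ≥ -2 μ Ma` (`hh_le`).
-/

set_option autoImplicit false
open Real Set MeasureTheory Filter Topology

namespace Pool.Agent.H53.DA
open Pool.Agent.H45.FL Pool.Agent.H51.DG Pool.Agent.H45.DY Pool.Agent.H90.DC Pool.Agent.H90.DA

/-- `log (1+r) - r/(1+r) ≤ r²/2` -/
theorem LongA_phi {r : ℝ} (hr : 0 ≤ r) : Real.log (1 + r) - r / (1 + r) ≤ r ^ 2 / 2 := by
  have hmono : MonotoneOn (fun t : ℝ => t ^ 2 / 2 - (Real.log (1 + t) - t / (1 + t)))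
      (Ici (0:ℝ)) := by
    have hd : ∀ t : ℝ, 0 ≤ t → HasDerivAt
        (fun t : ℝ => t ^ 2 / 2 - (Real.log (1 + t) - t / (1 + t)))
        (2 * t / 2 - (1 / (1 + t) - (1 * (1 + t) - t * 1) / (1 + t) ^ 2)) t := by
      intro t ht
      have n1 : 1 + t ≠ 0 := by positivity
      have h1 : HasDerivAt (fun t : ℝ => 1 + t) 1 t := (hasDerivAt_id t).const_add 1
      have h2 : HasDerivAt (fun t : ℝ => t ^ 2 / 2) (2 * t / 2) t := by
        simpa using (hasDerivAt_pow 2 t).div_const 2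
      exact h2.sub ((h1.log n1).sub ((hasDerivAt_id t).div h1 n1))
    refine monotoneOn_of_deriv_nonneg (convex_Ici 0) ?_ ?_ ?_
    · intro t ht
      exact (hd t ht).continuousAt.continuousWithinAt
    · intro t ht
      rw [interior_Ici] at ht
      exact (hd t (le_of_lt ht)).differentiableAt.differentiableWithinAt
    · intro t ht
      rw [interior_Ici] at ht
      have ht0 : 0 < t := ht
      rw [(hd t ht0.le).deriv]
      have e1 : 2 * t / 2 - (1 / (1 + t) - (1 * (1 + t) - t * 1) / (1 + t) ^ 2) =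
          t ^ 2 * (2 + t) / (1 + t) ^ 2 := by
        field_simp
        ring
      rw [e1]
      positivity
  have h := hmono (mem_Ici.2 (le_refl (0:ℝ))) (mem_Ici.2 hr) hr
  simp only [add_zero, Real.log_one, zero_div, sub_zero] at h
  norm_num at h
  linarith

/-- degree one part of `2 gk` -/
noncomputable def LongA_L (p z : ℝ) : ℝ := 2 * z * (Real.log (1 + p / z) - p / (p + z))

theorem LongA_L_eq {p z : ℝ} (hp : 0 ≤ p) (hz : 0 < z) :
    LongA_L p z = 2 * z * (Real.log (1 + p / z) - (p / z) / (1 + p / z)) := by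
  unfold LongA_L
  have h1 : p / (p + z) = (p / z) / (1 + p / z) := by
    have : p + z ≠ 0 := by positivity
    have : z + p ≠ 0 := by positivity
    field_simp
    ring
  rw [h1]

theorem LongA_L_nonneg {p z : ℝ} (hp : 0 ≤ p) (hz : 0 < z) : 0 ≤ LongA_L p z := by
  rw [LongA_L_eq hp hz]
  exact mul_nonneg (by positivity) (KB_bounds (by positivity)).1

theorem LongA_L_mono {p p' z : ℝ} (hp : 0 ≤ p) (hpp : p ≤ p') (hz : 0 < z) :
    LongA_L p z ≤ LongA_L p' z := by
  rw [LongA_L_eq hp hz, LongA_L_eq (hp.trans hpp) hz]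
  exact mul_le_mul_of_nonneg_left (KB_mono (by positivity) (by gcongr)) (by positivity)

theorem LongA_L_le {p z : ℝ} (hp : 0 ≤ p) (hz : 0 < z) : LongA_L p z ≤ 2 * p := by
  rw [LongA_L_eq hp hz]
  have h1 := (KB_bounds (r := p / z) (by positivity)).2.2
  have h2 := mul_le_mul_of_nonneg_left h1 (by positivity : (0:ℝ) ≤ 2 * z)
  have h3 : 2 * z * (p / z) = 2 * p := by field_simp
  linarith

/-- degree three part of `2 gk` -/
theorem LongA_cube {y z : ℝ} (hy : 0 ≤ y) (hz : 0 < z) :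
    2 * z ^ 3 * (Real.log (1 + y / z) - y / (y + z)) ≤ z * y ^ 2 := by
  have h1 : y / (y + z) = (y / z) / (1 + y / z) := by
    have : y + z ≠ 0 := by positivity
    have : z + y ≠ 0 := by positivity
    field_simp
    ring
  rw [h1]
  have h2 := mul_le_mul_of_nonneg_left (LongA_phi (r := y / z) (by positivity))
    (by positivity : (0:ℝ) ≤ 2 * z ^ 3)
  have h3 : 2 * z ^ 3 * ((y / z) ^ 2 / 2) = z * y ^ 2 := by field_simp
  linarith

theorem LongA_gk_split {y z : ℝ} :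
    2 * gk y z = 2 * z ^ 3 * (Real.log (1 + y / z) - y / (y + z)) + LongA_L y z := by
  unfold gk LongA_L
  ring

theorem LongA_gk_le {y p z : ℝ} (hy : 0 ≤ y) (hyp : y ≤ p) (hz : 0 < z) :
    2 * gk y z ≤ LongA_L p z + z * y ^ 2 := by
  rw [LongA_gk_split]
  have h1 := LongA_cube hy hz
  have h2 := LongA_L_mono hy hyp hz
  linarith

/-- own form of the degree 3 and 1 -/
theorem LongA_form {a : ℝ → ℝ} (ha : Bd a) : N3 a ≤ -form a a (kQ 0) := by
  obtain ⟨i3, e3⟩ := form_k3 ha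
  obtain ⟨i1, e1⟩ := form_l1k ha
  have h : form a a (kQ 0) = form a a k3 + form a a l1k := by
    unfold form
    rw [← integral_add i3 i1]
    refine integral_congr_ae (Eventually.of_forall fun z => ?_)
    show a z.1 * a z.2 * kQ 0 (ct z.1) (ct z.2) =
      a z.1 * a z.2 * k3 (ct z.1) (ct z.2) + a z.1 * a z.2 * l1k (ct z.1) (ct z.2)
    unfold kQ
    ring
  rw [h, e3]
  linarith

theorem LongA_hat (b : ℝ → ℝ) (F : ℝ → ℝ → ℝ) : form (hat 0 b) (hat 0 b) F = form b b F :=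
  (form_congr F (fun _ hx => hat_zero ⟨hx.1, hx.2.le⟩)
    (fun _ hx => hat_zero ⟨hx.1, hx.2.le⟩)).2

/-- integrability of functions of the cotangent against a density which vanishes near `0` -/
theorem LongA_int {b : ℝ → ℝ} (hb : Bd b) {F : ℝ → ℝ} (mF : Measurable F)
    (hF : ∀ M : ℝ, ∃ C : ℝ, ∀ y : ℝ, 0 < y → y ≤ M → |F y| ≤ C) :
    IntegrableOn (fun x => b x * F (ct x)) (Ioo (0:ℝ) π) := by
  have hπ := Real.pi_pos
  obtain ⟨δ, hδ, hz⟩ := hb.z
  obtain ⟨d, hd⟩ : ∃ d, d = min δ (π / 2) := ⟨_, rfl⟩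
  have hd0 : 0 < d := by rw [hd]; exact lt_min hδ (by linarith)
  have hd1 : d ≤ δ := by rw [hd]; exact min_le_left _ _
  have hd2 : d ≤ π / 2 := by rw [hd]; exact min_le_right _ _
  obtain ⟨C, hC⟩ := hF (ct d)
  obtain ⟨B, hB⟩ := isCompact_Icc.exists_bound_of_continuousOn (hb.c.continuousOn (s := Icc 0 π))
  have hB0 : 0 ≤ B := (norm_nonneg _).trans (hB 0 ⟨le_rfl, hπ.le⟩)
  have hC0 : 0 ≤ C := (abs_nonneg _).trans (hC (ct d) (ct_pos hd0 (by linarith)) le_rfl)
  refine Measure.integrableOn_of_bounded (M := B * C) ?_ ?_ ?_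
  · rw [Real.volume_Ioo]
    exact ENNReal.ofReal_ne_top
  · exact (hb.c.measurable.mul (mF.comp SC_ct_meas)).aestronglyMeasurable
  · refine ae_restrict_of_forall_mem measurableSet_Ioo fun x hx => ?_
    rcases le_or_gt x d with h | h
    · rw [hz x hx.1.le (h.trans hd1), zero_mul, norm_zero]
      positivity
    · rw [norm_mul]
      refine mul_le_mul (hB x ⟨hx.1.le, hx.2.le⟩) ?_ (norm_nonneg _) hB0
      exact hC _ (ct_pos hx.1 hx.2) (ct_lt hd0 h (by linarith [hx.2])).le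

theorem LongA_prod {u v : ℝ → ℝ} (hu : IntegrableOn u (Ioo (0:ℝ) π))
    (hv : IntegrableOn v (Ioo (0:ℝ) π)) :
    IntegrableOn (fun z : ℝ × ℝ => u z.1 * v z.2) Sq1 ∧
    ∫ z in Sq1, u z.1 * v z.2 = (∫ x in (0:ℝ)..π, u x) * ∫ x in (0:ℝ)..π, v x := by
  have e : (volume : Measure (ℝ × ℝ)).restrict Sq1 =
      (volume.restrict (Ioo (0:ℝ) π)).prod (volume.restrict (Ioo (0:ℝ) π)) := by
    rw [Measure.prod_restrict]
    rfl
  constructor
  · show Integrable _ (volume.restrict Sq1)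
    rw [e]
    exact Integrable.mul_prod hu hv
  · rw [e, integral_prod_mul, intervalIntegral.integral_of_le Real.pi_pos.le,
      intervalIntegral.integral_of_le Real.pi_pos.le, integral_Ioc_eq_integral_Ioo,
      integral_Ioc_eq_integral_Ioo]

theorem LongA_swap {G : ℝ × ℝ → ℝ} (hG : IntegrableOn G Sq1) :
    IntegrableOn (fun z : ℝ × ℝ => G z.swap) Sq1 ∧
    ∫ z in Sq1, G z.swap = ∫ z in Sq1, G z := by
  have e : (volume : Measure (ℝ × ℝ)).restrict Sq1 =
      (volume.restrict (Ioo (0:ℝ) π)).prod (volume.restrict (Ioo (0:ℝ) π)) := by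
    rw [Measure.prod_restrict]
    rfl
  have h1 : Integrable G (volume.restrict Sq1) := hG
  constructor
  · show Integrable _ (volume.restrict Sq1)
    rw [e] at h1 ⊢
    exact h1.swap
  · rw [e] at h1 ⊢
    exact integral_prod_swap G

theorem LongA_neg {f : ℝ → ℝ} {l : ℝ} (h : TwoA f l) {x : ℝ} (h1 : 2 * π - l ≤ x)
    (h2 : x ≤ 2 * π) : f x ≤ 0 := by
  have h3 := h.neg (x - 2 * π) ⟨by linarith, by linarith⟩
  have h4 := h.per (x - 2 * π)
  rw [sub_add_cancel] at h4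
  rw [h4]
  exact h3

theorem LongA_pt {f : ℝ → ℝ} {l : ℝ} (hl : π ≤ l) (h : TwoA f l) {x η : ℝ}
    (hx : x ∈ Ioo (0:ℝ) π) (hη : η ∈ Ioo (0:ℝ) π) :
    -(2 * (bF f x * bC f η * r3k (ct x) (ct η))) +
        (bF f x - bR f x) * (bC f η * LongA_L (ct (2 * π - l)) (ct η)) -
        bR f x * ct x ^ 2 * (bC f η * ct η) ≤
      bR (fun x => -f x) x * (2 * vq 0 x) * src 0 (fun x => -f x) (ct x) η +
        bR (fun x => f (-x)) η * (2 * vq 0 η) * src 0 (fun x => f (-x)) (ct η) x -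
        17 / 2 * (bF f x * bC f η * chp (ct x) (ct η) ^ 3) := by
  have hπ := Real.pi_pos
  have hy : 0 < ct x := ct_pos hx.1 hx.2
  have hz : 0 < ct η := ct_pos hη.1 hη.2
  have l1 := h.l1
  have fη : f (-η) ≤ 0 := h.neg (-η) ⟨by linarith [hη.2], by linarith [hη.1]⟩
  have fx : f (-x) ≤ 0 := h.neg (-x) ⟨by linarith [hx.2], by linarith [hx.1]⟩
  have hb : bC f η = -f (-η) := max_eq_left (by linarith)
  have hb0 : 0 ≤ bC f η := le_max_right _ _
  have ha0 : 0 ≤ bF f x := le_max_right _ _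
  have ha0' : 0 ≤ bF f η := le_max_right _ _
  have hg0 : 0 ≤ bR f x := le_max_right _ _
  have hg0' : 0 ≤ bR f η := le_max_right _ _
  have v1 : vq 0 x = ct x := by
    unfold vq
    rw [sub_zero]
    exact max_eq_left hy.le
  have v2 : vq 0 η = ct η := by
    unfold vq
    rw [sub_zero]
    exact max_eq_left hz.le
  have e1 : bR (fun x => -f x) x = bF f x := by
    show max (- -f x) 0 = max (f x) 0
    rw [neg_neg]
  have e2 : bR (fun x => f (-x)) η = bC f η := rfl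
  have s1 : src 0 (fun x => -f x) (ct x) η =
      -(bR f η * gg 0 (ct x) (ct η)) - bC f η * gg 0 (ct x) (-ct η) := by
    unfold src
    rw [min_eq_right hz.le, gg_zero, hb]
    show _ - max (-f η) 0 * _ - -f (-η) * _ = -(max (-f η) 0 * _) - _
    ring
  have s2 : src 0 (fun x => f (-x)) (ct η) x = -(f x * gg 0 (ct η) (-ct x)) := by
    unfold src
    rw [min_eq_right hy.le, gg_zero]
    have : bF (fun x => f (-x)) x = 0 := max_eq_right fx
    rw [this]
    show _ - 0 * _ - f (- -x) * _ = _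
    rw [neg_neg]
    ring
  have k1 := gg_gk hy hz
  rw [e1, e2, v1, v2, s1, s2]
  have T2 : bC f η * (2 * ct η) * -(f x * gg 0 (ct η) (-ct x)) =
      bC f η * f x * (2 * gk (ct x) (ct η)) := by
    rw [← k1]
    ring
  rw [T2]
  have hp0 : 0 ≤ ct (2 * π - l) := by
    rcases eq_or_lt_of_le hl with h1 | h1
    · rw [← h1]
      unfold ct
      rw [show (2 * π - π) / 2 = π / 2 by ring, Real.cos_pi_div_two, zero_div]
    · exact (ct_pos (by linarith) (by linarith)).le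
  rcases le_or_gt x (2 * π - l) with hxl | hxl
  · -- `x` in P
    have fx0 : 0 ≤ f x := h.pos x ⟨hx.1.le, hxl⟩
    have hg : bR f x = 0 := max_eq_right (by linarith)
    have ha : bF f x = f x := max_eq_left fx0
    have hpy : ct (2 * π - l) ≤ ct x := by
      rcases eq_or_lt_of_le hxl with h1 | h1
      · rw [h1]
      · exact (ct_lt hx.1 h1 (by linarith)).le
    have t1 : 0 ≤ -(bF f x * (2 * ct x) * (bR f η * gg 0 (ct x) (ct η))) := by
      rcases le_or_gt η x with h1 | h1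
      · have : bR f η = 0 := by
          have := h.pos η ⟨hη.1.le, h1.trans hxl⟩
          exact max_eq_right (by linarith)
        rw [this]
        simp
      · have h2 := gg_in hz (ct_lt hx.1 h1 (by linarith [hη.2]))
        have h3 : 0 ≤ bF f x * (2 * ct x) * bR f η := by positivity
        have h4 := mul_nonneg h3 (neg_nonneg.2 h2)
        linarith
    have t2 := mul_le_mul_of_nonneg_left (cross_ge0 hy hz) (mul_nonneg ha0 hb0)
    have t3 := mul_le_mul_of_nonneg_left (LongA_L_mono hp0 hpy hz) (mul_nonneg ha0 hb0)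
    rw [hg, LongA_gk_split, ← ha]
    linarith
  · -- `x` in N
    have fx0 : f x ≤ 0 := LongA_neg h hxl.le (by linarith [hx.2])
    have ha : bF f x = 0 := max_eq_right fx0
    have hg : bR f x = -f x := max_eq_left (by linarith)
    have hpy : ct x ≤ ct (2 * π - l) := (ct_lt (by linarith) hxl (by linarith [hx.2])).le
    have t2 := mul_le_mul_of_nonneg_left (LongA_gk_le hy.le hpy hz) (mul_nonneg hb0 hg0)
    have hf : f x = -bR f x := by linarith
    rw [ha, hf]
    linarith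

theorem LongA_hhm : Measurable (fun y : ℝ => 2 * y * hh 0 y) := by
  unfold hh
  fun_prop

theorem LongA_hh_int {b : ℝ → ℝ} (hb : Bd b) :
    IntegrableOn (fun x => b x * (2 * ct x * hh 0 (ct x))) (Ioo (0:ℝ) π) := by
  refine LongA_int hb LongA_hhm fun M => ⟨|M| + 2, fun y hy hyM => ?_⟩
  have h1 := hh_ge le_rfl hy
  have h2 := hh_le hy
  have h3 : M ≤ |M| := le_abs_self M
  rw [abs_le]
  constructor
  · have := mul_le_mul_of_nonneg_left h1 (by positivity : (0:ℝ) ≤ 2 * y)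
    linarith
  · linarith [abs_nonneg M]

theorem LongA_hh_eq (b : ℝ → ℝ) :
    ∫ x in (0:ℝ)..π, b x * (2 * vq 0 x) * hh 0 (ct x) =
      ∫ x in Ioo (0:ℝ) π, b x * (2 * ct x * hh 0 (ct x)) := by
  rw [intervalIntegral.integral_of_le Real.pi_pos.le, integral_Ioc_eq_integral_Ioo]
  refine setIntegral_congr_fun measurableSet_Ioo fun x hx => ?_
  have hy : 0 < ct x := ct_pos hx.1 hx.2
  have v1 : vq 0 x = ct x := by
    unfold vq
    rw [sub_zero]
    exact max_eq_left hy.le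
  show b x * (2 * vq 0 x) * hh 0 (ct x) = b x * (2 * ct x * hh 0 (ct x))
  rw [v1]
  ring

theorem LongA_vs_int {b : ℝ → ℝ} (hb : Bd b) :
    IntegrableOn (fun x => b x * ct x) (Ioo (0:ℝ) π) := by
  refine LongA_int hb (F := fun y => y) measurable_id fun M => ⟨M, fun y hy hyM => ?_⟩
  rw [abs_of_pos hy]
  exact hyM

theorem LongA_hh_ge {b : ℝ → ℝ} (hb : Bd b) :
    -vs b ≤ ∫ x in (0:ℝ)..π, b x * (2 * vq 0 x) * hh 0 (ct x) := by
  rw [LongA_hh_eq]
  unfold vs
  rw [intervalIntegral.integral_of_le Real.pi_pos.le, integral_Ioc_eq_integral_Ioo,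
    ← integral_neg]
  refine setIntegral_mono_on (LongA_vs_int hb).neg (LongA_hh_int hb) measurableSet_Ioo
    fun x hx => ?_
  have hy : 0 < ct x := ct_pos hx.1 hx.2
  have h1 := mul_le_mul_of_nonneg_left (hh_ge le_rfl hy) (by positivity : (0:ℝ) ≤ 2 * ct x)
  have h2 := mul_le_mul_of_nonneg_left h1 (hb.nn x ⟨hx.1.le, hx.2.le⟩)
  linarith

theorem LongA_hh_le {b : ℝ → ℝ} (hb : Bd b) :
    ∫ x in (0:ℝ)..π, b x * (2 * vq 0 x) * hh 0 (ct x) ≤ 2 * ms b := by
  rw [LongA_hh_eq]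
  unfold ms
  rw [intervalIntegral.integral_of_le Real.pi_pos.le, integral_Ioc_eq_integral_Ioo,
    ← integral_const_mul]
  refine setIntegral_mono_on (LongA_hh_int hb)
    ((hb.c.integrableOn_Icc.mono_set Ioo_subset_Icc_self).const_mul 2) measurableSet_Ioo
    fun x hx => ?_
  have hy : 0 < ct x := ct_pos hx.1 hx.2
  have h2 := mul_le_mul_of_nonneg_left (hh_le hy) (hb.nn x ⟨hx.1.le, hx.2.le⟩)
  linarith

theorem LongA_mean {f : ℝ → ℝ} (hp : Function.Periodic f (2 * π)) :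
    ∫ x in (0:ℝ)..(2 * π), f (-x) = ∫ x in (0:ℝ)..(2 * π), f x := by
  rw [intervalIntegral.integral_comp_neg (fun x => f x), neg_zero]
  have := hp.intervalIntegral_add_eq (-(2 * π)) 0
  rw [zero_add, neg_add_cancel] at this
  exact this

theorem long_asm {l : ℝ} (hl : π ≤ l) {δ : ℝ} (hδ : ∀ p q : ℝ → ℝ, Bd p → Bd q →
      FInt p q r3k ∧ 2 * form p q r3k + δ * (Su p + Su q) ≤ N3 p + N3 q)
    {f : ℝ → ℝ} (h : VanA f l) :
    δ * (Su (bF f) + Su (bC f)) - vs (bC f) * Qf f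
      - (∫ x in (0:ℝ)..(2 * π), f x) * (vs (bF f) + 2 * Ma f)
      ≤ 8 * π * (TA 0 0 f l - 17 / 16 * EAk f l) := by
  obtain ⟨v1, v2, -⟩ := van_frames h
  obtain ⟨ba, -, bb, bg, -⟩ := bd_parts h
  have hπ := Real.pi_pos
  obtain ⟨K, hK⟩ := h.lip
  have hc : Continuous f := hK.continuous
  have hT : TwoA f l := h.toTwoA
  obtain ⟨m1, m2, ma0, mb0, mg0⟩ := mass_long hT hc hl
  obtain ⟨iT1, eT1⟩ := G_kernel v1 (le_refl (0:ℝ))
  obtain ⟨iT2, eT2⟩ := G_kernel v2 (le_refl (0:ℝ))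
  obtain ⟨iC, eC⟩ := EAk_le hT h.lip
  obtain ⟨iR, hR⟩ := hδ (bF f) (bC f) ba bb
  obtain ⟨iS, eS⟩ := LongA_swap iT2
  have e1 : bR (fun x => -f x) = bF f := by
    funext x
    show max (- -f x) 0 = max (f x) 0
    rw [neg_neg]
  have e2 : bR (fun x => f (-x)) = bC f := rfl
  obtain ⟨p, hp⟩ : ∃ p, p = ct (2 * π - l) := ⟨_, rfl⟩
  have hp0 : 0 ≤ p := by
    rw [hp]
    rcases eq_or_lt_of_le hl with h1 | h1
    · rw [← h1]
      unfold ct
      rw [show (2 * π - π) / 2 = π / 2 by ring, Real.cos_pi_div_two, zero_div]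
    · exact (ct_pos (by linarith [h.l1]) (by linarith)).le
  -- one dimensional integrability
  have i1 : IntegrableOn (fun x => bF f x - bR f x) (Ioo (0:ℝ) π) :=
    (ba.c.sub bg.c).integrableOn_Icc.mono_set Ioo_subset_Icc_self
  have i2 : IntegrableOn (fun x => bC f x * LongA_L p (ct x)) (Ioo (0:ℝ) π) := by
    refine LongA_int bb (F := fun y => LongA_L p y) ?_ fun M => ⟨2 * p, fun y hy _ => ?_⟩
    · unfold LongA_L
      fun_prop
    · rw [abs_of_nonneg (LongA_L_nonneg hp0 hy)]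
      exact LongA_L_le hp0 hy
  have i3 : IntegrableOn (fun x => bR f x * ct x ^ 2) (Ioo (0:ℝ) π) := by
    refine LongA_int bg (F := fun y => y ^ 2) (by fun_prop) fun M => ⟨M ^ 2, fun y hy hyM => ?_⟩
    rw [abs_of_nonneg (sq_nonneg y)]
    exact pow_le_pow_left₀ hy.le hyM 2
  have i4 := LongA_vs_int bb
  obtain ⟨j1, q1⟩ := LongA_prod i1 i2
  obtain ⟨j2, q2⟩ := LongA_prod i3 i4
  have hms1 : MeasurableSet Sq1 := measurableSet_Ioo.prod measurableSet_Ioo
  have iR' : IntegrableOn (fun z : ℝ × ℝ =>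
      -(2 * (bF f z.1 * bC f z.2 * r3k (ct z.1) (ct z.2)))) Sq1 :=
    (Integrable.const_mul iR 2).neg
  have hI := setIntegral_mono_on ((iR'.add j1).sub j2) ((iT1.add iS).sub (iC.const_mul (17 / 2)))
    hms1 (fun z hz => by
      have h1 := LongA_pt hl hT (x := z.1) (η := z.2) hz.1 hz.2
      rw [← hp] at h1
      exact h1)
  have hL : ∫ z in Sq1, ((-(2 * (bF f z.1 * bC f z.2 * r3k (ct z.1) (ct z.2))) +
      (bF f z.1 - bR f z.1) * (bC f z.2 * LongA_L p (ct z.2))) -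
        bR f z.1 * ct z.1 ^ 2 * (bC f z.2 * ct z.2)) =
      -(2 * form (bF f) (bC f) r3k) +
        (∫ x in (0:ℝ)..π, (bF f x - bR f x)) * (∫ x in (0:ℝ)..π, bC f x * LongA_L p (ct x)) -
        Qf f * vs (bC f) := by
    have a1 := integral_sub (iR'.add j1) j2
    have a2 := integral_add iR' j1
    have a3 : ∫ z in Sq1, -(2 * (bF f z.1 * bC f z.2 * r3k (ct z.1) (ct z.2))) =
        -(2 * form (bF f) (bC f) r3k) := by
      rw [integral_neg, integral_const_mul]
      rfl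
    rw [a3, q1] at a2
    rw [q2] at a1
    unfold Qf vs
    rw [← a2]
    exact a1
  have hRt : ∫ z in Sq1, ((bR (fun x => -f x) z.1 * (2 * vq 0 z.1) *
      src 0 (fun x => -f x) (ct z.1) z.2 + bR (fun x => f (-x)) z.2 * (2 * vq 0 z.2) *
        src 0 (fun x => f (-x)) (ct z.2) z.1) -
        17 / 2 * (bF f z.1 * bC f z.2 * chp (ct z.1) (ct z.2) ^ 3)) =
      (∫ z in Sq1, bR (fun x => -f x) z.1 * (2 * vq 0 z.1) *
        src 0 (fun x => -f x) (ct z.1) z.2) +
      (∫ z in Sq1, bR (fun x => f (-x)) z.1 * (2 * vq 0 z.1) *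
        src 0 (fun x => f (-x)) (ct z.1) z.2) -
      17 / 2 * ∫ z in Sq1, bF f z.1 * bC f z.2 * chp (ct z.1) (ct z.2) ^ 3 := by
    have a1 := integral_sub (iT1.add iS) (iC.const_mul (17 / 2))
    have a2 := integral_add iT1 iS
    rw [eS] at a2
    rw [integral_const_mul] at a1
    rw [← a2]
    exact a1
  have hI' : ∫ z in Sq1, ((-(2 * (bF f z.1 * bC f z.2 * r3k (ct z.1) (ct z.2))) +
      (bF f z.1 - bR f z.1) * (bC f z.2 * LongA_L p (ct z.2))) -
        bR f z.1 * ct z.1 ^ 2 * (bC f z.2 * ct z.2)) ≤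
      ∫ z in Sq1, ((bR (fun x => -f x) z.1 * (2 * vq 0 z.1) *
      src 0 (fun x => -f x) (ct z.1) z.2 + bR (fun x => f (-x)) z.2 * (2 * vq 0 z.2) *
        src 0 (fun x => f (-x)) (ct z.2) z.1) -
        17 / 2 * (bF f z.1 * bC f z.2 * chp (ct z.1) (ct z.2) ^ 3)) := hI
  rw [hL, hRt] at hI'
  -- the mixed term is nonnegative
  have hJ : 0 ≤ ∫ x in (0:ℝ)..π, bC f x * LongA_L p (ct x) := by
    rw [intervalIntegral.integral_of_le hπ.le, integral_Ioc_eq_integral_Ioo]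
    refine setIntegral_nonneg measurableSet_Ioo fun x hx => ?_
    exact mul_nonneg (le_max_right _ _) (LongA_L_nonneg hp0 (ct_pos hx.1 hx.2))
  have hD : (∫ x in (0:ℝ)..π, (bF f x - bR f x)) = ms (bF f) - ms (bR f) := by
    unfold ms
    exact intervalIntegral.integral_sub (ba.c.intervalIntegrable _ _)
      (bg.c.intervalIntegrable _ _)
  have hD0 : 0 ≤ ms (bF f) - ms (bR f) := by
    have := h.mean
    linarith
  have hP := mul_nonneg hD0 hJ
  rw [hD] at hI'
  -- universal part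
  have hM1 := LongA_hh_ge ba
  have hM2 := LongA_hh_le bb
  rw [e1] at eT1
  rw [e2] at eT2
  have n1 : ∫ x in (0:ℝ)..(2 * π), -f x = -∫ x in (0:ℝ)..(2 * π), f x :=
    intervalIntegral.integral_neg
  have n2 := LongA_mean hT.per
  rw [n1, LongA_hat] at eT1
  rw [n2, LongA_hat] at eT2
  have f1 := LongA_form ba
  have f2 := LongA_form bb
  have hTA := TA_eq hT.per h.lip 0 0 l
  rw [← Gq_neg 0 f (2 * π - l)] at hTA
  have hmu := h.mean
  have hMa : ms (bC f) ≤ Ma f := by linarith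
  have g1 := mul_le_mul_of_nonneg_left hM1 hmu
  have g2 := mul_le_mul_of_nonneg_left (hM2.trans (mul_le_mul_of_nonneg_left hMa
    (by norm_num : (0:ℝ) ≤ 2))) hmu
  rw [e1, e2] at hI'
  rw [hTA]
  linarith

end Pool.Agent.H53.DA
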