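import Pool.Agent.H53.DA.GK
import Pool.Agent.H53.DA.Hat
import Pool.Agent.H53.DA.K2
import Pool.Agent.H51.DG.SD
import Pool.Agent.H51.DG.KD
import Pool.Agent.H51.DG.SF
import Pool.Agent.H51.DG.SJ
import Pool.Agent.H51.DG.SEw
import Pool.Agent.H90.DC.JKer

/-!
# DA static job S2 (RK), helper53: kernel form of `Gq` (note 1995, sec. 1, 2; checked numerically)
-/
set_option autoImplicit false
open Real Set MeasureTheory Filter Topology

namespace Pool.Agent.H53.DA
open Pool.Agent.H45.FL Pool.Agent.H51.DG Pool.Agent.H45.DY Pool.Agent.H90.DC Pool.Agent.H90.DA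

theorem RK_L {x y : ℝ} (hx : 0 < x) (hy : 0 < y) (hxp : x < π) (hyp : y < 2 * π) (hxy : x ≠ y) :
    Real.log (Real.sin ((x - y) / 2)) - Real.log (Real.sin (y / 2)) =
      Real.log (1 - ct y / ct x) - Real.log (1 + 1 / ct x ^ 2) / 2 := by
  have hsx := SEv_sin hx (by linarith)
  have hsy := SEv_sin hy hyp
  have hne := SEv_ct_ne hx hy (by linarith) hyp hxy
  have h1 : ct y - ct x ≠ 0 := fun h => hne (by linarith)
  rw [SEv_sin_sub hsx.ne' hsy.ne', Real.log_mul (mul_ne_zero hsx.ne' hsy.ne') h1,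
    Real.log_mul hsx.ne' hsy.ne', SEv_logsub (ct_pos hx hxp) hne, SEv_log hx hxp]
  ring

theorem RK_E1 {q x y : ℝ} (hq : 0 ≤ q) (hx : 0 < x) (hy : 0 < y) (hxp : x < π) (hyp : y < 2 * π)
    (hxy : x ≠ y) (hqx : q < ct x) :
    8 * Pq q x * ct (x - y) + 8 * dPq q x *
      (Real.log (Real.sin ((x - y) / 2)) - Real.log (Real.sin (y / 2))) =
      2 * vq q x * (gg q (ct x) (ct y) + hh q (ct x)) := by
  have hsx := SEv_sin hx (by linarith)
  have hsy := SEv_sin hy hyp
  have hne := SEv_ct_ne hx hy (by linarith) hyp hxy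
  have h1 : ct y - ct x ≠ 0 := fun h => hne (by linarith)
  have h2 : ct x - ct y ≠ 0 := fun h => hne (by linarith)
  have hc := ct_pos hx hxp
  rw [RK_L hx hy hxp hyp hxy, SEv_ct_sub hsx.ne' hsy.ne']
  have hv : vq q x = ct x - q := by
    unfold vq; exact max_eq_left (by linarith)
  have hP : Pq q x = (ct x - q) ^ 2 / 4 := by
    unfold Pq; rw [max_eq_left (by linarith)]
  have hdP : dPq q x = -((ct x - q) * (1 + ct x ^ 2) / 4) := by
    unfold dPq; rw [max_eq_left (by linarith)]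
  rw [hv, hP, hdP]
  unfold gg hh
  generalize Real.log (1 - ct y / ct x) = L1
  generalize Real.log (1 + 1 / ct x ^ 2) = L2
  generalize ct x = Y at *
  generalize ct y = Z at *
  field_simp
  ring

theorem RK_E2 {q y z : ℝ} (hq : 0 ≤ q) (hy : q < y) (hz : q < z) (hyz : y ≠ z) :
    2 * (y - q) * (gg q y z - gg q y q) + 2 * (z - q) * (gg q z y - gg q z q) =
      -2 * kQ q (y - q) (z - q) := by
  have hy0 : 0 < y := by linarith
  have hz0 : 0 < z := by linarith
  have hv : 0 < y - q := by linarith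
  have hw : 0 < z - q := by linarith
  have hs : y - z ≠ 0 := sub_ne_zero.2 hyz
  have hs' : z - y ≠ 0 := sub_ne_zero.2 hyz.symm
  have e1 : Real.log (1 - z / y) = Real.log (1 - (z - q) / (y - q)) + Real.log (1 - q / y) := by
    rw [← Real.log_mul]
    · congr 1; field_simp; ring
    · intro h
      have : (1 - (z - q) / (y - q)) * (y - q) = y - z := by field_simp; ring
      rw [h, zero_mul] at this
      exact hs this.symm
    · intro h
      have : (1 - q / y) * y = y - q := by field_simp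
      rw [h, zero_mul] at this
      exact hv.ne this
  have e2 : Real.log (1 - y / z) = Real.log (1 - (y - q) / (z - q)) + Real.log (1 - q / z) := by
    rw [← Real.log_mul]
    · congr 1; field_simp; ring
    · intro h
      have : (1 - (y - q) / (z - q)) * (z - q) = z - y := by field_simp; ring
      rw [h, zero_mul] at this
      exact hs' this.symm
    · intro h
      have : (1 - q / z) * z = z - q := by field_simp
      rw [h, zero_mul] at this
      exact hw.ne this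
  unfold gg kQ k3 k2 l1k
  rw [e1, e2]
  generalize Real.log (1 - (z - q) / (y - q)) = L1
  generalize Real.log (1 - (y - q) / (z - q)) = L2
  generalize Real.log (1 - q / y) = L3
  generalize Real.log (1 - q / z) = L4
  field_simp
  ring

/-- bounded difference quotient -/
theorem RK_bd {F : ℝ → ℝ} {K : ℝ} (hF : Lip K F) (pF : Function.Periodic F (2 * π)) {x y : ℝ}
    (hx : x ∈ Ioo (0:ℝ) (2 * π)) (hy : y ∈ Ioo (0:ℝ) (2 * π)) :
    |(F x - F y) * ct (x - y)| ≤ 2 * K := by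
  have hK := hF.nonneg
  have key : ∀ u d : ℝ, |u| ≤ π → |d| ≤ K * |u| → |d * ct u| ≤ 2 * K := by
    intro u d hu hd
    rw [abs_mul]
    have h1 := SC_ct_bound hu
    have h2 : |d| * |ct u| ≤ K * |u| * |ct u| := mul_le_mul_of_nonneg_right hd (abs_nonneg _)
    nlinarith [mul_le_mul_of_nonneg_left h1 hK]
  rcases le_or_gt |x - y| π with h | h
  · exact key _ _ h (hF x y)
  · rcases le_or_gt (x - y) 0 with h0 | h0
    · have h3 : ct (x - y) = ct (x + 2 * π - y) := by
        rw [show x + 2 * π - y = (x - y) + 2 * π by ring, SC_ct_per]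
      have h4 : F x = F (x + 2 * π) := (pF x).symm
      rw [h3, h4]
      refine key _ _ ?_ (hF _ _)
      rw [abs_of_nonpos h0] at h
      rw [abs_le]
      constructor <;> linarith [hx.1, hy.2, Real.pi_pos]
    · have h3 : ct (x - y) = ct (x - (y + 2 * π)) := by
        rw [show x - (y + 2 * π) = (x - y) - 2 * π by ring, JKer_ct_sub']
      have h4 : F y = F (y + 2 * π) := (pF y).symm
      rw [h3, h4]
      refine key _ _ ?_ (hF _ _)
      rw [abs_of_pos h0] at h
      rw [abs_le]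
      constructor <;> linarith [hx.2, hy.1, Real.pi_pos]

theorem RK_fin : (volume.restrict Sq2 : Measure (ℝ × ℝ)) univ < ⊤ := by
  rw [Measure.restrict_apply_univ]
  unfold Sq2
  rw [Measure.volume_eq_prod, Measure.prod_prod, Real.volume_Ioo]
  exact ENNReal.mul_lt_top ENNReal.ofReal_lt_top ENNReal.ofReal_lt_top

theorem RK_int {f : ℝ × ℝ → ℝ} (hf : Measurable f) {C : ℝ} (hb : ∀ z ∈ Sq2, |f z| ≤ C) :
    IntegrableOn f Sq2 := by
  have hms : MeasurableSet Sq2 := measurableSet_Ioo.prod measurableSet_Ioo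
  refine Measure.integrableOn_of_bounded (M := C) ?_ hf.aestronglyMeasurable ?_
  · have h := RK_fin
    rw [Measure.restrict_apply_univ] at h
    exact h.ne
  · exact ae_restrict_of_forall_mem hms fun z hz => hb z hz

theorem RK_swap {f : ℝ × ℝ → ℝ} (hf : IntegrableOn f Sq2) :
    IntegrableOn (fun z : ℝ × ℝ => f z.swap) Sq2 ∧
    ∫ z in Sq2, f z.swap = ∫ z in Sq2, f z := by
  constructor
  · have h1 : Integrable f (volume.restrict Sq2) := hf
    rw [SD_Sq2] at h1
    have h2 := h1.swap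
    show Integrable _ (volume.restrict Sq2)
    rw [SD_Sq2]
    exact h2
  · rw [SD_Sq2]
    exact integral_prod_swap f

theorem RK_prod {f g : ℝ → ℝ} (hf : IntegrableOn f (Ioo (0:ℝ) (2 * π)))
    (hg : IntegrableOn g (Ioo (0:ℝ) (2 * π))) :
    IntegrableOn (fun z : ℝ × ℝ => f z.1 * g z.2) Sq2 ∧
    ∫ z in Sq2, f z.1 * g z.2 = (∫ x in Ioo (0:ℝ) (2 * π), f x) * ∫ x in Ioo (0:ℝ) (2 * π), g x := by
  constructor
  · unfold Sq2
    rw [IntegrableOn, Measure.volume_eq_prod, ← Measure.prod_restrict]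
    exact Integrable.mul_prod hf hg
  · exact setIntegral_prod_mul f g _ _

/-- bound of the self effect -/
theorem RK_same {q y : ℝ} (hq : 0 ≤ q) (hy : q < y) :
    |(y - q) * gg q y q| ≤ (1 + y ^ 2) * q := by
  have hy0 : 0 < y := by linarith
  rcases eq_or_lt_of_le hq with h | h
  · rw [← h]
    unfold gg
    simp
  · have hv : 0 < y - q := by linarith
    have h1 : 0 < 1 - q / y := by rw [sub_pos, div_lt_one hy0]; exact hy
    have h2 : Real.log (1 - q / y) ≤ -(q / y) := by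
      have := Real.log_le_sub_one_of_pos h1
      linarith
    have h3 : -Real.log (1 - q / y) ≤ q / (y - q) := by
      rw [← Real.log_inv]
      have := Real.log_le_sub_one_of_pos (inv_pos.2 h1)
      have e : (1 - q / y)⁻¹ - 1 = q / (y - q) := by
        have : 1 - q / y = (y - q) / y := by field_simp
        rw [this, inv_div]
        field_simp
        ring
      linarith
    have e0 : gg q y q = (1 + y ^ 2) * (-Real.log (1 - q / y) - q / y) := by
      unfold gg
      congr 2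
      field_simp
    rw [e0]
    have h4 : 0 ≤ -Real.log (1 - q / y) - q / y := by linarith
    have h5 : -Real.log (1 - q / y) - q / y ≤ q / (y - q) := by
      have : 0 ≤ q / y := by positivity
      linarith
    have h6 : 0 ≤ 1 + y ^ 2 := by positivity
    rw [abs_of_nonneg (by positivity)]
    have h7 : (y - q) * ((1 + y ^ 2) * (-Real.log (1 - q / y) - q / y)) ≤
        (y - q) * ((1 + y ^ 2) * (q / (y - q))) := by gcongr
    refine h7.trans (le_of_eq ?_)
    field_simp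

/-- the data of the proof of `G_kernel` -/
theorem RK_main {W : ℝ → ℝ} {p q : ℝ} (h : Van W p) (hq : 0 ≤ q) :
    ∃ F Pf : ℝ → ℝ, SD_BL F ∧ SD_BL Pf ∧
      (∀ x ∈ Ioo (0:ℝ) (2 * π), F x = bR W x * Pq q x) ∧
      (∀ x ∈ Ioo (0:ℝ) (2 * π), Pf x = bR W x * dPq q x) ∧
      Gq q W p = -∫ x in (0:ℝ)..(2 * π), (2 * F x * HT W x + Pf x * UU W x) := by
  obtain ⟨K, hK⟩ := h.lip
  have hpi : (3:ℝ) < π := Real.pi_gt_three
  have hp := h.per
  have hWc : Continuous W := Lip.continuous hK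
  have hBW := SD_BL_W hp h.lip
  obtain ⟨δ0, hδ0, hv0⟩ := h.van
  obtain ⟨δ, hδd⟩ : ∃ δ, δ = min δ0 1 := ⟨_, rfl⟩
  have hδ : 0 < δ := by rw [hδd]; exact lt_min hδ0 one_pos
  have hδ1 : δ ≤ 1 := by rw [hδd]; exact min_le_right _ _
  have hv : ∀ x, |x| ≤ δ → W x = 0 := fun x hx =>
    hv0 x (hx.trans (by rw [hδd]; exact min_le_left _ _))
  obtain ⟨s0, hs0d⟩ : ∃ s, s = Real.sin (δ / 2) := ⟨_, rfl⟩
  have hs0 : 0 < s0 := by
    rw [hs0d]; exact Real.sin_pos_of_pos_of_lt_pi (by linarith) (by linarith)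
  have hsin : ∀ x, 0 < x → x < 2 * π → W x ≠ 0 → s0 ≤ Real.sin (x / 2) := fun x a b c =>
    hs0d ▸ SD_sin_ge hp hδ hv a b c
  obtain ⟨m, hmd⟩ : ∃ m : ℝ → ℝ, m = fun x => (max |Real.sin (x / 2)| s0)⁻¹ := ⟨_, rfl⟩
  have hm : SD_BL m := by
    rw [hmd]; exact (SD_BL.abssin.maxc s0).inv hs0 (fun x => le_max_right _ _)
  have hmx : ∀ x, 0 < x → x < 2 * π → W x ≠ 0 → m x = (Real.sin (x / 2))⁻¹ := by
    intro x a b c
    have := hsin x a b c
    rw [hmd]
    show (max |Real.sin (x / 2)| s0)⁻¹ = _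
    rw [abs_of_pos (hs0.trans_le this), max_eq_left this]
  obtain ⟨G, hGd⟩ : ∃ G : ℝ → ℝ, G = fun x => max (Real.sin x + -(2 * q) *
      (|Real.sin (x / 2)| * |Real.sin (x / 2)|)) 0 * (1 / 2 * (m x * m x)) := ⟨_, rfl⟩
  have hG : SD_BL G := by
    rw [hGd]
    exact ((JKer_sin.add ((SD_BL.const _).mul (SD_BL.abssin.mul SD_BL.abssin))).maxc 0).mul
      ((SD_BL.const _).mul (hm.mul hm))
  have hGx : ∀ x ∈ Ioo (0:ℝ) (2 * π), W x ≠ 0 → G x = vq q x := by
    intro x hx hW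
    have hs := hs0.trans_le (hsin x hx.1 hx.2 hW)
    rw [hGd]
    show max (Real.sin x + -(2 * q) * (|Real.sin (x / 2)| * |Real.sin (x / 2)|)) 0 *
      (1 / 2 * (m x * m x)) = _
    rw [hmx x hx.1 hx.2 hW, abs_of_pos hs, max_mul_of_nonneg _ _ (by positivity), zero_mul]
    unfold vq ct
    have e3 : Real.sin x = 2 * Real.sin (x / 2) * Real.cos (x / 2) := by
      rw [← Real.sin_two_mul]
      congr 1
      ring
    rw [e3]
    congr 1
    field_simp
    ring
  refine ⟨fun x => max (-W x) 0 * (1 / 4 * (G x * G x)),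
    fun x => max (-W x) 0 * (-(1 / 4) * (G x * (m x * m x))), ?_, ?_, ?_, ?_, ?_⟩
  · exact (hBW.neg.maxc 0).mul ((SD_BL.const _).mul (hG.mul hG))
  · exact (hBW.neg.maxc 0).mul ((SD_BL.const _).mul (hG.mul (hm.mul hm)))
  · intro x hx
    by_cases hW : W x = 0
    · unfold bR; simp [hW]
    · show max (-W x) 0 * (1 / 4 * (G x * G x)) = _
      rw [hGx x hx hW]
      unfold bR Pq vq
      ring
  · intro x hx
    by_cases hW : W x = 0
    · unfold bR; simp [hW]
    · show max (-W x) 0 * (-(1 / 4) * (G x * (m x * m x))) = _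
      have hs := hs0.trans_le (hsin x hx.1 hx.2 hW)
      rw [hGx x hx hW, hmx x hx.1 hx.2 hW]
      unfold bR dPq vq
      have e := SEv_sq hs.ne'
      rw [← e]
      field_simp
  · have cF : Continuous (fun x => max (-W x) 0 * (1 / 4 * (G x * G x))) := by
      obtain ⟨K1, hK1⟩ := ((hBW.neg.maxc 0).mul ((SD_BL.const (1/4)).mul (hG.mul hG))).lip
      exact hK1.continuous
    have cP : Continuous (fun x => max (-W x) 0 * (-(1 / 4) * (G x * (m x * m x)))) := by
      obtain ⟨K1, hK1⟩ := ((hBW.neg.maxc 0).mul ((SD_BL.const (-(1/4))).mul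
        (hG.mul (hm.mul hm)))).lip
      exact hK1.continuous
    have cH := continuous_HT hK
    have cU : Continuous (UU W) := continuous_iff_continuousAt.2 fun x =>
      (hasDerivAt_UU hK x).continuousAt
    have cI : Continuous (fun x => 2 * (max (-W x) 0 * (1 / 4 * (G x * G x))) * HT W x +
      (max (-W x) 0 * (-(1 / 4) * (G x * (m x * m x)))) * UU W x) := by fun_prop
    rw [← intervalIntegral.integral_add_adjacent_intervals (b := p)
      (cI.intervalIntegrable _ _) (cI.intervalIntegrable _ _)]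
    have z2 : ∫ x in p..(2 * π), (2 * (max (-W x) 0 * (1 / 4 * (G x * G x))) * HT W x +
      (max (-W x) 0 * (-(1 / 4) * (G x * (m x * m x)))) * UU W x) = 0 := by
      rw [intervalIntegral.integral_congr (g := fun _ => (0:ℝ))]
      · simp
      · intro x hx
        rw [uIcc_of_le h.l1.le] at hx
        have := h.pos x hx
        show _ = (0:ℝ)
        simp only []
        rw [max_eq_right (by linarith)]
        ring
    rw [z2, add_zero]
    unfold Gq
    rw [← intervalIntegral.integral_neg]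
    refine intervalIntegral.integral_congr_ae ?_
    filter_upwards with x hx
    rw [uIoc_of_le h.l0.le] at hx
    have hW0 := h.neg x ⟨hx.1.le, hx.2⟩
    have hx2 : x ∈ Ioo (0:ℝ) (2 * π) := ⟨hx.1, hx.2.trans_lt h.l1⟩
    by_cases hW : W x = 0
    · simp [hW]
    · have hs := hs0.trans_le (hsin x hx2.1 hx2.2 hW)
      rw [hGx x hx2 hW, hmx x hx2.1 hx2.2 hW, max_eq_left (by linarith)]
      unfold Pq dPq vq
      have e := SEv_sq hs.ne'
      rw [← e]
      field_simp
      ring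

noncomputable def RK_P (q : ℝ) (W : ℝ → ℝ) (y : ℝ) : ℝ := if q < ct y then bR W y else 0

noncomputable def RK_R (q : ℝ) (W : ℝ → ℝ) (y : ℝ) : ℝ := W y + RK_P q W y

/-- unfolded source -/
noncomputable def RK_s (q : ℝ) (W : ℝ → ℝ) (y x' : ℝ) : ℝ :=
  RK_P q W x' * gg q y q - RK_R q W x' * gg q y (ct x')

theorem RK_mP (q : ℝ) {W : ℝ → ℝ} (hc : Continuous W) : Measurable (RK_P q W) := by
  unfold RK_P
  refine Measurable.ite (measurableSet_lt measurable_const SC_ct_meas) ?_ measurable_const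
  unfold bR
  exact (hc.neg.max continuous_const).measurable

theorem RK_mR (q : ℝ) {W : ℝ → ℝ} (hc : Continuous W) : Measurable (RK_R q W) :=
  hc.measurable.add (RK_mP q hc)

theorem RK_Pb (q : ℝ) (W : ℝ → ℝ) (y : ℝ) : |RK_P q W y| ≤ |W y| := by
  unfold RK_P
  split_ifs
  · unfold bR
    rcases le_total (W y) 0 with h | h
    · rw [max_eq_left (by linarith), abs_neg]
    · rw [max_eq_right (by linarith)]; simp
  · simp

theorem RK_Rb (q : ℝ) (W : ℝ → ℝ) (y : ℝ) : |RK_R q W y| ≤ |W y| := by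
  unfold RK_R RK_P
  split_ifs
  · unfold bR
    rcases le_total (W y) 0 with h | h
    · rw [max_eq_left (by linarith)]; simp
    · rw [max_eq_right (by linarith)]; simp
  · simp

theorem RK_ctb {W : ℝ → ℝ} {p : ℝ} (h : Van W p) : ∃ C : ℝ, 0 ≤ C ∧
    ∀ x ∈ Ioo (0:ℝ) (2 * π), W x ≠ 0 → |ct x| ≤ C := by
  have hpi : (3:ℝ) < π := Real.pi_gt_three
  have hp := h.per
  obtain ⟨δ0, hδ0, hv0⟩ := h.van
  obtain ⟨δ, hδd⟩ : ∃ δ, δ = min δ0 1 := ⟨_, rfl⟩
  have hδ : 0 < δ := by rw [hδd]; exact lt_min hδ0 one_pos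
  have hδ1 : δ ≤ 1 := by rw [hδd]; exact min_le_right _ _
  have hv : ∀ x, |x| ≤ δ → W x = 0 := fun x hx =>
    hv0 x (hx.trans (by rw [hδd]; exact min_le_left _ _))
  have hs0 : 0 < Real.sin (δ / 2) :=
    Real.sin_pos_of_pos_of_lt_pi (by linarith) (by linarith)
  refine ⟨1 / Real.sin (δ / 2), by positivity, fun x hx hW => ?_⟩
  have hs := SD_sin_ge hp hδ hv hx.1 hx.2 hW
  unfold ct
  rw [abs_div, abs_of_pos (hs0.trans_le hs)]
  exact div_le_div₀ zero_le_one (Real.abs_cos_le_one _) hs0 hs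

theorem RK_hb {q y : ℝ} (hq : 0 ≤ q) (hy : q < y) : |(y - q) * hh q y| ≤ 1 + 2 * y := by
  have hy0 : 0 < y := by linarith
  have h1 := psi_le hy0.le
  have h2 := psi_nonneg hy0.le
  unfold psi at h1 h2
  have hl : 0 ≤ Real.log (1 + 1 / y ^ 2) := Real.log_nonneg (by
    have : 0 < 1 / y ^ 2 := by positivity
    linarith)
  have e : (y - q) * hh q y = -((y - q) * ((y - q) / y)) +
      (y - q) * ((1 + y ^ 2) * Real.log (1 + 1 / y ^ 2) / 2) := by
    unfold hh; ring
  have h3 : 0 ≤ (y - q) * ((y - q) / y) := by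
    have : 0 ≤ y - q := by linarith
    positivity
  have h4 : (y - q) * ((y - q) / y) ≤ y := by
    rw [mul_div_assoc', div_le_iff₀ hy0]
    nlinarith
  have h5 : 0 ≤ (1 + y ^ 2) * Real.log (1 + 1 / y ^ 2) / 2 := by positivity
  have h6 : (y - q) * ((1 + y ^ 2) * Real.log (1 + 1 / y ^ 2) / 2) ≤
      y * ((1 + y ^ 2) * Real.log (1 + 1 / y ^ 2) / 2) :=
    mul_le_mul_of_nonneg_right (by linarith) h5
  have h7 : 0 ≤ (y - q) * ((1 + y ^ 2) * Real.log (1 + 1 / y ^ 2) / 2) :=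
    mul_nonneg (by linarith) h5
  have h8 : y * ((1 + y ^ 2) * Real.log (1 + 1 / y ^ 2) / 2) =
      y * (1 + y ^ 2) * Real.log (1 + 1 / y ^ 2) / 2 := by ring
  rw [e, abs_le]
  constructor <;> linarith

theorem RK_int1 {f : ℝ → ℝ} (hf : Measurable f) {C : ℝ} (hb : ∀ x ∈ Ioo (0:ℝ) (2 * π), |f x| ≤ C) :
    IntegrableOn f (Ioo (0:ℝ) (2 * π)) := by
  refine Measure.integrableOn_of_bounded (M := C) ?_ hf.aestronglyMeasurable ?_
  · rw [Real.volume_Ioo]; exact ENNReal.ofReal_ne_top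
  · exact ae_restrict_of_forall_mem measurableSet_Ioo fun z hz => hb z hz

theorem RK_lt_pi {q x : ℝ} (hq : 0 ≤ q) (hx : x ∈ Ioo (0:ℝ) (2 * π)) (h : q < ct x) : x < π := by
  by_contra hc
  rw [not_lt] at hc
  have h1 : Real.cos (x / 2) ≤ 0 :=
    Real.cos_nonpos_of_pi_div_two_le_of_le (by linarith) (by linarith [hx.2, Real.pi_pos])
  have h2 := SEv_sin hx.1 hx.2
  have h3 : ct x ≤ 0 := div_nonpos_of_nonpos_of_nonneg h1 h2.le
  linarith

theorem RK_unf {W : ℝ → ℝ} {p q : ℝ} (h : Van W p) (hq : 0 ≤ q) :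
    IntegrableOn (fun z : ℝ × ℝ => bR W z.1 * (2 * vq q z.1) * RK_s q W (ct z.1) z.2) Sq2 ∧
    IntegrableOn (fun z : ℝ × ℝ => RK_P q W z.1 * RK_P q W z.2 * kQ q (ct z.1 - q) (ct z.2 - q))
      Sq2 ∧
    8 * π * Gq q W p =
      -(∫ z in Sq2, RK_P q W z.1 * RK_P q W z.2 * kQ q (ct z.1 - q) (ct z.2 - q))
      + (∫ z in Sq2, bR W z.1 * (2 * vq q z.1) * RK_s q W (ct z.1) z.2)
      - (∫ x in (0:ℝ)..(2 * π), W x) * ∫ x in Ioo (0:ℝ) (2 * π), bR W x * (2 * vq q x) *
        hh q (ct x) := by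
  obtain ⟨F, Pf, hF, hP, hFx, hPx, hG⟩ := RK_main h hq
  obtain ⟨K, hK⟩ := h.lip
  have hp := h.per
  have hWc : Continuous W := Lip.continuous hK
  have hBW := SD_BL_W hp h.lip
  obtain ⟨B, hB⟩ := hBW.bd
  have hB0 : 0 ≤ B := (abs_nonneg _).trans (hB 0)
  obtain ⟨KF, hKF⟩ := hF.lip
  obtain ⟨BP, hBP⟩ := hP.bd
  have hBP0 : 0 ≤ BP := (abs_nonneg _).trans (hBP 0)
  obtain ⟨KP, hKP⟩ := hP.lip
  have mPf : Measurable Pf := hKP.continuous.measurable
  have mF : Measurable F := hKF.continuous.measurable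
  obtain ⟨gT, gL, gI⟩ := GK hKF hF.per hK hp mPf hBP
  have mP := RK_mP q hWc
  have mR := RK_mR q hWc
  have hms : MeasurableSet Sq2 := measurableSet_Ioo.prod measurableSet_Ioo
  -- `F R = 0` on the diagonal
  have hFR : ∀ y ∈ Ioo (0:ℝ) (2 * π), F y * RK_R q W y = 0 := by
    intro y hy
    rw [hFx y hy]
    unfold RK_R RK_P
    split_ifs with hc
    · unfold bR
      rcases le_total (W y) 0 with h1 | h1
      · rw [max_eq_left (by linarith)]; ring
      · rw [max_eq_right (by linarith)]; ring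
    · have : Pq q y = 0 := by
        unfold Pq
        rw [max_eq_right (by linarith)]
        simp
      rw [this]; ring
  -- the pieces
  obtain ⟨J, hJd⟩ : ∃ J : ℝ × ℝ → ℝ, J = fun z => F z.1 * RK_R q W z.2 * ct (z.1 - z.2) :=
    ⟨_, rfl⟩
  have hJ : IntegrableOn J Sq2 := by
    rw [hJd]
    refine RK_int (C := 2 * KF * B) ?_ ?_
    · exact ((mF.comp measurable_fst).mul (mR.comp measurable_snd)).mul
        (SC_ct_meas.comp (measurable_fst.sub measurable_snd))
    · intro z hz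
      have e : F z.1 * RK_R q W z.2 * ct (z.1 - z.2) =
          (F z.1 - F z.2) * ct (z.1 - z.2) * RK_R q W z.2 := by
        have := hFR z.2 hz.2
        linear_combination (ct (z.1 - z.2)) * this
      rw [e, abs_mul]
      have h1 := RK_bd hKF hF.per hz.1 hz.2
      exact mul_le_mul h1 ((RK_Rb q W _).trans (hB _)) (abs_nonneg _)
        ((abs_nonneg _).trans h1)
  obtain ⟨L, hLd⟩ : ∃ L : ℝ × ℝ → ℝ, L = fun z =>
      Real.log (Real.sin ((z.1 - z.2) / 2)) - Real.log (Real.sin (z.2 / 2)) := ⟨_, rfl⟩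
  have hL : IntegrableOn L Sq2 := by
    rw [hLd]; exact SD_log_sq.sub SD_log_snd
  have hBRi : IntegrableOn (fun z : ℝ × ℝ => Pf z.1 * RK_R q W z.2 * L z) Sq2 := by
    refine Integrable.bdd_mul (c := BP * B) hL
      (((mPf.comp measurable_fst).mul (mR.comp measurable_snd)).aestronglyMeasurable) ?_
    refine ae_restrict_of_forall_mem hms fun z hz => ?_
    rw [Real.norm_eq_abs, abs_mul]
    exact mul_le_mul (hBP _) ((RK_Rb q W _).trans (hB _)) (abs_nonneg _) hBP0
  have hBPi : IntegrableOn (fun z : ℝ × ℝ => Pf z.1 * RK_P q W z.2 * L z) Sq2 := by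
    refine Integrable.bdd_mul (c := BP * B) hL
      (((mPf.comp measurable_fst).mul (mP.comp measurable_snd)).aestronglyMeasurable) ?_
    refine ae_restrict_of_forall_mem hms fun z hz => ?_
    rw [Real.norm_eq_abs, abs_mul]
    exact mul_le_mul (hBP _) ((RK_Pb q W _).trans (hB _)) (abs_nonneg _) hBP0
  obtain ⟨sJ, eJ⟩ := RK_swap hJ
  obtain ⟨sB, eB⟩ := RK_swap hBPi
  -- `A1`
  obtain ⟨A1, hA1d⟩ : ∃ A1 : ℝ × ℝ → ℝ, A1 = fun z =>
      (F z.1 * RK_P q W z.2 - F z.2 * RK_P q W z.1) * ct (z.1 - z.2) := ⟨_, rfl⟩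
  have eA : ∀ z : ℝ × ℝ, A1 z = J z + J z.swap -
      (F z.1 * W z.2 - F z.2 * W z.1) * ct (z.1 - z.2) := by
    intro z
    rw [hA1d, hJd]
    show (F z.1 * RK_P q W z.2 - F z.2 * RK_P q W z.1) * ct (z.1 - z.2) =
      F z.1 * RK_R q W z.2 * ct (z.1 - z.2) + F z.2 * RK_R q W z.1 * ct (z.2 - z.1) -
      (F z.1 * W z.2 - F z.2 * W z.1) * ct (z.1 - z.2)
    have e1 : ct (z.2 - z.1) = -ct (z.1 - z.2) := by
      rw [← SC_ct_neg]; congr 1; ring
    rw [e1]
    unfold RK_R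
    ring
  have hA1 : IntegrableOn A1 Sq2 := by
    rw [show A1 = fun z => (J z + J z.swap) -
      (F z.1 * W z.2 - F z.2 * W z.1) * ct (z.1 - z.2) from funext eA]
    exact (hJ.add sJ).sub gT
  have hJJ : IntegrableOn (fun z => J z + J z.swap) Sq2 := hJ.add sJ
  have iT : ∫ z in Sq2, (F z.1 * W z.2 - F z.2 * W z.1) * ct (z.1 - z.2) =
      2 * (∫ z in Sq2, J z) - ∫ z in Sq2, A1 z := by
    have e1 : ∫ z in Sq2, A1 z = ((∫ z in Sq2, J z) + ∫ z in Sq2, J z.swap) -
        ∫ z in Sq2, (F z.1 * W z.2 - F z.2 * W z.1) * ct (z.1 - z.2) := by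
      rw [← integral_add hJ sJ, ← integral_sub hJJ gT]
      exact integral_congr_ae (Eventually.of_forall fun z => eA z)
    rw [e1, eJ]
    ring
  have iL : ∫ z in Sq2, Pf z.1 * W z.2 *
      (Real.log (Real.sin ((z.1 - z.2) / 2)) - Real.log (Real.sin (z.2 / 2))) =
      (∫ z in Sq2, Pf z.1 * RK_R q W z.2 * L z) - ∫ z in Sq2, Pf z.1 * RK_P q W z.2 * L z := by
    rw [← integral_sub hBRi hBPi]
    refine integral_congr_ae (Eventually.of_forall fun z => ?_)
    rw [hLd]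
    simp only []
    unfold RK_R
    ring
  have hpi0 : (π:ℝ) ≠ 0 := Real.pi_ne_zero
  have sB' : IntegrableOn (fun z : ℝ × ℝ => Pf z.2 * RK_P q W z.1 * L z.swap) Sq2 := sB
  have hBB : IntegrableOn (fun z : ℝ × ℝ => 4 * (Pf z.1 * RK_P q W z.2 * L z) +
      4 * (Pf z.2 * RK_P q W z.1 * L z.swap)) Sq2 := (hBPi.const_mul 4).add (sB'.const_mul 4)
  have main : 8 * π * Gq q W p = (∫ z in Sq2, (4 * A1 z + (4 * (Pf z.1 * RK_P q W z.2 * L z) +
      4 * (Pf z.2 * RK_P q W z.1 * L z.swap)))) -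
      ∫ z in Sq2, (8 * J z + 8 * (Pf z.1 * RK_R q W z.2 * L z)) := by
    rw [integral_add (hA1.const_mul 4) hBB,
      integral_add (hBPi.const_mul 4) (sB'.const_mul 4), integral_add (hJ.const_mul 8)
      (hBRi.const_mul 8), integral_const_mul, integral_const_mul, integral_const_mul,
      integral_const_mul, integral_const_mul]
    have eB' : ∫ z in Sq2, Pf z.2 * RK_P q W z.1 * L z.swap =
      ∫ z in Sq2, Pf z.1 * RK_P q W z.2 * L z := eB
    rw [eB', hG, gI, iT, iL]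
    field_simp
    ring
  -- one variable functions
  obtain ⟨C, hC0, hC⟩ := RK_ctb h
  obtain ⟨u, hud⟩ : ∃ u : ℝ → ℝ, u = fun x => bR W x * (2 * vq q x) * hh q (ct x) := ⟨_, rfl⟩
  obtain ⟨w, hwd⟩ : ∃ w : ℝ → ℝ, w = fun x => bR W x * (2 * vq q x) * gg q (ct x) q := ⟨_, rfl⟩
  have mW := hWc.measurable
  have mct := SC_ct_meas
  have mu : Measurable u := by
    rw [hud]; unfold bR vq hh; fun_prop
  have mw : Measurable w := by
    rw [hwd]; unfold bR vq gg; fun_prop
  have bRb : ∀ x, |bR W x| ≤ B := by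
    intro x
    refine le_trans ?_ (hB x)
    unfold bR
    rcases le_total (W x) 0 with h1 | h1
    · rw [max_eq_left (by linarith), abs_neg]
    · rw [max_eq_right (by linarith)]; simp
  have vz : ∀ x, ¬ q < ct x → vq q x = 0 := fun x hx => by
    unfold vq; exact max_eq_right (by linarith)
  have vn : ∀ x, q < ct x → vq q x = ct x - q := fun x hx => by
    unfold vq; exact max_eq_left (by linarith)
  have bz : ∀ x, W x = 0 → bR W x = 0 := fun x hx => by
    unfold bR; simp [hx]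
  have hu : IntegrableOn u (Ioo (0:ℝ) (2 * π)) := by
    refine RK_int1 (C := B * (2 * (1 + 2 * C))) mu fun x hx => ?_
    have hCC : 0 ≤ B * (2 * (1 + 2 * C)) := by positivity
    rw [hud]
    show |bR W x * (2 * vq q x) * hh q (ct x)| ≤ _
    by_cases hW : W x = 0
    · rw [bz x hW]; simpa using hCC
    by_cases hc : q < ct x
    · rw [vn x hc, show bR W x * (2 * (ct x - q)) * hh q (ct x) =
        bR W x * (2 * ((ct x - q) * hh q (ct x))) by ring, abs_mul]
      have h1 := RK_hb hq hc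
      have h2 := (le_abs_self _).trans (hC x hx hW)
      refine mul_le_mul (bRb x) ?_ (abs_nonneg _) hB0
      rw [abs_mul, abs_two]
      linarith
    · rw [vz x hc]; simpa using hCC
  have hw : IntegrableOn w (Ioo (0:ℝ) (2 * π)) := by
    refine RK_int1 (C := B * (2 * ((1 + C ^ 2) * q))) mw fun x hx => ?_
    have hCC : 0 ≤ B * (2 * ((1 + C ^ 2) * q)) := by positivity
    rw [hwd]
    show |bR W x * (2 * vq q x) * gg q (ct x) q| ≤ _
    by_cases hW : W x = 0
    · rw [bz x hW]; simpa using hCC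
    by_cases hc : q < ct x
    · rw [vn x hc, show bR W x * (2 * (ct x - q)) * gg q (ct x) q =
        bR W x * (2 * ((ct x - q) * gg q (ct x) q)) by ring, abs_mul]
      have h1 := RK_same hq hc
      have h2 := (le_abs_self _).trans (hC x hx hW)
      refine mul_le_mul (bRb x) ?_ (abs_nonneg _) hB0
      rw [abs_mul, abs_two]
      have h3 : (1 + ct x ^ 2) * q ≤ (1 + C ^ 2) * q := by
        have h0 : 0 ≤ ct x := by linarith
        gcongr
      linarith
    · rw [vz x hc]; simpa using hCC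
  have hPi : IntegrableOn (RK_P q W) (Ioo (0:ℝ) (2 * π)) :=
    RK_int1 mP fun x _ => (RK_Pb q W x).trans (hB x)
  have hRi : IntegrableOn (RK_R q W) (Ioo (0:ℝ) (2 * π)) :=
    RK_int1 mR fun x _ => (RK_Rb q W x).trans (hB x)
  -- pointwise identities
  have hae : ∀ᵐ z : ℝ × ℝ ∂(volume.restrict Sq2), z ∈ Sq2 ∧ z.1 ≠ z.2 := by
    filter_upwards [ae_restrict_mem hms, ae_restrict_of_ae NG_diag_ae] with z h1 h2
    exact ⟨h1, h2⟩
  have N1 : ∀ z ∈ Sq2, z.1 ≠ z.2 → 4 * A1 z + (4 * (Pf z.1 * RK_P q W z.2 * L z) +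
      4 * (Pf z.2 * RK_P q W z.1 * L z.swap)) =
      -(RK_P q W z.1 * RK_P q W z.2 * kQ q (ct z.1 - q) (ct z.2 - q)) +
      1 / 2 * ((w z.1 + u z.1) * RK_P q W z.2 + (w z.2 + u z.2) * RK_P q W z.1) := by
    intro z hz hne
    have hz1 : z.1 ∈ Ioo (0:ℝ) (2 * π) := hz.1
    have hz2 : z.2 ∈ Ioo (0:ℝ) (2 * π) := hz.2
    rw [hA1d, hwd, hud, hLd]
    show 4 * ((F z.1 * RK_P q W z.2 - F z.2 * RK_P q W z.1) * ct (z.1 - z.2)) +
      (4 * (Pf z.1 * RK_P q W z.2 * (Real.log (Real.sin ((z.1 - z.2) / 2)) -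
        Real.log (Real.sin (z.2 / 2)))) +
      4 * (Pf z.2 * RK_P q W z.1 * (Real.log (Real.sin ((z.2 - z.1) / 2)) -
        Real.log (Real.sin (z.1 / 2))))) = _
    rw [hFx _ hz1, hFx _ hz2, hPx _ hz1, hPx _ hz2]
    beta_reduce
    by_cases c1 : q < ct z.1
    · by_cases c2 : q < ct z.2
      · have p1 := RK_lt_pi hq hz1 c1
        have p2 := RK_lt_pi hq hz2 c2
        have E1 := RK_E1 hq hz1.1 hz2.1 p1 hz2.2 hne c1
        have E1' := RK_E1 hq hz2.1 hz1.1 p2 hz1.2 hne.symm c2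
        have E2 := RK_E2 hq c1 c2 (SEv_ct_ne hz1.1 hz2.1 hz1.2 hz2.2 hne)
        have e1 : ct (z.2 - z.1) = -ct (z.1 - z.2) := by
          rw [← SC_ct_neg]; congr 1; ring
        rw [e1] at E1'
        rw [vn _ c1] at E1 ⊢
        rw [vn _ c2] at E1' ⊢
        unfold RK_P
        rw [if_pos c1, if_pos c2]
        linear_combination (1 / 2 * bR W z.1 * bR W z.2) * (E1 + E1' + E2)
      · have hP0 : Pq q z.2 = 0 := by
          unfold Pq; rw [max_eq_right (by linarith)]; simp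
        have hd0 : dPq q z.2 = 0 := by
          unfold dPq; rw [max_eq_right (by linarith)]; simp
        rw [hP0, hd0, vz _ c2]
        unfold RK_P
        rw [if_neg c2]
        ring
    · have hP0 : Pq q z.1 = 0 := by
        unfold Pq; rw [max_eq_right (by linarith)]; simp
      have hd0 : dPq q z.1 = 0 := by
        unfold dPq; rw [max_eq_right (by linarith)]; simp
      rw [hP0, hd0, vz _ c1]
      unfold RK_P
      rw [if_neg c1]
      ring
  obtain ⟨S2, hS2d⟩ : ∃ S2 : ℝ × ℝ → ℝ, S2 = fun z =>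
      bR W z.1 * (2 * vq q z.1) * gg q (ct z.1) (ct z.2) * RK_R q W z.2 := ⟨_, rfl⟩
  have N2 : ∀ z ∈ Sq2, z.1 ≠ z.2 → 8 * J z + 8 * (Pf z.1 * RK_R q W z.2 * L z) =
      S2 z + u z.1 * RK_R q W z.2 := by
    intro z hz hne
    have hz1 : z.1 ∈ Ioo (0:ℝ) (2 * π) := hz.1
    have hz2 : z.2 ∈ Ioo (0:ℝ) (2 * π) := hz.2
    rw [hJd, hud, hLd, hS2d]
    show 8 * (F z.1 * RK_R q W z.2 * ct (z.1 - z.2)) +
      8 * (Pf z.1 * RK_R q W z.2 * (Real.log (Real.sin ((z.1 - z.2) / 2)) -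
        Real.log (Real.sin (z.2 / 2)))) =
      bR W z.1 * (2 * vq q z.1) * gg q (ct z.1) (ct z.2) * RK_R q W z.2 +
      bR W z.1 * (2 * vq q z.1) * hh q (ct z.1) * RK_R q W z.2
    rw [hFx _ hz1, hPx _ hz1]
    by_cases c1 : q < ct z.1
    · have p1 := RK_lt_pi hq hz1 c1
      have E1 := RK_E1 hq hz1.1 hz2.1 p1 hz2.2 hne c1
      linear_combination (bR W z.1 * RK_R q W z.2) * E1
    · have hP0 : Pq q z.1 = 0 := by
        unfold Pq; rw [max_eq_right (by linarith)]; simp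
      have hd0 : dPq q z.1 = 0 := by
        unfold dPq; rw [max_eq_right (by linarith)]; simp
      rw [hP0, hd0, vz _ c1]
      ring
  -- integrals
  have i1 := RK_prod (hw.add hu) hPi
  have i2 := RK_prod hu hRi
  have i3 := RK_prod hw hPi
  obtain ⟨s1, e1⟩ := RK_swap i1.1
  have s1' : IntegrableOn (fun z : ℝ × ℝ => (w z.2 + u z.2) * RK_P q W z.1) Sq2 := s1
  have i1' : IntegrableOn (fun z : ℝ × ℝ => (w z.1 + u z.1) * RK_P q W z.2) Sq2 := i1.1
  have hsym : IntegrableOn (fun z : ℝ × ℝ => 1 / 2 * ((w z.1 + u z.1) * RK_P q W z.2 +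
      (w z.2 + u z.2) * RK_P q W z.1)) Sq2 := (i1'.add s1').const_mul _
  have hLHS : IntegrableOn (fun z : ℝ × ℝ => 4 * A1 z + (4 * (Pf z.1 * RK_P q W z.2 * L z) +
      4 * (Pf z.2 * RK_P q W z.1 * L z.swap))) Sq2 := (hA1.const_mul 4).add hBB
  have hkp : IntegrableOn (fun z : ℝ × ℝ =>
      RK_P q W z.1 * RK_P q W z.2 * kQ q (ct z.1 - q) (ct z.2 - q)) Sq2 := by
    refine (hsym.sub hLHS).congr ?_
    filter_upwards [hae] with z hz
    have := N1 z hz.1 hz.2
    simp only [Pi.sub_apply]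
    linarith
  have hRHS : IntegrableOn (fun z : ℝ × ℝ => 8 * J z + 8 * (Pf z.1 * RK_R q W z.2 * L z)) Sq2 :=
    (hJ.const_mul 8).add (hBRi.const_mul 8)
  have hS2 : IntegrableOn S2 Sq2 := by
    refine (hRHS.sub i2.1).congr ?_
    filter_upwards [hae] with z hz
    have := N2 z hz.1 hz.2
    simp only [Pi.sub_apply]
    linarith
  have eH : (fun z : ℝ × ℝ => bR W z.1 * (2 * vq q z.1) * RK_s q W (ct z.1) z.2) =
      fun z => w z.1 * RK_P q W z.2 - S2 z := by
    funext z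
    rw [hwd, hS2d]
    unfold RK_s
    ring
  refine ⟨by rw [eH]; exact i3.1.sub hS2, hkp, ?_⟩
  have f1 : ∫ z in Sq2, (4 * A1 z + (4 * (Pf z.1 * RK_P q W z.2 * L z) +
      4 * (Pf z.2 * RK_P q W z.1 * L z.swap))) =
      -(∫ z in Sq2, RK_P q W z.1 * RK_P q W z.2 * kQ q (ct z.1 - q) (ct z.2 - q)) +
      (∫ x in Ioo (0:ℝ) (2 * π), (w x + u x)) * ∫ x in Ioo (0:ℝ) (2 * π), RK_P q W x := by
    have g1 : ∫ z in Sq2, (4 * A1 z + (4 * (Pf z.1 * RK_P q W z.2 * L z) +
      4 * (Pf z.2 * RK_P q W z.1 * L z.swap))) =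
      ∫ z in Sq2, (-(RK_P q W z.1 * RK_P q W z.2 * kQ q (ct z.1 - q) (ct z.2 - q)) +
      1 / 2 * ((w z.1 + u z.1) * RK_P q W z.2 + (w z.2 + u z.2) * RK_P q W z.1)) := by
      refine integral_congr_ae ?_
      filter_upwards [hae] with z hz
      exact N1 z hz.1 hz.2
    have g2 : ∫ z in Sq2, (w z.2 + u z.2) * RK_P q W z.1 =
      ∫ z in Sq2, (w z.1 + u z.1) * RK_P q W z.2 := e1
    have g3 : ∫ z in Sq2, (w z.1 + u z.1) * RK_P q W z.2 =
      (∫ x in Ioo (0:ℝ) (2 * π), (w x + u x)) * ∫ x in Ioo (0:ℝ) (2 * π), RK_P q W x := i1.2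
    have hkn : IntegrableOn (fun z : ℝ × ℝ =>
        -(RK_P q W z.1 * RK_P q W z.2 * kQ q (ct z.1 - q) (ct z.2 - q))) Sq2 := hkp.neg
    rw [g1, integral_add hkn hsym, integral_neg, integral_const_mul,
      integral_add i1' s1', g2, g3]
    ring
  have f2 : ∫ z in Sq2, (8 * J z + 8 * (Pf z.1 * RK_R q W z.2 * L z)) =
      (∫ z in Sq2, S2 z) + (∫ x in Ioo (0:ℝ) (2 * π), u x) *
        ∫ x in Ioo (0:ℝ) (2 * π), RK_R q W x := by
    rw [← i2.2, ← integral_add hS2 i2.1]
    refine integral_congr_ae ?_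
    filter_upwards [hae] with z hz
    exact N2 z hz.1 hz.2
  have f3 : ∫ z in Sq2, bR W z.1 * (2 * vq q z.1) * RK_s q W (ct z.1) z.2 =
      (∫ x in Ioo (0:ℝ) (2 * π), w x) * (∫ x in Ioo (0:ℝ) (2 * π), RK_P q W x) -
      ∫ z in Sq2, S2 z := by
    rw [eH, integral_sub i3.1 hS2, i3.2]
  have f4 : ∫ x in Ioo (0:ℝ) (2 * π), (w x + u x) =
      (∫ x in Ioo (0:ℝ) (2 * π), w x) + ∫ x in Ioo (0:ℝ) (2 * π), u x := integral_add hw hu
  have f5 : ∫ x in (0:ℝ)..(2 * π), W x = (∫ x in Ioo (0:ℝ) (2 * π), RK_R q W x) -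
      ∫ x in Ioo (0:ℝ) (2 * π), RK_P q W x := by
    rw [intervalIntegral.integral_of_le Real.two_pi_pos.le, integral_Ioc_eq_integral_Ioo,
      ← integral_sub hRi hPi]
    refine setIntegral_congr_fun measurableSet_Ioo fun x _ => ?_
    unfold RK_R
    ring
  have f6 : ∫ x in Ioo (0:ℝ) (2 * π), bR W x * (2 * vq q x) * hh q (ct x) =
      ∫ x in Ioo (0:ℝ) (2 * π), u x := by rw [hud]
  rw [main, f1, f2, f3, f4, f5, f6]
  ring

theorem G_kernel {W : ℝ → ℝ} {p q : ℝ} (h : Van W p) (hq : 0 ≤ q) :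
    IntegrableOn (fun z : ℝ × ℝ => bR W z.1 * (2 * vq q z.1) * src q W (ct z.1) z.2) Sq1 ∧
    8 * π * Gq q W p = -form (hat q (bR W)) (hat q (bR W)) (kQ q)
      + (∫ z in Sq1, bR W z.1 * (2 * vq q z.1) * src q W (ct z.1) z.2)
      - (∫ x in (0:ℝ)..(2 * π), W x) * ∫ x in (0:ℝ)..π, bR W x * (2 * vq q x) * hh q (ct x) := by
  obtain ⟨i1, i2, e⟩ := RK_unf h hq
  have hpi := Real.pi_pos
  have hms : MeasurableSet Sq1 := measurableSet_Ioo.prod measurableSet_Ioo
  have vz : ∀ x ∈ Ioo (0:ℝ) π, vq q (2 * π - x) = 0 := by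
    intro x hx
    unfold vq
    rw [JKer_ct_sub]
    have := ct_pos hx.1 hx.2
    exact max_eq_right (by linarith)
  have Pz : ∀ x ∈ Ioo (0:ℝ) π, RK_P q W (2 * π - x) = 0 := by
    intro x hx
    unfold RK_P
    rw [JKer_ct_sub]
    have := ct_pos hx.1 hx.2
    rw [if_neg (by linarith)]
  obtain ⟨j1, e1⟩ := fold_integral (h := fun x y => bR W x * (2 * vq q x) * RK_s q W (ct x) y) i1
  obtain ⟨j2, e2⟩ := fold_integral
    (h := fun x y => RK_P q W x * RK_P q W y * kQ q (ct x - q) (ct y - q)) i2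
  have p1 : ∀ z ∈ Sq1, fold4 (fun x y => bR W x * (2 * vq q x) * RK_s q W (ct x) y) z.1 z.2 =
      bR W z.1 * (2 * vq q z.1) * src q W (ct z.1) z.2 := by
    intro z hz
    have hz1 : z.1 ∈ Ioo (0:ℝ) π := hz.1
    have hz2 : z.2 ∈ Ioo (0:ℝ) π := hz.2
    unfold fold4
    beta_reduce
    rw [vz _ hz1]
    have hWr : W (2 * π - z.2) = W (-z.2) := by
      rw [← h.per (-z.2)]; congr 1; ring
    have hs : RK_s q W (ct z.1) z.2 + RK_s q W (ct z.1) (2 * π - z.2) =
        src q W (ct z.1) z.2 := by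
      unfold RK_s src RK_R
      rw [Pz _ hz2, hWr, JKer_ct_sub]
      unfold RK_P
      split_ifs with hc
      · rw [min_eq_right hc.le]
        have hb : W z.2 + bR W z.2 = bF W z.2 := by
          have := eq_parts W z.2; linarith
        rw [hb]
        ring
      · rw [min_eq_left (by linarith)]
        have hb := eq_parts W z.2
        have : W z.2 * gg q (ct z.1) (ct z.2) =
            (bF W z.2 - bR W z.2) * gg q (ct z.1) (ct z.2) := by rw [← hb]
        linarith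
    rw [← hs]
    ring
  have p2 : ∀ z ∈ Sq1, fold4 (fun x y => RK_P q W x * RK_P q W y * kQ q (ct x - q) (ct y - q))
      z.1 z.2 = if q < ct z.1 ∧ q < ct z.2 then
        bR W z.1 * bR W z.2 * kQ q (ct z.1 - q) (ct z.2 - q) else 0 := by
    intro z hz
    have hz1 : z.1 ∈ Ioo (0:ℝ) π := hz.1
    have hz2 : z.2 ∈ Ioo (0:ℝ) π := hz.2
    unfold fold4
    beta_reduce
    rw [Pz _ hz1, Pz _ hz2]
    unfold RK_P
    by_cases c1 : q < ct z.1
    · by_cases c2 : q < ct z.2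
      · rw [if_pos c1, if_pos c2, if_pos ⟨c1, c2⟩]; ring
      · rw [if_neg c2, if_neg (fun hc : q < ct z.1 ∧ q < ct z.2 => c2 hc.2)]; ring
    · rw [if_neg c1, if_neg (fun hc : q < ct z.1 ∧ q < ct z.2 => c1 hc.1)]; ring
  have hb : Bd (bR W) := h.bd_bR
  refine ⟨j1.congr_fun p1 hms, ?_⟩
  have e2' : ∫ z in Sq2, RK_P q W z.1 * RK_P q W z.2 * kQ q (ct z.1 - q) (ct z.2 - q) =
      form (hat q (bR W)) (hat q (bR W)) (kQ q) := by
    rw [← (int_hat2 hq hq hb hb (kQ q)).2, ← setIntegral_congr_fun hms p2]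
    exact e2
  have e1' : ∫ z in Sq2, bR W z.1 * (2 * vq q z.1) * RK_s q W (ct z.1) z.2 =
      ∫ z in Sq1, bR W z.1 * (2 * vq q z.1) * src q W (ct z.1) z.2 := by
    rw [← setIntegral_congr_fun hms p1]
    exact e1
  have e3 : ∫ x in Ioo (0:ℝ) (2 * π), bR W x * (2 * vq q x) * hh q (ct x) =
      ∫ x in (0:ℝ)..π, bR W x * (2 * vq q x) * hh q (ct x) := by
    rw [intervalIntegral.integral_of_le hpi.le, integral_Ioc_eq_integral_Ioo]
    refine setIntegral_eq_of_subset_of_forall_sdiff_eq_zero measurableSet_Ioo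
      (Ioo_subset_Ioo_right (by linarith)) ?_
    intro x hx
    have hx1 : x ∈ Ioo (0:ℝ) (2 * π) := hx.1
    have hx2 : π ≤ x := by
      by_contra hc
      exact hx.2 ⟨hx1.1, not_le.1 hc⟩
    have : vq q x = 0 := by
      unfold vq
      have h2 : ct x ≤ q := by
        by_contra hc
        have := RK_lt_pi hq hx1 (not_le.1 hc)
        linarith
      exact max_eq_right (by linarith)
    rw [this]
    ring
  rw [e, e1', e2', e3]

end Pool.Agent.H53.DA
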