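import Pool.Agent.H53.DA.Bud
import Pool.Agent.H53.DA.UUe
import Pool.Agent.H53.DA.EAle
import Pool.Agent.H53.DA.PtA
import Pool.Agent.H53.DA.LongA
/-! pointwise lower bound for ShortA (helper53) -/
set_option autoImplicit false
open Real Set MeasureTheory Filter Topology

namespace Pool.Agent.H53.DA
open Pool.Agent.H45.FL Pool.Agent.H51.DG Pool.Agent.H45.DY Pool.Agent.H90.DC Pool.Agent.H90.DA

theorem ShortA_pt {k l α1 α2 α3 α4 α6 α7 : ℝ} (hk : 32 ≤ k) (hl0 : 0 < l) (hl : l < π)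
    (h0 : 0 ≤ α1 ∧ 0 ≤ α2 ∧ 0 ≤ α3 ∧ 0 ≤ α4 ∧ 0 ≤ α6 ∧ 0 ≤ α7)
    (h1 : ∀ y y' : ℝ, qk k l < y → qk k l < y' →
      -(α1 * (y' - qk k l)) - α2 ≤ gg (qk k l) y (qk k l) - kap k l * Real.log (1 + y' / ct l))
    (h2 : ∀ y y' : ℝ, qk k l < y → 0 < y' → y' ≤ qk k l →
      -α2 ≤ gg (qk k l) y y' - kap k l * Real.log (1 + y' / ct l))
    (h3 : ∀ y t : ℝ, qk k l < y → 0 < t → t < ct l →
      -(α3 * (y - qk k l)) - α4 ≤
        (y - qk k l) * (gg (qk k l) y (-t) - kap k l * Real.log (1 - t / ct l)))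
    (h6 : ∀ y z : ℝ, 0 < y → y < 60 * qk k l → ct l < z → 17 / 2 * chp y z ^ 3 ≤
      α6 + α7 * (ct l * max ((y * ct l - 1) / (y + ct l)) 0 ^ 2))
    {f : ℝ → ℝ} (h : TwoA f l) {x η : ℝ} (hx : x ∈ Ioo (0:ℝ) π) (hη : η ∈ Ioo (0:ℝ) π) :
    -(2 * α1 * ((bF f x * vq (qk k l) x) * (bF f η * vq (qk k l) η)))
      - 2 * α2 * ((bF f x * vq (qk k l) x) * bF f η)
      - 2 * α3 * ((bF f x * vq (qk k l) x) * aL f η)
      - 2 * α4 * (bF f x * aL f η)
      - 2 * (if qk k l < ct x ∧ 0 < ct η then bF f x * bC f η * r3k (ct x - qk k l) (ct η - 0)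
          else 0)
      - α6 * (bF f x * bC f η)
      - α7 * (bF f x * bC f η * (ct l * max ((ct x * ct l - 1) / (ct x + ct l)) 0 ^ 2))
    ≤ bR (fun x => -f x) x * (2 * vq (qk k l) x) * src (qk k l) (fun x => -f x) (ct x) η
      + bR (fun x => f (-x)) η * (2 * vq 0 η) * src 0 (fun x => f (-x)) (ct η) x
      - 17 / 2 * (bF f x * bC f η * chp (ct x) (ct η) ^ 3)
      - 2 * kap k l * ((bF f x * vq (qk k l) x) * (bF f η * Real.log (1 + ct η / ct l)))
      - 2 * kap k l * ((bF f x * vq (qk k l) x) * (aL f η * Real.log (1 - ct η / ct l))) := by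
  have hπ := Real.pi_pos
  obtain ⟨c1, c2, c3, c4, c6, c7⟩ := h0
  obtain ⟨q, hqd⟩ : ∃ q, q = qk k l := ⟨_, rfl⟩
  obtain ⟨y, hyd⟩ : ∃ y, y = ct x := ⟨_, rfl⟩
  obtain ⟨z, hzd⟩ : ∃ z, z = ct η := ⟨_, rfl⟩
  obtain ⟨ℓ, hℓd⟩ : ∃ ℓ, ℓ = ct l := ⟨_, rfl⟩
  have hq : 0 ≤ q := by rw [hqd]; exact (par_rel (by linarith : (0:ℝ) ≤ k) hl0 hl).2.2.2.2.1
  have hy : 0 < y := by rw [hyd]; exact ct_pos hx.1 hx.2
  have hz : 0 < z := by rw [hzd]; exact ct_pos hη.1 hη.2
  have fη : 0 ≤ f η := h.pos η ⟨hη.1.le, by linarith [hη.2]⟩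
  have fx : 0 ≤ f x := h.pos x ⟨hx.1.le, by linarith [hx.2]⟩
  have ha : bF f x = f x := max_eq_left fx
  have ha' : bF f η = f η := max_eq_left fη
  have hL0 : 0 ≤ aL f η := le_max_right _ _
  have hL0' : 0 ≤ aL f x := le_max_right _ _
  have hb0 : 0 ≤ bC f η := le_max_right _ _
  have hLz : l ≤ η ∨ aL f η = 0 := by
    rcases le_or_gt l η with h1 | h1
    · exact Or.inl h1
    · right
      have := h.neg (-η) ⟨by linarith, by linarith [hη.1]⟩
      exact max_eq_right this
  have hLx : l ≤ x ∨ aL f x = 0 := by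
    rcases le_or_gt l x with h1 | h1
    · exact Or.inl h1
    · right
      have := h.neg (-x) ⟨by linarith, by linarith [hx.1]⟩
      exact max_eq_right this
  have hbz : η < l ∨ bC f η = 0 := by
    rcases lt_or_ge η l with h1 | h1
    · exact Or.inl h1
    · right
      have h4 : 0 ≤ f (-η) := by
        have h3 := h.pos (2 * π - η) ⟨by linarith [hη.2], by linarith⟩
        have h5 := h.per (-η)
        rw [show -η + 2 * π = 2 * π - η by ring] at h5
        linarith
      exact max_eq_right (by linarith)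
  have hfn : f (-η) = aL f η - bC f η := by
    show f (-η) = max (f (-η)) 0 - max (-f (-η)) 0
    rcases le_total (f (-η)) 0 with h1 | h1
    · rw [max_eq_right h1, max_eq_left (by linarith)]; ring
    · rw [max_eq_left h1, max_eq_right (by linarith)]; ring
  obtain ⟨v, hvd⟩ : ∃ v, v = vq q x := ⟨_, rfl⟩
  obtain ⟨v', hvd'⟩ : ∃ v', v' = vq q η := ⟨_, rfl⟩
  have hv : v = max (y - q) 0 := by rw [hvd, hyd]; rfl
  have hv' : v' = max (z - q) 0 := by rw [hvd', hzd]; rfl
  have v2 : vq 0 η = z := by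
    unfold vq
    rw [sub_zero, ← hzd]
    exact max_eq_left hz.le
  have e1 : bR (fun x => -f x) x = bF f x := by
    show max (- -f x) 0 = max (f x) 0
    rw [neg_neg]
  have e1' : bR (fun x => -f x) η = bF f η := by
    show max (- -f η) 0 = max (f η) 0
    rw [neg_neg]
  have e2 : bR (fun x => f (-x)) η = bC f η := rfl
  have s1 : src q (fun x => -f x) y η =
      bF f η * gg q y (min z q) + (aL f η - bC f η) * gg q y (-z) := by
    unfold src
    rw [e1', ← hzd]
    have : bF (fun x => -f x) η = 0 := max_eq_right (by linarith)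
    rw [this]
    show _ - 0 * _ - -f (-η) * _ = _
    rw [hfn]
    ring
  have s2 : src 0 (fun x => f (-x)) z x = -(aL f x * gg 0 z y) - bF f x * gg 0 z (-y) := by
    unfold src
    rw [← hyd, min_eq_right hy.le, gg_zero]
    show _ - max (f (-x)) 0 * _ - f (- -x) * _ = -(max (f (-x)) 0 * _) - _
    rw [neg_neg, ha]
    ring
  have k1 := gg_gk hy hz
  rw [← hqd] at h1 h2 h3 h6
  rw [← hℓd] at h1 h2 h3 h6
  rw [e1, e2, ← hqd, ← hyd, ← hzd, ← hℓd, v2, s1, s2, ← hvd, ← hvd']
  have hv0 : 0 ≤ v := by rw [hv]; exact le_max_right _ _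
  have ha0 : 0 ≤ bF f x := le_max_right _ _
  have ha0' : 0 ≤ bF f η := le_max_right _ _
  obtain ⟨a, had⟩ : ∃ a, a = bF f x := ⟨_, rfl⟩
  obtain ⟨a', had'⟩ : ∃ a', a' = bF f η := ⟨_, rfl⟩
  obtain ⟨L, hLd⟩ : ∃ L, L = aL f η := ⟨_, rfl⟩
  obtain ⟨L', hLd'⟩ : ∃ L', L' = aL f x := ⟨_, rfl⟩
  obtain ⟨b, hbd⟩ : ∃ b, b = bC f η := ⟨_, rfl⟩
  rw [← had] at ha0 ⊢
  rw [← had'] at ha0' ⊢
  rw [← hLd] at hL0 hLz ⊢
  rw [← hLd'] at hL0' hLx ⊢
  rw [← hbd] at hb0 hbz ⊢
  -- (A)
  have A : -(2 * α1 * ((a * v) * (a' * v'))) - 2 * α2 * ((a * v) * a') ≤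
      a * (2 * v) * (a' * gg q y (min z q)) -
      2 * kap k l * ((a * v) * (a' * Real.log (1 + z / ℓ))) := by
    rcases le_or_gt y q with hyq | hyq
    · have : v = 0 := by rw [hv]; exact max_eq_right (by linarith)
      rw [this]; simp
    · have hva : 0 ≤ 2 * (a * v) * a' := by positivity
      rcases le_or_gt z q with hzq | hzq
      · have hv0' : v' = 0 := by rw [hv']; exact max_eq_right (by linarith)
        rw [hv0', min_eq_left hzq]
        have := mul_le_mul_of_nonneg_left (h2 y z hyq hz hzq) hva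
        nlinarith
      · have hv0' : v' = z - q := by rw [hv']; exact max_eq_left (by linarith)
        rw [hv0', min_eq_right hzq.le]
        have := mul_le_mul_of_nonneg_left (h1 y z hyq hzq) hva
        nlinarith
  -- (B)
  have B : -(2 * α3 * ((a * v) * L)) - 2 * α4 * (a * L) ≤
      a * (2 * v) * (L * gg q y (-z)) -
      2 * kap k l * ((a * v) * (L * Real.log (1 - z / ℓ))) := by
    rcases hLz with hlη | hL1
    · rcases le_or_gt y q with hyq | hyq
      · have : v = 0 := by rw [hv]; exact max_eq_right (by linarith)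
        rw [this]
        have : 0 ≤ 2 * α4 * (a * L) := by positivity
        simp only [mul_zero, zero_mul, sub_zero]
        linarith
      · rcases eq_or_lt_of_le hlη with hel | hll
        · -- `η = l`: `f (-l) = 0`
          have hfl : f (-l) ≤ 0 := h.neg (-l) ⟨le_rfl, by linarith⟩
          have : L = 0 := by
            rw [hLd, ← hel]
            exact max_eq_right hfl
          rw [this]; simp
        · have hzl : z < ℓ := by rw [hzd, hℓd]; exact ct_lt hl0 hll (by linarith [hη.2])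
          have hve : v = y - q := by rw [hv]; exact max_eq_left (by linarith)
          have := mul_le_mul_of_nonneg_left (h3 y z hyq hz hzl) (by positivity : 0 ≤ 2 * (a * L))
          rw [hve]
          nlinarith
    · rw [hL1]; simp
  -- (C)
  have C : -(2 * (if q < y ∧ 0 < z then a * b * r3k (y - q) (z - 0) else 0)) - α6 * (a * b) -
      α7 * (a * b * (ℓ * max ((y * ℓ - 1) / (y + ℓ)) 0 ^ 2)) ≤
      -(a * (2 * v) * (b * gg q y (-z))) + b * (2 * z) * (-(a * gg 0 z (-y))) -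
      17 / 2 * (a * b * chp y z ^ 3) := by
    rcases hbz with hηl | hb1
    · have hzl : ℓ < z := by rw [hzd, hℓd]; exact ct_lt hη.1 hηl (by linarith)
      have hab : 0 ≤ a * b := mul_nonneg ha0 hb0
      have g1 := mul_le_mul_of_nonneg_left (cross_ge hq hy hz) hab
      rw [← hv, ← k1] at g1
      have hℓ0 : 0 < ℓ := by rw [hℓd]; exact ct_pos hl0 hl
      have hp0 : 0 ≤ ℓ * max ((y * ℓ - 1) / (y + ℓ)) 0 ^ 2 := by positivity
      have g2 : (if y < 60 * q then 17 / 2 * chp y z ^ 3 else 0) ≤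
          α6 + α7 * (ℓ * max ((y * ℓ - 1) / (y + ℓ)) 0 ^ 2) := by
        split_ifs with hc
        · exact h6 y z hy hc hzl
        · have := mul_nonneg c7 hp0
          linarith
      have g3 := mul_le_mul_of_nonneg_left g2 hab
      have g4 : a * b * (if q < y then -(2 * r3k (y - q) z) else 0) =
          -(2 * (if q < y ∧ 0 < z then a * b * r3k (y - q) (z - 0) else 0)) := by
        rw [sub_zero]
        by_cases hc : q < y
        · rw [if_pos hc, if_pos ⟨hc, hz⟩]; ring
        · rw [if_neg hc, if_neg (fun hh : q < y ∧ 0 < z => hc hh.1)]; ring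
      rw [mul_sub, g4] at g1
      linarith
    · rw [hb1]; simp
  -- (D)
  have D : 0 ≤ b * (2 * z) * (-(L' * gg 0 z y)) := by
    rcases hbz with hηl | hb1
    · rcases hLx with hlx | hL1
      · have hyz : y < z := by
          rw [hyd, hzd]; exact ct_lt hη.1 (by linarith) (by linarith [hx.2])
        have := gg_in hy hyz
        have h5 : 0 ≤ L' * -gg 0 z y := mul_nonneg hL0' (by linarith)
        have h6 : 0 ≤ b * (2 * z) := by positivity
        have := mul_nonneg h6 h5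
        linarith
      · rw [hL1]; simp
    · rw [hb1]; simp
  have E : a * (2 * v) * (a' * gg q y (min z q) + (L - b) * gg q y (-z)) +
      b * (2 * z) * (-(L' * gg 0 z y) - a * gg 0 z (-y)) -
      17 / 2 * (a * b * chp y z ^ 3) -
      2 * kap k l * ((a * v) * (a' * Real.log (1 + z / ℓ))) -
      2 * kap k l * ((a * v) * (L * Real.log (1 - z / ℓ))) =
      (a * (2 * v) * (a' * gg q y (min z q)) -
      2 * kap k l * ((a * v) * (a' * Real.log (1 + z / ℓ)))) +
      (a * (2 * v) * (L * gg q y (-z)) -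
      2 * kap k l * ((a * v) * (L * Real.log (1 - z / ℓ)))) +
      (-(a * (2 * v) * (b * gg q y (-z))) + b * (2 * z) * (-(a * gg 0 z (-y))) -
      17 / 2 * (a * b * chp y z ^ 3)) + b * (2 * z) * (-(L' * gg 0 z y)) := by ring
  rw [E]
  linarith

end Pool.Agent.H53.DA
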