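import Pool.Agent.H53.DA.Bud
import Pool.Agent.H53.DA.UUe
import Pool.Agent.H53.DA.EAle
import Pool.Agent.H53.DA.PtA
import Pool.Agent.H44.DA.ShX

/-!
# DA static job S11 (ShortA): assembly for `l < π` (note 1995, sec. 1 - 3)

`q = qk k l`, `y = ct z.1`, `a = bF f`, `b = bC f`, `V = vs (hat q a) = ∫_0^π a vq q`, `μ = ∫ f ≥ 0`.
`TA_eq` and `G_kernel` for `W = -f`, `p = 2π - l` (`Gq_neg`; `bR W = a`, `bF W = bR f = 0` on `(0,π)`, `-W(-x') = aL x' - b x'`)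
and for `W = f(-·)`, `p = l`, `q = 0` (`bR W = b`, `bF W = aL f`, `-W(-x') = -a x'` on `(0,π)`); motion:
`8π (1/2) dqk UU f(-l) ∫_0^{2π-l} f (ct - q)₊ = -2 kap V (π UU f (-l))` (`dqk = -kap/2`, `par_rel`; `UU_el`).
Sum of all terms (all integrals over `Sq1` or `(0,π)`):
(1) `-form â â (kQ q) ≥ N3 â + q² Su1 â/4` (`form_k2`, `form_l1k_su`), `-form b b (kQ 0) ≥ N3 b`.
(2) P near/mid: `∫∫ a(x) 2v a(x') [gg q y (min y' q) - kap log(1 + y'/ct l)] ≥ -2 α1 V² - 2 α2 V ms a` (h1, h2).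
(3) P left: `∫∫ a 2v aL(x') [gg q y (-t) - kap log(1 - t/ct l)]`, `t = ct x' < ct l` on the support of `aL`: (h3).
(4) N: `∫∫ a 2v b (-gg q y (-z)) + ∫∫ b a 2 gk y z - 8·(17/16) ∫∫ a b chp³` (`EAk_le`, `gg_gk`): `cross_ge`, (h6), and
`form â b r3k` through `int_hat2` with `r = 0`: `≥ -2 form â (hat 0 b) r3k - α6 ms a ms b - α7 FPt`; then `hδ`.
(5) `+2 kap V ∫ b log(ct/ct l - 1) ≥ -2 α5 V ∫ b(η) (1 + z ct l)/(z - ct l)` (h5), `(1+z ct l)/(z - ct l) = ct (l - η)`, integral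
`= vs (bE f l)` (substitution `x = l - η`).
(6) P left on N: `∫∫ b 2z aL(x') (-gg 0 z (ct x')) ≥ 0` (`gg_in`, `ct x' < ct l < z`).
(7) `μ ∫ a 2v hh q y ≥ -μ V`; `-μ ∫ b 2z hh 0 z ≥ -2 μ Ma`; `-2 kap V μ log cos(l/2) ≥ 0`.
Use `integral_mono` for the total integrand (integrable by `G_kernel`) against the integrable lower bound.
-/

set_option autoImplicit false
open Real Set MeasureTheory Filter Topology

namespace Pool.Agent.H53.DA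
open Pool.Agent.H45.FL Pool.Agent.H51.DG Pool.Agent.H45.DY Pool.Agent.H90.DC Pool.Agent.H90.DA

theorem short_asm {k l α1 α2 α3 α4 α5 α6 α7 : ℝ} (hk : 32 ≤ k) (hl0 : 0 < l) (hl : l < π)
    (h0 : 0 ≤ α1 ∧ 0 ≤ α2 ∧ 0 ≤ α3 ∧ 0 ≤ α4 ∧ 0 ≤ α5 ∧ 0 ≤ α6 ∧ 0 ≤ α7)
    (h1 : ∀ y y' : ℝ, qk k l < y → qk k l < y' →
      -(α1 * (y' - qk k l)) - α2 ≤ gg (qk k l) y (qk k l) - kap k l * Real.log (1 + y' / ct l))
    (h2 : ∀ y y' : ℝ, qk k l < y → 0 < y' → y' ≤ qk k l →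
      -α2 ≤ gg (qk k l) y y' - kap k l * Real.log (1 + y' / ct l))
    (h3 : ∀ y t : ℝ, qk k l < y → 0 < t → t < ct l →
      -(α3 * (y - qk k l)) - α4 ≤
        (y - qk k l) * (gg (qk k l) y (-t) - kap k l * Real.log (1 - t / ct l)))
    (h5 : ∀ z : ℝ, ct l < z → -(α5 * ((1 + z * ct l) / (z - ct l))) ≤
      kap k l * Real.log (z / ct l - 1))
    (h6 : ∀ y z : ℝ, 0 < y → y < 60 * qk k l → ct l < z → 17 / 2 * chp y z ^ 3 ≤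
      α6 + α7 * (ct l * max ((y * ct l - 1) / (y + ct l)) 0 ^ 2))
    {δ : ℝ} (hδ : ∀ p q : ℝ → ℝ, Bd p → Bd q →
      FInt p q r3k ∧ 2 * form p q r3k + δ * (Su p + Su q) ≤ N3 p + N3 q)
    {f : ℝ → ℝ} (h : VanA f l) :
    δ * (Su (hat (qk k l) (bF f)) + Su (bC f)) + qk k l ^ 2 * Su1 (hat (qk k l) (bF f)) / 4
      - 2 * α1 * vs (hat (qk k l) (bF f)) ^ 2 - 2 * α2 * vs (hat (qk k l) (bF f)) * Ma f
      - 2 * α3 * vs (hat (qk k l) (bF f)) * Ma f - 2 * α4 * Ma f ^ 2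
      - 2 * α5 * vs (hat (qk k l) (bF f)) * vs (bE f l)
      - α6 * Ma f * ms (bC f) - α7 * FPt f l
      - (∫ x in (0:ℝ)..(2 * π), f x) * (vs (hat (qk k l) (bF f)) + 2 * Ma f)
      ≤ 8 * π * (TA (qk k l) (dqk k l) f l - 17 / 16 * EAk f l) :=
  short_asm' hk hl0 hl h0 h1 h2 h3 h5 h6 hδ h

end Pool.Agent.H53.DA
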