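import Pool.Agent.H53.DA.K2
import Pool.Agent.H12.DA.Bridge

/-!
# DA static job S8a (ToolA): pointwise and moment bounds from the surplus

`A = Am (3/2) b`, `A r = e^{-3r/2} M r`, `M = MMb b` nondecreasing, `0 ≤ M ≤ ms b`; `A` is `Adm` (`adm_Am`).
(0) There is `τ ∈ [1,2]` with `DD A τ ≤ Su b` (mean value; `DD A` is continuous, `continuous_DD`).
(T1) `A s ≥ e^{-3/2} A r` for `s ∈ [r,r+1]`; `∫_r^{r+1} |A(s+τ) - A s| ds ≤ √(DD A τ)` (Cauchy-Schwarz), also on all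
translates; take `n = ⌈r' - r⌉` (`nτ ≥ r' - r`): `e^{-3/2} A r ≤ ∫_r^{r+1} A ≤ n √(Su b) + ∫_r^{r+1} A(s+nτ) ds` and
`A(s + nτ) ≤ ms b e^{-3(s+nτ)/2} ≤ ms b e^{-3r'/2}`.
(T2) `vs b = ∫_0^π b ct = ∫ M r e^{-r} dr = ∫ A r e^{r/2} dr` (by parts in the variable `r`, `ct (th r) = e^{-r}`; `M = 0` near `-∞`,
or layer cake).  Let `ρ = -log R`.  `∫_{r>ρ} M e^{-r} ≤ ms b · R`.  For `I = ∫_{r<ρ} e^{r/2} A`: shift by `τ`:
`∫_{r<ρ} e^{r/2} A(r+τ) dr = e^{-τ/2} ∫_{r<ρ+τ} e^{r/2} A ≤ e^{-1/2} (I + ∫_ρ^{ρ+2} e^{-r} M) ` and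
`|∫_{r<ρ} e^{r/2} (A(r+τ) - A r)| ≤ √(e^ρ) √(DD A τ)`, so `(1 - e^{-1/2}) I ≤ ms b · R + e^{ρ/2} √(Su b)`, `e^{ρ/2} = 1/√R`.
(T3) for `r ≥ -log ℓ =: ρ`: `M r = ms b`, so `DD A τ ≥ ∫_{r>ρ} (ms b)² e^{-3r} (1 - e^{-3τ/2})² dr ≥ c (ms b)² ℓ³`; then
`vs b` by (T2) with `R = ℓ`.
-/

set_option autoImplicit false
open Real Set MeasureTheory Filter Topology

namespace Pool.Agent.H53.DA
open Pool.Agent.H45.FL Pool.Agent.H51.DG Pool.Agent.H45.DY Pool.Agent.H90.DC Pool.Agent.H90.DA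

theorem exists_tau {A A' : ℝ → ℝ} (hA : Adm A A') : ∃ τ ∈ Icc (1:ℝ) 2,
    DD A τ ≤ ∫ τ in (1:ℝ)..2, DD A τ := by
  have hc := continuous_DD hA
  obtain ⟨τ, hτ, hmin⟩ := isCompact_Icc.exists_isMinOn (nonempty_Icc.2 (by norm_num : (1:ℝ) ≤ 2))
    hc.continuousOn
  refine ⟨τ, hτ, ?_⟩
  have h1 : ∫ _ in (1:ℝ)..2, DD A τ ≤ ∫ σ in (1:ℝ)..2, DD A σ :=
    intervalIntegral.integral_mono_on (by norm_num) (by simp) (hc.intervalIntegrable _ _)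
      fun σ hσ => hmin hσ
  rw [intervalIntegral.integral_const] at h1
  norm_num at h1
  exact h1

/-- layer cake in the logarithmic variable -/
theorem vs_eq {b : ℝ → ℝ} (hb : Bd b) : Integrable (fun r => Real.exp (-r) * MMb b r) ∧
    vs b = ∫ r, Real.exp (-r) * MMb b r :=
  ⟨Pool.Agent.H12.DA.Vb_int hb, Pool.Agent.H12.DA.Vb_eq hb⟩

theorem ToolA_Su {b : ℝ → ℝ} (hb : Bd b) : 0 ≤ Su b ∧
    √(Pool.Agent.H44.DA.Sur (3 / 2) b) ≤ 256 * √(Su b) := by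
  have h0 : 0 ≤ Su b := intervalIntegral.integral_nonneg (by norm_num) fun x _ => DD_nonneg _ x
  have h1 := Pool.Agent.H12.DA.Sur_le hb (m := 3 / 2) (by norm_num)
  refine ⟨h0, ?_⟩
  have h2 : √(65536 * Su b) = 256 * √(Su b) := by
    rw [Real.sqrt_mul (by norm_num), show (65536:ℝ) = 256 ^ 2 by norm_num,
      Real.sqrt_sq (by norm_num)]
  rw [← h2]
  exact Real.sqrt_le_sqrt h1

theorem T1 : ∃ C : ℝ, 0 ≤ C ∧ ∀ b : ℝ → ℝ, Bd b → ∀ r r' : ℝ, r ≤ r' →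
    Am (3 / 2) b r ≤ C * (ms b * Real.exp (-(3 / 2 * r')) + (1 + (r' - r)) * √(Su b)) := by
  refine ⟨5 * 512, by norm_num, ?_⟩
  intro b hb r r' hr
  obtain ⟨-, h1⟩ := ToolA_Su hb
  have h2 := Pool.Agent.H12.DA.tool1 hb (m := 3 / 2) (by norm_num) r r'
  have h3 : |r - r'| = r' - r := by
    rw [abs_of_nonpos (by linarith)]
    ring
  rw [h3] at h2
  have hm : 0 ≤ ms b := Pool.Agent.H44.DE.SAbs_ms_nonneg hb
  have h4 : 0 ≤ ms b * Real.exp (-(3 / 2 * r')) := mul_nonneg hm (Real.exp_pos _).le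
  have h5 : 0 ≤ 1 + (r' - r) := by linarith
  have h6 := mul_le_mul_of_nonneg_left h1 h5
  have h7 : 0 ≤ √(Pool.Agent.H44.DA.Sur (3 / 2) b) := Real.sqrt_nonneg _
  have h8 : (0:ℝ) ≤ ms b * Real.exp (-(3 / 2 * r')) +
      2 * (1 + (r' - r)) * √(Pool.Agent.H44.DA.Sur (3 / 2) b) := by
    have := mul_nonneg h5 h7
    linarith
  have h9 := mul_le_mul_of_nonneg_right Pool.Agent.H12.DA.exp_32 h8
  have h10 : Am (3 / 2) b r ≤ 5 * (ms b * Real.exp (-(3 / 2 * r')) +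
      2 * (1 + (r' - r)) * √(Pool.Agent.H44.DA.Sur (3 / 2) b)) := h2.trans h9
  linarith

theorem T2 : ∃ C : ℝ, 0 ≤ C ∧ ∀ b : ℝ → ℝ, Bd b → ∀ R : ℝ, 0 < R →
    vs b ≤ C * (ms b * R + √(Su b) / √R) := by
  refine ⟨160 * 256, by norm_num, ?_⟩
  intro b hb R hR
  obtain ⟨-, h1⟩ := ToolA_Su hb
  have h2 : vs b ≤ 81 * (ms b * R) + 160 * (√(Pool.Agent.H44.DA.Sur (3 / 2) b) / √R) :=
    Pool.Agent.H12.DA.tool2 hb hR
  have hm : 0 ≤ ms b := Pool.Agent.H44.DE.SAbs_ms_nonneg hb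
  have h3 : 0 ≤ ms b * R := mul_nonneg hm hR.le
  have h4 : √(Pool.Agent.H44.DA.Sur (3 / 2) b) / √R ≤ 256 * √(Su b) / √R :=
    div_le_div_of_nonneg_right h1 (Real.sqrt_nonneg _)
  have h5 : 256 * √(Su b) / √R = 256 * (√(Su b) / √R) := by ring
  rw [h5] at h4
  linarith

theorem T3 : ∃ C : ℝ, 0 ≤ C ∧ ∀ b : ℝ → ℝ, Bd b → ∀ ℓ : ℝ, 0 < ℓ →
    (∀ x ∈ Ioo (0:ℝ) π, ct x < ℓ → b x = 0) →
    ms b ^ 2 * ℓ ^ 3 ≤ C * Su b ∧ vs b ^ 2 * ℓ ≤ C * Su b := by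
  refine ⟨4000 ^ 2 * 65536, by norm_num, ?_⟩
  intro b hb ℓ hℓ hz
  have hSu := (ToolA_Su hb).1
  have hS := Pool.Agent.H12.DA.Sur_le hb (m := 3 / 2) (by norm_num)
  have hSn := Pool.Agent.H44.DA.Sur_nonneg (3 / 2) b
  have hS' : Pool.Agent.H44.DA.Sur (3 / 2) b ≤ 65536 * Su b := hS
  obtain ⟨r0, hr0⟩ : ∃ r0, r0 = -Real.log ℓ := ⟨_, rfl⟩
  have hth := th_mem r0
  have hct : ct (th r0) = ℓ := by
    rw [ct_th, hr0, neg_neg, Real.exp_log hℓ]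
  have hM : ms b = MMb b r0 := by
    unfold ms MMb
    have h2 : ∫ x in (th r0)..π, b x = 0 := by
      have h3 : ∫ x in (th r0)..π, b x = ∫ x in (th r0)..π, (0:ℝ) := by
        rw [intervalIntegral.integral_of_le hth.2.le, intervalIntegral.integral_of_le hth.2.le,
          integral_Ioc_eq_integral_Ioo, integral_Ioc_eq_integral_Ioo]
        refine setIntegral_congr_fun measurableSet_Ioo fun x hx => ?_
        refine hz x ⟨hth.1.trans hx.1, hx.2⟩ ?_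
        rw [← hct]
        exact ct_lt hth.1 hx.1 (by linarith [hx.2, Real.pi_pos])
      rw [h3]
      simp
    rw [← intervalIntegral.integral_add_adjacent_intervals (hb.c.intervalIntegrable 0 (th r0))
      (hb.c.intervalIntegrable (th r0) π), h2, add_zero]
  have hm : 0 ≤ ms b := Pool.Agent.H44.DE.SAbs_ms_nonneg hb
  have hMn : 0 ≤ MMb b r0 := NF_MMb_nonneg hb r0
  have e3 : Real.exp (-(3 * r0)) = ℓ ^ 3 := by
    rw [hr0, show -(3 * -Real.log ℓ) = ((3:ℕ):ℝ) * Real.log ℓ by push_cast; ring,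
      Real.exp_nat_mul, Real.exp_log hℓ]
  constructor
  · have h1 := Pool.Agent.H12.DA.tool3 hb (r0 := r0) (by
      have : Pool.Agent.H44.DE.ms b = ms b := rfl
      rw [this]
      linarith)
    rw [e3] at h1
    have h2 : ms b ^ 2 * ℓ ^ 3 ≤ 2200 * Pool.Agent.H44.DA.Sur (3 / 2) b := h1
    linarith
  · have h1 : vs b ≤ 4000 * (Real.exp (r0 / 2) * √(Pool.Agent.H44.DA.Sur (3 / 2) b)) :=
      Pool.Agent.H12.DA.tool3V hb hM
    have hv : 0 ≤ vs b := Pool.Agent.H12.DA.Vb_nn hb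
    have h2 := pow_le_pow_left₀ hv h1 2
    have h3 := mul_le_mul_of_nonneg_right h2 hℓ.le
    have e4 : Real.exp (r0 / 2) ^ 2 * ℓ = 1 := by
      rw [← Real.exp_nat_mul, hr0]
      push_cast
      rw [show (2:ℝ) * (-Real.log ℓ / 2) = -Real.log ℓ by ring, Real.exp_neg, Real.exp_log hℓ]
      exact inv_mul_cancel₀ hℓ.ne'
    have e5 : (4000 * (Real.exp (r0 / 2) * √(Pool.Agent.H44.DA.Sur (3 / 2) b))) ^ 2 * ℓ =
        4000 ^ 2 * (Real.exp (r0 / 2) ^ 2 * ℓ) * √(Pool.Agent.H44.DA.Sur (3 / 2) b) ^ 2 := by ring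
    rw [e5, e4, Real.sq_sqrt hSn] at h3
    linarith

end Pool.Agent.H53.DA
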